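import Mathlib

/-!
Pointwise bounds for the logarithmic drift of the ratios `Y / X` of consecutive modes
of the reduced system with variable scales.  Here `P, X, Y, Z` are four consecutive modes.
-/

namespace Pool.Agent.Run7.h407.G

/-- Upper bound for the numerator of the derivative of `Y / X`. -/
theorem drift_upper {Λ e₀ e₁ f₀ f₁ g₀ g₁ d₀ d₁ P X Y Z : ℝ}
    (he₀ : 0 ≤ e₀) (he₁ : 0 ≤ e₁) (hf₀ : 0 ≤ f₀) (hf₁ : 0 ≤ f₁) (hg₀ : 0 ≤ g₀) (hg₁ : 0 ≤ g₁)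
    (hf : f₀ * Λ ≤ 1 / 1000000) (hg : g₀ * Λ ^ 2 ≤ 1 / 10000) (hd : d₀ ≤ d₁)
    (hP : 0 ≤ P) (hX : 0 < X) (hY : 0 ≤ Y) (hZ : 0 ≤ Z) (hYX : Y ≤ 8 * Λ * X) :
    ((-d₁ * Y + X * Y + e₁ * X ^ 2 - f₁ * Y * Z - g₁ * Z ^ 2) * X
      - Y * (-d₀ * X + P * X + e₀ * P ^ 2 - f₀ * X * Y - g₀ * Y ^ 2)) / X ^ 2
      ≤ 1.01 * X * (Y / X + e₁) := by
  have hX2 : 0 < X ^ 2 := by positivity
  rw [div_le_iff₀ hX2]
  have e1 : 1.01 * X * (Y / X + e₁) * X ^ 2 = 1.01 * X ^ 2 * Y + 1.01 * e₁ * X ^ 3 := by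
    field_simp
  rw [e1]
  have h1 : f₀ * X * Y ^ 2 ≤ 8 / 1000000 * (X ^ 2 * Y) := by
    have h : f₀ * Y ≤ 8 / 1000000 * X := by
      calc f₀ * Y ≤ f₀ * (8 * Λ * X) := mul_le_mul_of_nonneg_left hYX hf₀
        _ = 8 * (f₀ * Λ) * X := by ring
        _ ≤ 8 * (1 / 1000000) * X := by
            apply mul_le_mul_of_nonneg_right _ hX.le
            linarith
        _ = _ := by ring
    calc f₀ * X * Y ^ 2 = (f₀ * Y) * (X * Y) := by ring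
      _ ≤ (8 / 1000000 * X) * (X * Y) := by
          apply mul_le_mul_of_nonneg_right h (by positivity)
      _ = _ := by ring
  have h2 : g₀ * Y ^ 3 ≤ 64 / 10000 * (X ^ 2 * Y) := by
    have h3 : Y ^ 2 ≤ (8 * Λ * X) ^ 2 := pow_le_pow_left₀ hY hYX 2
    have h4 : g₀ * Y ^ 2 ≤ 64 / 10000 * X ^ 2 := by
      calc g₀ * Y ^ 2 ≤ g₀ * (8 * Λ * X) ^ 2 := mul_le_mul_of_nonneg_left h3 hg₀
        _ = 64 * (g₀ * Λ ^ 2) * X ^ 2 := by ring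
        _ ≤ 64 * (1 / 10000) * X ^ 2 := by
            apply mul_le_mul_of_nonneg_right _ hX2.le
            linarith
        _ = _ := by ring
    calc g₀ * Y ^ 3 = (g₀ * Y ^ 2) * Y := by ring
      _ ≤ (64 / 10000 * X ^ 2) * Y := mul_le_mul_of_nonneg_right h4 hY
      _ = _ := by ring
  have h5 : 0 ≤ (d₁ - d₀) * (X * Y) := mul_nonneg (by linarith) (by positivity)
  have h6 : 0 ≤ f₁ * X * Y * Z := by positivity
  have h7 : 0 ≤ g₁ * X * Z ^ 2 := by positivity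
  have h8 : 0 ≤ P * X * Y := by positivity
  have h9 : 0 ≤ e₀ * P ^ 2 * Y := by positivity
  have h10 : 0 ≤ e₁ * X ^ 3 := by positivity
  have e2 : (-d₁ * Y + X * Y + e₁ * X ^ 2 - f₁ * Y * Z - g₁ * Z ^ 2) * X
      - Y * (-d₀ * X + P * X + e₀ * P ^ 2 - f₀ * X * Y - g₀ * Y ^ 2)
      = -((d₁ - d₀) * (X * Y)) + X ^ 2 * Y + e₁ * X ^ 3 - f₁ * X * Y * Z
        - g₁ * X * Z ^ 2 - P * X * Y - e₀ * P ^ 2 * Y + f₀ * X * Y ^ 2 + g₀ * Y ^ 3 := by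
    ring
  rw [e2]
  have h11 : 0 ≤ X ^ 2 * Y := by positivity
  linarith

/-- Lower bound for the derivative of `Y / X` while the next mode `Z` is small and the
mode `X` is fully developed. -/
theorem drift_lower {Λ e₀ e₁ f₀ f₁ g₀ g₁ d₀ d₁ P X Y Z : ℝ}
    (he₀ : 0 ≤ e₀) (he₀' : e₀ ≤ 1 / 1000) (he₁ : 0 ≤ e₁) (hf₀ : 0 ≤ f₀) (hf₁ : 0 ≤ f₁)
    (hg₀ : 0 ≤ g₀) (hg₁ : 0 ≤ g₁)
    (hf : f₁ * Λ ≤ 1 / 1000000) (hg : g₁ * Λ ≤ 1) (hd₀ : 0 ≤ d₀)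
    (hP : 0 ≤ P) (hX : 0 < X) (hY : 0 < Y) (hZ : 0 ≤ Z) (hYX : Y ≤ 8 * Λ * X)
    (hd₁ : d₁ ≤ X / 100) (hPX : P ≤ X / 1000) (hZY : Z ≤ Y / 100) :
    0.97 * X * (Y / X + e₁) ≤
    ((-d₁ * Y + X * Y + e₁ * X ^ 2 - f₁ * Y * Z - g₁ * Z ^ 2) * X
      - Y * (-d₀ * X + P * X + e₀ * P ^ 2 - f₀ * X * Y - g₀ * Y ^ 2)) / X ^ 2 := by
  have hX2 : 0 < X ^ 2 := by positivity
  rw [le_div_iff₀ hX2]
  have e1 : 0.97 * X * (Y / X + e₁) * X ^ 2 = 0.97 * X ^ 2 * Y + 0.97 * e₁ * X ^ 3 := by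
    field_simp
  rw [e1]
  have h1 : f₁ * X * Y * Z ≤ 8 / 1000000 * (X ^ 2 * Y) := by
    have hZ8 : Z ≤ 8 * Λ * X := by linarith
    have h : f₁ * Z ≤ 8 / 1000000 * X := by
      calc f₁ * Z ≤ f₁ * (8 * Λ * X) := mul_le_mul_of_nonneg_left hZ8 hf₁
        _ = 8 * (f₁ * Λ) * X := by ring
        _ ≤ 8 * (1 / 1000000) * X := by
            apply mul_le_mul_of_nonneg_right _ hX.le
            linarith
        _ = _ := by ring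
    calc f₁ * X * Y * Z = (f₁ * Z) * (X * Y) := by ring
      _ ≤ (8 / 1000000 * X) * (X * Y) := by
          apply mul_le_mul_of_nonneg_right h (by positivity)
      _ = _ := by ring
  have h2 : g₁ * X * Z ^ 2 ≤ 1 / 1000 * (X ^ 2 * Y) := by
    have h4 : Z ^ 2 ≤ (Y / 100) ^ 2 := pow_le_pow_left₀ hZ hZY 2
    have h5 : g₁ * Y ≤ 8 * X := by
      calc g₁ * Y ≤ g₁ * (8 * Λ * X) := mul_le_mul_of_nonneg_left hYX hg₁
        _ = 8 * (g₁ * Λ) * X := by ring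
        _ ≤ 8 * 1 * X := by
            apply mul_le_mul_of_nonneg_right _ hX.le
            linarith
        _ = _ := by ring
    calc g₁ * X * Z ^ 2 ≤ g₁ * X * (Y / 100) ^ 2 :=
            mul_le_mul_of_nonneg_left h4 (by positivity)
      _ = (1 / 10000) * (X * Y) * (g₁ * Y) := by ring
      _ ≤ (1 / 10000) * (X * Y) * (8 * X) := by
            apply mul_le_mul_of_nonneg_left h5 (by positivity)
      _ ≤ _ := by nlinarith [mul_pos (mul_pos hX hX) hY]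
  have h3 : d₁ * (X * Y) ≤ 1 / 100 * (X ^ 2 * Y) := by nlinarith [mul_pos hX hY]
  have h4 : P * X * Y ≤ 1 / 1000 * (X ^ 2 * Y) := by
    have := mul_le_mul_of_nonneg_right hPX (mul_pos hX hY).le
    nlinarith
  have h5 : e₀ * P ^ 2 * Y ≤ 1 / 1000 * (X ^ 2 * Y) := by
    have hP2 : P ^ 2 ≤ X ^ 2 := by
      apply pow_le_pow_left₀ hP
      linarith
    have : e₀ * P ^ 2 ≤ 1 / 1000 * X ^ 2 := by
      apply mul_le_mul he₀' hP2 (by positivity) (by positivity)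
    calc e₀ * P ^ 2 * Y ≤ (1 / 1000 * X ^ 2) * Y := mul_le_mul_of_nonneg_right this hY.le
      _ = _ := by ring
  have h6 : 0 ≤ d₀ * (X * Y) := by positivity
  have h7 : 0 ≤ f₀ * X * Y ^ 2 := by positivity
  have h8 : 0 ≤ g₀ * Y ^ 3 := by positivity
  have h10 : 0 ≤ e₁ * X ^ 3 := by positivity
  have e2 : (-d₁ * Y + X * Y + e₁ * X ^ 2 - f₁ * Y * Z - g₁ * Z ^ 2) * X
      - Y * (-d₀ * X + P * X + e₀ * P ^ 2 - f₀ * X * Y - g₀ * Y ^ 2)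
      = -(d₁ * (X * Y)) + d₀ * (X * Y) + X ^ 2 * Y + e₁ * X ^ 3 - f₁ * X * Y * Z
        - g₁ * X * Z ^ 2 - P * X * Y - e₀ * P ^ 2 * Y + f₀ * X * Y ^ 2 + g₀ * Y ^ 3 := by
    ring
  rw [e2]
  have h11 : 0 ≤ X ^ 2 * Y := by positivity
  linarith

/-- Lower bound for the derivative of `Y / X` once `X` is fully developed, when the next mode
is possibly large: only the loss to `Z` counts. -/
theorem drift_keep {Λ e₀ e₁ f₀ f₁ g₀ g₁ d₀ d₁ P X Y Z : ℝ}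
    (he₀ : 0 ≤ e₀) (he₀' : e₀ ≤ 1 / 1000) (he₁ : 0 ≤ e₁) (hf₀ : 0 ≤ f₀) (hf₁ : 0 ≤ f₁)
    (hg₀ : 0 ≤ g₀) (hg₁ : 0 ≤ g₁) (hd₀ : 0 ≤ d₀)
    (hP : 0 ≤ P) (hX : 0 < X) (hY : 0 < Y) (hZ : 0 ≤ Z) (hZY : Z ≤ 8 * Λ * Y)
    (hd₁ : d₁ ≤ X / 100) (hPX : P ≤ X / 1000) :
    -(Y / X) * ((f₁ + 8 * Λ * g₁) * Z) ≤
    ((-d₁ * Y + X * Y + e₁ * X ^ 2 - f₁ * Y * Z - g₁ * Z ^ 2) * X
      - Y * (-d₀ * X + P * X + e₀ * P ^ 2 - f₀ * X * Y - g₀ * Y ^ 2)) / X ^ 2 := by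
  have hX2 : 0 < X ^ 2 := by positivity
  rw [le_div_iff₀ hX2]
  have e1 : -(Y / X) * ((f₁ + 8 * Λ * g₁) * Z) * X ^ 2 = -((f₁ + 8 * Λ * g₁) * (X * Y * Z)) := by
    field_simp
  rw [e1]
  have h2 : g₁ * X * Z ^ 2 ≤ 8 * Λ * g₁ * (X * Y * Z) := by
    have h : X * Z ^ 2 ≤ 8 * Λ * (X * Y * Z) := by
      have := mul_le_mul_of_nonneg_right hZY (show 0 ≤ X * Z by positivity)
      nlinarith
    calc g₁ * X * Z ^ 2 = g₁ * (X * Z ^ 2) := by ring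
      _ ≤ g₁ * (8 * Λ * (X * Y * Z)) := mul_le_mul_of_nonneg_left h hg₁
      _ = _ := by ring
  have h3 : d₁ * (X * Y) ≤ 1 / 100 * (X ^ 2 * Y) := by nlinarith [mul_pos hX hY]
  have h4 : P * X * Y ≤ 1 / 1000 * (X ^ 2 * Y) := by
    have := mul_le_mul_of_nonneg_right hPX (mul_pos hX hY).le
    nlinarith
  have h5 : e₀ * P ^ 2 * Y ≤ 1 / 1000 * (X ^ 2 * Y) := by
    have hP2 : P ^ 2 ≤ X ^ 2 := by
      apply pow_le_pow_left₀ hP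
      linarith
    have : e₀ * P ^ 2 ≤ 1 / 1000 * X ^ 2 := by
      apply mul_le_mul he₀' hP2 (by positivity) (by positivity)
    calc e₀ * P ^ 2 * Y ≤ (1 / 1000 * X ^ 2) * Y := mul_le_mul_of_nonneg_right this hY.le
      _ = _ := by ring
  have h6 : 0 ≤ d₀ * (X * Y) := by positivity
  have h7 : 0 ≤ f₀ * X * Y ^ 2 := by positivity
  have h8 : 0 ≤ g₀ * Y ^ 3 := by positivity
  have h10 : 0 ≤ e₁ * X ^ 3 := by positivity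
  have e2 : (-d₁ * Y + X * Y + e₁ * X ^ 2 - f₁ * Y * Z - g₁ * Z ^ 2) * X
      - Y * (-d₀ * X + P * X + e₀ * P ^ 2 - f₀ * X * Y - g₀ * Y ^ 2)
      = -(d₁ * (X * Y)) + d₀ * (X * Y) + X ^ 2 * Y + e₁ * X ^ 3 - f₁ * X * Y * Z
        - g₁ * X * Z ^ 2 - P * X * Y - e₀ * P ^ 2 * Y + f₀ * X * Y ^ 2 + g₀ * Y ^ 3 := by
    ring
  rw [e2]
  have h11 : 0 ≤ X ^ 2 * Y := by positivity
  have e3 : (f₁ + 8 * Λ * g₁) * (X * Y * Z) = f₁ * X * Y * Z + 8 * Λ * g₁ * (X * Y * Z) := by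
    ring
  linarith

end Pool.Agent.Run7.h407.G
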