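import Mathlib
import Pool.Agent.Run7.h407.Mono
import Pool.Agent.Run7.h407.G.Drift

/-!
A priori estimates for the (truncated) reduced system with variable scales
`A (i+1)' = -d i * A (i+1) + A i * A (i+1) + e i * A i ^ 2 - f i * A (i+1) * A (i+2)
  - g i * A (i+2) ^ 2`, with `f i = g i * e (i+1)`, `0 ≤ i ≤ N`, `A 0 = 0`, `A (N+2) = 0`.
-/

namespace Pool.Agent.Run7.h407.G

open Set Filter Topology

/-- Parameters of the reduced system, with the inequalities used in the analysis. -/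
structure Par where
  Λ : ℕ → ℝ
  e : ℕ → ℝ
  g : ℕ → ℝ
  d : ℕ → ℝ
  a0 : ℝ
  hΛ : ∀ i, 1000 ≤ Λ i
  hmono : ∀ i, Λ i ≤ Λ (i + 1)
  he : ∀ i, 0 < e i
  he' : ∀ i, e i ≤ 1 / 1000000
  hg : ∀ i, 0 < g i
  hg' : ∀ i, g i * Λ (i + 1) ^ 2 ≤ 1 / 10000
  hd : ∀ i, 0 ≤ d i
  hdm : ∀ i, d i ≤ d (i + 1)
  ha0 : 0 < a0
  hda0 : 200 * d 0 * Λ 0 ≤ a0
  hda : ∀ k, 200 * d (k + 1) ≤ a0 * ∏ i ∈ Finset.range k, Λ (i + 1)
  hexp1 : ∀ i, 2 * Λ (i + 1) + e (i + 1) ≤ e (i + 1) * Real.exp (4 * Λ i)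
  hexp2 : ∀ i, 4 * e (i + 1) * Real.exp (2.3 * Λ i) ≤ 1 / 100

namespace Par

variable (p : Par)

/-- The coefficient of the small loss term. -/
noncomputable def f (i : ℕ) : ℝ := p.g i * p.e (i + 1)

/-- The product of the ratios. -/
noncomputable def PL (k : ℕ) : ℝ := ∏ i ∈ Finset.range k, p.Λ (i + 1)

/-- The time interval on which the truncated systems are considered. -/
noncomputable def T : ℝ := 10 * p.Λ 0 / p.a0

theorem Λpos (i : ℕ) : 0 < p.Λ i := by linarith [p.hΛ i]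

theorem f_pos (i : ℕ) : 0 < p.f i := mul_pos (p.hg i) (p.he _)

theorem Tpos : 0 < p.T := by
  have := p.Λpos 0
  have := p.ha0
  unfold T
  positivity

theorem PL_zero : p.PL 0 = 1 := by simp [PL]

theorem PL_succ (k : ℕ) : p.PL (k + 1) = p.Λ (k + 1) * p.PL k := by
  unfold PL
  rw [Finset.prod_range_succ]
  ring

theorem PL_pos (k : ℕ) : 0 < p.PL k := Finset.prod_pos fun i _ => p.Λpos _

theorem gΛ (i : ℕ) : p.g i * p.Λ (i + 1) ≤ 1 / 10000000 := by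
  have h1 := p.hg' i
  have h2 := p.hΛ (i + 1)
  have h3 := p.hg i
  have h4 := p.Λpos (i + 1)
  have h5 : 0 < p.g i * p.Λ (i + 1) := mul_pos h3 h4
  nlinarith

theorem fΛ (i : ℕ) : p.f i * p.Λ (i + 1) ≤ 1 / 1000000 := by
  have h1 := p.gΛ i
  have h2 := p.he' (i + 1)
  have h3 := p.he (i + 1)
  have h5 : 0 < p.g i * p.Λ (i + 1) := mul_pos (p.hg i) (p.Λpos _)
  have e : p.f i * p.Λ (i + 1) = (p.g i * p.Λ (i + 1)) * p.e (i + 1) := by
    unfold f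
    ring
  rw [e]
  nlinarith

theorem gΛ' (i : ℕ) : p.g i * p.Λ i ≤ 1 := by
  have h1 := p.gΛ i
  have h2 := mul_le_mul_of_nonneg_left (p.hmono i) (p.hg i).le
  linarith

theorem fΛ' (i : ℕ) : p.f i * p.Λ i ≤ 1 / 1000000 := by
  have h1 := p.fΛ i
  have h2 := mul_le_mul_of_nonneg_left (p.hmono i) (p.f_pos i).le
  linarith

theorem e_small (i : ℕ) : p.e i ≤ 1 / 1000 := by linarith [p.he' i]

theorem dmono (i : ℕ) : p.d 0 ≤ p.d i := by
  induction i with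
  | zero => exact le_rfl
  | succ i ih => exact ih.trans (p.hdm i)

/-- The loss coefficient. -/
noncomputable def ℓ (i : ℕ) : ℝ := p.f i + 8 * p.Λ (i + 1) * p.g i

theorem ℓ_pos (i : ℕ) : 0 < p.ℓ i := by
  have := p.f_pos i
  have := p.hg i
  have := p.Λpos (i + 1)
  unfold ℓ
  positivity

theorem ℓ_small (i : ℕ) : p.ℓ i * (6.6 * p.Λ (i + 1)) ≤ 1 / 100 := by
  have h1 := p.hg' i
  have h2 := p.fΛ i
  have e : p.ℓ i * (6.6 * p.Λ (i + 1))
      = 6.6 * (p.f i * p.Λ (i + 1)) + 52.8 * (p.g i * p.Λ (i + 1) ^ 2) := by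
    unfold ℓ
    ring
  rw [e]
  linarith

end Par

/-- Right-hand side of the `i`-th equation. -/
noncomputable def rhs (p : Par) (A : ℕ → ℝ → ℝ) (i : ℕ) (t : ℝ) : ℝ :=
  -(p.d i) * A (i + 1) t + A i t * A (i + 1) t + p.e i * A i t ^ 2
    - p.f i * A (i + 1) t * A (i + 2) t - p.g i * A (i + 2) t ^ 2

/-- Solutions of the truncated system together with the primitives `Φ j` of `A j`. -/
structure TSys (p : Par) (N : ℕ) (A Φ : ℕ → ℝ → ℝ) : Prop where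
  zero : ∀ t, A 0 t = 0
  top : ∀ j t, N + 2 ≤ j → A j t = 0
  ode : ∀ i ≤ N, ∀ t ∈ Icc 0 p.T, HasDerivAt (A (i + 1)) (rhs p A i t) t
  phi : ∀ j, ∀ t ∈ Icc 0 p.T, HasDerivAt (Φ j) (A j t) t
  phi0 : ∀ j, Φ j 0 = 0
  init0 : A 1 0 = p.a0
  initp : ∀ i ≤ N, 0 < A (i + 1) 0
  initq : ∀ k, A (k + 2) 0 ≤ p.e (k + 1) * (1 / 100) ^ k * A (k + 1) 0

/-- The first time at which `A (i+1) ≥ 2 Λ i A i` (or `T` if there is none). -/
noncomputable def tau (p : Par) (A : ℕ → ℝ → ℝ) (i : ℕ) : ℝ :=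
  sInf ({r | r ∈ Icc 0 p.T ∧ 2 * p.Λ i * A i r ≤ A (i + 1) r} ∪ {p.T})

namespace TSys

variable {p : Par} {N : ℕ} {A Φ : ℕ → ℝ → ℝ}

theorem cont (h : TSys p N A Φ) (j : ℕ) : ContinuousOn (A j) (Icc 0 p.T) := by
  rcases Nat.eq_zero_or_pos j with hj | hj
  · subst hj
    have : A 0 = fun _ => 0 := funext h.zero
    rw [this]
    exact continuousOn_const
  · obtain ⟨i, rfl⟩ : ∃ i, j = i + 1 := ⟨j - 1, by omega⟩
    by_cases hi : i ≤ N
    · intro x hx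
      exact (h.ode i hi x hx).continuousAt.continuousWithinAt
    · have : A (i + 1) = fun _ => 0 := funext fun t => h.top (i + 1) t (by omega)
      rw [this]
      exact continuousOn_const

theorem tau_set_closed (h : TSys p N A Φ) (i : ℕ) :
    IsClosed ({r | r ∈ Icc 0 p.T ∧ 2 * p.Λ i * A i r ≤ A (i + 1) r} ∪ {p.T}) := by
  apply IsClosed.union _ isClosed_singleton
  exact isClosed_Icc.isClosed_le (continuousOn_const.mul (h.cont i)) (h.cont (i + 1))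

theorem tau_bdd (i : ℕ) :
    BddBelow ({r | r ∈ Icc 0 p.T ∧ 2 * p.Λ i * A i r ≤ A (i + 1) r} ∪ {p.T}) := by
  refine ⟨0, ?_⟩
  rintro r (hr | hr)
  · exact hr.1.1
  · rw [mem_singleton_iff.1 hr]
    exact p.Tpos.le

theorem tau_nonneg (i : ℕ) : 0 ≤ tau p A i := by
  apply le_csInf ⟨p.T, Or.inr rfl⟩
  rintro r (hr | hr)
  · exact hr.1.1
  · rw [mem_singleton_iff.1 hr]
    exact p.Tpos.le

theorem tau_le (i : ℕ) : tau p A i ≤ p.T :=
  csInf_le (tau_bdd i) (Or.inr rfl)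

theorem lt_of_lt_tau {i : ℕ} {r : ℝ} (hr : 0 ≤ r) (hrt : r < tau p A i) :
    A (i + 1) r < 2 * p.Λ i * A i r := by
  by_contra hcon
  push Not at hcon
  have : tau p A i ≤ r :=
    csInf_le (tau_bdd i) (Or.inl ⟨⟨hr, (hrt.trans_le (tau_le i)).le⟩, hcon⟩)
  linarith

theorem tau_att (h : TSys p N A Φ) {i : ℕ} (hi : tau p A i < p.T) :
    2 * p.Λ i * A i (tau p A i) ≤ A (i + 1) (tau p A i) := by
  have hmem := (h.tau_set_closed i).csInf_mem ⟨p.T, Or.inr rfl⟩ (tau_bdd i)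
  rcases hmem with hm | hm
  · exact hm.2
  · exact absurd (mem_singleton_iff.1 hm) hi.ne

theorem tau_zero (h : TSys p N A Φ) : tau p A 0 = 0 := by
  apply le_antisymm _ (tau_nonneg 0)
  apply csInf_le (tau_bdd 0)
  left
  refine ⟨⟨le_rfl, p.Tpos.le⟩, ?_⟩
  rw [h.zero, mul_zero]
  exact (h.initp 0 (Nat.zero_le _)).le

end TSys

/-- The facts that hold up to time `t` and drive the bootstrap. -/
structure Reg (p : Par) (N : ℕ) (A : ℕ → ℝ → ℝ) (t : ℝ) : Prop where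
  t0 : 0 ≤ t
  tT : t ≤ p.T
  pos : ∀ s ∈ Icc 0 t, ∀ i ≤ N, 0 < A (i + 1) s
  low : ∀ s ∈ Icc 0 t, ∀ i ≤ N, tau p A i < s → p.Λ i * A i s ≤ A (i + 1) s
  up : ∀ s ∈ Icc 0 t, ∀ k, A (k + 2) s ≤ 8 * p.Λ (k + 1) * A (k + 1) s
  tail : ∀ s ∈ Icc 0 t, ∀ k, s < tau p A k → A (k + 2) s ≤ 1 / 100 * A (k + 1) s
  a0 : ∀ s ∈ Icc 0 t, p.a0 / 2 ≤ A 1 s

namespace Reg

variable {p : Par} {N : ℕ} {A Φ : ℕ → ℝ → ℝ} {t : ℝ}

theorem nonneg (h : TSys p N A Φ) (hR : Reg p N A t) {s : ℝ} (hs : s ∈ Icc 0 t) (j : ℕ) :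
    0 ≤ A j s := by
  rcases Nat.eq_zero_or_pos j with hj | hj
  · subst hj
    rw [h.zero]
  · obtain ⟨i, rfl⟩ : ∃ i, j = i + 1 := ⟨j - 1, by omega⟩
    by_cases hi : i ≤ N
    · exact (hR.pos s hs i hi).le
    · rw [h.top (i + 1) s (by omega)]

theorem memT (hR : Reg p N A t) {s : ℝ} (hs : s ∈ Icc 0 t) : s ∈ Icc 0 p.T :=
  ⟨hs.1, hs.2.trans hR.tT⟩

theorem tau_le_succ' (h : TSys p N A Φ) (hR : Reg p N A t) {i : ℕ} (hi : i + 1 ≤ N)
    (hts : tau p A (i + 1) ≤ t) : tau p A i ≤ tau p A (i + 1) := by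
  by_contra hcon
  push Not at hcon
  have hr : tau p A (i + 1) ∈ Icc 0 t := ⟨TSys.tau_nonneg _, hts⟩
  have h1 := hR.tail _ hr i hcon
  have h2 := h.tau_att (i := i + 1) (hcon.trans_le (TSys.tau_le i))
  have h3 := hR.pos _ hr i (by omega)
  have h4 := p.hΛ (i + 1)
  nlinarith

theorem tau_le_succ (h : TSys p N A Φ) (hR : Reg p N A t) {i : ℕ} (hi : i + 1 ≤ N) {s : ℝ}
    (hs : s ∈ Icc 0 t) (hts : tau p A (i + 1) < s) : tau p A i ≤ tau p A (i + 1) :=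
  tau_le_succ' h hR hi (hts.le.trans hs.2)

theorem tau_lt_of (h : TSys p N A Φ) (hR : Reg p N A t) {i : ℕ} (hi : i + 1 ≤ N) {s : ℝ}
    (hs : s ∈ Icc 0 t) (hts : tau p A (i + 1) < s) : tau p A i < s :=
  (tau_le_succ h hR hi hs hts).trans_lt hts

theorem size (h : TSys p N A Φ) (hR : Reg p N A t) {j : ℕ} (hj : j ≤ N) {s : ℝ}
    (hs : s ∈ Icc 0 t) (hts : tau p A j < s) : p.a0 / 2 * p.PL j ≤ A (j + 1) s := by
  induction j with
  | zero =>
    rw [p.PL_zero, mul_one]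
    exact hR.a0 s hs
  | succ j ih =>
    have h1 := ih (by omega) (tau_lt_of h hR hj hs hts)
    have h2 := hR.low s hs (j + 1) hj hts
    calc p.a0 / 2 * p.PL (j + 1) = p.Λ (j + 1) * (p.a0 / 2 * p.PL j) := by
          rw [p.PL_succ]
          ring
      _ ≤ p.Λ (j + 1) * A (j + 1) s := mul_le_mul_of_nonneg_left h1 (p.Λpos _).le
      _ ≤ _ := h2

theorem bracket (h : TSys p N A Φ) (hR : Reg p N A t) {k : ℕ} (hk : k ≤ N) {s : ℝ}
    (hs : s ∈ Icc 0 t) (hts : tau p A k < s) :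
    p.d (k + 1) ≤ A (k + 1) s / 100 ∧ A k s ≤ A (k + 1) s / 1000 := by
  have h1 := size h hR hk hs hts
  have h2 := hR.low s hs k hk hts
  have h3 := p.hΛ k
  have h4 := p.hda k
  have h5 : 0 < p.PL k := p.PL_pos k
  constructor
  · change 200 * p.d (k + 1) ≤ p.a0 * p.PL k at h4
    linarith
  · have := nonneg h hR hs k
    nlinarith

/-- Derivative of the ratio of two consecutive modes. -/
theorem ratio_deriv (h : TSys p N A Φ) (hR : Reg p N A t) {k : ℕ} (hk : k + 1 ≤ N) {s : ℝ}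
    (hs : s ∈ Icc 0 t) :
    HasDerivAt (fun r => A (k + 2) r / A (k + 1) r)
      ((rhs p A (k + 1) s * A (k + 1) s - A (k + 2) s * rhs p A k s) / A (k + 1) s ^ 2) s :=
  (h.ode (k + 1) hk s (hR.memT hs)).div (h.ode k (by omega) s (hR.memT hs))
    (hR.pos s hs k (by omega)).ne'

theorem ratio_upper (h : TSys p N A Φ) (hR : Reg p N A t) {k : ℕ} (hk : k + 1 ≤ N) {s : ℝ}
    (hs : s ∈ Icc 0 t) :
    (rhs p A (k + 1) s * A (k + 1) s - A (k + 2) s * rhs p A k s) / A (k + 1) s ^ 2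
      ≤ 1.01 * A (k + 1) s * (A (k + 2) s / A (k + 1) s + p.e (k + 1)) := by
  unfold rhs
  exact drift_upper (Λ := p.Λ (k + 1)) (p.he _).le (p.he _).le (p.f_pos _).le (p.f_pos _).le
    (p.hg _).le (p.hg _).le (p.fΛ k) (p.hg' k) (p.hdm k) (nonneg h hR hs _)
    (hR.pos s hs k (by omega)) (nonneg h hR hs _) (nonneg h hR hs _) (hR.up s hs k)

theorem ratio_lower (h : TSys p N A Φ) (hR : Reg p N A t) {k : ℕ} (hk : k + 1 ≤ N) {s : ℝ}
    (hs : s ∈ Icc 0 t) (h1 : tau p A k < s) (h2 : s < tau p A (k + 1)) :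
    0.97 * A (k + 1) s * (A (k + 2) s / A (k + 1) s + p.e (k + 1)) ≤
    (rhs p A (k + 1) s * A (k + 1) s - A (k + 2) s * rhs p A k s) / A (k + 1) s ^ 2 := by
  have hb := bracket h hR (k := k) (by omega) hs h1
  unfold rhs
  have ht : A (k + 3) s ≤ A (k + 2) s / 100 := by
    have := hR.tail s hs (k + 1) h2
    simpa [div_eq_inv_mul] using this
  exact drift_lower (Λ := p.Λ (k + 1)) (p.he _).le (p.e_small _) (p.he _).le (p.f_pos _).le
    (p.f_pos _).le (p.hg _).le (p.hg _).le (p.fΛ' (k + 1)) (p.gΛ' (k + 1)) (p.hd k)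
    (nonneg h hR hs _) (hR.pos s hs k (by omega)) (hR.pos s hs (k + 1) hk)
    (nonneg h hR hs _) (hR.up s hs k) hb.1 hb.2 ht

theorem ratio_keep (h : TSys p N A Φ) (hR : Reg p N A t) {k : ℕ} (hk : k + 1 ≤ N) {s : ℝ}
    (hs : s ∈ Icc 0 t) (h1 : tau p A k < s) :
    -(A (k + 2) s / A (k + 1) s) * (p.ℓ (k + 1) * A (k + 3) s) ≤
    (rhs p A (k + 1) s * A (k + 1) s - A (k + 2) s * rhs p A k s) / A (k + 1) s ^ 2 := by
  have hb := bracket h hR (k := k) (by omega) hs h1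
  unfold rhs
  exact drift_keep (Λ := p.Λ (k + 2)) (p.he _).le (p.e_small _) (p.he _).le (p.f_pos _).le
    (p.f_pos _).le (p.hg _).le (p.hg _).le (p.hd k)
    (nonneg h hR hs _) (hR.pos s hs k (by omega))
    (hR.pos s hs (k + 1) hk) (nonneg h hR hs _) (hR.up s hs (k + 1)) hb.1 hb.2

end Reg

end Pool.Agent.Run7.h407.G
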