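import Mathlib
import Pool.Agent.Run7.h407.G.Apriori

/-!
Integrated a priori estimates for the truncated reduced system.
-/

namespace Pool.Agent.Run7.h407.G

open Set Filter Topology

namespace Reg

variable {p : Par} {N : ℕ} {A Φ : ℕ → ℝ → ℝ} {t : ℝ}

theorem le_at_tau (h : TSys p N A Φ) (hR : Reg p N A t) {k : ℕ} {s : ℝ}
    (hs : s ∈ Icc 0 t) (hst : s ≤ tau p A (k + 1)) :
    A (k + 2) s ≤ 2 * p.Λ (k + 1) * A (k + 1) s := by
  rcases hst.lt_or_eq with hlt | heq
  · exact (TSys.lt_of_lt_tau hs.1 hlt).le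
  · rcases hs.1.lt_or_eq with h0 | h0
    · have hsub : Icc 0 s ⊆ Icc 0 p.T := Icc_subset_Icc_right (hR.memT hs).2
      apply closed_at_end h0 ((h.cont (k + 2)).mono hsub)
        ((continuousOn_const.mul (h.cont (k + 1))).mono hsub)
      intro x hx
      exact (TSys.lt_of_lt_tau hx.1 (hx.2.trans_le hst)).le
    · rw [← h0]
      have h1 := h.initq k
      have h2 : 0 ≤ A (k + 1) 0 := nonneg h hR ⟨le_rfl, hR.t0⟩ _
      have h3 : p.e (k + 1) * (1 / 100) ^ k ≤ 1 := by
        have : ((1 : ℝ) / 100) ^ k ≤ 1 := pow_le_one₀ (by norm_num) (by norm_num)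
        have h4 := p.e_small (k + 1)
        have h5 := p.he (k + 1)
        have h6 : (0 : ℝ) ≤ (1 / 100) ^ k := by positivity
        nlinarith
      have h4 := p.hΛ (k + 1)
      calc A (k + 2) 0 ≤ p.e (k + 1) * (1 / 100) ^ k * A (k + 1) 0 := h1
        _ ≤ 1 * A (k + 1) 0 := mul_le_mul_of_nonneg_right h3 h2
        _ ≤ _ := by nlinarith

theorem ratio_nonneg (h : TSys p N A Φ) (hR : Reg p N A t) (k : ℕ) {s : ℝ}
    (hs : s ∈ Icc 0 t) : 0 ≤ A (k + 2) s / A (k + 1) s :=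
  div_nonneg (nonneg h hR hs _) (nonneg h hR hs _)

theorem ratio_le_two (h : TSys p N A Φ) (hR : Reg p N A t) {k : ℕ} {s : ℝ} (hk : k ≤ N)
    (hs : s ∈ Icc 0 t) (hst : s ≤ tau p A (k + 1)) :
    A (k + 2) s / A (k + 1) s ≤ 2 * p.Λ (k + 1) := by
  rw [div_le_iff₀ (hR.pos s hs k hk)]
  exact le_at_tau h hR hs hst

theorem ratio0 (h : TSys p N A Φ) (hR : Reg p N A t) {k : ℕ} (hk : k ≤ N) :
    A (k + 2) 0 / A (k + 1) 0 ≤ p.e (k + 1) * (1 / 100) ^ k := by
  rw [div_le_iff₀ (hR.pos 0 ⟨le_rfl, hR.t0⟩ k hk)]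
  exact h.initq k

theorem ratio0' (h : TSys p N A Φ) (hR : Reg p N A t) {k : ℕ} (hk : k ≤ N) :
    A (k + 2) 0 / A (k + 1) 0 ≤ p.e (k + 1) := by
  refine (ratio0 h hR hk).trans ?_
  have : ((1 : ℝ) / 100) ^ k ≤ 1 := pow_le_one₀ (by norm_num) (by norm_num)
  have h5 := p.he (k + 1)
  nlinarith

/-- Growth of the front mode during its stage. -/
theorem growth_front (h : TSys p N A Φ) (hR : Reg p N A t) {k : ℕ} (hk : k + 1 ≤ N) {a b : ℝ}
    (ha : tau p A k ≤ a) (hab : a ≤ b) (hbt : b ≤ t) (hb : b ≤ tau p A (k + 1)) :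
    0.97 * (Φ (k + 2) b - Φ (k + 2) a) ≤ 2 * p.Λ (k + 1) := by
  have ha0 : 0 ≤ a := (TSys.tau_nonneg k).trans ha
  have hsub : ∀ x ∈ Icc a b, x ∈ Icc 0 t := fun x hx => ⟨ha0.trans hx.1, hx.2.trans hbt⟩
  have h1 := incr_le (f := fun x => 0.97 * Φ (k + 2) x) (f' := fun x => 0.97 * A (k + 2) x)
    (g := fun r => A (k + 2) r / A (k + 1) r)
    (g' := fun s => (rhs p A (k + 1) s * A (k + 1) s - A (k + 2) s * rhs p A k s)
      / A (k + 1) s ^ 2) hab
    (fun x hx => (h.phi _ x (hR.memT (hsub x hx))).const_mul _)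
    (fun x hx => ratio_deriv h hR hk (hsub x hx))
    (fun x hx => by
      have hx' := hsub x (Ioo_subset_Icc_self hx)
      refine le_trans ?_ (ratio_lower h hR hk hx' (lt_of_le_of_lt ha hx.1) (hx.2.trans_le hb))
      have hp := hR.pos x hx' k (by omega)
      have : 0.97 * A (k + 1) x * (A (k + 2) x / A (k + 1) x + p.e (k + 1))
          = 0.97 * A (k + 2) x + 0.97 * (A (k + 1) x * (p.e (k + 1))) := by
        field_simp
      rw [this]
      have := mul_pos hp (p.he (k + 1))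
      linarith)
  have h2 := ratio_le_two h hR (k := k) (by omega) (hsub b ⟨hab, le_rfl⟩) hb
  have h3 := ratio_nonneg h hR k (hsub a ⟨le_rfl, hab⟩)
  linarith

/-- Bound for the time integral of the driving mode during a stage. -/
theorem growth_driver (h : TSys p N A Φ) (hR : Reg p N A t) {k : ℕ} (hk : k + 1 ≤ N) {a b : ℝ}
    (ha : tau p A k ≤ a) (hab : a ≤ b) (hbt : b ≤ t) (hb : b ≤ tau p A (k + 1)) :
    Φ (k + 1) b - Φ (k + 1) a ≤ 4.13 * p.Λ k := by
  have ha0 : 0 ≤ a := (TSys.tau_nonneg k).trans ha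
  have hsub : ∀ x ∈ Icc a b, x ∈ Icc 0 t := fun x hx => ⟨ha0.trans hx.1, hx.2.trans hbt⟩
  have hεK := p.he (k + 1)
  have hrp : ∀ x ∈ Icc a b, 0 < A (k + 2) x / A (k + 1) x + p.e (k + 1) := fun x hx => by
    have := ratio_nonneg h hR k (hsub x hx)
    linarith
  have h1 := incr_le (f := fun x => 0.97 * Φ (k + 1) x) (f' := fun x => 0.97 * A (k + 1) x)
    (g := fun r => Real.log (A (k + 2) r / A (k + 1) r + p.e (k + 1)))
    (g' := fun s => (rhs p A (k + 1) s * A (k + 1) s - A (k + 2) s * rhs p A k s)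
      / A (k + 1) s ^ 2 / (A (k + 2) s / A (k + 1) s + p.e (k + 1))) hab
    (fun x hx => (h.phi _ x (hR.memT (hsub x hx))).const_mul _)
    (fun x hx => ((ratio_deriv h hR hk (hsub x hx)).add_const _).log (hrp x hx).ne')
    (fun x hx => by
      have hx' := hsub x (Ioo_subset_Icc_self hx)
      rw [le_div_iff₀ (hrp x (Ioo_subset_Icc_self hx))]
      exact ratio_lower h hR hk hx' (lt_of_le_of_lt ha hx.1) (hx.2.trans_le hb))
  have h2 := ratio_le_two h hR (k := k) (by omega) (hsub b ⟨hab, le_rfl⟩) hb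
  have h3 := ratio_nonneg h hR k (hsub a ⟨le_rfl, hab⟩)
  have h4 : Real.log (A (k + 2) b / A (k + 1) b + p.e (k + 1))
      ≤ Real.log (p.e (k + 1)) + 4 * p.Λ k := by
    rw [Real.log_le_iff_le_exp (hrp b ⟨hab, le_rfl⟩), Real.exp_add, Real.exp_log hεK]
    have := p.hexp1 k
    linarith
  have h5 : Real.log (p.e (k + 1)) ≤ Real.log (A (k + 2) a / A (k + 1) a + p.e (k + 1)) :=
    Real.log_le_log hεK (by linarith)
  have h6 := p.Λpos k
  linarith

/-- The primitives are nonnegative and increasing. -/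
theorem phi_mono (h : TSys p N A Φ) (hR : Reg p N A t) (j : ℕ) {a b : ℝ} (ha : 0 ≤ a)
    (hab : a ≤ b) (hb : b ≤ t) : Φ j a ≤ Φ j b := by
  have hsub : ∀ x ∈ Icc a b, x ∈ Icc 0 t := fun x hx => ⟨ha.trans hx.1, hx.2.trans hb⟩
  exact le_of_deriv_nonneg hab (fun x hx => h.phi j x (hR.memT (hsub x hx)))
    (fun x hx => nonneg h hR (hsub x (Ioo_subset_Icc_self hx)) j)

theorem phi_nonneg (h : TSys p N A Φ) (hR : Reg p N A t) (j : ℕ) {s : ℝ} (hs : s ∈ Icc 0 t) :
    0 ≤ Φ j s := by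
  have := phi_mono h hR j le_rfl hs.1 hs.2
  rwa [h.phi0] at this

/-- Before `tau k` the primitives decrease geometrically with the index. -/
theorem phi_tail_step (h : TSys p N A Φ) (hR : Reg p N A t) {k : ℕ} {s : ℝ}
    (hs : s ∈ Icc 0 t) (hst : s ≤ tau p A k) : Φ (k + 2) s ≤ 1 / 100 * Φ (k + 1) s := by
  have hsub : ∀ x ∈ Icc 0 s, x ∈ Icc 0 t := fun x hx => ⟨hx.1, hx.2.trans hs.2⟩
  have := incr_le (f := fun x => Φ (k + 2) x) (f' := fun x => A (k + 2) x)
    (g := fun x => 1 / 100 * Φ (k + 1) x) (g' := fun x => 1 / 100 * A (k + 1) x) hs.1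
    (fun x hx => h.phi _ x (hR.memT (hsub x hx)))
    (fun x hx => (h.phi _ x (hR.memT (hsub x hx))).const_mul _)
    (fun x hx => hR.tail x (hsub x (Ioo_subset_Icc_self hx)) k (hx.2.trans_le hst))
  simp only [h.phi0] at this
  linarith

theorem phi_small (h : TSys p N A Φ) (hR : Reg p N A t) {k : ℕ} (hk : k ≤ N) {s : ℝ}
    (hs : s ∈ Icc 0 t) (hst : s ≤ tau p A k) : Φ (k + 1) s ≤ 2.2 * p.Λ k := by
  induction k generalizing s with
  | zero =>
    rw [h.tau_zero] at hst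
    have : s = 0 := le_antisymm hst hs.1
    rw [this, h.phi0]
    have := p.Λpos 0
    positivity
  | succ k ih =>
    have hΛ := p.Λpos k
    have hm := p.hmono k
    rcases le_total s (tau p A k) with hc | hc
    · have h1 := phi_tail_step h hR hs hc
      have h2 := ih (by omega) hs hc
      linarith
    · have hk' : tau p A k ∈ Icc 0 t := ⟨TSys.tau_nonneg k, hc.trans hs.2⟩
      have h1 := phi_tail_step h hR hk' le_rfl
      have h2 := ih (by omega) hk' le_rfl
      have h3 := growth_front h hR hk le_rfl hc hs.2 hst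
      linarith

theorem phi_mid (h : TSys p N A Φ) (hR : Reg p N A t) {k : ℕ} (hk : k + 1 ≤ N) {s : ℝ}
    (hs : s ∈ Icc 0 t) (hst : s ≤ tau p A (k + 1)) : Φ (k + 1) s ≤ 6.33 * p.Λ k := by
  have hΛ := p.Λpos k
  rcases le_total s (tau p A k) with hc | hc
  · have := phi_small h hR (k := k) (by omega) hs hc
    linarith
  · have hk' : tau p A k ∈ Icc 0 t := ⟨TSys.tau_nonneg k, hc.trans hs.2⟩
    have h2 := phi_small h hR (k := k) (by omega) hk' le_rfl
    have h3 := growth_driver h hR hk le_rfl hc hs.2 hst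
    linarith

/-- After `tau (k+1)` the mode `k+1` integrates to little. -/
theorem phi_late (h : TSys p N A Φ) (hR : Reg p N A t) {k : ℕ} (hk : k + 1 ≤ N) {a b : ℝ}
    (ha : tau p A (k + 1) ≤ a) (hab : a ≤ b) (hbt : b ≤ t) :
    p.Λ (k + 1) * (Φ (k + 1) b - Φ (k + 1) a) ≤ Φ (k + 2) b - Φ (k + 2) a := by
  have ha0 : 0 ≤ a := (TSys.tau_nonneg _).trans ha
  have hsub : ∀ x ∈ Icc a b, x ∈ Icc 0 t := fun x hx => ⟨ha0.trans hx.1, hx.2.trans hbt⟩
  have := incr_le (f := fun x => p.Λ (k + 1) * Φ (k + 1) x)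
    (f' := fun x => p.Λ (k + 1) * A (k + 1) x)
    (g := fun x => Φ (k + 2) x) (g' := fun x => A (k + 2) x) hab
    (fun x hx => (h.phi _ x (hR.memT (hsub x hx))).const_mul _)
    (fun x hx => h.phi _ x (hR.memT (hsub x hx)))
    (fun x hx => hR.low x (hsub x (Ioo_subset_Icc_self hx)) (k + 1) hk
      (lt_of_le_of_lt ha hx.1))
  linarith

theorem phi_all (h : TSys p N A Φ) (hR : Reg p N A t) (htN : t ≤ tau p A N) (m : ℕ) :
    ∀ k, k + m = N → ∀ s ∈ Icc 0 t, Φ (k + 1) s ≤ 6.6 * p.Λ k := by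
  induction m with
  | zero =>
    intro k hk s hs
    have hΛ := p.hΛ k
    have : k = N := by omega
    subst this
    have := phi_small h hR le_rfl hs (hs.2.trans htN)
    linarith
  | succ m ih =>
    intro k hk s hs
    have hk1 : k + 1 ≤ N := by omega
    have hΛ := p.hΛ k
    rcases le_total s (tau p A (k + 1)) with hc | hc
    · have := phi_mid h hR hk1 hs hc
      linarith
    · have hk' : tau p A (k + 1) ∈ Icc 0 t := ⟨TSys.tau_nonneg _, hc.trans hs.2⟩
      have h1 := phi_mid h hR hk1 hk' le_rfl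
      have h2 := phi_late h hR hk1 le_rfl hc hs.2
      have h3 := ih (k + 1) (by omega) s hs
      have h4 := phi_nonneg h hR (k + 2) hk'
      have h5 : p.Λ (k + 1) * (Φ (k + 1) s - Φ (k + 1) (tau p A (k + 1)))
          ≤ p.Λ (k + 1) * 6.6 := by
        have e1 : Φ (k + 1 + 1) s = Φ (k + 2) s := rfl
        rw [e1] at h3
        linarith
      have h6 := le_of_mul_le_mul_left h5 (p.Λpos _)
      linarith

theorem phi_top (h : TSys p N A Φ) (hR : Reg p N A t) {j : ℕ} (hj : N + 2 ≤ j) {s : ℝ}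
    (hs : s ∈ Icc 0 t) : Φ j s ≤ 0 := by
  have hsub : ∀ x ∈ Icc 0 s, x ∈ Icc 0 t := fun x hx => ⟨hx.1, hx.2.trans hs.2⟩
  have := incr_le (f := fun x => Φ j x) (f' := fun x => A j x)
    (g := fun _ => (0 : ℝ)) (g' := fun _ => 0) hs.1
    (fun x hx => h.phi _ x (hR.memT (hsub x hx)))
    (fun x _ => hasDerivAt_const x 0)
    (fun x hx => by rw [h.top j x hj])
  simp only [h.phi0] at this
  linarith

/-- Uniform bound of all primitives. -/
theorem phi_le (h : TSys p N A Φ) (hR : Reg p N A t) (htN : t ≤ tau p A N) (k : ℕ) {s : ℝ}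
    (hs : s ∈ Icc 0 t) : Φ (k + 1) s ≤ 6.6 * p.Λ k := by
  have hΛ := p.Λpos k
  by_cases hk : k ≤ N
  · exact phi_all h hR htN (N - k) k (by omega) s hs
  · have := phi_top h hR (j := k + 1) (by omega) hs
    linarith

/-- Lower bound of each mode: it decays at most by viscosity and a factor `exp (-1/100)`. -/
theorem mode_lower (h : TSys p N A Φ) (hR : Reg p N A t) (htN : t ≤ tau p A N) {i : ℕ}
    (hi : i ≤ N) {s : ℝ} (hs : s ∈ Icc 0 t) :
    A (i + 1) 0 * Real.exp (-(p.d i * s) - 1 / 100) ≤ A (i + 1) s := by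
  have hsub : ∀ x ∈ Icc 0 s, x ∈ Icc 0 t := fun x hx => ⟨hx.1, hx.2.trans hs.2⟩
  have key := incr_le (f := fun x => -(p.d i * x) - p.ℓ i * Φ (i + 2) x)
    (f' := fun x => -(p.d i * 1) - p.ℓ i * A (i + 2) x)
    (g := fun x => Real.log (A (i + 1) x)) (g' := fun x => rhs p A i x / A (i + 1) x) hs.1
    (fun x hx => (((hasDerivAt_id x).const_mul _).neg).sub
      ((h.phi _ x (hR.memT (hsub x hx))).const_mul _))
    (fun x hx => (h.ode i hi x (hR.memT (hsub x hx))).log (hR.pos x (hsub x hx) i hi).ne')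
    (fun x hx => by
      have hx' := hsub x (Ioo_subset_Icc_self hx)
      have hp := hR.pos x hx' i hi
      have hn1 := nonneg h hR hx' i
      have hn2 := nonneg h hR hx' (i + 2)
      have hup := hR.up x hx' i
      rw [le_div_iff₀ hp]
      unfold rhs
      have e4 : p.g i * A (i + 2) x ^ 2
          ≤ 8 * p.Λ (i + 1) * p.g i * (A (i + 1) x * A (i + 2) x) := by
        have e5 : A (i + 2) x ^ 2 ≤ 8 * p.Λ (i + 1) * (A (i + 1) x * A (i + 2) x) := by
          have := mul_le_mul_of_nonneg_right hup hn2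
          nlinarith
        calc p.g i * A (i + 2) x ^ 2
            ≤ p.g i * (8 * p.Λ (i + 1) * (A (i + 1) x * A (i + 2) x)) :=
              mul_le_mul_of_nonneg_left e5 (p.hg i).le
          _ = _ := by ring
      have e6 : 0 ≤ A i x * A (i + 1) x := mul_nonneg hn1 hp.le
      have e7 : 0 ≤ p.e i * A i x ^ 2 := mul_nonneg (p.he i).le (sq_nonneg _)
      have e9 : (-(p.d i * 1) - p.ℓ i * A (i + 2) x) * A (i + 1) x
          = -(p.d i) * A (i + 1) x - p.f i * A (i + 1) x * A (i + 2) x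
            - 8 * p.Λ (i + 1) * p.g i * (A (i + 1) x * A (i + 2) x) := by
        unfold Par.ℓ
        ring
      rw [e9]
      linarith)
  simp only [h.phi0] at key
  have hp0 := h.initp i hi
  have hp := hR.pos s hs i hi
  have h1 := p.ℓ_small i
  have h2 := phi_le h hR htN (i + 1) hs
  have h3 : p.ℓ i * Φ (i + 2) s ≤ 1 / 100 := by
    refine le_trans ?_ h1
    exact mul_le_mul_of_nonneg_left h2 (p.ℓ_pos i).le
  have h4 : Real.log (A (i + 1) 0) + (-(p.d i * s) - 1 / 100) ≤ Real.log (A (i + 1) s) := by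
    have e : -(p.d i * 0) - p.ℓ i * 0 = 0 := by ring
    rw [e] at key
    linarith
  rw [Real.le_log_iff_exp_le hp, Real.exp_add, Real.exp_log hp0] at h4
  exact h4

end Reg

end Pool.Agent.Run7.h407.G
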