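import Mathlib
import Pool.Agent.Run7.h407.G.Apriori2

/-!
Improved bounds at the end of a good time interval (continuity method).
-/

namespace Pool.Agent.Run7.h407.G

open Set Filter Topology

namespace Reg

variable {p : Par} {N : ℕ} {A Φ : ℕ → ℝ → ℝ} {t : ℝ}

theorem exp_small {x : ℝ} : 1 - x ≤ Real.exp (-x) := by
  have := Real.add_one_le_exp (-x)
  linarith

theorem dT_small (p : Par) : p.d 0 * p.T ≤ 1 / 20 := by
  have h1 := p.hda0
  have h2 := p.ha0
  unfold Par.T
  rw [mul_div_assoc', div_le_iff₀ h2]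
  linarith

theorem a0_plus (h : TSys p N A Φ) (hR : Reg p N A t) (htN : t ≤ tau p A N) :
    0.9 * p.a0 ≤ A 1 t := by
  have h1 := mode_lower h hR htN (i := 0) (Nat.zero_le _) (s := t) ⟨hR.t0, le_rfl⟩
  rw [h.init0] at h1
  have h2 : p.d 0 * t ≤ 1 / 20 :=
    (mul_le_mul_of_nonneg_left hR.tT (p.hd 0)).trans (dT_small p)
  have h3 : (0.9 : ℝ) ≤ Real.exp (-(p.d 0 * t) - 1 / 100) := by
    have := Real.add_one_le_exp (-(p.d 0 * t) - 1 / 100)
    linarith
  have h4 := mul_le_mul_of_nonneg_left h3 p.ha0.le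
  linarith

theorem pos_plus (h : TSys p N A Φ) (hR : Reg p N A t) (htN : t ≤ tau p A N) {i : ℕ}
    (hi : i ≤ N) :
    A (i + 1) 0 * Real.exp (-(p.d i * p.T) - 1 / 100) ≤ A (i + 1) t := by
  have h1 := mode_lower h hR htN hi (s := t) ⟨hR.t0, le_rfl⟩
  refine le_trans ?_ h1
  apply mul_le_mul_of_nonneg_left _ (h.initp i hi).le
  apply Real.exp_le_exp.2
  have : p.d i * t ≤ p.d i * p.T := mul_le_mul_of_nonneg_left hR.tT (p.hd i)
  linarith

/-- After `tau (k+1)` the ratio stays above `Λ`. -/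
theorem low_plus (h : TSys p N A Φ) (hR : Reg p N A t) (htN : t ≤ tau p A N) {k : ℕ}
    (hk : k + 1 ≤ N) (htk : tau p A (k + 1) ≤ t) (htT : t < p.T) :
    1.5 * p.Λ (k + 1) * A (k + 1) t ≤ A (k + 2) t := by
  have hΛ := p.Λpos (k + 1)
  have hℓ := p.ℓ_pos (k + 1)
  have h0 : 0 ≤ tau p A (k + 1) := TSys.tau_nonneg _
  have hsub : ∀ x ∈ Icc (tau p A (k + 1)) t, x ∈ Icc 0 t := fun x hx => ⟨h0.trans hx.1, hx.2⟩
  have hmono := tau_le_succ' h hR hk htk
  have hτ : tau p A (k + 1) ∈ Icc 0 t := ⟨h0, htk⟩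
  have hpos : ∀ x ∈ Icc (tau p A (k + 1)) t, 0 < A (k + 2) x / A (k + 1) x := fun x hx =>
    div_pos (hR.pos x (hsub x hx) (k + 1) hk) (hR.pos x (hsub x hx) k (by omega))
  have key := incr_le (f := fun x => -(p.ℓ (k + 1) * Φ (k + 3) x))
    (f' := fun x => -(p.ℓ (k + 1) * A (k + 3) x))
    (g := fun r => Real.log (A (k + 2) r / A (k + 1) r))
    (g' := fun s => (rhs p A (k + 1) s * A (k + 1) s - A (k + 2) s * rhs p A k s)
      / A (k + 1) s ^ 2 / (A (k + 2) s / A (k + 1) s)) htk
    (fun x hx => ((h.phi _ x (hR.memT (hsub x hx))).const_mul _).neg)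
    (fun x hx => (ratio_deriv h hR hk (hsub x hx)).log (hpos x hx).ne')
    (fun x hx => by
      have hx' := hsub x (Ioo_subset_Icc_self hx)
      rw [le_div_iff₀ (hpos x (Ioo_subset_Icc_self hx))]
      refine le_trans (le_of_eq ?_) (ratio_keep h hR hk hx' (lt_of_le_of_lt hmono hx.1))
      ring)
  have h1 := phi_le h hR htN (k + 2) (s := t) ⟨hR.t0, le_rfl⟩
  have h2 := phi_nonneg h hR (k + 3) hτ
  have h3 := p.ℓ_small (k + 1)
  have h4 : p.ℓ (k + 1) * Φ (k + 3) t ≤ 1 / 100 := by
    refine le_trans ?_ h3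
    apply mul_le_mul_of_nonneg_left h1 (by positivity)
  have h5 : 0 ≤ p.ℓ (k + 1) * Φ (k + 3) (tau p A (k + 1)) := by positivity
  have hatt := h.tau_att (i := k + 1) (htk.trans_lt htT)
  have hp1 := hR.pos _ hτ k (by omega)
  have h6 : 2 * p.Λ (k + 1) ≤ A (k + 2) (tau p A (k + 1)) / A (k + 1) (tau p A (k + 1)) := by
    rw [le_div_iff₀ hp1]
    exact hatt
  have h7 := Real.log_le_log (by positivity) h6
  have h8 : Real.log (2 * p.Λ (k + 1)) + (-(1 / 100)) ≤ Real.log (A (k + 2) t / A (k + 1) t) := by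
    linarith
  rw [Real.le_log_iff_exp_le (hpos t ⟨htk, le_rfl⟩), Real.exp_add, Real.exp_log (by positivity)]
    at h8
  have h9 : (0.99 : ℝ) ≤ Real.exp (-(1 / 100)) := by
    have := Real.add_one_le_exp (-(1 / 100) : ℝ)
    linarith
  have h10 : 1.5 * p.Λ (k + 1) ≤ A (k + 2) t / A (k + 1) t := by
    refine le_trans ?_ h8
    nlinarith
  rwa [le_div_iff₀ (hR.pos t ⟨hR.t0, le_rfl⟩ k (by omega))] at h10

/-- Between `tau (k+1)` and `tau (k+2)` the ratio stays below `6.3 Λ`. -/
theorem ratio_mid (h : TSys p N A Φ) (hR : Reg p N A t) {k : ℕ}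
    (hk : k + 2 ≤ N) {s : ℝ} (hs : s ∈ Icc 0 t) (h1 : tau p A (k + 1) ≤ s)
    (h2 : s ≤ tau p A (k + 2)) : A (k + 2) s / A (k + 1) s ≤ 6.25 * p.Λ (k + 1) := by
  have hΛ := p.Λpos (k + 1)
  have h0 : 0 ≤ tau p A (k + 1) := TSys.tau_nonneg _
  have hsub : ∀ x ∈ Icc (tau p A (k + 1)) s, x ∈ Icc 0 t :=
    fun x hx => ⟨h0.trans hx.1, hx.2.trans hs.2⟩
  have key := incr_le (f := fun r => A (k + 2) r / A (k + 1) r)
    (f' := fun s => (rhs p A (k + 1) s * A (k + 1) s - A (k + 2) s * rhs p A k s)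
      / A (k + 1) s ^ 2)
    (g := fun x => 1.02 * Φ (k + 2) x) (g' := fun x => 1.02 * A (k + 2) x) h1
    (fun x hx => ratio_deriv h hR (by omega) (hsub x hx))
    (fun x hx => (h.phi _ x (hR.memT (hsub x hx))).const_mul _)
    (fun x hx => by
      have hx' := hsub x (Ioo_subset_Icc_self hx)
      refine (ratio_upper h hR (by omega) hx').trans ?_
      have hp := hR.pos x hx' k (by omega)
      have hl := hR.low x hx' (k + 1) (by omega) hx.1
      have e : 1.01 * A (k + 1) x * (A (k + 2) x / A (k + 1) x + p.e (k + 1))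
          = 1.01 * A (k + 2) x + 1.01 * (p.e (k + 1) * A (k + 1) x) := by
        field_simp
      rw [e]
      have h3 : p.e (k + 1) * A (k + 1) x ≤ 1 / 1000 * A (k + 1) x :=
        mul_le_mul_of_nonneg_right (p.e_small _) hp.le
      have h4 := p.hΛ (k + 1)
      nlinarith)
  have h3 := growth_driver h hR (k := k + 1) (by omega) le_rfl h1 hs.2 h2
  have h4 := ratio_le_two h hR (k := k) (by omega) (s := tau p A (k + 1))
    ⟨h0, h1.trans hs.2⟩ le_rfl
  linarith

theorem up_plus (h : TSys p N A Φ) (hR : Reg p N A t) (htN : t ≤ tau p A N) {k : ℕ}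
    (hk : k + 1 ≤ N) : A (k + 2) t ≤ 7 * p.Λ (k + 1) * A (k + 1) t := by
  have hΛ := p.Λpos (k + 1)
  have hΛ2 := p.Λpos (k + 2)
  have ht : t ∈ Icc 0 t := ⟨hR.t0, le_rfl⟩
  have hp := hR.pos t ht k (by omega)
  rcases le_total t (tau p A (k + 1)) with hc | hc
  · have := le_at_tau h hR (k := k) ht hc
    have h2 : 0 < p.Λ (k + 1) * A (k + 1) t := mul_pos hΛ hp
    linarith
  · rcases hc.eq_or_lt with heq | hlt
    · have := le_at_tau h hR (k := k) ht heq.symm.le
      have h2 : 0 < p.Λ (k + 1) * A (k + 1) t := mul_pos hΛ hp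
      linarith
    · have hk2 : k + 2 ≤ N := by
        rcases Nat.lt_or_ge (k + 1) N with hl | hl
        · omega
        · have : k + 1 = N := by omega
          rw [this] at hlt
          linarith
      rw [← div_le_iff₀ hp]
      rcases le_total t (tau p A (k + 2)) with hd | hd
      · have := ratio_mid h hR hk2 ht hc hd
        linarith
      · have h0 : 0 ≤ tau p A (k + 2) := TSys.tau_nonneg _
        have hsub : ∀ x ∈ Icc (tau p A (k + 2)) t, x ∈ Icc 0 t :=
          fun x hx => ⟨h0.trans hx.1, hx.2⟩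
        have hτ : tau p A (k + 2) ∈ Icc 0 t := ⟨h0, hd⟩
        have hmono := tau_le_succ' h hR hk2 hd
        have hpos : ∀ x ∈ Icc (tau p A (k + 2)) t, 0 < A (k + 2) x / A (k + 1) x :=
          fun x hx => div_pos (hR.pos x (hsub x hx) (k + 1) hk)
            (hR.pos x (hsub x hx) k (by omega))
        have key := incr_le (f := fun r => Real.log (A (k + 2) r / A (k + 1) r))
          (f' := fun s => (rhs p A (k + 1) s * A (k + 1) s - A (k + 2) s * rhs p A k s)
            / A (k + 1) s ^ 2 / (A (k + 2) s / A (k + 1) s))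
          (g := fun x => 1.02 / (p.Λ (k + 1) * p.Λ (k + 2)) * Φ (k + 3) x)
          (g' := fun x => 1.02 / (p.Λ (k + 1) * p.Λ (k + 2)) * A (k + 3) x) hd
          (fun x hx => (ratio_deriv h hR hk (hsub x hx)).log (hpos x hx).ne')
          (fun x hx => (h.phi _ x (hR.memT (hsub x hx))).const_mul _)
          (fun x hx => by
            have hx' := hsub x (Ioo_subset_Icc_self hx)
            have hq := hpos x (Ioo_subset_Icc_self hx)
            rw [div_le_iff₀ hq]
            refine (ratio_upper h hR (by omega) hx').trans ?_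
            have hp := hR.pos x hx' k (by omega)
            have hl := hR.low x hx' (k + 1) (by omega) (lt_of_le_of_lt hmono hx.1)
            have hl2 := hR.low x hx' (k + 2) (by omega) hx.1
            have hq1 : p.Λ (k + 1) ≤ A (k + 2) x / A (k + 1) x := by
              rw [le_div_iff₀ hp]
              exact hl
            have h3 : A (k + 1) x ≤ A (k + 3) x / (p.Λ (k + 1) * p.Λ (k + 2)) := by
              rw [le_div_iff₀ (by positivity)]
              have := mul_le_mul_of_nonneg_left hl hΛ2.le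
              calc A (k + 1) x * (p.Λ (k + 1) * p.Λ (k + 2))
                  = p.Λ (k + 2) * (p.Λ (k + 1) * A (k + 1) x) := by ring
                _ ≤ p.Λ (k + 2) * A (k + 2) x := this
                _ ≤ _ := hl2
            have h4 : A (k + 2) x / A (k + 1) x + p.e (k + 1)
                ≤ (1 + 1 / 1000) * (A (k + 2) x / A (k + 1) x) := by
              have := p.e_small (k + 1)
              have := p.hΛ (k + 1)
              nlinarith
            calc 1.01 * A (k + 1) x * (A (k + 2) x / A (k + 1) x + p.e (k + 1))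
                ≤ 1.01 * A (k + 1) x * ((1 + 1 / 1000) * (A (k + 2) x / A (k + 1) x)) := by
                  apply mul_le_mul_of_nonneg_left h4 (by positivity)
              _ ≤ 1.02 * A (k + 1) x * (A (k + 2) x / A (k + 1) x) := by
                  have : 0 < A (k + 1) x * (A (k + 2) x / A (k + 1) x) := mul_pos hp hq
                  nlinarith
              _ ≤ 1.02 * (A (k + 3) x / (p.Λ (k + 1) * p.Λ (k + 2))) * (A (k + 2) x / A (k + 1) x) := by
                  apply mul_le_mul_of_nonneg_right _ hq.le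
                  linarith
              _ = _ := by ring)
        have h3 := ratio_mid h hR hk2 hτ hmono le_rfl
        have h4 := phi_le h hR htN (k + 2) ht
        have h5 := phi_nonneg h hR (k + 3) hτ
        have h6 : 1.02 / (p.Λ (k + 1) * p.Λ (k + 2)) * Φ (k + 3) t ≤ 1 / 100 := by
          calc 1.02 / (p.Λ (k + 1) * p.Λ (k + 2)) * Φ (k + 3) t ≤ 1.02 / (p.Λ (k + 1) * p.Λ (k + 2)) * (6.6 * p.Λ (k + 2)) := by
                apply mul_le_mul_of_nonneg_left h4 (by positivity)
            _ = 6.732 / p.Λ (k + 1) := by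
                field_simp
                ring
            _ ≤ 1 / 100 := by
                rw [div_le_iff₀ hΛ]
                linarith [p.hΛ (k + 1)]
        have h7 : 0 ≤ 1.02 / (p.Λ (k + 1) * p.Λ (k + 2)) * Φ (k + 3) (tau p A (k + 2)) := by positivity
        have h8 : Real.log (A (k + 2) t / A (k + 1) t) + (-(1 / 100))
            ≤ Real.log (A (k + 2) (tau p A (k + 2)) / A (k + 1) (tau p A (k + 2))) := by
          linarith
        rw [Real.le_log_iff_exp_le (hpos _ ⟨le_rfl, hd⟩), Real.exp_add,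
          Real.exp_log (hpos t ⟨hd, le_rfl⟩)] at h8
        have h9 : (0.99 : ℝ) ≤ Real.exp (-(1 / 100)) := by
          have := Real.add_one_le_exp (-(1 / 100) : ℝ)
          linarith
        have h10 := hpos t ⟨hd, le_rfl⟩
        nlinarith

/-- Integrated growth bound of the tail ratios. -/
theorem ratio_tail (h : TSys p N A Φ) (hR : Reg p N A t) {k : ℕ} (hk : k + 1 ≤ N) {s : ℝ}
    (hs : s ∈ Icc 0 t) :
    A (k + 2) s / A (k + 1) s ≤ Real.exp (1.01 * Φ (k + 1) s) *
      (A (k + 2) 0 / A (k + 1) 0 + 1.01 * (p.e (k + 1)) * Φ (k + 1) s) := by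
  have hsub : ∀ x ∈ Icc 0 s, x ∈ Icc 0 t := fun x hx => ⟨hx.1, hx.2.trans hs.2⟩
  have key := incr_le
    (f := fun r => A (k + 2) r / A (k + 1) r * Real.exp (-(1.01 * Φ (k + 1) r)))
    (f' := fun s => (rhs p A (k + 1) s * A (k + 1) s - A (k + 2) s * rhs p A k s)
      / A (k + 1) s ^ 2 * Real.exp (-(1.01 * Φ (k + 1) s))
      + A (k + 2) s / A (k + 1) s *
        (Real.exp (-(1.01 * Φ (k + 1) s)) * (-(1.01 * A (k + 1) s))))
    (g := fun x => 1.01 * (p.e (k + 1)) * Φ (k + 1) x)
    (g' := fun x => 1.01 * (p.e (k + 1)) * A (k + 1) x) hs.1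
    (fun x hx => (ratio_deriv h hR hk (hsub x hx)).mul
      (((h.phi _ x (hR.memT (hsub x hx))).const_mul _).neg.exp))
    (fun x hx => (h.phi _ x (hR.memT (hsub x hx))).const_mul _)
    (fun x hx => by
      have hx' := hsub x (Ioo_subset_Icc_self hx)
      have h1 := ratio_upper h hR hk hx'
      have h2 := phi_nonneg h hR (k + 1) hx'
      have h3 : Real.exp (-(1.01 * Φ (k + 1) x)) ≤ 1 := by
        apply Real.exp_le_one_iff.2
        linarith
      have h4 : 0 < Real.exp (-(1.01 * Φ (k + 1) x)) := Real.exp_pos _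
      have h5 := nonneg h hR hx' (k + 1)
      have h6 : 0 ≤ 1.01 * (p.e (k + 1)) * A (k + 1) x :=
        mul_nonneg (mul_nonneg (by norm_num) (p.he (k + 1)).le) h5
      calc (rhs p A (k + 1) x * A (k + 1) x - A (k + 2) x * rhs p A k x)
          / A (k + 1) x ^ 2 * Real.exp (-(1.01 * Φ (k + 1) x))
          + A (k + 2) x / A (k + 1) x *
            (Real.exp (-(1.01 * Φ (k + 1) x)) * (-(1.01 * A (k + 1) x)))
          = ((rhs p A (k + 1) x * A (k + 1) x - A (k + 2) x * rhs p A k x)
          / A (k + 1) x ^ 2 - 1.01 * A (k + 1) x * (A (k + 2) x / A (k + 1) x))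
            * Real.exp (-(1.01 * Φ (k + 1) x)) := by ring
        _ ≤ (1.01 * (p.e (k + 1)) * A (k + 1) x) * Real.exp (-(1.01 * Φ (k + 1) x)) := by
            apply mul_le_mul_of_nonneg_right _ h4.le
            linarith
        _ ≤ (1.01 * (p.e (k + 1)) * A (k + 1) x) * 1 :=
            mul_le_mul_of_nonneg_left h3 h6
        _ = _ := by ring)
  simp only [h.phi0] at key
  have e0 : Real.exp (-(1.01 * 0)) = 1 := by simp
  rw [e0] at key
  have h7 : A (k + 2) s / A (k + 1) s * Real.exp (-(1.01 * Φ (k + 1) s))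
      ≤ A (k + 2) 0 / A (k + 1) 0 + 1.01 * (p.e (k + 1)) * Φ (k + 1) s := by linarith
  have h8 := mul_le_mul_of_nonneg_left h7 (Real.exp_pos (1.01 * Φ (k + 1) s)).le
  calc A (k + 2) s / A (k + 1) s
      = Real.exp (1.01 * Φ (k + 1) s)
        * (A (k + 2) s / A (k + 1) s * Real.exp (-(1.01 * Φ (k + 1) s))) := by
        rw [mul_comm (A (k + 2) s / A (k + 1) s), ← mul_assoc, ← Real.exp_add]
        simp
    _ ≤ _ := h8

theorem tail_plus (h : TSys p N A Φ) (hR : Reg p N A t) {k : ℕ}
    (hk : k + 1 ≤ N) (htk : t ≤ tau p A k) : A (k + 2) t ≤ 1 / 150 * A (k + 1) t := by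
  have hΛ := p.Λpos k
  have hεK := p.he (k + 1)
  have ht : t ∈ Icc 0 t := ⟨hR.t0, le_rfl⟩
  have hp := hR.pos t ht k (by omega)
  rw [← div_le_iff₀ hp]
  have hrp : ∀ x ∈ Icc 0 t, 0 < A (k + 2) x / A (k + 1) x + p.e (k + 1) := fun x hx => by
    have := ratio_nonneg h hR k hx
    linarith
  have key := incr_le
    (f := fun r => Real.log (A (k + 2) r / A (k + 1) r + p.e (k + 1)))
    (f' := fun s => (rhs p A (k + 1) s * A (k + 1) s - A (k + 2) s * rhs p A k s)
      / A (k + 1) s ^ 2 / (A (k + 2) s / A (k + 1) s + p.e (k + 1)))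
    (g := fun x => 1.01 * Φ (k + 1) x) (g' := fun x => 1.01 * A (k + 1) x) hR.t0
    (fun x hx => ((ratio_deriv h hR hk hx).add_const _).log (hrp x hx).ne')
    (fun x hx => (h.phi _ x (hR.memT hx)).const_mul _)
    (fun x hx => by
      rw [div_le_iff₀ (hrp x (Ioo_subset_Icc_self hx))]
      exact ratio_upper h hR hk (Ioo_subset_Icc_self hx))
  simp only [h.phi0] at key
  have h1 := phi_small h hR (k := k) (by omega) ht htk
  have h2 := ratio0' h hR (k := k) (by omega)
  have h3 : Real.log (A (k + 2) 0 / A (k + 1) 0 + p.e (k + 1)) ≤ Real.log (2 * (p.e (k + 1))) :=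
    Real.log_le_log (hrp 0 ⟨le_rfl, hR.t0⟩) (by linarith)
  have h4 : Real.log (A (k + 2) t / A (k + 1) t + p.e (k + 1))
      ≤ Real.log (2 * (p.e (k + 1))) + 2.3 * p.Λ k := by linarith
  rw [Real.log_le_iff_le_exp (hrp t ht), Real.exp_add, Real.exp_log (by positivity)] at h4
  have h5 := p.hexp2 k
  linarith

/-- Size of the modes, closed version. -/
theorem size' (h : TSys p N A Φ) (hR : Reg p N A t) (htT : t < p.T) {j : ℕ} (hj : j ≤ N) {s : ℝ}
    (hs : s ∈ Icc 0 t) (hts : tau p A j ≤ s) : p.a0 / 2 * p.PL j ≤ A (j + 1) s := by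
  induction j with
  | zero =>
    rw [p.PL_zero, mul_one]
    exact hR.a0 s hs
  | succ j ih =>
    have h0 := tau_le_succ' h hR hj (hts.trans hs.2)
    have h1 := ih (by omega) (h0.trans hts)
    have hΛ := p.Λpos (j + 1)
    have h2 : p.Λ (j + 1) * A (j + 1) s ≤ A (j + 2) s := by
      rcases hts.eq_or_lt with he | hl
      · have := h.tau_att (i := j + 1) (by linarith [hs.2])
        rw [he] at this
        have h3 := nonneg h hR hs (j + 1)
        have h4 := mul_nonneg hΛ.le h3
        linarith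
      · exact hR.low s hs (j + 1) hj hl
    calc p.a0 / 2 * p.PL (j + 1) = p.Λ (j + 1) * (p.a0 / 2 * p.PL j) := by
          rw [p.PL_succ]
          ring
      _ ≤ p.Λ (j + 1) * A (j + 1) s := mul_le_mul_of_nonneg_left h1 (p.Λpos _).le
      _ ≤ _ := h2

end Reg

end Pool.Agent.Run7.h407.G
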