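import Mathlib
import Pool.Agent.Run7.h407.G.Bootstrap

/-!
Rapid decay of the modes ahead of the front, uniformly in the truncation.
-/

namespace Pool.Agent.Run7.h407.G

open Set Filter Topology

/-- Constant in the decay of the ratios up to the time `tau n`. -/
noncomputable def Cn (p : Par) (n : ℕ) : ℝ := Real.exp (2.3 * p.Λ n) * (1 + 2.3 * p.Λ n)

/-- Super-exponentially decreasing bound. -/
noncomputable def dec (p : Par) (n m : ℕ) : ℝ := ∏ i ∈ Finset.range m, (Cn p n * p.e (n + i + 1))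

theorem Cn_pos (p : Par) (n : ℕ) : 0 < Cn p n := by
  have := p.Λpos n
  unfold Cn
  positivity

theorem dec_pos (p : Par) (n m : ℕ) : 0 < dec p n m :=
  Finset.prod_pos fun i _ => mul_pos (Cn_pos p n) (p.he _)

theorem dec_succ (p : Par) (n m : ℕ) :
    dec p n (m + 1) = dec p n m * (Cn p n * p.e (n + m + 1)) := by
  unfold dec
  rw [Finset.prod_range_succ]

/-- Bound of the `j`-th mode up to the time `tau n`. -/
noncomputable def Bd (p : Par) (n j : ℕ) : ℝ :=
  p.a0 * (8 ^ n * p.PL n) * dec p n (j - (n + 1))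

variable {p : Par} {N : ℕ} {A Φ : ℕ → ℝ → ℝ}

theorem tauN_mem (h : TSys p N A Φ) {n : ℕ} (hn : n ≤ N) {s : ℝ} (hs : s ∈ Icc 0 (tau p A n)) :
    s ∈ Icc 0 (tau p A N) :=
  ⟨hs.1, hs.2.trans (tau_mono h hn le_rfl)⟩

theorem phi_decay (h : TSys p N A Φ) {n : ℕ} (hn : n ≤ N) {s : ℝ}
    (hs : s ∈ Icc 0 (tau p A n)) (m : ℕ) :
    Φ (n + m + 1) s ≤ (1 / 100) ^ m * (2.2 * p.Λ n) := by
  have hR := reg_all h
  have hs' := tauN_mem h hn hs
  induction m with
  | zero => simpa using Reg.phi_small h hR hn hs' hs.2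
  | succ m ih =>
    have hΛ := p.Λpos n
    by_cases hm : n + m + 1 ≤ N
    · have h1 := Reg.phi_tail_step h hR (k := n + m) hs'
        (hs.2.trans (tau_mono h (by omega) (by omega)))
      have e : n + (m + 1) + 1 = n + m + 2 := by ring
      rw [e, pow_succ]
      linarith
    · have h1 := Reg.phi_top h hR (j := n + (m + 1) + 1) (by omega) hs'
      exact h1.trans (by positivity)

theorem ratio_decay (h : TSys p N A Φ) {n : ℕ} (hn : n ≤ N) {s : ℝ}
    (hs : s ∈ Icc 0 (tau p A n)) (m : ℕ) :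
    A (n + m + 2) s ≤ Cn p n * p.e (n + m + 1) * A (n + m + 1) s := by
  have hR := reg_all h
  have hs' := tauN_mem h hn hs
  have hΛ := p.hΛ n
  have he := p.he (n + m + 1)
  have hC := Cn_pos p n
  have hn0 := Reg.nonneg h hR hs' (n + m + 1)
  by_cases hm : n + m + 1 ≤ N
  · have hp := hR.pos s hs' (n + m) (by omega)
    rw [← div_le_iff₀ hp]
    have h1 := Reg.ratio_tail h hR (k := n + m) hm hs'
    have h2 : Φ (n + m + 1) s ≤ 2.2 * p.Λ n := by
      refine (phi_decay h hn hs m).trans ?_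
      have h7 : ((1 : ℝ) / 100) ^ m ≤ 1 := pow_le_one₀ (by norm_num) (by norm_num)
      have h8 : 0 < 2.2 * p.Λ n := by linarith
      nlinarith
    have h3 := Reg.ratio0' h hR (k := n + m) (by omega)
    have h6 : 1.01 * (p.e (n + m + 1)) * Φ (n + m + 1) s
        ≤ 1.01 * (p.e (n + m + 1)) * (2.2 * p.Λ n) :=
      mul_le_mul_of_nonneg_left h2 (by positivity)
    have h8 : Real.exp (1.01 * Φ (n + m + 1) s) ≤ Real.exp (2.3 * p.Λ n) := by
      apply Real.exp_le_exp.2
      nlinarith
    have hsum : A (n + m + 2) 0 / A (n + m + 1) 0 + 1.01 * (p.e (n + m + 1)) * Φ (n + m + 1) s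
        ≤ (1 + 2.3 * p.Λ n) * p.e (n + m + 1) := by
      have h9 : 0 ≤ p.e (n + m + 1) * p.Λ n := by
        apply mul_nonneg he.le
        linarith
      nlinarith
    have hnn : 0 ≤ A (n + m + 2) 0 / A (n + m + 1) 0
        + 1.01 * (p.e (n + m + 1)) * Φ (n + m + 1) s :=
      add_nonneg (Reg.ratio_nonneg h hR _ ⟨le_rfl, hs'.1.trans hs'.2⟩)
        (mul_nonneg (by positivity) (Reg.phi_nonneg h hR _ hs'))
    calc A (n + m + 2) s / A (n + m + 1) s ≤ _ := h1
      _ ≤ Real.exp (2.3 * p.Λ n) * ((1 + 2.3 * p.Λ n) * p.e (n + m + 1)) :=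
          mul_le_mul h8 hsum hnn (Real.exp_pos _).le
      _ = Cn p n * p.e (n + m + 1) := by
          unfold Cn
          ring
  · rw [h.top (n + m + 2) s (by omega)]
    positivity

theorem first_le (h : TSys p N A Φ) {s : ℝ} (hs : s ∈ Icc 0 (tau p A N)) : A 1 s ≤ p.a0 := by
  have hR := reg_all h
  have hsub : ∀ x ∈ Icc 0 s, x ∈ Icc 0 (tau p A N) := fun x hx => ⟨hx.1, hx.2.trans hs.2⟩
  have := incr_le (f := fun x => A 1 x) (f' := fun x => rhs p A 0 x)
    (g := fun _ => (0 : ℝ)) (g' := fun _ => 0) hs.1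
    (fun x hx => h.ode 0 (Nat.zero_le _) x (hR.memT (hsub x hx)))
    (fun x _ => hasDerivAt_const x 0)
    (fun x hx => by
      have hx' := hsub x (Ioo_subset_Icc_self hx)
      unfold rhs
      rw [h.zero]
      have h1 := Reg.nonneg h hR hx' 1
      have h2 := Reg.nonneg h hR hx' 2
      have h3 := p.hd 0
      have h5 : 0 ≤ p.f 0 * A 1 x * A 2 x := mul_nonneg (mul_nonneg (p.f_pos 0).le h1) h2
      have h6 : 0 ≤ p.g 0 * A 2 x ^ 2 := mul_nonneg (p.hg 0).le (sq_nonneg _)
      have h7 : 0 ≤ p.d 0 * A 1 x := mul_nonneg h3 h1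
      simp only [zero_add] at *
      nlinarith)
  simp only [h.init0] at this
  linarith

theorem mode_le (h : TSys p N A Φ) {s : ℝ} (hs : s ∈ Icc 0 (tau p A N)) (k : ℕ) :
    A (k + 1) s ≤ p.a0 * (8 ^ k * p.PL k) :=
  size_upper h hs (first_le h hs) k

theorem PL8_mono (p : Par) {k n : ℕ} (hkn : k ≤ n) : 8 ^ k * p.PL k ≤ 8 ^ n * p.PL n := by
  induction n with
  | zero =>
    have : k = 0 := by omega
    rw [this]
  | succ n ih =>
    rcases Nat.eq_or_lt_of_le hkn with he | hlt
    · rw [he]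
    · refine (ih (by omega)).trans ?_
      rw [p.PL_succ, pow_succ]
      have h1 := p.hΛ (n + 1)
      have h2 : 0 < 8 ^ n * p.PL n := mul_pos (by positivity) (p.PL_pos n)
      calc 8 ^ n * p.PL n = 1 * (8 ^ n * p.PL n) := by ring
        _ ≤ (8 * p.Λ (n + 1)) * (8 ^ n * p.PL n) := by
            apply mul_le_mul_of_nonneg_right _ h2.le
            linarith
        _ = _ := by ring

/-- The main bound: rapid decay up to the time `tau n`, with constants independent of `N`. -/
theorem mode_le_Bd (h : TSys p N A Φ) {n : ℕ} (hn : n ≤ N) {s : ℝ}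
    (hs : s ∈ Icc 0 (tau p A n)) (j : ℕ) : A j s ≤ Bd p n j := by
  have hs' := tauN_mem h hn hs
  have hPL := p.PL_pos n
  have ha0 := p.ha0
  have hR := reg_all h
  rcases Nat.lt_or_ge j (n + 1) with hj | hj
  · have e : j - (n + 1) = 0 := by omega
    unfold Bd
    rw [e]
    have e2 : dec p n 0 = 1 := by simp [dec]
    rw [e2, mul_one]
    rcases Nat.eq_zero_or_pos j with hj0 | hj0
    · subst hj0
      rw [h.zero]
      positivity
    · obtain ⟨k, rfl⟩ : ∃ k, j = k + 1 := ⟨j - 1, by omega⟩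
      refine (mode_le h hs' k).trans ?_
      apply mul_le_mul_of_nonneg_left _ ha0.le
      exact PL8_mono p (by omega)
  · obtain ⟨m, rfl⟩ : ∃ m, j = n + 1 + m := ⟨j - (n + 1), by omega⟩
    unfold Bd
    have e : n + 1 + m - (n + 1) = m := by omega
    rw [e]
    clear e hj
    induction m with
    | zero =>
      have e2 : dec p n 0 = 1 := by simp [dec]
      rw [e2, mul_one]
      exact mode_le h hs' n
    | succ m ih =>
      rw [dec_succ]
      have h1 := ratio_decay h hn hs m
      have hc := mul_pos (Cn_pos p n) (p.he (n + m + 1))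
      have e3 : n + 1 + (m + 1) = n + m + 2 := by ring
      have e4 : n + 1 + m = n + m + 1 := by ring
      rw [e3]
      rw [e4] at ih
      calc A (n + m + 2) s ≤ Cn p n * p.e (n + m + 1) * A (n + m + 1) s := h1
        _ ≤ Cn p n * p.e (n + m + 1) * (p.a0 * (8 ^ n * p.PL n) * dec p n m) :=
            mul_le_mul_of_nonneg_left ih hc.le
        _ = _ := by ring

/-- Weights beaten by the decay of the modes. -/
structure Wt (p : Par) (w : ℕ → ℝ) : Prop where
  pos : ∀ j, 0 < w j
  rapid : ∀ k : ℕ, Tendsto (fun i => p.e (i + 1) * (w (i + 2) / w (i + 1)) ^ k) atTop (𝓝 0)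

/-- The bound `Bd` beats every power of a weight. -/
theorem Bd_rapid (p : Par) {w : ℕ → ℝ} (hw : Wt p w) (n k : ℕ) :
    ∃ C, ∀ j, Bd p n j * w j ^ k ≤ C := by
  have ha0 := p.ha0
  have hPL := p.PL_pos n
  have hC0 := Cn_pos p n
  have hBd : ∀ j, 0 < Bd p n j := fun j => by
    unfold Bd
    have := dec_pos p n (j - (n + 1))
    positivity
  have hterm : ∀ j, 0 ≤ Bd p n j * w j ^ k := fun j =>
    mul_nonneg (hBd j).le (pow_nonneg (hw.pos j).le k)
  have ht : Tendsto (fun i : ℕ => Cn p n * (p.e (i + 1) * (w (i + 2) / w (i + 1)) ^ k)) atTop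
      (𝓝 (Cn p n * 0)) := (hw.rapid k).const_mul _
  rw [mul_zero] at ht
  obtain ⟨M, hM⟩ := (ht.eventually (gt_mem_nhds (show (0 : ℝ) < 1 by norm_num))).exists_forall_of_atTop
  refine ⟨∑ j ∈ Finset.range (M + n + 2), Bd p n j * w j ^ k, ?_⟩
  intro j
  induction j with
  | zero =>
    exact Finset.single_le_sum (f := fun j => Bd p n j * w j ^ k) (fun j _ => hterm j)
      (Finset.mem_range.2 (by omega))
  | succ j ih =>
    by_cases hj : j + 1 < M + n + 2
    · exact Finset.single_le_sum (f := fun j => Bd p n j * w j ^ k) (fun j _ => hterm j)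
        (Finset.mem_range.2 hj)
    · obtain ⟨m, rfl⟩ : ∃ m, j = n + 1 + m := ⟨j - (n + 1), by omega⟩
      have e1 : n + 1 + m + 1 - (n + 1) = m + 1 := by omega
      have e2 : n + 1 + m - (n + 1) = m := by omega
      have h2 := hM (n + m) (by omega)
      have h3 := hterm (n + 1 + m)
      have hw1 := hw.pos (n + m + 1)
      refine le_trans ?_ ih
      have e3 : n + 1 + m + 1 = n + m + 2 := by ring
      have e4 : n + 1 + m = n + m + 1 := by ring
      have e5 : Bd p n (n + m + 2) = Bd p n (n + m + 1) * (Cn p n * p.e (n + m + 1)) := by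
        unfold Bd
        rw [← e3, ← e4, e1, e2, dec_succ, e4]
        ring
      rw [e3]
      rw [e4] at h3 ⊢
      have e6 : w (n + m + 2) ^ k = w (n + m + 1) ^ k * (w (n + m + 2) / w (n + m + 1)) ^ k := by
        rw [div_pow]
        field_simp
      rw [e5, e6]
      calc Bd p n (n + m + 1) * (Cn p n * p.e (n + m + 1))
            * (w (n + m + 1) ^ k * (w (n + m + 2) / w (n + m + 1)) ^ k)
          = (Bd p n (n + m + 1) * w (n + m + 1) ^ k) *
            (Cn p n * (p.e (n + m + 1) * (w (n + m + 2) / w (n + m + 1)) ^ k)) := by ring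
        _ ≤ (Bd p n (n + m + 1) * w (n + m + 1) ^ k) * 1 :=
            mul_le_mul_of_nonneg_left h2.le h3
        _ = _ := by ring

end Pool.Agent.Run7.h407.G
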