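import Mathlib
import Pool.Agent.Run7.h407.G.Decay
import Pool.Agent.Run7.h407.Global

/-!
Existence of the solutions of the truncated reduced systems, with the energy bound.
-/

namespace Pool.Agent.Run7.h407.G

open Set Filter Topology MeasureTheory

/-- Extension by zero of a vector of modes, with the index shifted by one. -/
def ext {N : ℕ} (x : Fin (N + 1) → ℝ) : ℕ → ℝ
  | 0 => 0
  | (i + 1) => if h : i < N + 1 then x ⟨i, h⟩ else 0

theorem ext_zero {N : ℕ} (x : Fin (N + 1) → ℝ) : ext x 0 = 0 := rfl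

theorem ext_succ {N : ℕ} (x : Fin (N + 1) → ℝ) (i : Fin (N + 1)) : ext x (i + 1) = x i := by
  have : (i : ℕ) < N + 1 := i.2
  show (if h : (i : ℕ) < N + 1 then x ⟨i, h⟩ else 0) = x i
  rw [dif_pos this]

theorem ext_top {N : ℕ} (x : Fin (N + 1) → ℝ) {j : ℕ} (hj : N + 2 ≤ j) : ext x j = 0 := by
  obtain ⟨i, rfl⟩ : ∃ i, j = i + 1 := ⟨j - 1, by omega⟩
  show (if h : i < N + 1 then x ⟨i, h⟩ else 0) = 0
  rw [dif_neg (by omega)]

theorem ext_contDiff {N : ℕ} (j : ℕ) : ContDiff ℝ 1 (fun x : Fin (N + 1) → ℝ => ext x j) := by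
  cases j with
  | zero => exact contDiff_const
  | succ i =>
    by_cases hi : i < N + 1
    · have : (fun x : Fin (N + 1) → ℝ => ext x (i + 1)) = fun x => x ⟨i, hi⟩ := by
        funext x
        show (if h : i < N + 1 then x ⟨i, h⟩ else 0) = _
        rw [dif_pos hi]
      rw [this]
      exact contDiff_apply ℝ ℝ _
    · have : (fun x : Fin (N + 1) → ℝ => ext x (i + 1)) = fun x => 0 := by
        funext x
        show (if h : i < N + 1 then x ⟨i, h⟩ else 0) = _
        rw [dif_neg hi]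
      rw [this]
      exact contDiff_const

/-- The vector field of the truncated system. -/
noncomputable def vf (p : Par) (N : ℕ) (x : Fin (N + 1) → ℝ) (i : Fin (N + 1)) : ℝ :=
  rhs p (fun j _ => ext x j) i 0

theorem vf_contDiff (p : Par) (N : ℕ) : ContDiff ℝ 1 (vf p N) := by
  rw [contDiff_pi]
  intro i
  unfold vf rhs
  have h0 := ext_contDiff (N := N) (i : ℕ)
  have h1 := ext_contDiff (N := N) ((i : ℕ) + 1)
  have h2 := ext_contDiff (N := N) ((i : ℕ) + 2)
  exact ((((contDiff_const.mul h1).add (h0.mul h1)).add (contDiff_const.mul (h0.pow 2))).sub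
    ((contDiff_const.mul h1).mul h2)).sub (contDiff_const.mul (h2.pow 2))

/-- The weights of the modes in the energy. -/
noncomputable def Ew (p : Par) (i : ℕ) : ℝ := ∏ m ∈ Finset.range i, p.g m

theorem Ew_pos (p : Par) (i : ℕ) : 0 < Ew p i := Finset.prod_pos fun m _ => p.hg m

theorem Ew_succ (p : Par) (i : ℕ) : Ew p (i + 1) = Ew p i * p.g i := by
  unfold Ew
  rw [Finset.prod_range_succ]

theorem g_half (p : Par) (i : ℕ) : p.g i ≤ 1 / 2 := by
  have h1 := p.gΛ i
  have h2 := p.hΛ (i + 1)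
  have h3 := p.hg i
  nlinarith

theorem Ew_le (p : Par) (i : ℕ) : Ew p i ≤ (1 / 2) ^ i := by
  induction i with
  | zero => simp [Ew]
  | succ i ih =>
    rw [Ew_succ, pow_succ]
    exact mul_le_mul ih (g_half p i) (p.hg i).le (by positivity)

theorem Ew_anti (p : Par) {i j : ℕ} (hij : i ≤ j) : Ew p j ≤ Ew p i := by
  induction j with
  | zero =>
    have : i = 0 := by omega
    rw [this]
  | succ j ih =>
    rcases Nat.eq_or_lt_of_le hij with he | hlt
    · rw [he]
    · refine le_trans ?_ (ih (by omega))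
      rw [Ew_succ]
      have h1 := Ew_pos p j
      have h2 := g_half p j
      nlinarith

theorem Ew_le_one (p : Par) (i : ℕ) : Ew p i ≤ 1 := by
  have := Ew_anti p (Nat.zero_le i)
  simpa [Ew] using this

/-- The energy. -/
noncomputable def En (p : Par) (N : ℕ) (x : Fin (N + 1) → ℝ) : ℝ :=
  ∑ i : Fin (N + 1), Ew p i * x i ^ 2

theorem En_contDiff (p : Par) (N : ℕ) : ContDiff ℝ 1 (En p N) := by
  unfold En
  apply ContDiff.sum
  intro i _
  exact contDiff_const.mul ((contDiff_apply ℝ ℝ i).pow 2)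

theorem En_term_le (p : Par) (N : ℕ) (x : Fin (N + 1) → ℝ) (i : Fin (N + 1)) :
    x i ^ 2 ≤ (Ew p i)⁻¹ * En p N x := by
  have h1 : Ew p i * x i ^ 2 ≤ En p N x := by
    unfold En
    exact Finset.single_le_sum (f := fun i : Fin (N + 1) => Ew p i * x i ^ 2)
      (fun j _ => mul_nonneg (Ew_pos p j).le (sq_nonneg _)) (Finset.mem_univ i)
  have h2 := Ew_pos p i
  calc x i ^ 2 = (Ew p i)⁻¹ * (Ew p i * x i ^ 2) := by
        field_simp
    _ ≤ _ := mul_le_mul_of_nonneg_left h1 (by positivity)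

theorem En_compact (p : Par) (N : ℕ) (R : ℝ) : IsCompact {x | En p N x ≤ R} := by
  apply Metric.isCompact_of_isClosed_isBounded
  · exact isClosed_le (En_contDiff p N).continuous continuous_const
  · rw [isBounded_iff_forall_norm_le]
    have hN := Ew_pos p N
    refine ⟨(Ew p N)⁻¹ * (|R| + 1), ?_⟩
    intro x hx
    rw [pi_norm_le_iff_of_nonneg (by positivity)]
    intro i
    rw [Real.norm_eq_abs]
    apply abs_le_of_sq_le_sq _ (by positivity)
    have h1 := En_term_le p N x i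
    have h2 : En p N x ≤ |R| := le_trans hx (le_abs_self R)
    have hi := Ew_pos p i
    have h3 : (Ew p i)⁻¹ ≤ (Ew p N)⁻¹ :=
      inv_anti₀ hN (Ew_anti p (by have := i.2; omega))
    have h4 : 1 ≤ (Ew p N)⁻¹ := (one_le_inv₀ hN).2 (Ew_le_one p N)
    calc x i ^ 2 ≤ (Ew p i)⁻¹ * En p N x := h1
      _ ≤ (Ew p i)⁻¹ * |R| := mul_le_mul_of_nonneg_left h2 (by positivity)
      _ ≤ (Ew p N)⁻¹ * |R| := mul_le_mul_of_nonneg_right h3 (abs_nonneg R)
      _ ≤ (Ew p N)⁻¹ * (|R| + 1) ^ 2 := by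
          apply mul_le_mul_of_nonneg_left _ (by positivity)
          nlinarith [abs_nonneg R]
      _ ≤ (Ew p N)⁻¹ * ((Ew p N)⁻¹ * (|R| + 1) ^ 2) := by
          apply mul_le_mul_of_nonneg_left _ (by positivity)
          have : 0 ≤ (|R| + 1) ^ 2 := by positivity
          nlinarith
      _ = ((Ew p N)⁻¹ * (|R| + 1)) ^ 2 := by ring

theorem En_fderiv (p : Par) (N : ℕ) (x v : Fin (N + 1) → ℝ) :
    fderiv ℝ (En p N) x v = ∑ i : Fin (N + 1), 2 * (Ew p i * x i * v i) := by
  have h : HasFDerivAt (En p N) (∑ i : Fin (N + 1), (Ew p i) •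
      ((2 * x i ^ (2 - 1)) • (ContinuousLinearMap.proj (R := ℝ) (φ := fun _ => ℝ) i))) x := by
    unfold En
    apply HasFDerivAt.fun_sum
    intro i _
    have h1 : HasFDerivAt (fun y : Fin (N + 1) → ℝ => y i)
        (ContinuousLinearMap.proj (R := ℝ) (φ := fun _ => ℝ) i) x := hasFDerivAt_apply i x
    have h2 := (h1.pow 2).const_mul (Ew p i)
    simpa using h2
  rw [h.fderiv, sum_apply]
  apply Finset.sum_congr rfl
  intro i _
  simp
  ring

/-- The energy does not increase along the truncated flow. -/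
theorem En_decr (p : Par) (N : ℕ) (x : Fin (N + 1) → ℝ) :
    fderiv ℝ (En p N) x (vf p N x) ≤ 0 := by
  rw [En_fderiv]
  set X := ext x with hX
  set S : ℕ → ℝ := fun j => Ew p j * (p.e j * X j ^ 2 * X (j + 1) + X j * X (j + 1) ^ 2) with hS
  have e1 : ∀ i : Fin (N + 1), 2 * (Ew p i * x i * vf p N x i)
      = (fun j : ℕ => 2 * (-(p.d j * Ew p j * X (j + 1) ^ 2)
        + (S j - S (j + 1)))) (i : ℕ) := by
    intro i
    have hxi : x i = X ((i : ℕ) + 1) := (ext_succ x i).symm
    unfold vf rhs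
    simp only [← hX, hS, hxi, Ew_succ, Par.f]
    ring
  rw [Finset.sum_congr rfl (fun i _ => e1 i)]
  rw [Fin.sum_univ_eq_sum_range (fun j : ℕ => 2 * (-(p.d j * Ew p j
    * X (j + 1) ^ 2) + (S j - S (j + 1)))) (N + 1)]
  rw [← Finset.mul_sum, Finset.sum_add_distrib, Finset.sum_range_sub']
  have h0 : S 0 = 0 := by
    simp only [hS]
    have : X 0 = 0 := rfl
    rw [this]
    ring
  have h1 : S (N + 1) = 0 := by
    simp only [hS]
    have : X (N + 1 + 1) = 0 := ext_top x (by omega)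
    rw [this]
    ring
  rw [h0, h1]
  have h2 : ∑ j ∈ Finset.range (N + 1), -(p.d j * Ew p j * X (j + 1) ^ 2) ≤ 0 := by
    apply Finset.sum_nonpos
    intro j _
    have h3 := p.hd j
    have h4 := Ew_pos p j
    have : 0 ≤ p.d j * Ew p j * X (j + 1) ^ 2 := by positivity
    linarith
  linarith

/-- Initial data of the truncated system. -/
noncomputable def gdata (p : Par) (δ : ℝ) (k : ℕ) : ℝ :=
  p.a0 * ∏ m ∈ Finset.range k, (δ * (p.e (m + 1) * (1 / 100) ^ m))

theorem gdata_pos (p : Par) {δ : ℝ} (hδ : 0 < δ) (k : ℕ) : 0 < gdata p δ k := by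
  have h2 := p.ha0
  unfold gdata
  apply mul_pos h2
  apply Finset.prod_pos
  intro i _
  have := p.he (i + 1)
  positivity

theorem gdata_le (p : Par) {δ : ℝ} (hδ : 0 < δ) (hδ1 : δ ≤ 1) (k : ℕ) :
    gdata p δ (k + 1) ≤ δ * p.a0 := by
  have h2 := p.ha0
  unfold gdata
  rw [Finset.prod_range_succ']
  have h4 : ∏ m ∈ Finset.range k, (δ * (p.e (m + 1 + 1) * (1 / 100) ^ (m + 1))) ≤ 1 := by
    apply Finset.prod_le_one
    · intro i _
      have := p.he (i + 1 + 1)
      positivity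
    · intro i _
      have h1 := p.he (i + 1 + 1)
      have h3 := p.e_small (i + 1 + 1)
      have h5 : ((1 : ℝ) / 100) ^ (i + 1) ≤ 1 := pow_le_one₀ (by norm_num) (by norm_num)
      have h6 : (0 : ℝ) < (1 / 100) ^ (i + 1) := by positivity
      have h7 : p.e (i + 1 + 1) * (1 / 100) ^ (i + 1) ≤ 1 := by nlinarith
      have h8 : 0 < p.e (i + 1 + 1) * (1 / 100) ^ (i + 1) := by positivity
      nlinarith
  have h5 : 0 ≤ ∏ m ∈ Finset.range k, (δ * (p.e (m + 1 + 1) * (1 / 100) ^ (m + 1))) := by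
    apply Finset.prod_nonneg
    intro i _
    have := p.he (i + 1 + 1)
    positivity
  have h1 := p.he (0 + 1)
  have h3 := p.e_small (0 + 1)
  have h6 : δ * (p.e (0 + 1) * (1 / 100) ^ 0) ≤ δ := by
    rw [pow_zero, mul_one]
    nlinarith
  have h7 : 0 ≤ δ * (p.e (0 + 1) * (1 / 100) ^ 0) := by positivity
  calc p.a0 * ((∏ m ∈ Finset.range k, (δ * (p.e (m + 1 + 1) * (1 / 100) ^ (m + 1))))
        * (δ * (p.e (0 + 1) * (1 / 100) ^ 0)))
      ≤ p.a0 * (1 * δ) := by
        apply mul_le_mul_of_nonneg_left _ h2.le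
        exact mul_le_mul h4 h6 h7 (by norm_num)
    _ = δ * p.a0 := by ring

theorem gdata_le_a0 (p : Par) {δ : ℝ} (hδ : 0 < δ) (hδ1 : δ ≤ 1) (k : ℕ) :
    gdata p δ k ≤ p.a0 := by
  cases k with
  | zero => simp [gdata]
  | succ k =>
    refine (gdata_le p hδ hδ1 k).trans ?_
    have h2 := p.ha0
    nlinarith

/-- Existence of truncated solutions. -/
theorem exists_trunc (p : Par) (N : ℕ) {δ : ℝ} (hδ : 0 < δ) (hδ1 : δ ≤ 1) :
    ∃ A Φ : ℕ → ℝ → ℝ, TSys p N A Φ ∧ (∀ k ≤ N, A (k + 1) 0 = gdata p δ k) ∧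
      ∀ t ∈ Icc 0 p.T, ∀ i ≤ N, |A (i + 1) t| ≤ 2 * p.a0 * (Ew p i)⁻¹ := by
  have ha0 := p.ha0
  set x₀ : Fin (N + 1) → ℝ := fun i => gdata p δ i with hx₀
  obtain ⟨α, hα0, hαc, hα, hEn⟩ := exists_global (vf p N) (vf_contDiff p N) (En p N)
    (En_contDiff p N) (En_compact p N) (En_decr p N) x₀ p.Tpos.le
  set A : ℕ → ℝ → ℝ := fun j t => ext (α t) j with hA
  have hAc : ∀ j, ContinuousOn (A j) (Icc (-1) (p.T + 1)) := fun j =>
    ((ext_contDiff (N := N) j).continuous).comp_continuousOn hαc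
  have hAi : ∀ (i : ℕ) (hi : i ≤ N) (t : ℝ), A (i + 1) t = α t ⟨i, by omega⟩ := by
    intro i hi t
    exact ext_succ (α t) ⟨i, by omega⟩
  have h0 : ∀ k ≤ N, A (k + 1) 0 = gdata p δ k := by
    intro k hk
    rw [hAi k hk, hα0]
  refine ⟨A, fun j t => ∫ s in (0 : ℝ)..t, A j s, ?_, h0, ?_⟩
  · refine ⟨fun t => rfl, fun j t hj => ext_top (α t) hj, ?_, ?_, ?_, ?_, ?_, ?_⟩
    · intro i hi t ht
      have h1 := hα t ht
      rw [hasDerivAt_pi] at h1
      have h2 := h1 ⟨i, by omega⟩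
      have h3 : A (i + 1) = fun t => α t ⟨i, by omega⟩ := funext (hAi i hi)
      rw [h3]
      exact h2
    · intro j t ht
      have hT := p.Tpos
      apply intervalIntegral.integral_hasDerivAt_right
      · apply ContinuousOn.intervalIntegrable
        apply (hAc j).mono
        rw [uIcc_of_le ht.1]
        intro x hx
        exact ⟨by linarith [hx.1], by linarith [hx.2, ht.2]⟩
      · exact ContinuousOn.stronglyMeasurableAtFilter isOpen_Ioo
          ((hAc j).mono Ioo_subset_Icc_self) t ⟨by linarith [ht.1], by linarith [ht.2]⟩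
      · exact (hAc j).continuousAt (Icc_mem_nhds (by linarith [ht.1]) (by linarith [ht.2]))
    · intro j
      simp
    · rw [h0 0 (Nat.zero_le _)]
      simp [gdata]
    · intro i hi
      rw [h0 i hi]
      exact gdata_pos p hδ i
    · intro k
      have he := p.he (k + 1)
      by_cases hk : k + 1 ≤ N
      · rw [h0 (k + 1) hk, h0 k (by omega)]
        have e : gdata p δ (k + 1) = gdata p δ k * (δ * (p.e (k + 1) * (1 / 100) ^ k)) := by
          unfold gdata
          rw [Finset.prod_range_succ]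
          ring
        rw [e]
        have h1 := gdata_pos p hδ k
        have h2 : 0 < p.e (k + 1) * (1 / 100) ^ k := by positivity
        have h3 : δ * (p.e (k + 1) * (1 / 100) ^ k) ≤ p.e (k + 1) * (1 / 100) ^ k := by nlinarith
        nlinarith
      · have e : A (k + 2) 0 = 0 := ext_top (α 0) (by omega)
        rw [e]
        have h3 : 0 ≤ A (k + 1) 0 := by
          by_cases hk' : k ≤ N
          · rw [h0 k hk']
            exact (gdata_pos p hδ k).le
          · have : A (k + 1) 0 = 0 := ext_top (α 0) (by omega)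
            rw [this]
        positivity
  · intro t ht i hi
    rw [hAi i hi]
    have h1 := En_term_le p N (α t) ⟨i, by omega⟩
    have h2 := hEn t ht
    have h3 : En p N x₀ ≤ 2 * p.a0 ^ 2 := by
      unfold En
      have h4 : ∀ i : Fin (N + 1), Ew p i * x₀ i ^ 2
          ≤ (fun j : ℕ => (1 / 2 : ℝ) ^ j * p.a0 ^ 2) (i : ℕ) := by
        intro i
        have h5 : x₀ i ^ 2 ≤ p.a0 ^ 2 :=
          pow_le_pow_left₀ (gdata_pos p hδ i).le (gdata_le_a0 p hδ hδ1 i) 2
        exact mul_le_mul (Ew_le p i) h5 (by positivity) (by positivity)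
      refine (Finset.sum_le_sum fun i _ => h4 i).trans ?_
      rw [Fin.sum_univ_eq_sum_range (fun j : ℕ => (1 / 2 : ℝ) ^ j * p.a0 ^ 2) (N + 1),
        ← Finset.sum_mul]
      apply mul_le_mul_of_nonneg_right _ (by positivity)
      have h7 := geom_sum_eq (x := (1 / 2 : ℝ)) (by norm_num) (N + 1)
      rw [h7]
      have h8 : (0 : ℝ) < (1 / 2) ^ (N + 1) := by positivity
      have h9 : ((1 / 2 : ℝ) ^ (N + 1) - 1) / (1 / 2 - 1) = 2 * (1 - (1 / 2) ^ (N + 1)) := by
        ring
      rw [h9]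
      linarith
    have hE := Ew_pos p i
    have hE1 : 1 ≤ (Ew p i)⁻¹ := (one_le_inv₀ hE).2 (Ew_le_one p i)
    apply abs_le_of_sq_le_sq _ (by positivity)
    calc α t ⟨i, by omega⟩ ^ 2 ≤ (Ew p i)⁻¹ * En p N (α t) := h1
      _ ≤ (Ew p i)⁻¹ * (2 * p.a0 ^ 2) := by
          apply mul_le_mul_of_nonneg_left (h2.trans h3) (by positivity)
      _ ≤ (2 * p.a0 * (Ew p i)⁻¹) ^ 2 := by
          have e : (2 * p.a0 * (Ew p i)⁻¹) ^ 2
              = (Ew p i)⁻¹ * ((Ew p i)⁻¹ * (4 * p.a0 ^ 2)) := by ring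
          rw [e]
          apply mul_le_mul_of_nonneg_left _ (by positivity)
          have : 0 < p.a0 ^ 2 := by positivity
          nlinarith

end Pool.Agent.Run7.h407.G
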