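import Mathlib
import Pool.Agent.Run7.h407.G.Trunc

/-!
Passage to the limit: a solution of the infinite reduced system that decays rapidly in the
index before some finite time and blows up there.
-/

namespace Pool.Agent.Run7.h407.G

open Set Filter Topology MeasureTheory

/-- Solutions of the infinite reduced system with datum `(a0, 0, 0, …)`, blowing up at `Tb`. -/
structure Sol (p : Par) (Tb : ℝ) (A : ℕ → ℝ → ℝ) : Prop where
  Tpos : 0 < Tb
  Tle : Tb ≤ 9 * p.Λ 0 / p.a0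
  cont : ∀ j, Continuous (A j)
  zero : ∀ t, A 0 t = 0
  eqn : ∀ i, ∀ t ∈ Ico 0 Tb, A (i + 1) t = A (i + 1) 0 + ∫ s in (0 : ℝ)..t, rhs p A i s
  init0 : A 1 0 = p.a0
  init1 : ∀ k, A (k + 2) 0 = 0
  decay : ∀ w, Wt p w → ∀ b < Tb, ∀ k : ℕ, ∃ C, ∀ j, ∀ t ∈ Icc 0 b, |A j t| * w j ^ k ≤ C
  nonneg : ∀ j, ∀ t ∈ Ico 0 Tb, 0 ≤ A j t
  low : ∀ n, ∃ σ, 0 ≤ σ ∧ σ < Tb ∧ ∀ t ∈ Ioo σ Tb, p.a0 / 2 * (1.5 ^ n * p.PL n) ≤ A (n + 1) t
  upp : ∀ n, ∀ t ∈ Ico 0 Tb, A (n + 1) t ≤ p.a0 * (8 ^ n * p.PL n)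

/-- Uniform bound of the modes of the truncated systems. -/
noncomputable def Bj (p : Par) (j : ℕ) : ℝ := 2 * p.a0 * (Ew p j)⁻¹

theorem Bj_nonneg (p : Par) (j : ℕ) : 0 ≤ Bj p j := by
  have h1 := p.ha0
  have h2 := Ew_pos p j
  unfold Bj
  positivity

/-- Uniform Lipschitz constant of the modes. -/
noncomputable def Lc (p : Par) (i : ℕ) : ℝ :=
  p.d i * Bj p (i + 1) + Bj p i * Bj p (i + 1) + p.e i * Bj p i ^ 2
    + p.f i * Bj p (i + 1) * Bj p (i + 2) + p.g i * Bj p (i + 2) ^ 2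

theorem rhs_bound (p : Par) {A : ℕ → ℝ → ℝ} {t : ℝ} (h : ∀ j, |A j t| ≤ Bj p j) (i : ℕ) :
    |rhs p A i t| ≤ Lc p i := by
  have hd := p.hd i
  have he := (p.he i).le
  have hf := (p.f_pos i).le
  have hg := (p.hg i).le
  have h0 := h i
  have h1 := h (i + 1)
  have h2 := h (i + 2)
  have b0 := Bj_nonneg p i
  have b1 := Bj_nonneg p (i + 1)
  have b2 := Bj_nonneg p (i + 2)
  have e1 : |(-(p.d i) * A (i + 1) t)| ≤ p.d i * Bj p (i + 1) := by
    rw [abs_mul, abs_neg, abs_of_nonneg hd]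
    exact mul_le_mul_of_nonneg_left h1 hd
  have e2 : |A i t * A (i + 1) t| ≤ Bj p i * Bj p (i + 1) := by
    rw [abs_mul]
    exact mul_le_mul h0 h1 (abs_nonneg _) b0
  have e3 : |p.e i * A i t ^ 2| ≤ p.e i * Bj p i ^ 2 := by
    rw [abs_mul, abs_of_nonneg he, abs_pow]
    apply mul_le_mul_of_nonneg_left _ he
    exact pow_le_pow_left₀ (abs_nonneg _) h0 2
  have e4 : |p.f i * A (i + 1) t * A (i + 2) t| ≤ p.f i * Bj p (i + 1) * Bj p (i + 2) := by
    rw [abs_mul, abs_mul, abs_of_nonneg hf]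
    exact mul_le_mul (mul_le_mul_of_nonneg_left h1 hf) h2 (abs_nonneg _)
      (mul_nonneg hf b1)
  have e5 : |p.g i * A (i + 2) t ^ 2| ≤ p.g i * Bj p (i + 2) ^ 2 := by
    rw [abs_mul, abs_of_nonneg hg, abs_pow]
    apply mul_le_mul_of_nonneg_left _ hg
    exact pow_le_pow_left₀ (abs_nonneg _) h2 2
  unfold rhs Lc
  rw [abs_le] at *
  constructor <;> linarith [e1.1, e1.2, e2.1, e2.2, e3.1, e3.2, e4.1, e4.2, e5.1, e5.2]

theorem trunc_bound {p : Par} {N : ℕ} {A Φ : ℕ → ℝ → ℝ} (h : TSys p N A Φ)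
    (hb : ∀ t ∈ Icc 0 p.T, ∀ i ≤ N, |A (i + 1) t| ≤ 2 * p.a0 * (Ew p i)⁻¹) {t : ℝ}
    (ht : t ∈ Icc 0 p.T) (j : ℕ) : |A j t| ≤ Bj p j := by
  rcases Nat.eq_zero_or_pos j with hj | hj
  · subst hj
    rw [h.zero, abs_zero]
    exact Bj_nonneg p 0
  · obtain ⟨i, rfl⟩ : ∃ i, j = i + 1 := ⟨j - 1, by omega⟩
    by_cases hi : i ≤ N
    · refine (hb t ht i hi).trans ?_
      unfold Bj
      have h1 := p.ha0
      apply mul_le_mul_of_nonneg_left _ (by positivity)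
      exact inv_anti₀ (Ew_pos p _) (Ew_anti p (by omega))
    · rw [h.top (i + 1) t (by omega), abs_zero]
      exact Bj_nonneg p _

theorem trunc_lip {p : Par} {N : ℕ} {A Φ : ℕ → ℝ → ℝ} (h : TSys p N A Φ)
    (hb : ∀ t ∈ Icc 0 p.T, ∀ i ≤ N, |A (i + 1) t| ≤ 2 * p.a0 * (Ew p i)⁻¹) (i : ℕ) {a b : ℝ}
    (ha : 0 ≤ a) (hab : a ≤ b) (hbT : b ≤ p.T) :
    |A (i + 1) b - A (i + 1) a| ≤ Lc p i * (b - a) := by
  have hsub : ∀ x ∈ Icc a b, x ∈ Icc 0 p.T := fun x hx => ⟨ha.trans hx.1, hx.2.trans hbT⟩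
  have hL : ∀ x ∈ Icc a b, |rhs p A i x| ≤ Lc p i := fun x hx =>
    rhs_bound p (trunc_bound h hb (hsub x hx)) i
  by_cases hi : i ≤ N
  · have h1 := incr_le (f := fun x => A (i + 1) x) (f' := fun x => rhs p A i x)
      (g := fun x => Lc p i * x) (g' := fun _ => Lc p i * 1) hab
      (fun x hx => h.ode i hi x (hsub x hx)) (fun x _ => (hasDerivAt_id x).const_mul _)
      (fun x hx => by
        rw [mul_one]
        exact (le_abs_self _).trans (hL x (Ioo_subset_Icc_self hx)))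
    have h2 := incr_le (f := fun x => -A (i + 1) x) (f' := fun x => -rhs p A i x)
      (g := fun x => Lc p i * x) (g' := fun _ => Lc p i * 1) hab
      (fun x hx => (h.ode i hi x (hsub x hx)).neg) (fun x _ => (hasDerivAt_id x).const_mul _)
      (fun x hx => by
        rw [mul_one]
        exact (neg_le_abs _).trans (hL x (Ioo_subset_Icc_self hx)))
    rw [abs_le]
    constructor <;> linarith
  · rw [h.top (i + 1) b (by omega), h.top (i + 1) a (by omega), sub_zero, abs_zero]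
    have := (abs_nonneg _).trans (hL a ⟨le_rfl, hab⟩)
    exact mul_nonneg this (by linarith)

theorem trunc_eqn {p : Par} {N : ℕ} {A Φ : ℕ → ℝ → ℝ} (h : TSys p N A Φ) {i : ℕ}
    (hi : i ≤ N) {t : ℝ} (ht : t ∈ Icc 0 p.T) :
    A (i + 1) t = A (i + 1) 0 + ∫ s in (0 : ℝ)..t, rhs p A i s := by
  have hsub : uIcc 0 t ⊆ Icc 0 p.T := by
    rw [uIcc_of_le ht.1]
    exact Icc_subset_Icc_right ht.2
  have hc : ∀ j, ContinuousOn (A j) (uIcc 0 t) := fun j => (h.cont j).mono hsub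
  have hrc : ContinuousOn (rhs p A i) (uIcc 0 t) := by
    unfold rhs
    exact ((((continuousOn_const.mul (hc _)).add ((hc _).mul (hc _))).add
      (continuousOn_const.mul ((hc _).pow 2))).sub
      ((continuousOn_const.mul (hc _)).mul (hc _))).sub (continuousOn_const.mul ((hc _).pow 2))
  have := intervalIntegral.integral_eq_sub_of_hasDerivAt (a := 0) (b := t)
    (f := A (i + 1)) (f' := rhs p A i) (fun x hx => h.ode i hi x (hsub hx))
    hrc.intervalIntegrable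
  rw [this]
  ring

/-- The set of admissible functions for the `j`-th mode. -/
def Kset (p : Par) (j : ℕ) : Set (BoundedContinuousFunction (Icc (0 : ℝ) p.T) ℝ) :=
  closure {f | (∀ x, f x ∈ Icc (-(Bj p j)) (Bj p j)) ∧
    ∀ x y : Icc (0 : ℝ) p.T, |f x - f y| ≤ Lc p (j - 1) * |(x : ℝ) - y|}

theorem Kset_compact (p : Par) (j : ℕ) : IsCompact (Kset p j) := by
  apply BoundedContinuousFunction.arzela_ascoli (Icc (-(Bj p j)) (Bj p j)) isCompact_Icc
  · intro f x hf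
    exact hf.1 x
  · apply Metric.equicontinuous_of_continuity_modulus (fun r => |Lc p (j - 1)| * r)
    · have : Tendsto (fun r : ℝ => |Lc p (j - 1)| * r) (𝓝 0) (𝓝 (|Lc p (j - 1)| * 0)) :=
        tendsto_id.const_mul _
      simpa using this
    · intro x y f
      rw [Real.dist_eq]
      refine (f.2.2 x y).trans ?_
      have e : dist x y = |(x : ℝ) - y| := rfl
      rw [e]
      exact mul_le_mul_of_nonneg_right (le_abs_self _) (abs_nonneg _)

end Pool.Agent.Run7.h407.G
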