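import Mathlib
import Pool.Agent.Run7.h407.G.Limit

/-!
Existence of a blowing-up solution of the infinite reduced system.
-/

namespace Pool.Agent.Run7.h407.G

open Set Filter Topology MeasureTheory

theorem Lc_nonneg (p : Par) (i : ℕ) : 0 ≤ Lc p i := by
  have hd := p.hd i
  have he := (p.he i).le
  have hf := (p.f_pos i).le
  have hg := (p.hg i).le
  have b0 := Bj_nonneg p i
  have b1 := Bj_nonneg p (i + 1)
  have b2 := Bj_nonneg p (i + 2)
  unfold Lc
  positivity

theorem nine_lt_T (p : Par) : 9 * p.Λ 0 / p.a0 ≤ p.T := by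
  have hΛ := p.Λpos 0
  have ha0 := p.ha0
  unfold Par.T
  apply div_le_div_of_nonneg_right _ ha0.le
  linarith

theorem Wt_one (p : Par) (he0 : Tendsto p.e atTop (𝓝 0)) : Wt p (fun _ => 1) where
  pos := fun _ => one_pos
  rapid := fun k => by
    have h1 : Tendsto (fun i => p.e (i + 1)) atTop (𝓝 0) :=
      he0.comp (tendsto_add_atTop_nat 1)
    simpa using h1

theorem exists_sol (p : Par) (he0 : Tendsto p.e atTop (𝓝 0)) : ∃ (Tb : ℝ) (A : ℕ → ℝ → ℝ), Sol p Tb A := by
  have hTp := p.Tpos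
  have ha0 := p.ha0
  choose AA ΦΦ hT hg hb using fun N : ℕ => exists_trunc p N (δ := 1 / ((N : ℝ) + 1))
    (by positivity) (by
      rw [div_le_one (by positivity)]
      linarith [(Nat.cast_nonneg N : (0 : ℝ) ≤ N)])
  set F : ℕ → ℕ → BoundedContinuousFunction (Icc (0 : ℝ) p.T) ℝ := fun N j =>
    BoundedContinuousFunction.mkOfCompact ⟨fun x => AA N j x,
      continuousOn_iff_continuous_domRestrict.1 ((hT N).cont j)⟩ with hF
  set τ' : ℕ → ℕ → Icc (0 : ℝ) p.T := fun N n =>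
    ⟨tau p (AA N) n, TSys.tau_nonneg n, TSys.tau_le n⟩ with hτ'
  have hFv : ∀ N j x, F N j x = AA N j x := fun N j x => rfl
  have hmem : ∀ N, (F N, τ' N) ∈ (Set.pi univ (Kset p)) ×ˢ (univ : Set (ℕ → Icc (0 : ℝ) p.T)) := by
    intro N
    refine ⟨?_, mem_univ _⟩
    intro j _
    apply subset_closure
    refine ⟨fun x => abs_le.1 (trunc_bound (hT N) (hb N) x.2 j), ?_⟩
    intro x y
    show |AA N j x - AA N j y| ≤ Lc p (j - 1) * |(x : ℝ) - y|
    rcases Nat.eq_zero_or_pos j with hj | hj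
    · subst hj
      rw [(hT N).zero, (hT N).zero, sub_zero, abs_zero]
      exact mul_nonneg (Lc_nonneg p _) (abs_nonneg _)
    · obtain ⟨i, rfl⟩ : ∃ i, j = i + 1 := ⟨j - 1, by omega⟩
      have e : i + 1 - 1 = i := by omega
      rw [e]
      rcases le_total (x : ℝ) y with hxy | hxy
      · have := trunc_lip (hT N) (hb N) i x.2.1 hxy y.2.2
        rw [abs_sub_comm, abs_sub_comm (x : ℝ) y, abs_of_nonneg (sub_nonneg.2 hxy)]
        exact this
      · have := trunc_lip (hT N) (hb N) i y.2.1 hxy x.2.2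
        rw [abs_of_nonneg (sub_nonneg.2 hxy)]
        exact this
  have hcpt : IsCompact ((Set.pi univ (Kset p)) ×ˢ (univ : Set (ℕ → Icc (0 : ℝ) p.T))) :=
    (isCompact_univ_pi (Kset_compact p)).prod isCompact_univ
  obtain ⟨⟨G, σ⟩, _, φ, hφ, hlim⟩ := hcpt.tendsto_subseq hmem
  have hφt : Tendsto φ atTop atTop := hφ.tendsto_atTop
  have hlimF : ∀ j, Tendsto (fun k => F (φ k) j) atTop (𝓝 (G j)) := by
    have h1 : Tendsto (fun k => F (φ k)) atTop (𝓝 G) := (continuous_fst.tendsto (G, σ)).comp hlim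
    exact fun j => (tendsto_pi_nhds.1 h1) j
  have hlimσ : ∀ n, Tendsto (fun k => τ' (φ k) n) atTop (𝓝 (σ n)) := by
    have h1 : Tendsto (fun k => τ' (φ k)) atTop (𝓝 σ) := (continuous_snd.tendsto (G, σ)).comp hlim
    exact fun j => (tendsto_pi_nhds.1 h1) j
  have heval : ∀ j (x : ℕ → Icc (0 : ℝ) p.T) y, Tendsto x atTop (𝓝 y) →
      Tendsto (fun k => F (φ k) j (x k)) atTop (𝓝 (G j y)) := by
    intro j x y hx
    exact (continuous_eval.tendsto (G j, y)).comp ((hlimF j).prodMk_nhds hx)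
  set A : ℕ → ℝ → ℝ := fun j t => G j (projIcc 0 p.T hTp.le t) with hA
  have hAc : ∀ j, Continuous (A j) := fun j => (G j).continuous.comp continuous_projIcc
  have hAm : ∀ j (t : ℝ) (ht : t ∈ Icc 0 p.T), A j t = G j ⟨t, ht⟩ := by
    intro j t ht
    rw [hA]
    simp only
    rw [projIcc_of_mem hTp.le ht]
  have hpt : ∀ j, ∀ t ∈ Icc 0 p.T, Tendsto (fun k => AA (φ k) j t) atTop (𝓝 (A j t)) := by
    intro j t ht
    rw [hAm j t ht]
    exact heval j (fun _ => ⟨t, ht⟩) ⟨t, ht⟩ tendsto_const_nhds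
  have hpt2 : ∀ j n, Tendsto (fun k => AA (φ k) j (tau p (AA (φ k)) n)) atTop
      (𝓝 (A j (σ n))) := by
    intro j n
    rw [hAm j (σ n) (σ n).2]
    exact heval j (fun k => τ' (φ k) n) (σ n) (hlimσ n)
  have hσv : ∀ n, Tendsto (fun k => tau p (AA (φ k)) n) atTop (𝓝 (σ n : ℝ)) := by
    intro n
    exact (continuous_subtype_val.tendsto (σ n)).comp (hlimσ n)
  have hev : ∀ n : ℕ, ∀ᶠ k in atTop, n ≤ φ k := fun n => hφt.eventually_ge_atTop n
  have hσle : ∀ n, (σ n : ℝ) ≤ 9 * p.Λ 0 / p.a0 := fun n =>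
    le_of_tendsto (hσv n) ((hev n).mono fun k hk => tau_le_nine (hT (φ k)) hk)
  have hσmono : ∀ n m, n ≤ m → (σ n : ℝ) ≤ σ m := fun n m hnm =>
    le_of_tendsto_of_tendsto (hσv n) (hσv m)
      ((hev m).mono fun k hk => tau_mono (hT (φ k)) hnm hk)
  have hbd1 : ∀ n j, ∀ t ∈ Ico 0 (σ n : ℝ), 0 ≤ A j t ∧ A j t ≤ Bd p n j := by
    intro n j t ht
    have htm : t ∈ Icc 0 p.T := ⟨ht.1, ht.2.le.trans (σ n).2.2⟩
    have hev2 : ∀ᶠ k in atTop, t < tau p (AA (φ k)) n := (hσv n).eventually (lt_mem_nhds ht.2)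
    constructor
    · apply ge_of_tendsto (hpt j t htm)
      filter_upwards [hev2, hev n] with k hk hk2
      exact Reg.nonneg (hT (φ k)) (reg_all (hT (φ k)))
        (tauN_mem (hT (φ k)) hk2 ⟨ht.1, hk.le⟩) j
    · apply le_of_tendsto (hpt j t htm)
      filter_upwards [hev2, hev n] with k hk hk2
      exact mode_le_Bd (hT (φ k)) hk2 ⟨ht.1, hk.le⟩ j
  have hbd2 : ∀ n j, A j (σ n) ≤ Bd p n j := by
    intro n j
    apply le_of_tendsto (hpt2 j n)
    filter_upwards [hev n] with k hk2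
    exact mode_le_Bd (hT (φ k)) hk2 ⟨TSys.tau_nonneg n, le_rfl⟩ j
  have hsize : ∀ n, p.a0 / 2 * p.PL n ≤ A (n + 1) (σ n) := by
    intro n
    apply ge_of_tendsto (hpt2 (n + 1) n)
    filter_upwards [hev n] with k hk2
    exact size_at_tau (hT (φ k)) hk2
  have hstrict : ∀ n, ∃ m, (σ n : ℝ) < σ m := by
    intro n
    by_contra hcon
    push Not at hcon
    obtain ⟨C, hC⟩ := Bd_rapid p (Wt_one p he0) n 1
    have h1 : ∀ m, n ≤ m → p.a0 / 2 * p.PL m ≤ C := by
      intro m hm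
      have e : (σ m : ℝ) = σ n := le_antisymm (hcon m) (hσmono n m hm)
      have h2 := hsize m
      rw [e] at h2
      have h3 := hbd2 n (m + 1)
      have h4 := hC (m + 1)
      rw [one_pow, mul_one] at h4
      linarith
    have h2 : Tendsto (fun m : ℕ => (1000 : ℝ) ^ m) atTop atTop :=
      tendsto_pow_atTop_atTop_of_one_lt (by norm_num)
    have h3 : Tendsto (fun m : ℕ => p.a0 / 2 * (1000 : ℝ) ^ m) atTop atTop :=
      h2.const_mul_atTop (by linarith)
    obtain ⟨m, hm⟩ := (h3.eventually_gt_atTop C).exists_forall_of_atTop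
    have h4 := hm (max m n) (le_max_left _ _)
    have h5 := h1 (max m n) (le_max_right _ _)
    have h6 := mul_le_mul_of_nonneg_left (PL_ge p (max m n)) (show 0 ≤ p.a0 / 2 by linarith)
    linarith
  have hbdd : BddAbove (range fun n => (σ n : ℝ)) := by
    refine ⟨9 * p.Λ 0 / p.a0, ?_⟩
    rintro _ ⟨n, rfl⟩
    exact hσle n
  set Tb : ℝ := ⨆ n, (σ n : ℝ) with hTb
  have hltTb : ∀ n, (σ n : ℝ) < Tb := by
    intro n
    obtain ⟨m, hm⟩ := hstrict n
    exact hm.trans_le (le_ciSup hbdd m)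
  have hTb9 : Tb ≤ 9 * p.Λ 0 / p.a0 := ciSup_le hσle
  have hTbT : Tb ≤ p.T := hTb9.trans (nine_lt_T p)
  have hex : ∀ b < Tb, ∃ n, b < (σ n : ℝ) := fun b hb => exists_lt_of_lt_ciSup hb
  have hTbpos : 0 < Tb := (σ 0).2.1.trans_lt (hltTb 0)
  refine ⟨Tb, A, hTbpos, hTb9, hAc, ?_, ?_, ?_, ?_, ?_, ?_, ?_, ?_⟩
  · -- `A 0 = 0`
    intro t
    have h1 : ∀ x, G 0 x = 0 := by
      intro x
      have h2 := heval 0 (fun _ => x) x tendsto_const_nhds
      have h3 : (fun k => F (φ k) 0 x) = fun _ => (0 : ℝ) := by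
        funext k
        exact (hT (φ k)).zero x
      rw [h3] at h2
      exact tendsto_nhds_unique h2 tendsto_const_nhds |>.symm ▸ rfl
    exact h1 _
  · -- the equation
    intro i t ht
    have htm : t ∈ Icc 0 p.T := ⟨ht.1, ht.2.le.trans hTbT⟩
    have h0m : (0 : ℝ) ∈ Icc 0 p.T := ⟨le_rfl, hTp.le⟩
    have h1 : Tendsto (fun k => AA (φ k) (i + 1) t) atTop (𝓝 (A (i + 1) t)) := hpt _ t htm
    have h2 : Tendsto (fun k => AA (φ k) (i + 1) 0 + ∫ s in (0 : ℝ)..t, rhs p (AA (φ k)) i s)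
        atTop (𝓝 (A (i + 1) 0 + ∫ s in (0 : ℝ)..t, rhs p A i s)) := by
      apply (hpt _ 0 h0m).add
      apply intervalIntegral.tendsto_integral_filter_of_dominated_convergence
        (fun _ => Lc p i)
      · apply Eventually.of_forall
        intro k
        have hsub : uIoc 0 t ⊆ Icc 0 p.T := by
          rw [uIoc_of_le ht.1]
          exact fun x hx => ⟨hx.1.le, hx.2.trans htm.2⟩
        have hc : ∀ j, ContinuousOn (AA (φ k) j) (uIoc 0 t) := fun j =>
          ((hT (φ k)).cont j).mono hsub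
        have hrc : ContinuousOn (rhs p (AA (φ k)) i) (uIoc 0 t) := by
          unfold rhs
          exact ((((continuousOn_const.mul (hc _)).add ((hc _).mul (hc _))).add
            (continuousOn_const.mul ((hc _).pow 2))).sub
            ((continuousOn_const.mul (hc _)).mul (hc _))).sub (continuousOn_const.mul ((hc _).pow 2))
        exact hrc.aestronglyMeasurable measurableSet_uIoc
      · apply Eventually.of_forall
        intro k
        apply Eventually.of_forall
        intro x hx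
        rw [uIoc_of_le ht.1] at hx
        exact rhs_bound p (trunc_bound (hT (φ k)) (hb (φ k)) ⟨hx.1.le, hx.2.trans htm.2⟩) i
      · exact intervalIntegrable_const
      · apply Eventually.of_forall
        intro x hx
        rw [uIoc_of_le ht.1] at hx
        have hxm : x ∈ Icc 0 p.T := ⟨hx.1.le, hx.2.trans htm.2⟩
        have hc : ∀ j, Tendsto (fun k => AA (φ k) j x) atTop (𝓝 (A j x)) := fun j => hpt j x hxm
        unfold rhs
        exact ((((tendsto_const_nhds.mul (hc _)).add ((hc _).mul (hc _))).add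
          (tendsto_const_nhds.mul ((hc _).pow 2))).sub
          ((tendsto_const_nhds.mul (hc _)).mul (hc _))).sub (tendsto_const_nhds.mul ((hc _).pow 2))
    apply tendsto_nhds_unique (h1.congr' _) h2
    filter_upwards [hev i] with k hk
    exact trunc_eqn (hT (φ k)) hk htm
  · -- initial value of the first mode
    have h0m : (0 : ℝ) ∈ Icc 0 p.T := ⟨le_rfl, hTp.le⟩
    have h1 := hpt 1 0 h0m
    have h2 : (fun k => AA (φ k) 1 0) = fun _ => p.a0 := funext fun k => (hT (φ k)).init0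
    rw [h2] at h1
    exact tendsto_nhds_unique h1 tendsto_const_nhds
  · -- initial value of the other modes
    intro k
    have h0m : (0 : ℝ) ∈ Icc 0 p.T := ⟨le_rfl, hTp.le⟩
    have h1 := hpt (k + 2) 0 h0m
    have h2 : Tendsto (fun l => AA (φ l) (k + 2) 0) atTop (𝓝 0) := by
      have h3 : Tendsto (fun l : ℕ => 1 / ((φ l : ℝ) + 1) * p.a0) atTop (𝓝 (0 * p.a0)) :=
        (tendsto_one_div_add_atTop_nhds_zero_nat.comp hφt).mul_const _
      rw [zero_mul] at h3
      apply tendsto_of_tendsto_of_tendsto_of_le_of_le' tendsto_const_nhds h3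
      · filter_upwards [hev (k + 1)] with l hl
        rw [hg (φ l) (k + 1) hl]
        exact (gdata_pos p (by positivity) _).le
      · filter_upwards [hev (k + 1)] with l hl
        rw [hg (φ l) (k + 1) hl]
        apply gdata_le p (by positivity)
        rw [div_le_one (by positivity)]
        linarith [(Nat.cast_nonneg (φ l) : (0 : ℝ) ≤ φ l)]
    exact tendsto_nhds_unique h1 h2
  · -- rapid decay
    intro w hw b hbT k
    obtain ⟨n, hn⟩ := hex b hbT
    obtain ⟨C, hC⟩ := Bd_rapid p hw n k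
    refine ⟨C, fun j t ht => ?_⟩
    have h1 := hbd1 n j t ⟨ht.1, ht.2.trans_lt hn⟩
    rw [abs_of_nonneg h1.1]
    exact (mul_le_mul_of_nonneg_right h1.2 (pow_nonneg (hw.pos j).le k)).trans (hC j)
  · -- nonnegativity
    intro j t ht
    obtain ⟨n, hn⟩ := hex t ht.2
    exact (hbd1 n j t ⟨ht.1, hn⟩).1
  · -- lower bound after `σ n`
    intro n
    refine ⟨σ n, (σ n).2.1, hltTb n, fun t ht => ?_⟩
    have htm : t ∈ Icc 0 p.T := ⟨(σ n).2.1.trans ht.1.le, ht.2.le.trans hTbT⟩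
    obtain ⟨m, hm⟩ := hex t ht.2
    have hev1 : ∀ᶠ k in atTop, tau p (AA (φ k)) n < t := (hσv n).eventually (gt_mem_nhds ht.1)
    have hev2 : ∀ᶠ k in atTop, t < tau p (AA (φ k)) m := (hσv m).eventually (lt_mem_nhds hm)
    apply ge_of_tendsto (hpt (n + 1) t htm)
    filter_upwards [hev1, hev2, hev n, hev m] with k h1 h2 h3 h4
    exact size_after (hT (φ k)) h3 h1.le (h2.le.trans (tau_mono (hT (φ k)) h4 le_rfl))
  · -- upper bound
    intro n t ht
    have htm : t ∈ Icc 0 p.T := ⟨ht.1, ht.2.le.trans hTbT⟩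
    obtain ⟨m, hm⟩ := hex t ht.2
    have hev2 : ∀ᶠ k in atTop, t < tau p (AA (φ k)) m := (hσv m).eventually (lt_mem_nhds hm)
    apply le_of_tendsto (hpt (n + 1) t htm)
    filter_upwards [hev2, hev m] with k h2 h4
    exact mode_le (hT (φ k)) ⟨ht.1, h2.le.trans (tau_mono (hT (φ k)) h4 le_rfl)⟩ n

end Pool.Agent.Run7.h407.G
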