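import Mathlib
import Pool.Agent.Run7.h407.Smooth

/-!
Joint smoothness of series `∑ f_j(t) φ(r_j x - z_j)` with coefficients which decay faster than
every power of a weight `w_j` while `r_j` is bounded by a power of `w_j`.
-/

namespace Pool.Agent.Run7.h407.G

open Set Filter Topology MeasureTheory
open scoped ContDiff

/-- Weights. -/
structure Wgt (w : ℕ → ℝ) : Prop where
  pow2 : ∀ j, (2 : ℝ) ^ j ≤ w j
  mono : ∀ j, w j ≤ w (j + 1)
  step : ∃ (C : ℝ) (q : ℕ), 0 ≤ C ∧ ∀ j, w (j + 1) ≤ C * w j ^ q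

theorem Wgt.one_le {w : ℕ → ℝ} (h : Wgt w) (j : ℕ) : 1 ≤ w j :=
  (one_le_pow₀ (by norm_num)).trans (h.pow2 j)

theorem Wgt.pos {w : ℕ → ℝ} (h : Wgt w) (j : ℕ) : 0 < w j := one_pos.trans_le (h.one_le j)

theorem Wgt.inv_summable {w : ℕ → ℝ} (h : Wgt w) : Summable (fun j => (w j)⁻¹) := by
  apply Summable.of_nonneg_of_le (fun j => (inv_pos.2 (h.pos j)).le) _
    (summable_geometric_of_lt_one (r := (1 / 2 : ℝ)) (by norm_num) (by norm_num))
  intro j
  rw [one_div, inv_pow]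
  exact inv_anti₀ (by positivity) (h.pow2 j)

/-- Sequences bounded by a power of the weight. -/
def PB (w s : ℕ → ℝ) : Prop := ∃ (C : ℝ) (m : ℕ), 0 ≤ C ∧ ∀ j, |s j| ≤ C * w j ^ m

theorem PB.const {w : ℕ → ℝ} (c : ℝ) : PB w (fun _ => c) :=
  ⟨|c|, 0, abs_nonneg c, fun j => by simp⟩

theorem PB.of_le {w s : ℕ → ℝ} {C : ℝ} (h : ∀ j, |s j| ≤ C) : PB w s :=
  ⟨C, 0, (abs_nonneg _).trans (h 0), fun j => by simpa using h j⟩

theorem PB.mul {w s t : ℕ → ℝ} (hw : Wgt w) (hs : PB w s) (ht : PB w t) :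
    PB w (fun j => s j * t j) := by
  obtain ⟨C, m, hC, h1⟩ := hs
  obtain ⟨D, n, hD, h2⟩ := ht
  refine ⟨C * D, m + n, mul_nonneg hC hD, fun j => ?_⟩
  have hj := hw.pos j
  rw [abs_mul]
  calc |s j| * |t j| ≤ (C * w j ^ m) * (D * w j ^ n) :=
        mul_le_mul (h1 j) (h2 j) (abs_nonneg _) (by positivity)
    _ = _ := by ring

theorem PB.pow {w s : ℕ → ℝ} (hw : Wgt w) (hs : PB w s) (k : ℕ) : PB w (fun j => s j ^ k) := by
  induction k with
  | zero => simpa using PB.const 1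
  | succ k ih =>
    simp_rw [pow_succ]
    exact ih.mul hw hs

theorem PB.mono {w s t : ℕ → ℝ} (hs : PB w s) (h : ∀ j, |t j| ≤ |s j|) : PB w t := by
  obtain ⟨C, m, hC, h1⟩ := hs
  exact ⟨C, m, hC, fun j => (h j).trans (h1 j)⟩

theorem PB.shift {w s : ℕ → ℝ} (hw : Wgt w) (hs : PB w s) : PB w (fun j => s (j + 1)) := by
  obtain ⟨C, m, hC, h1⟩ := hs
  obtain ⟨D, q, hD, h2⟩ := hw.step
  refine ⟨C * D ^ m, q * m, by positivity, fun j => ?_⟩
  have hj := hw.pos (j + 1)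
  calc |s (j + 1)| ≤ C * w (j + 1) ^ m := h1 _
    _ ≤ C * (D * w j ^ q) ^ m := by
        apply mul_le_mul_of_nonneg_left _ hC
        exact pow_le_pow_left₀ hj.le (h2 j) m
    _ = _ := by
        rw [mul_pow, ← pow_mul]
        ring

theorem PB.w {w : ℕ → ℝ} (hw : Wgt w) : PB w w :=
  ⟨1, 1, zero_le_one, fun j => by rw [abs_of_pos (hw.pos j)]; simp⟩

/-- Rapid decay in the index, uniformly for `t ∈ (-1, b)`. -/
def RD (w : ℕ → ℝ) (b : ℝ) (f : ℕ → ℝ → ℝ) : Prop :=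
  ∀ k : ℕ, ∃ C, ∀ j, ∀ t ∈ Ioo (-1) b, |f j t| * w j ^ k ≤ C

/-- Rapid decay together with the first `k` derivatives. -/
def RC (w : ℕ → ℝ) : ℕ → ℝ → (ℕ → ℝ → ℝ) → Prop
  | 0, b, f => RD w b f ∧ ∀ j, ContinuousOn (f j) (Ioo (-1) b)
  | k + 1, b, f => RD w b f ∧ ∃ g : ℕ → ℝ → ℝ,
      (∀ j, ∀ t ∈ Ioo (-1) b, HasDerivAt (f j) (g j t) t) ∧ RC w k b g

variable {b : ℝ} {w : ℕ → ℝ}

theorem RD.nonneg_const {f : ℕ → ℝ → ℝ} (hf : RD w b f) (k : ℕ) :
    ∃ C, 0 ≤ C ∧ ∀ j, ∀ t ∈ Ioo (-1) b, |f j t| * w j ^ k ≤ C := by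
  obtain ⟨C, hC⟩ := hf k
  exact ⟨max C 0, le_max_right _ _, fun j t ht => (hC j t ht).trans (le_max_left _ _)⟩

theorem RD.add (hw : Wgt w) {f g : ℕ → ℝ → ℝ} (hf : RD w b f) (hg : RD w b g) :
    RD w b (fun j t => f j t + g j t) := by
  intro k
  obtain ⟨C1, h1⟩ := hf k
  obtain ⟨C2, h2⟩ := hg k
  refine ⟨C1 + C2, fun j t ht => ?_⟩
  have hcj : 0 < w j ^ k := pow_pos (hw.pos j) k
  calc |f j t + g j t| * w j ^ k ≤ (|f j t| + |g j t|) * w j ^ k :=
        mul_le_mul_of_nonneg_right (abs_add_le _ _) hcj.le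
    _ = |f j t| * w j ^ k + |g j t| * w j ^ k := by ring
    _ ≤ _ := add_le_add (h1 j t ht) (h2 j t ht)

theorem RD.mul (hw : Wgt w) {f g : ℕ → ℝ → ℝ} (hf : RD w b f) (hg : RD w b g) :
    RD w b (fun j t => f j t * g j t) := by
  intro k
  obtain ⟨C1, h10, h1⟩ := hf.nonneg_const k
  obtain ⟨C2, h20, h2⟩ := hg.nonneg_const 0
  refine ⟨C1 * C2, fun j t ht => ?_⟩
  have h3 := h1 j t ht
  have h4 := h2 j t ht
  rw [pow_zero, mul_one] at h4
  calc |f j t * g j t| * w j ^ k = (|f j t| * w j ^ k) * |g j t| := by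
        rw [abs_mul]
        ring
    _ ≤ C1 * C2 := mul_le_mul h3 h4 (abs_nonneg _) h10

theorem RD.wmul (hw : Wgt w) {f : ℕ → ℝ → ℝ} (hf : RD w b f) {s : ℕ → ℝ} (hs : PB w s) :
    RD w b (fun j t => s j * f j t) := by
  intro k
  obtain ⟨D, m, hD, h1⟩ := hs
  obtain ⟨C, hC0, hC⟩ := hf.nonneg_const (m + k)
  refine ⟨D * C, fun j t ht => ?_⟩
  have h := hC j t ht
  have hj := hw.pos j
  calc |s j * f j t| * w j ^ k = |s j| * (|f j t| * w j ^ k) := by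
        rw [abs_mul]
        ring
    _ ≤ (D * w j ^ m) * (|f j t| * w j ^ k) :=
        mul_le_mul_of_nonneg_right (h1 j) (by positivity)
    _ = D * (|f j t| * w j ^ (m + k)) := by ring
    _ ≤ _ := mul_le_mul_of_nonneg_left h hD

theorem RD.shift (hw : Wgt w) {f : ℕ → ℝ → ℝ} (hf : RD w b f) :
    RD w b (fun j t => f (j + 1) t) := by
  intro k
  obtain ⟨C, hC⟩ := hf k
  refine ⟨C, fun j t ht => le_trans ?_ (hC (j + 1) t ht)⟩
  apply mul_le_mul_of_nonneg_left _ (abs_nonneg _)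
  exact pow_le_pow_left₀ (hw.pos j).le (hw.mono j) k

theorem RD.unsh (hw : Wgt w) {f : ℕ → ℝ → ℝ} (hf : RD w b f) : RD w b (unsh f) := by
  intro k
  obtain ⟨D, q, hD, h2⟩ := hw.step
  obtain ⟨C, hC0, hC⟩ := hf.nonneg_const (q * k)
  refine ⟨D ^ k * C, fun j t ht => ?_⟩
  cases j with
  | zero =>
    show |(0 : ℝ)| * w 0 ^ k ≤ D ^ k * C
    rw [abs_zero, zero_mul]
    positivity
  | succ j =>
    show |f j t| * w (j + 1) ^ k ≤ D ^ k * C
    have h3 := hC j t ht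
    have h4 : w (j + 1) ^ k ≤ (D * w j ^ q) ^ k := pow_le_pow_left₀ (hw.pos _).le (h2 j) k
    calc |f j t| * w (j + 1) ^ k ≤ |f j t| * (D * w j ^ q) ^ k :=
          mul_le_mul_of_nonneg_left h4 (abs_nonneg _)
      _ = D ^ k * (|f j t| * w j ^ (q * k)) := by
          rw [mul_pow, ← pow_mul]
          ring
      _ ≤ _ := mul_le_mul_of_nonneg_left h3 (by positivity)

theorem RC.rd {k : ℕ} {f : ℕ → ℝ → ℝ} (hf : RC w k b f) : RD w b f := by
  cases k with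
  | zero => exact hf.1
  | succ k => exact hf.1

theorem RC.cont {k : ℕ} {f : ℕ → ℝ → ℝ} (hf : RC w k b f) (j : ℕ) :
    ContinuousOn (f j) (Ioo (-1) b) := by
  cases k with
  | zero => exact hf.2 j
  | succ k =>
    obtain ⟨_, g, hg, _⟩ := hf
    exact fun t ht => (hg j t ht).continuousAt.continuousWithinAt

theorem RC.mono {k : ℕ} {f : ℕ → ℝ → ℝ} (hf : RC w (k + 1) b f) : RC w k b f := by
  induction k generalizing f with
  | zero => exact ⟨hf.rd, hf.cont⟩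
  | succ k ih =>
    obtain ⟨h1, g, hg, hg2⟩ := hf
    exact ⟨h1, g, hg, ih hg2⟩

theorem RC.add (hw : Wgt w) {k : ℕ} {f g : ℕ → ℝ → ℝ} (hf : RC w k b f) (hg : RC w k b g) :
    RC w k b (fun j t => f j t + g j t) := by
  induction k generalizing f g with
  | zero => exact ⟨hf.1.add hw hg.1, fun j => (hf.2 j).add (hg.2 j)⟩
  | succ k ih =>
    obtain ⟨h1, f', hf', hf2⟩ := hf
    obtain ⟨h2, g', hg', hg2⟩ := hg
    exact ⟨h1.add hw h2, fun j t => f' j t + g' j t, fun j t ht => (hf' j t ht).add (hg' j t ht),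
      ih hf2 hg2⟩

theorem RC.mul (hw : Wgt w) {k : ℕ} {f g : ℕ → ℝ → ℝ} (hf : RC w k b f) (hg : RC w k b g) :
    RC w k b (fun j t => f j t * g j t) := by
  induction k generalizing f g with
  | zero => exact ⟨hf.1.mul hw hg.1, fun j => (hf.2 j).mul (hg.2 j)⟩
  | succ k ih =>
    have hf0 := hf.mono
    have hg0 := hg.mono
    obtain ⟨h1, f', hf', hf2⟩ := hf
    obtain ⟨h2, g', hg', hg2⟩ := hg
    exact ⟨h1.mul hw h2, fun j t => f' j t * g j t + f j t * g' j t,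
      fun j t ht => (hf' j t ht).mul (hg' j t ht), (ih hf2 hg0).add hw (ih hf0 hg2)⟩

theorem RC.wmul (hw : Wgt w) {k : ℕ} {f : ℕ → ℝ → ℝ} (hf : RC w k b f) {s : ℕ → ℝ}
    (hs : PB w s) : RC w k b (fun j t => s j * f j t) := by
  induction k generalizing f with
  | zero => exact ⟨hf.1.wmul hw hs, fun j => continuousOn_const.mul (hf.2 j)⟩
  | succ k ih =>
    obtain ⟨h1, f', hf', hf2⟩ := hf
    exact ⟨h1.wmul hw hs, fun j t => s j * f' j t,
      fun j t ht => (hf' j t ht).const_mul _, ih hf2⟩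

theorem RC.shift (hw : Wgt w) {k : ℕ} {f : ℕ → ℝ → ℝ} (hf : RC w k b f) :
    RC w k b (fun j t => f (j + 1) t) := by
  induction k generalizing f with
  | zero => exact ⟨hf.1.shift hw, fun j => hf.2 (j + 1)⟩
  | succ k ih =>
    obtain ⟨h1, f', hf', hf2⟩ := hf
    exact ⟨h1.shift hw, fun j t => f' (j + 1) t, fun j t ht => hf' (j + 1) t ht, ih hf2⟩

theorem RC.unsh (hw : Wgt w) {k : ℕ} {f : ℕ → ℝ → ℝ} (hf : RC w k b f) : RC w k b (unsh f) := by
  induction k generalizing f with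
  | zero =>
    refine ⟨hf.1.unsh hw, fun j => ?_⟩
    cases j with
    | zero => exact continuousOn_const
    | succ j => exact hf.2 j
  | succ k ih =>
    obtain ⟨h1, f', hf', hf2⟩ := hf
    refine ⟨h1.unsh hw, _, fun j t ht => ?_, ih hf2⟩
    cases j with
    | zero => exact hasDerivAt_const t 0
    | succ j => exact hf' j t ht

theorem RD.summable_bound (hw : Wgt w) {f : ℕ → ℝ → ℝ} (hf : RD w b f) :
    ∃ u : ℕ → ℝ, Summable u ∧ ∀ j, ∀ t ∈ Ioo (-1) b, |f j t| ≤ u j := by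
  obtain ⟨C, hC0, hC⟩ := hf.nonneg_const 1
  refine ⟨fun j => C * (w j)⁻¹, hw.inv_summable.mul_left C, fun j t ht => ?_⟩
  have h := hC j t ht
  rw [pow_one] at h
  show |f j t| ≤ C * (w j)⁻¹
  rw [← div_eq_mul_inv, le_div_iff₀ (hw.pos j)]
  exact h

/-- The series. -/
noncomputable def Ser {E : Type} [NormedAddCommGroup E] [NormedSpace ℝ E] (r : ℕ → ℝ) (z : ℕ → V)
    (f : ℕ → ℝ → ℝ) (φ : V → E) (y : ℝ × V) : E := ∑' j, f j y.1 • φ (r j • y.2 - z j)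

theorem ser_summable (hw : Wgt w) {E : Type} [NormedAddCommGroup E] [NormedSpace ℝ E]
    [CompleteSpace E] {r : ℕ → ℝ} {z : ℕ → V}
    {f : ℕ → ℝ → ℝ} (hf : RD w b f) {φ : V → E}
    (hφ : ContDiff ℝ ∞ φ) (hc : HasCompactSupport φ) {y : ℝ × V} (hy : y.1 ∈ Ioo (-1) b) :
    Summable (fun j => f j y.1 • φ (r j • y.2 - z j)) := by
  obtain ⟨M, hM0, hM⟩ := cs_bound hφ hc
  obtain ⟨u, hu, hu2⟩ := hf.summable_bound hw
  apply Summable.of_norm_bounded (hu.mul_right M)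
  intro j
  rw [norm_smul, Real.norm_eq_abs]
  have h := hu2 j y.1 hy
  exact mul_le_mul h (hM _) (norm_nonneg _) ((abs_nonneg _).trans h)

theorem ser_cont (hw : Wgt w) {E : Type} [NormedAddCommGroup E] [NormedSpace ℝ E]
    [CompleteSpace E] {r : ℕ → ℝ} {z : ℕ → V}
    {f : ℕ → ℝ → ℝ} (hf : RC w 0 b f) {φ : V → E}
    (hφ : ContDiff ℝ ∞ φ) (hc : HasCompactSupport φ) :
    ContinuousOn (Ser r z f φ) (Ioo (-1) b ×ˢ univ) := by
  obtain ⟨M, hM0, hM⟩ := cs_bound hφ hc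
  obtain ⟨u, hu, hu2⟩ := hf.rd.summable_bound hw
  unfold Ser
  apply continuousOn_tsum (u := fun j => u j * M) _ (hu.mul_right M)
  · intro j y hy
    rw [norm_smul, Real.norm_eq_abs]
    have h := hu2 j y.1 hy.1
    exact mul_le_mul h (hM _) (norm_nonneg _) ((abs_nonneg _).trans h)
  · intro j
    apply ContinuousOn.smul
    · exact (hf.cont j).comp continuousOn_fst (fun z hz => hz.1)
    · have h1 : Continuous (fun y : ℝ × V => φ (r j • y.2 - z j)) :=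
        hφ.continuous.comp (by fun_prop)
      exact h1.continuousOn

theorem term_deriv {E : Type} [NormedAddCommGroup E] [NormedSpace ℝ E] (r : ℝ) (a : V)
    {f f' : ℝ → ℝ}
    {φ : V → E} (hφ : ContDiff ℝ ∞ φ) {y : ℝ × V} (hf : HasDerivAt f (f' y.1) y.1) :
    HasFDerivAt (fun y : ℝ × V => f y.1 • φ (r • y.2 - a))
      (f' y.1 • D1 φ (r • y.2 - a) + (r * f y.1) • D2 φ (r • y.2 - a)) y := by
  have h1 : HasFDerivAt (fun y : ℝ × V => f y.1) (f' y.1 • ContinuousLinearMap.fst ℝ ℝ V) y :=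
    hf.comp_hasFDerivAt y hasFDerivAt_fst
  have h2 : HasFDerivAt (fun y : ℝ × V => r • y.2 - a) (r • ContinuousLinearMap.snd ℝ ℝ V) y :=
    (hasFDerivAt_snd.const_smul r).sub_const a
  have h3 : HasFDerivAt φ (fderiv ℝ φ (r • y.2 - a)) (r • y.2 - a) :=
    (hφ.differentiable (by simp) _).hasFDerivAt
  have h4 : HasFDerivAt (fun y : ℝ × V => φ (r • y.2 - a))
      ((fderiv ℝ φ (r • y.2 - a)).comp (r • ContinuousLinearMap.snd ℝ ℝ V)) y := h3.comp y h2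
  have h5 := h1.smul h4
  have e : f' y.1 • D1 φ (r • y.2 - a) + (r * f y.1) • D2 φ (r • y.2 - a)
      = f y.1 • ((fderiv ℝ φ (r • y.2 - a)).comp (r • ContinuousLinearMap.snd ℝ ℝ V))
        + (f' y.1 • ContinuousLinearMap.fst ℝ ℝ V).smulRight (φ (r • y.2 - a)) := by
    unfold D1 D2
    apply ContinuousLinearMap.ext
    intro v
    simp
    module
  rw [e]
  exact h5

theorem ser_deriv (hw : Wgt w) {E : Type} [NormedAddCommGroup E] [NormedSpace ℝ E]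
    [CompleteSpace E] {r : ℕ → ℝ} {z : ℕ → V} (hr : PB w r)
    {f g : ℕ → ℝ → ℝ} (hf : RD w b f) (hg : RD w b g)
    (hfg : ∀ j, ∀ t ∈ Ioo (-1) b, HasDerivAt (f j) (g j t) t) {φ : V → E}
    (hφ : ContDiff ℝ ∞ φ) (hc : HasCompactSupport φ) {y : ℝ × V} (hy : y.1 ∈ Ioo (-1) b) :
    HasFDerivAt (Ser r z f φ) (Ser r z g (D1 φ) y + Ser r z (fun j t => r j * f j t) (D2 φ) y)
      y := by
  obtain ⟨M1, hM10, hM1⟩ := cs_bound (D1_cd hφ) (D1_cs hc)
  obtain ⟨M2, hM20, hM2⟩ := cs_bound (D2_cd hφ) (D2_cs hc)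
  obtain ⟨u1, hu1, hu12⟩ := hg.summable_bound hw
  obtain ⟨u2, hu2, hu22⟩ := (hf.wmul hw hr).summable_bound hw
  have hs : IsOpen (Ioo (-1) b ×ˢ (univ : Set V)) := isOpen_Ioo.prod isOpen_univ
  have hpc : IsPreconnected (Ioo (-1) b ×ˢ (univ : Set V)) :=
    ((convex_Ioo _ _).prod convex_univ).isPreconnected
  have key := hasFDerivAt_tsum_of_isPreconnected (𝕜 := ℝ)
    (f := fun j (y : ℝ × V) => f j y.1 • φ (r j • y.2 - z j))
    (f' := fun j (y : ℝ × V) => g j y.1 • D1 φ (r j • y.2 - z j)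
      + (r j * f j y.1) • D2 φ (r j • y.2 - z j))
    (u := fun j => u1 j * M1 + u2 j * M2) ((hu1.mul_right M1).add (hu2.mul_right M2)) hs hpc
    (fun j x hx => term_deriv (r j) (z j) hφ (hfg j x.1 hx.1))
    (fun j x hx => by
      refine (norm_add_le _ _).trans (add_le_add ?_ ?_)
      · rw [norm_smul, Real.norm_eq_abs]
        have h := hu12 j x.1 hx.1
        exact mul_le_mul h (hM1 _) (norm_nonneg _) ((abs_nonneg _).trans h)
      · rw [norm_smul, Real.norm_eq_abs]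
        have h := hu22 j x.1 hx.1
        exact mul_le_mul h (hM2 _) (norm_nonneg _) ((abs_nonneg _).trans h))
    (x₀ := y) ⟨hy, mem_univ _⟩ (ser_summable hw hf hφ hc hy) (x := y) ⟨hy, mem_univ _⟩
  have e : ∑' j, (g j y.1 • D1 φ (r j • y.2 - z j) + (r j * f j y.1) • D2 φ (r j • y.2 - z j))
      = Ser r z g (D1 φ) y + Ser r z (fun j t => r j * f j t) (D2 φ) y :=
    (ser_summable hw hg (D1_cd hφ) (D1_cs hc) hy).tsum_add
      (ser_summable hw (hf.wmul hw hr) (D2_cd hφ) (D2_cs hc) hy)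
  rw [← e]
  exact key

theorem ser_smooth (hw : Wgt w) {r : ℕ → ℝ} {z : ℕ → V} (hr : PB w r) (k : ℕ) :
    ∀ (E : Type) [NormedAddCommGroup E] [NormedSpace ℝ E]
    [CompleteSpace E] (f : ℕ → ℝ → ℝ) (_ : RC w k b f) (φ : V → E)
    (_ : ContDiff ℝ ∞ φ) (_ : HasCompactSupport φ),
    ContDiffOn ℝ k (Ser r z f φ) (Ioo (-1) b ×ˢ univ) := by
  induction k with
  | zero =>
    intro E _ _ _ f hf φ hφ hc
    simp only [Nat.cast_zero, contDiffOn_zero]
    exact ser_cont hw hf hφ hc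
  | succ k ih =>
    intro E _ _ _ f hf φ hφ hc
    have hs : IsOpen (Ioo (-1) b ×ˢ (univ : Set V)) := isOpen_Ioo.prod isOpen_univ
    have hf0 := hf.mono
    obtain ⟨h1, g, hg, hg2⟩ := hf
    have hder : ∀ y ∈ Ioo (-1) b ×ˢ (univ : Set V), HasFDerivAt (Ser r z f φ)
        (Ser r z g (D1 φ) y + Ser r z (fun j t => r j * f j t) (D2 φ) y) y :=
      fun y hy => ser_deriv hw hr h1 hg2.rd hg hφ hc hy.1
    have h2 : ((k + 1 : ℕ) : WithTop ℕ∞) = (k : WithTop ℕ∞) + 1 := by push_cast; rfl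
    rw [h2, contDiffOn_succ_iff_fderiv_of_isOpen hs]
    refine ⟨fun y hy => (hder y hy).differentiableAt.differentiableWithinAt, ?_, ?_⟩
    · intro h3
      exact absurd h3 (by simp)
    · have h4 : ContDiffOn ℝ k (fun y => Ser r z g (D1 φ) y
          + Ser r z (fun j t => r j * f j t) (D2 φ) y) (Ioo (-1) b ×ˢ univ) :=
        (ih _ g hg2 (D1 φ) (D1_cd hφ) (D1_cs hc)).add
          (ih _ _ (hf0.wmul hw hr) (D2 φ) (D2_cd hφ) (D2_cs hc))
      exact h4.congr fun y hy => (hder y hy).fderiv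

end Pool.Agent.Run7.h407.G
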