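import Mathlib
import Pool.Agent.Run7.h407.G.Limit2
import Pool.Agent.Run7.h407.G.Ser

/-!
Regularity in time of the solution of the reduced system.
-/

namespace Pool.Agent.Run7.h407.G

open Set Filter Topology MeasureTheory
open scoped ContDiff

/-- The parameters are compatible with the weight. -/
structure PW (p : Par) (w : ℕ → ℝ) : Prop where
  wg : Wgt w
  wt : Wt p w
  d : PB w p.d
  e0 : Tendsto p.e atTop (𝓝 0)

variable {p : Par} {w : ℕ → ℝ}

theorem PW.e (h : PW p w) : PB w p.e := PB.of_le (C := 1) fun j => by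
  rw [abs_of_pos (p.he j)]
  linarith [p.he' j]

theorem PW.g (h : PW p w) : PB w p.g := PB.of_le (C := 1) fun j => by
  rw [abs_of_pos (p.hg j)]
  linarith [g_half p j]

theorem PW.f (h : PW p w) : PB w p.f := PB.of_le (C := 1) fun j => by
  rw [abs_of_pos (p.f_pos j)]
  have h1 := p.fΛ j
  have h2 := p.hΛ (j + 1)
  have h3 := p.f_pos j
  nlinarith

theorem PB.neg {s : ℕ → ℝ} (h : PB w s) : PB w (fun j => -s j) :=
  h.mono fun j => by rw [abs_neg]

theorem RC.rhsf (h : PW p w) {k : ℕ} {b : ℝ} {B : ℕ → ℝ → ℝ} (hB : RC w k b B) :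
    RC w k b (fun i t => rhs p B i t) := by
  have hw := h.wg
  have e : (fun i t => rhs p B i t) = fun i t =>
      ((((-p.d i * B (i + 1) t + B i t * B (i + 1) t)
        + p.e i * (B i t * B i t))
        + -p.f i * (B (i + 1) t * B (i + 2) t))
        + -p.g i * (B (i + 2) t * B (i + 2) t)) := by
    funext i t
    unfold rhs
    ring
  rw [e]
  have h0 := hB
  have h1 := hB.shift hw
  have h2 := h1.shift hw
  exact ((((h1.wmul hw h.d.neg).add hw (h0.mul hw h1)).add hw
    ((h0.mul hw h0).wmul hw h.e)).add hw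
    ((h1.mul hw h2).wmul hw h.f.neg)).add hw
    ((h2.mul hw h2).wmul hw h.g.neg)

theorem RC.const (k : ℕ) {b : ℝ} : ∀ {a : ℕ → ℝ}, (∀ m : ℕ, ∃ C, ∀ j, |a j| * w j ^ m ≤ C) →
    RC w k b (fun j _ => a j) := by
  induction k with
  | zero =>
    intro a ha
    refine ⟨fun m => ?_, fun j => continuousOn_const⟩
    obtain ⟨C, hC⟩ := ha m
    exact ⟨C, fun j t _ => hC j⟩
  | succ k ih =>
    intro a ha
    refine ⟨fun m => ?_, fun _ _ => 0, fun j t _ => hasDerivAt_const t _, ?_⟩
    · obtain ⟨C, hC⟩ := ha m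
      exact ⟨C, fun j t _ => hC j⟩
    · apply ih
      intro m
      refine ⟨0, fun j => ?_⟩
      simp

theorem sub_Ioo {b t : ℝ} (hb : 0 < b) (ht : t ∈ Ioo (-1) b) : uIcc 0 t ⊆ Ioo (-1) b := by
  intro s hs
  rcases le_total 0 t with h | h
  · rw [uIcc_of_le h] at hs
    exact ⟨by linarith [hs.1], by linarith [hs.2, ht.2]⟩
  · rw [uIcc_of_ge h] at hs
    exact ⟨by linarith [hs.1, ht.1], by linarith [hs.2]⟩

theorem RC.integral (hw : Wgt w) {k : ℕ} {b : ℝ} (hb : 0 < b) {F : ℕ → ℝ → ℝ}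
    (hF : RC w k b F) : RC w (k + 1) b (fun i t => ∫ s in (0 : ℝ)..t, F i s) := by
  refine ⟨fun m => ?_, F, fun j t ht => ?_, hF⟩
  · obtain ⟨C, hC0, hC⟩ := hF.rd.nonneg_const m
    refine ⟨C * (1 + b), fun j t ht => ?_⟩
    have hcj : 0 < w j ^ m := pow_pos (hw.pos j) m
    have h1 : ‖∫ s in (0 : ℝ)..t, F j s‖ ≤ (C / w j ^ m) * |t - 0| := by
      apply intervalIntegral.norm_integral_le_of_norm_le_const
      intro s hs
      have hs' := sub_Ioo hb ht (uIoc_subset_uIcc hs)
      rw [Real.norm_eq_abs, le_div_iff₀ hcj]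
      exact hC j s hs'
    rw [Real.norm_eq_abs, sub_zero] at h1
    have h2 : |t| ≤ 1 + b := by
      rw [abs_le]
      constructor <;> linarith [ht.1, ht.2]
    calc |∫ s in (0 : ℝ)..t, F j s| * w j ^ m ≤ ((C / w j ^ m) * |t|) * w j ^ m :=
          mul_le_mul_of_nonneg_right h1 hcj.le
      _ = C * |t| := by
          field_simp
      _ ≤ _ := mul_le_mul_of_nonneg_left h2 hC0
  · have hc := hF.cont j
    apply intervalIntegral.integral_hasDerivAt_right
    · exact (hc.mono (sub_Ioo hb ht)).intervalIntegrable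
    · exact ContinuousOn.stronglyMeasurableAtFilter isOpen_Ioo hc t ht
    · exact hc.continuousAt (Ioo_mem_nhds ht.1 ht.2)

/-- Picard iterates; they coincide with the solution for `t ≥ 0` and gain one derivative at each
step also to the left of `t = 0`. -/
noncomputable def PI (p : Par) (A : ℕ → ℝ → ℝ) : ℕ → ℕ → ℝ → ℝ
  | 0 => fun j t => A j (max t 0)
  | (k + 1) => fun j t => A j 0 + unsh (fun i t => ∫ s in (0 : ℝ)..t, rhs p (PI p A k) i s) j t

theorem PI_RC (h : PW p w) {Tb : ℝ} {A : ℕ → ℝ → ℝ} (S : Sol p Tb A) {b : ℝ} (hb : 0 < b)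
    (hbT : b < Tb) (k : ℕ) : RC w k b (PI p A k) := by
  have h0 : ∀ m : ℕ, ∃ C, ∀ j, |A j 0| * w j ^ m ≤ C := by
    intro m
    obtain ⟨C, hC⟩ := S.decay w h.wt b hbT m
    exact ⟨C, fun j => hC j 0 ⟨le_rfl, hb.le⟩⟩
  induction k with
  | zero =>
    refine ⟨fun m => ?_, fun j => ?_⟩
    · obtain ⟨C, hC⟩ := S.decay w h.wt b hbT m
      refine ⟨C, fun j t ht => ?_⟩
      show |A j (max t 0)| * w j ^ m ≤ C
      exact hC j _ ⟨le_max_right _ _, max_le ht.2.le hb.le⟩
    · exact ((S.cont j).comp (continuous_id.max continuous_const)).continuousOn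
  | succ k ih =>
    exact (RC.const (k + 1) h0).add h.wg ((RC.rhsf h ih).integral h.wg hb |>.unsh h.wg)

theorem PI_eq {Tb : ℝ} {A : ℕ → ℝ → ℝ} (S : Sol p Tb A) (k : ℕ) :
    ∀ j, ∀ t ∈ Ico 0 Tb, PI p A k j t = A j t := by
  induction k with
  | zero =>
    intro j t ht
    show A j (max t 0) = A j t
    rw [max_eq_left ht.1]
  | succ k ih =>
    intro j t ht
    cases j with
    | zero =>
      show A 0 0 + 0 = A 0 t
      rw [S.zero, S.zero, add_zero]
    | succ i =>
      show A (i + 1) 0 + ∫ s in (0 : ℝ)..t, rhs p (PI p A k) i s = A (i + 1) t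
      rw [S.eqn i t ht]
      congr 1
      apply intervalIntegral.integral_congr
      intro s hs
      rw [uIcc_of_le ht.1] at hs
      have hs' : s ∈ Ico 0 Tb := ⟨hs.1, hs.2.trans_lt ht.2⟩
      show rhs p (PI p A k) i s = rhs p A i s
      unfold rhs
      rw [ih i s hs', ih (i + 1) s hs', ih (i + 2) s hs']

/-- Derivative of the modes inside the interval of existence. -/
theorem Sol.deriv {Tb : ℝ} {A : ℕ → ℝ → ℝ} (S : Sol p Tb A) (i : ℕ) {t : ℝ}
    (ht : t ∈ Ioo 0 Tb) : HasDerivAt (A (i + 1)) (rhs p A i t) t := by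
  have hc : Continuous (rhs p A i) := by
    unfold rhs
    have h := S.cont
    exact ((((continuous_const.mul (h _)).add ((h _).mul (h _))).add
      (continuous_const.mul ((h _).pow 2))).sub
      ((continuous_const.mul (h _)).mul (h _))).sub (continuous_const.mul ((h _).pow 2))
  have h1 : HasDerivAt (fun t => A (i + 1) 0 + ∫ s in (0 : ℝ)..t, rhs p A i s)
      (rhs p A i t) t :=
    (intervalIntegral.integral_hasDerivAt_right (hc.intervalIntegrable _ _)
      (hc.stronglyMeasurableAtFilter _ _) hc.continuousAt).const_add _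
  apply h1.congr_of_eventuallyEq
  filter_upwards [Ioo_mem_nhds ht.1 ht.2] with s hs
  exact S.eqn i s ⟨hs.1.le, hs.2⟩

end Pool.Agent.Run7.h407.G
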