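import Mathlib
import Pool.Agent.Run7.h407.PsiFld

/-!
The building blocks with variable scale ratios: `psi3 r μ δ` has its child place of ratio `μ`
and its swirl part at the place of the child of a parent with ratio `r`.
-/

namespace Pool.Agent.Run7.h407.G

open Set Filter Topology MeasureTheory
open scoped ContDiff

/-- The building block. -/
noncomputable def psi3 (r μ δ : ℝ) (x : V) : V :=
  par δ (hc μ) Gp (x - e1) + sw chi (x - r ^ 2 • e1)

theorem dil_psi3 (μ μ' δ : ℝ) (x : V) : dil μ (psi3 μ μ' δ) x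
    = μ ^ 3 • par δ (hc μ') Gp (μ ^ 2 • x - e1) + sw (hc μ) (x - e1) := by
  unfold dil psi3
  rw [smul_add]
  congr 1
  have e : μ ^ 2 • x - μ ^ 2 • e1 = μ ^ 2 • (x - e1) := by rw [smul_sub]
  rw [e]
  funext i
  fin_cases i
  · show μ ^ 3 * (-((μ ^ 2 • (x - e1)) 1) * chi (μ ^ 2 • (x - e1)))
      = -((x - e1) 1) * (μ ^ 5 * chi (μ ^ 2 • (x - e1)))
    simp only [Pi.smul_apply, smul_eq_mul]
    ring
  · show μ ^ 3 * (((μ ^ 2 • (x - e1)) 0) * chi (μ ^ 2 • (x - e1)))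
      = ((x - e1) 0) * (μ ^ 5 * chi (μ ^ 2 • (x - e1)))
    simp only [Pi.smul_apply, smul_eq_mul]
    ring
  · show μ ^ 3 * (0 : ℝ) = 0
    ring

section

variable {r μ μ' : ℝ} (hr : 2 ≤ r) (hμ : 2 ≤ μ) (hμ' : 2 ≤ μ') (δ δ' : ℝ)

include hr in
theorem psi3_left {x : V} (hx : x 0 < 2) : psi3 r μ δ x = par δ (hc μ) Gp (x - e1) := by
  have h : sw chi (x - r ^ 2 • e1) = 0 := by
    by_contra hcon
    have h1 := abs_le.1 (sw_chi_supp hcon)
    rw [sub_mu_e1_zero] at h1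
    nlinarith [h1.1]
  unfold psi3
  rw [h, add_zero]

include hr hμ in
theorem psi3_zero {x : V} (hx : x 0 < 3 / 4) : psi3 r μ δ x = 0 := by
  rw [psi3_left hr δ (by linarith), par_left hμ δ hx]

include hμ hμ' in
theorem dil3_right {x : V} (hx : 1 / 2 < x 0) :
    dil μ (psi3 μ μ' δ') x = sw (hc μ) (x - e1) := by
  rw [dil_psi3]
  have h : par δ' (hc μ') Gp (μ ^ 2 • x - e1) = 0 := by
    by_contra hcon
    have h1 := abs_le.1 (par_supp hμ' δ' hcon)
    rw [sub_e1_zero] at h1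
    simp only [Pi.smul_apply, smul_eq_mul] at h1
    nlinarith [h1.2]
  rw [h, smul_zero, zero_add]

include hμ hμ' in
theorem dil3_zero {x : V} (hx : 3 / 2 < x 0) : dil μ (psi3 μ μ' δ') x = 0 := by
  rw [dil3_right hμ hμ' δ' (by linarith), sw_hc_right hμ hx]

include hμ in
theorem psi3_CF (r : ℝ) : CF (psi3 r μ δ) :=
  (trans_CF ((cpl hμ).par_CF δ) e1).add (trans_CF (sw_CF chi_sm chi_cs) (r ^ 2 • e1))

include hμ in
theorem psi3_dvg (r : ℝ) (x : V) : dvg (psi3 r μ δ) x = 0 := by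
  have h1 := dvg_add (trans_CF ((cpl hμ).par_CF δ) e1)
    (trans_CF (sw_CF chi_sm chi_cs) (r ^ 2 • e1)) x
  have h2 : dvg (psi3 r μ δ) x = dvg (fun y => par δ (hc μ) Gp (y - e1) + sw chi (y - r ^ 2 • e1)) x :=
    rfl
  rw [h2, h1, dvg_trans ((cpl hμ).par_CF δ), dvg_trans (sw_CF chi_sm chi_cs), (cpl hμ).par_dvg,
    sw_dvg chi_sm chi_Ax]
  ring

include hr hμ in
theorem psi3_supp (x : V) (hx : psi3 r μ δ x ≠ 0) : 3 / 4 ≤ x 0 ∧ x 0 ≤ r ^ 2 + 1 / 4 := by
  constructor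
  · by_contra hcon
    exact hx (psi3_zero hr hμ δ (not_le.1 hcon))
  · by_contra hcon
    push Not at hcon
    apply hx
    unfold psi3
    have h1 : par δ (hc μ) Gp (x - e1) = 0 := by
      by_contra h
      have h2 := abs_le.1 (par_supp hμ δ h)
      rw [sub_e1_zero] at h2
      nlinarith [h2.2]
    have h3 : sw chi (x - r ^ 2 • e1) = 0 := by
      by_contra h
      have h2 := abs_le.1 (sw_chi_supp h)
      rw [sub_mu_e1_zero] at h2
      linarith [h2.2]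
    rw [h1, h3, add_zero]

include hr hμ in
theorem pd_psi3_left {x : V} (hx : x 0 < 2) (i j : Fin 3) :
    pd j (fun y => psi3 r μ δ y i) x = pd j (fun y => par δ (hc μ) Gp y i) (x - e1) := by
  rw [← pd_trans ((cpl hμ).par_CF δ)]
  apply pd_congr
  filter_upwards [nhds_lt hx] with y hy
  rw [psi3_left hr δ hy]

include hr hμ in
theorem pd_psi3_zero {x : V} (hx : x 0 < 3 / 4) (i j : Fin 3) :
    pd j (fun y => psi3 r μ δ y i) x = 0 := by
  have : (fun y => psi3 r μ δ y i) =ᶠ[𝓝 x] fun _ => (0 : ℝ) := by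
    filter_upwards [nhds_lt hx] with y hy
    rw [psi3_zero hr hμ δ hy]
    rfl
  rw [pd_congr this, pd_const]

include hμ in
theorem pd_par3_zero {x : V} (hx : x 0 < 3 / 4) (i j : Fin 3) :
    pd j (fun y => par δ (hc μ) Gp y i) (x - e1) = 0 := by
  rw [← pd_psi3_left (r := 2) le_rfl hμ δ (by linarith), pd_psi3_zero le_rfl hμ δ hx]

include hμ hμ' in
theorem pd_dil3_right {x : V} (hx : 1 / 2 < x 0) (i j : Fin 3) :
    pd j (fun y => dil μ (psi3 μ μ' δ') y i) x = pd j (fun y => sw (hc μ) y i) (x - e1) := by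
  rw [← pd_trans (sw_hc_CF hμ)]
  apply pd_congr
  filter_upwards [nhds_gt hx] with y hy
  rw [dil3_right hμ hμ' δ' hy]

include hμ hμ' in
theorem pd_dil3_zero {x : V} (hx : 3 / 2 < x 0) (i j : Fin 3) :
    pd j (fun y => dil μ (psi3 μ μ' δ') y i) x = 0 := by
  have : (fun y => dil μ (psi3 μ μ' δ') y i) =ᶠ[𝓝 x] fun _ => (0 : ℝ) := by
    filter_upwards [nhds_gt hx] with y hy
    rw [dil3_zero hμ hμ' δ' hy]
    rfl
  rw [pd_congr this, pd_const]

include hr hμ hμ' in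
theorem ip_psi3 : ip (psi3 r μ δ) (dil μ (psi3 μ μ' δ')) = 0 := by
  rw [← (cpl hμ).ip_zero δ]
  unfold ip
  rw [← integral_sub_right_eq_self (fun y => ∑ i, par δ (hc μ) Gp y i * sw (hc μ) y i) e1]
  congr 1
  funext x
  rcases lt_or_ge (x 0) (3 / 4) with h | h
  · rw [psi3_zero hr hμ δ h, par_left hμ δ h]
    simp
  · rcases lt_or_ge (3 / 2) (x 0) with h' | h'
    · rw [dil3_zero hμ hμ' δ' h', sw_hc_right hμ h']
      simp
    · rw [psi3_left hr δ (by linarith), dil3_right hμ hμ' δ' (by linarith)]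

include hr hμ hμ' in
theorem Dir_psi3 : Dir (psi3 r μ δ) (dil μ (psi3 μ μ' δ')) = 0 := by
  rw [← (cpl hμ).Dir_zero δ]
  unfold Dir
  rw [← integral_sub_right_eq_self (fun x => ∑ i, ∑ j, pd j (fun y => par δ (hc μ) Gp y i) x
    * pd j (fun y => sw (hc μ) y i) x) e1]
  congr 1
  funext x
  rcases lt_or_ge (x 0) (3 / 4) with h | h
  · simp_rw [pd_psi3_zero hr hμ δ h, pd_par3_zero hμ δ h]
    simp
  · rcases lt_or_ge (3 / 2) (x 0) with h' | h'
    · simp_rw [pd_dil3_zero hμ hμ' δ' h', pd_sw_zero' hμ h']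
      simp
    · simp_rw [pd_psi3_left hr hμ δ (show x 0 < 2 by linarith),
        pd_dil3_right hμ hμ' δ' (show 1 / 2 < x 0 by linarith)]

include hr hμ hμ' in
theorem tri_psi3_1 : tri (psi3 r μ δ) (psi3 r μ δ) (dil μ (psi3 μ μ' δ'))
    = -(δ * ∫ y : V, (y 0 ^ 2 + y 1 ^ 2) * pd 2 (hc μ) y ^ 2) := by
  rw [← (cpl hμ).tri_PPc δ]
  unfold tri
  rw [← integral_sub_right_eq_self (fun x => ∑ i, (∑ j, par δ (hc μ) Gp x j
    * pd j (fun y => par δ (hc μ) Gp y i) x) * sw (hc μ) x i) e1]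
  congr 1
  funext x
  rcases lt_or_ge (x 0) (3 / 4) with h | h
  · simp_rw [pd_psi3_zero hr hμ δ h, pd_par3_zero hμ δ h]
    simp
  · rcases lt_or_ge (3 / 2) (x 0) with h' | h'
    · rw [dil3_zero hμ hμ' δ' h', sw_hc_right hμ h']
      simp
    · simp_rw [pd_psi3_left hr hμ δ (show x 0 < 2 by linarith)]
      rw [psi3_left hr δ (by linarith), dil3_right hμ hμ' δ' (by linarith)]

include hr hμ hμ' in
theorem tri_psi3_2 : tri (dil μ (psi3 μ μ' δ')) (psi3 r μ δ) (dil μ (psi3 μ μ' δ'))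
    = -∫ y : V, (y 0 ^ 2 + y 1 ^ 2) * hc μ y ^ 2 := by
  rw [← (cpl hμ).tri_cPc δ]
  unfold tri
  rw [← integral_sub_right_eq_self (fun x => ∑ i, (∑ j, sw (hc μ) x j
    * pd j (fun y => par δ (hc μ) Gp y i) x) * sw (hc μ) x i) e1]
  congr 1
  funext x
  rcases lt_or_ge (x 0) (3 / 4) with h | h
  · simp_rw [pd_psi3_zero hr hμ δ h, pd_par3_zero hμ δ h]
    simp
  · rcases lt_or_ge (3 / 2) (x 0) with h' | h'
    · rw [dil3_zero hμ hμ' δ' h', sw_hc_right hμ h']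
      simp
    · simp_rw [pd_psi3_left hr hμ δ (show x 0 < 2 by linarith)]
      rw [dil3_right hμ hμ' δ' (by linarith)]

include hr hμ in
/-- Near the reading point the field is linear. -/
theorem psi3_pt : psi3 r μ δ ((9 / 8 : ℝ) • e1) 2 = 1 ∧
    pd 2 (fun y => psi3 r μ δ y 2) ((9 / 8 : ℝ) • e1) = 2 ∧
    pd 0 (fun y => psi3 r μ δ y 0) ((9 / 8 : ℝ) • e1) = -1 := by
  set x : V := (9 / 8 : ℝ) • e1 with hx
  have hx0 : x 0 = 9 / 8 := by
    rw [hx]
    simp [e1_zero]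
  have hs : s2 (x - e1) = 1 / 64 := by
    have : x - e1 = (1 / 8 : ℝ) • e1 := by
      rw [hx, show (9 / 8 : ℝ) • e1 - e1 = ((9 / 8 : ℝ) - 1) • e1 by rw [sub_smul, one_smul]]
      norm_num
    rw [this, s2_smul]
    unfold s2 e1
    simp
    norm_num
  have h1 := str_near (Gp_loc (y := x - e1) (by rw [hs]; norm_num))
  have h2 : ∀ᶠ w in 𝓝 (x - e1), w ∉ tsupport (hc μ) := by
    apply (isClosed_tsupport _).isOpen_compl.mem_nhds
    intro hcon
    have h3 := hc_supp hμ hcon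
    have h4 := inv_mu4_small hμ
    rw [hs] at h3
    norm_num at h3 h4
    linarith
  have h5' : ∀ᶠ w in 𝓝 (x - e1), par δ (hc μ) Gp w = ![-(w 0), -(w 1), 2 * w 2 + 1] := by
    filter_upwards [h1, h2] with w hw1 hw2
    have h6 : sw (pd 2 (hc μ)) w = 0 := by
      by_contra h
      exact hw2 (pd_tsupport 2 (sw_ne h))
    unfold par
    rw [hw1, h6, smul_zero, add_zero]
  have h5 : ∀ᶠ w in 𝓝 (x - e1), par δ (hc μ) Gp w 2 = 2 * w 2 + 1 := by
    filter_upwards [h5'] with w hw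
    rw [hw]
    simp
  have h50 : ∀ᶠ w in 𝓝 (x - e1), par δ (hc μ) Gp w 0 = -(w 0) := by
    filter_upwards [h5'] with w hw
    rw [hw]
    simp
  have h7 : x 2 = 0 := by
    rw [hx]
    unfold e1
    simp
  have h8 : e1 2 = 0 := by
    unfold e1
    simp
  have s0 : Sm (fun z : V => 2 * z 2) := contDiff_const.mul (coord_sm 2)
  refine ⟨?_, ?_, ?_⟩
  · rw [psi3_left hr δ (by rw [hx0]; norm_num), h5.self_of_nhds]
    simp [h7, h8]
  · rw [pd_psi3_left hr hμ δ (by rw [hx0]; norm_num)]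
    have h9 : (fun y => par δ (hc μ) Gp y 2) =ᶠ[𝓝 (x - e1)] fun w => 2 * w 2 + 1 := h5
    rw [pd_congr h9, pd_add (s0.diff _) (differentiableAt_const _),
      pd_const_mul 2 ((coord_sm 2).diff _), pd_coord, pd_const]
    simp
  · rw [pd_psi3_left hr hμ δ (by rw [hx0]; norm_num)]
    have h9 : (fun y => par δ (hc μ) Gp y 0) =ᶠ[𝓝 (x - e1)] fun w => -(w 0) := h50
    rw [pd_congr h9, pd_neg, pd_coord]
    simp

end

end Pool.Agent.Run7.h407.G
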