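import Mathlib
import Pool.Agent.Run7.h407.G.Psi3
import Pool.Agent.Run7.h407.Base
import Pool.Agent.Run7.h407.W.L2

/-!
Scaling of the profiles and uniform bounds of the norms of the building blocks.
-/

namespace Pool.Agent.Run7.h407.G

open Set Filter Topology MeasureTheory
open scoped ContDiff

/-- The strength of the coupling. -/
noncomputable def β0 : ℝ := ∫ y : V, (y 0 ^ 2 + y 1 ^ 2) * chi y ^ 2

/-- The norm of the vertical derivative of the swirl. -/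
noncomputable def S0 : ℝ := ∫ y : V, (y 0 ^ 2 + y 1 ^ 2) * pd 2 chi y ^ 2

theorem beta_scale {μ : ℝ} (hμ : 2 ≤ μ) : ∫ y : V, (y 0 ^ 2 + y 1 ^ 2) * hc μ y ^ 2 = β0 := by
  have hμ0 : 0 < μ := by linarith
  have e : (fun y : V => (y 0 ^ 2 + y 1 ^ 2) * hc μ y ^ 2)
      = fun y => (fun z : V => μ ^ 6 * ((z 0 ^ 2 + z 1 ^ 2) * chi z ^ 2)) (μ ^ 2 • y) := by
    funext y
    unfold hc
    simp only [Pi.smul_apply, smul_eq_mul]
    ring
  rw [e, integral_scale (fun z : V => μ ^ 6 * ((z 0 ^ 2 + z 1 ^ 2) * chi z ^ 2)) hμ0,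
    integral_const_mul]
  unfold β0
  field_simp

theorem pd_hc (μ : ℝ) (j : Fin 3) (y : V) : pd j (hc μ) y = μ ^ 7 * pd j chi (μ ^ 2 • y) := by
  have := pd_const_mul (μ ^ 5) ((chi_smul_sm (μ ^ 2)).diff y) j
  rw [pd_comp_smul (chi_sm.differentiable (by simp))] at this
  have e : pd j (hc μ) y = μ ^ 5 * (μ ^ 2 * pd j chi (μ ^ 2 • y)) := this
  rw [e]
  ring

theorem S_scale {μ : ℝ} (hμ : 2 ≤ μ) :
    ∫ y : V, (y 0 ^ 2 + y 1 ^ 2) * pd 2 (hc μ) y ^ 2 = μ ^ 4 * S0 := by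
  have hμ0 : 0 < μ := by linarith
  have e : (fun y : V => (y 0 ^ 2 + y 1 ^ 2) * pd 2 (hc μ) y ^ 2)
      = fun y => (fun z : V => μ ^ 10 * ((z 0 ^ 2 + z 1 ^ 2) * pd 2 chi z ^ 2)) (μ ^ 2 • y) := by
    funext y
    rw [pd_hc]
    simp only [Pi.smul_apply, smul_eq_mul]
    ring
  rw [e, integral_scale (fun z : V => μ ^ 10 * ((z 0 ^ 2 + z 1 ^ 2) * pd 2 chi z ^ 2)) hμ0,
    integral_const_mul]
  unfold S0
  field_simp

theorem β0_pos : 0 < β0 := by
  rw [← beta_scale (μ := 2) le_rfl]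
  exact (cpl le_rfl).hpos

theorem S0_pos : 0 < S0 := by
  have h := (cpl (μ := 2) le_rfl).S_pos
  rw [S_scale le_rfl] at h
  by_contra hcon
  push Not at hcon
  linarith

theorem sw_pd_hc (μ : ℝ) (y : V) :
    sw (pd 2 (hc μ)) y = μ ^ 5 • sw (pd 2 chi) (μ ^ 2 • y) := by
  funext i
  fin_cases i
  · show -(y 1) * pd 2 (hc μ) y = μ ^ 5 * (-((μ ^ 2 • y) 1) * pd 2 chi (μ ^ 2 • y))
    rw [pd_hc]
    simp only [Pi.smul_apply, smul_eq_mul]
    ring
  · show y 0 * pd 2 (hc μ) y = μ ^ 5 * ((μ ^ 2 • y) 0 * pd 2 chi (μ ^ 2 • y))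
    rw [pd_hc]
    simp only [Pi.smul_apply, smul_eq_mul]
    ring
  · show (0 : ℝ) = μ ^ 5 * 0
    ring

theorem sw_pd_hc' (μ : ℝ) (y : V) :
    sw (pd 2 (hc μ)) y = μ ^ 2 • dil μ (sw (pd 2 chi)) y := by
  rw [sw_pd_hc]
  unfold dil
  rw [smul_smul]
  congr 1
  ring

/-- The building block as a sum of three pieces. -/
theorem psi3_pieces (r μ δ : ℝ) (x : V) : psi3 r μ δ x
    = str Gp (x - e1) + (δ * μ ^ 5) • sw (pd 2 chi) (μ ^ 2 • x - μ ^ 2 • e1)
      + sw chi (x - r ^ 2 • e1) := by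
  unfold psi3 par
  rw [sw_pd_hc, smul_smul, smul_sub]

theorem ip_sw (h g : V → ℝ) : ip (sw h) (sw g) = ∫ y : V, (y 0 ^ 2 + y 1 ^ 2) * (h y * g y) := by
  unfold ip
  congr 1
  funext y
  rw [Fin.sum_univ_three, sw_zero, sw_one, sw_two, sw_zero, sw_one, sw_two]
  ring

theorem ip_trans (u v : V → V) (a : V) : ip (fun x => u (x - a)) (fun x => v (x - a)) = ip u v := by
  unfold ip
  exact integral_sub_right_eq_self (fun x => ∑ i, u x i * v x i) a

theorem Dir_trans {u v : V → V} (hu : CF u) (hv : CF v) (a : V) :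
    Dir (fun x => u (x - a)) (fun x => v (x - a)) = Dir u v := by
  unfold Dir
  rw [← integral_sub_right_eq_self (fun x => ∑ i, ∑ j, pd j (fun y => u y i) x
    * pd j (fun y => v y i) x) a]
  congr 1
  funext x
  simp_rw [pd_trans hu, pd_trans hv]

theorem ip_zero_of' {u v : V → V} (h : ∀ x, u x = 0 ∨ v x = 0) : ip u v = 0 := by
  unfold ip
  have : (fun x => ∑ i, u x i * v x i) = fun _ => 0 := by
    funext x
    rcases h x with h | h <;> rw [h] <;> simp
  rw [this]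
  simp

theorem Dir_zero_of {u v : V → V}
    (h : ∀ x, (∀ᶠ y in 𝓝 x, u y = 0) ∨ (∀ᶠ y in 𝓝 x, v y = 0)) : Dir u v = 0 := by
  unfold Dir
  have key : ∀ (f : V → V) (x : V), (∀ᶠ y in 𝓝 x, f y = 0) →
      ∀ i j, pd j (fun y => f y i) x = 0 := by
    intro f x hf i j
    have : (fun y => f y i) =ᶠ[𝓝 x] fun _ => (0 : ℝ) := by
      filter_upwards [hf] with y hy
      rw [hy]
      rfl
    rw [pd_congr this, pd_const]
  have : (fun x => ∑ i, ∑ j, pd j (fun y => u y i) x * pd j (fun y => v y i) x)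
      = fun _ => 0 := by
    funext x
    rcases h x with h | h
    · simp_rw [key u x h]
      simp
    · simp_rw [key v x h]
      simp
  rw [this]
  simp

theorem ip_nonneg (u : V → V) : 0 ≤ ip u u :=
  integral_nonneg fun _ => Finset.sum_nonneg fun _ _ => mul_self_nonneg _

theorem Dir_nonneg' (u : V → V) : 0 ≤ Dir u u :=
  integral_nonneg fun _ => Finset.sum_nonneg fun _ _ => Finset.sum_nonneg fun _ _ =>
    mul_self_nonneg _

theorem ip_add_self {u v : V → V} (hu : CF u) (hv : CF v) :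
    ip (fun x => u x + v x) (fun x => u x + v x) = ip u u + 2 * ip u v + ip v v := by
  rw [ip_add_left hu hv (hu.add hv), ip_comm u, ip_comm v, ip_add_left hu hv hu,
    ip_add_left hu hv hv, ip_comm v u]
  ring

theorem Dir_add_self {u v : V → V} (hu : CF u) (hv : CF v) :
    Dir (fun x => u x + v x) (fun x => u x + v x) = Dir u u + 2 * Dir u v + Dir v v := by
  rw [Dir_add_left hu hv (hu.add hv), Dir_comm u, Dir_comm v, Dir_add_left hu hv hu,
    Dir_add_left hu hv hv, Dir_comm v u]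
  ring

theorem str_CF : CF (str Gp) := by
  apply CF.of_comp (fun i => str_sm Gp_sm i)
  intro i
  apply HasCompactSupport.intro Gp_cs.isCompact
  intro x hx
  rw [str_eq_zero hx]
  rfl

theorem swd_CF : CF (sw (pd 2 chi)) := sw_CF (chi_sm.pd 2) (pd_cs chi_cs 2)

theorem swc_CF : CF (sw chi) := sw_CF chi_sm chi_cs

section

variable {r μ : ℝ} (hr : 2 ≤ r) (hμ : 2 ≤ μ) (δ : ℝ)

include hr hμ in
/-- The two parts of the building block are far from each other. -/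
theorem parts_disj (x : V) : (∀ᶠ y in 𝓝 x, par δ (hc μ) Gp (y - e1) = 0) ∨
    (∀ᶠ y in 𝓝 x, sw chi (y - r ^ 2 • e1) = 0) := by
  rcases lt_or_ge (x 0) 2 with h | h
  · right
    filter_upwards [nhds_lt h] with y hy
    by_contra hcon
    have h1 := abs_le.1 (sw_chi_supp hcon)
    rw [sub_mu_e1_zero] at h1
    nlinarith [h1.1]
  · left
    filter_upwards [nhds_gt (show 3 / 2 < x 0 by linarith)] with y hy
    by_contra hcon
    have h1 := abs_le.1 (par_supp hμ δ hcon)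
    rw [sub_e1_zero] at h1
    linarith [h1.2]

include hr hμ in
theorem N_eq : ip (psi3 r μ δ) (psi3 r μ δ)
    = ip (str Gp) (str Gp) + δ ^ 2 * (μ ^ 4 * S0) + β0 := by
  have c1 := trans_CF ((cpl hμ).par_CF δ) e1
  have c2 := trans_CF swc_CF (r ^ 2 • e1)
  have h1 := ip_add_self c1 c2
  have h2 : ip (fun x => par δ (hc μ) Gp (x - e1)) (fun x => sw chi (x - r ^ 2 • e1)) = 0 :=
    ip_zero_of' fun x => (parts_disj hr hμ δ x).imp (fun h => h.self_of_nhds)
      (fun h => h.self_of_nhds)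
  rw [h2, ip_trans, ip_trans, ip_sw] at h1
  have c3 : CF (sw (pd 2 (hc μ))) := sw_CF ((hc_sm μ).pd 2) (pd_cs (hc_cs hμ) 2)
  have h3 := ip_add_self str_CF (c3.smul δ)
  have h4 : ip (str Gp) (fun x => δ • sw (pd 2 (hc μ)) x) = 0 := by
    unfold ip
    have : (fun x => ∑ i, str Gp x i * (δ • sw (pd 2 (hc μ)) x) i) = fun _ => 0 := by
      funext x
      rw [Fin.sum_univ_three]
      simp only [Pi.smul_apply, smul_eq_mul]
      rw [str_zero, str_one, sw_zero, sw_one, sw_two]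
      ring
    rw [this]
    simp
  have h5 : ip (fun x => δ • sw (pd 2 (hc μ)) x) (fun x => δ • sw (pd 2 (hc μ)) x)
      = δ ^ 2 * (μ ^ 4 * S0) := by
    rw [ip_smul_left, ip_comm, ip_smul_left, ip_sw, ← S_scale hμ]
    have : (fun y : V => (y 0 ^ 2 + y 1 ^ 2) * (pd 2 (hc μ) y * pd 2 (hc μ) y))
        = fun y => (y 0 ^ 2 + y 1 ^ 2) * pd 2 (hc μ) y ^ 2 := by
      funext y
      ring
    rw [this]
    ring
  rw [h4, h5] at h3
  have h6 : ip (par δ (hc μ) Gp) (par δ (hc μ) Gp)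
      = ip (str Gp) (str Gp) + 2 * 0 + δ ^ 2 * (μ ^ 4 * S0) := h3
  have h7 : (∫ y : V, (y 0 ^ 2 + y 1 ^ 2) * (chi y * chi y)) = β0 := by
    unfold β0
    congr 1
    funext y
    ring
  rw [h6, h7] at h1
  have h8 : ip (psi3 r μ δ) (psi3 r μ δ) = _ := h1
  rw [h8]
  ring

include hr hμ in
theorem D_low : S0 ≤ Dir (psi3 r μ δ) (psi3 r μ δ) := by
  have c1 := trans_CF ((cpl hμ).par_CF δ) e1
  have c2 := trans_CF swc_CF (r ^ 2 • e1)
  have h1 := Dir_add_self c1 c2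
  rw [Dir_zero_of (parts_disj hr hμ δ), Dir_trans swc_CF swc_CF] at h1
  have h2 := Dir_nonneg' (fun x => par δ (hc μ) Gp (x - e1))
  have h3 : Dir (psi3 r μ δ) (psi3 r μ δ) = _ := h1
  rw [h3]
  have h4 : S0 ≤ Dir (sw chi) (sw chi) := by
    unfold S0 Dir
    apply integral_mono
    · have hc : Continuous (fun y : V => (y 0 ^ 2 + y 1 ^ 2) * pd 2 chi y ^ 2) :=
        (((coord_sm 0).pow 2).add ((coord_sm 1).pow 2)).continuous.mul
          ((chi_sm.pd 2).continuous.pow 2)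
      apply hc.integrable_of_hasCompactSupport
      apply HasCompactSupport.intro chi_cs.isCompact
      intro x hx
      rw [pd_eq_zero hx]
      ring
    · exact Dir_int swc_CF.sm swc_CF
    · intro y
      show (y 0 ^ 2 + y 1 ^ 2) * pd 2 chi y ^ 2 ≤ ∑ i, ∑ j, pd j (fun z => sw chi z i) y
        * pd j (fun z => sw chi z i) y
      have k1 : ∀ i : Fin 3, pd 2 (fun z => sw chi z i) y * pd 2 (fun z => sw chi z i) y
          ≤ ∑ j, pd j (fun z => sw chi z i) y * pd j (fun z => sw chi z i) y := fun i =>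
        Finset.single_le_sum (f := fun j => pd j (fun z => sw chi z i) y
          * pd j (fun z => sw chi z i) y) (fun j _ => mul_self_nonneg _) (Finset.mem_univ 2)
      have k2 := k1 0
      have k3 := k1 1
      have k4 : 0 ≤ ∑ j, pd j (fun z => sw chi z 2) y * pd j (fun z => sw chi z 2) y :=
        Finset.sum_nonneg fun j _ => mul_self_nonneg _
      rw [Fin.sum_univ_three]
      have e0 : pd 2 (fun z => sw chi z 0) y = -(y 1) * pd 2 chi y := by
        rw [pd_sw_zero chi_sm]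
        simp
      have e1' : pd 2 (fun z => sw chi z 1) y = y 0 * pd 2 chi y := by
        rw [pd_sw_one chi_sm]
        simp
      rw [e0] at k2
      rw [e1'] at k3
      have e2 : (y 0 ^ 2 + y 1 ^ 2) * pd 2 chi y ^ 2
          = -(y 1) * pd 2 chi y * (-(y 1) * pd 2 chi y)
            + y 0 * pd 2 chi y * (y 0 * pd 2 chi y) := by ring
      rw [e2]
      linarith
  linarith

/-- Upper bound for the Dirichlet form. -/
noncomputable def Dup : ℝ :=
  2 * Dir (str Gp) (str Gp) + 2 * (β0 / S0) ^ 2 * Dir (sw (pd 2 chi)) (sw (pd 2 chi))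
    + Dir (sw chi) (sw chi)

include hr hμ in
theorem D_up (hδ : |δ| * μ ^ 4 ≤ β0 / S0) : Dir (psi3 r μ δ) (psi3 r μ δ) ≤ Dup := by
  have hμ0 : 0 < μ := by linarith
  have c1 := trans_CF ((cpl hμ).par_CF δ) e1
  have c2 := trans_CF swc_CF (r ^ 2 • e1)
  have h1 := Dir_add_self c1 c2
  rw [Dir_zero_of (parts_disj hr hμ δ), Dir_trans swc_CF swc_CF,
    Dir_trans ((cpl hμ).par_CF δ) ((cpl hμ).par_CF δ)] at h1
  have h3 : Dir (psi3 r μ δ) (psi3 r μ δ) = _ := h1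
  rw [h3]
  have c3 : CF (sw (pd 2 (hc μ))) := sw_CF ((hc_sm μ).pd 2) (pd_cs (hc_cs hμ) 2)
  have h4 := Dir_add_self str_CF (c3.smul δ)
  have h4' : Dir (par δ (hc μ) Gp) (par δ (hc μ) Gp) = _ := h4
  have h5 := Dir_add_self str_CF ((c3.smul δ).smul (-1))
  have h6 := Dir_nonneg' (fun x => str Gp x + (-1 : ℝ) • (δ • sw (pd 2 (hc μ)) x))
  rw [h5] at h6
  have e1' : Dir (str Gp) (fun x => (-1 : ℝ) • (δ • sw (pd 2 (hc μ)) x))
      = -Dir (str Gp) (fun x => δ • sw (pd 2 (hc μ)) x) := by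
    rw [Dir_comm, Dir_smul_left _ (c3.smul δ), Dir_comm]
    ring
  have e2 : Dir (fun x => (-1 : ℝ) • (δ • sw (pd 2 (hc μ)) x))
      (fun x => (-1 : ℝ) • (δ • sw (pd 2 (hc μ)) x))
      = Dir (fun x => δ • sw (pd 2 (hc μ)) x) (fun x => δ • sw (pd 2 (hc μ)) x) := by
    rw [Dir_smul_left _ (c3.smul δ), Dir_comm, Dir_smul_left _ (c3.smul δ)]
    ring
  rw [e1', e2] at h6
  have e3 : Dir (fun x => δ • sw (pd 2 (hc μ)) x) (fun x => δ • sw (pd 2 (hc μ)) x)
      = (|δ| * μ ^ 4) ^ 2 * Dir (sw (pd 2 chi)) (sw (pd 2 chi)) := by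
    have e4 : (sw (pd 2 (hc μ))) = fun x => μ ^ 2 • dil μ (sw (pd 2 chi)) x :=
      funext fun x => sw_pd_hc' μ x
    have c4 : CF (dil μ (sw (pd 2 chi))) := dil_CF swd_CF hμ0.ne'
    rw [Dir_smul_left _ c3, Dir_comm, Dir_smul_left _ c3, e4, Dir_smul_left _ c4, Dir_comm,
      Dir_smul_left _ c4, Dir_dil swd_CF.smc swd_CF.smc hμ0, mul_pow, sq_abs]
    ring
  rw [e3] at h6 h4'
  have h7 : (|δ| * μ ^ 4) ^ 2 ≤ (β0 / S0) ^ 2 := by
    apply pow_le_pow_left₀ (by positivity) hδ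
  have h8 := mul_le_mul_of_nonneg_right h7 (Dir_nonneg' (sw (pd 2 chi)))
  unfold Dup
  linarith

/-- Upper bound for the norm. -/
noncomputable def Nup : ℝ := ip (str Gp) (str Gp) + β0 ^ 2 / S0 + β0

include hr hμ in
theorem N_low : β0 ≤ ip (psi3 r μ δ) (psi3 r μ δ) := by
  rw [N_eq hr hμ]
  have h1 := ip_nonneg (str Gp)
  have h2 : 0 ≤ δ ^ 2 * (μ ^ 4 * S0) := by
    have := S0_pos
    positivity
  linarith

include hr hμ in
theorem N_up (hδ : |δ| * μ ^ 4 ≤ β0 / S0) : ip (psi3 r μ δ) (psi3 r μ δ) ≤ Nup := by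
  rw [N_eq hr hμ]
  have hS := S0_pos
  have h1 : (|δ| * μ ^ 4) ^ 2 ≤ (β0 / S0) ^ 2 := pow_le_pow_left₀ (by positivity) hδ 2
  have h2 : 1 ≤ μ ^ 4 := one_le_pow₀ (by linarith)
  have h3 : δ ^ 2 * (μ ^ 4 * S0) ≤ β0 ^ 2 / S0 := by
    calc δ ^ 2 * (μ ^ 4 * S0) ≤ δ ^ 2 * (μ ^ 4 * S0) * μ ^ 4 := by
          have : 0 ≤ δ ^ 2 * (μ ^ 4 * S0) := by positivity
          nlinarith
      _ = (|δ| * μ ^ 4) ^ 2 * S0 := by
          rw [mul_pow, sq_abs]
          ring
      _ ≤ (β0 / S0) ^ 2 * S0 := mul_le_mul_of_nonneg_right h1 hS.le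
      _ = _ := by
          field_simp
  unfold Nup
  linarith

end

end Pool.Agent.Run7.h407.G
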