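import Mathlib
import Pool.Agent.Run7.h407.G.Scal
import Pool.Agent.Run7.h407.G.Ser
import Pool.Agent.Run7.h407.Energy

/-!
Chains of fields `P 1, P 2, …` of which only neighbours interact, and the constraint fields.
-/

namespace Pool.Agent.Run7.h407.G

open Set Filter Topology MeasureTheory
open scoped ContDiff

/-- Chains of fields. -/
structure Chn (P : ℕ → V → V) (lo hi : ℕ → ℝ) (R : ℝ) : Prop where
  zero : ∀ x, P 0 x = 0
  cf : ∀ j, CF (P j)
  dv : ∀ j x, dvg (P j) x = 0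
  supp : ∀ j x, P j x ≠ 0 → lo j ≤ x 0 ∧ x 0 ≤ hi j
  lo0 : ∀ j, 0 < lo j
  sep : ∀ j k, j + 2 ≤ k → hi k < lo j
  lim : Tendsto hi atTop (𝓝 0)
  N0 : ∀ j, 0 < ip (P (j + 1)) (P (j + 1))
  ip1 : ∀ j, ip (P j) (P (j + 1)) = 0
  Dir1 : ∀ j, Dir (P j) (P (j + 1)) = 0
  ball : ∀ j x, P j x ≠ 0 → ‖x‖ ≤ R

variable {P : ℕ → V → V} {lo hi : ℕ → ℝ} {R : ℝ}

/-- Squared norms. -/
noncomputable def Nn (P : ℕ → V → V) (j : ℕ) : ℝ := ip (P j) (P j)

/-- Dirichlet integrals. -/
noncomputable def Dd (P : ℕ → V → V) (j : ℕ) : ℝ := Dir (P j) (P j)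

/-- Coupling coefficients. -/
noncomputable def Bb (P : ℕ → V → V) (j : ℕ) : ℝ := -tri (P (j + 1)) (P j) (P (j + 1))

/-- Seeding coefficients. -/
noncomputable def Cc (P : ℕ → V → V) (j : ℕ) : ℝ := -tri (P j) (P j) (P (j + 1))

/-- The first constraint fields. -/
noncomputable def GA (P : ℕ → V → V) (j : ℕ) (x : V) : V :=
  adv (P (j + 1)) (P (j + 1)) x
    + ((Cc P (j + 1) / Nn P (j + 2)) • P (j + 2) x - (Bb P j / Nn P j) • P j x)

/-- The second constraint fields. -/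
noncomputable def GB (P : ℕ → V → V) (j : ℕ) (x : V) : V :=
  (adv (P (j + 1)) (P (j + 2)) x + adv (P (j + 2)) (P (j + 1)) x)
    + ((Bb P (j + 1) / Nn P (j + 2)) • P (j + 2) x
      - (Cc P (j + 1) / Nn P (j + 1)) • P (j + 1) x)

/-- The third constraint fields. -/
noncomputable def GC (P : ℕ → V → V) (j : ℕ) (x : V) : V :=
  lap (P (j + 1)) x + (Dd P (j + 1) / Nn P (j + 1)) • P (j + 1) x

/-- The constraints. -/
structure Con (ν : ℝ) (P : ℕ → V → V) (v : V → V) : Prop where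
  l2 : L2F v
  ca : ∀ j : ℕ, ip (GA P j) v = 0
  cb : ∀ j : ℕ, ip (GB P j) v = 0
  cc : ν ≠ 0 → ∀ j : ℕ, ip (GC P j) v = 0

theorem CF.subf {u v : V → V} (hu : CF u) (hv : CF v) : CF (fun x => u x - v x) := by
  have h := hu.add (hv.smul (-1))
  have e : (fun x => u x - v x) = fun x => u x + (-1 : ℝ) • v x := by
    funext x
    rw [neg_one_smul, sub_eq_add_neg]
  rw [e]
  exact h

theorem ip_lin {u v w z : V → V} (hu : L2F u) (hv : L2F v) (hw : L2F w) (hz : L2F z) (b c : ℝ) :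
    ip (fun y => u y + (b • v y - c • w y)) z = ip u z + (b * ip v z - c * ip w z) := by
  rw [ipL_add hu ((hv.smul b).sub (hw.smul c)) hz,
    ipL_sub (hv.smul b) (hw.smul c) hz, ip_smul_left, ip_smul_left]

theorem ip_lin2 {u v z : V → V} (hu : L2F u) (hv : L2F v) (hz : L2F z) (b : ℝ) :
    ip (fun y => u y + b • v y) z = ip u z + b * ip v z := by
  rw [ipL_add hu (hv.smul b) hz, ip_smul_left]

namespace Chn

theorem GA_CF (h : Chn P lo hi R) (j : ℕ) : CF (GA P j) :=
  (adv_CF (h.cf _) (h.cf _)).add (CF.subf ((h.cf _).smul _) ((h.cf _).smul _))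

theorem GB_CF (h : Chn P lo hi R) (j : ℕ) : CF (GB P j) :=
  ((adv_CF (h.cf _) (h.cf _)).add (adv_CF (h.cf _) (h.cf _))).add
    (CF.subf ((h.cf _).smul _) ((h.cf _).smul _))

theorem GC_CF (h : Chn P lo hi R) (j : ℕ) : CF (GC P j) :=
  (lap_CF (h.cf _)).add ((h.cf _).smul _)

theorem ip_GA (h : Chn P lo hi R) (j : ℕ) {v : V → V} (hv : L2F v) :
    ip (GA P j) v = ip (adv (P (j + 1)) (P (j + 1))) v
      + (Cc P (j + 1) / Nn P (j + 2) * ip (P (j + 2)) v - Bb P j / Nn P j * ip (P j) v) :=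
  ip_lin (adv_CF (h.cf _) (h.cf _)).l2 (h.cf _).l2 (h.cf _).l2 hv _ _

theorem ip_GB (h : Chn P lo hi R) (j : ℕ) {v : V → V} (hv : L2F v) :
    ip (GB P j) v = (ip (adv (P (j + 1)) (P (j + 2))) v + ip (adv (P (j + 2)) (P (j + 1))) v)
      + (Bb P (j + 1) / Nn P (j + 2) * ip (P (j + 2)) v
        - Cc P (j + 1) / Nn P (j + 1) * ip (P (j + 1)) v) := by
  have h1 := adv_CF (h.cf (j + 1)) (h.cf (j + 2))
  have h2 := adv_CF (h.cf (j + 2)) (h.cf (j + 1))
  have := ip_lin (h1.add h2).l2 (h.cf (j + 2)).l2 (h.cf (j + 1)).l2 hv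
    (Bb P (j + 1) / Nn P (j + 2)) (Cc P (j + 1) / Nn P (j + 1))
  rw [ipL_add h1.l2 h2.l2 hv] at this
  exact this

theorem ip_GC (h : Chn P lo hi R) (j : ℕ) {v : V → V} (hv : L2F v) :
    ip (GC P j) v = ip (lap (P (j + 1))) v
      + Dd P (j + 1) / Nn P (j + 1) * ip (P (j + 1)) v :=
  ip_lin2 (lap_CF (h.cf _)).l2 (h.cf _).l2 hv _

/-- The supports of distant fields are disjoint. -/
theorem far (h : Chn P lo hi R) {j k : ℕ} (hjk : j + 2 ≤ k) (x : V) :
    (∀ᶠ y in 𝓝 x, P j y = 0) ∨ (∀ᶠ y in 𝓝 x, P k y = 0) := by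
  have h1 := h.sep j k hjk
  rcases lt_or_ge (x 0) (lo j) with hx | hx
  · left
    filter_upwards [nhds_lt hx] with y hy
    by_contra hcon
    linarith [(h.supp j y hcon).1]
  · right
    filter_upwards [nhds_gt (h1.trans_le hx)] with y hy
    by_contra hcon
    linarith [(h.supp k y hcon).2]

theorem far' (h : Chn P lo hi R) {j k : ℕ} (hjk : j + 2 ≤ k ∨ k + 2 ≤ j) (x : V) :
    (∀ᶠ y in 𝓝 x, P j y = 0) ∨ (∀ᶠ y in 𝓝 x, P k y = 0) := by
  rcases hjk with h1 | h1
  · exact h.far h1 x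
  · exact (h.far h1 x).symm

theorem orth (h : Chn P lo hi R) {j k : ℕ} (hjk : j ≠ k) :
    ip (P j) (P k) = 0 ∧ Dir (P j) (P k) = 0 := by
  rcases lt_or_gt_of_ne hjk with h1 | h1
  · rcases Nat.eq_or_lt_of_le (Nat.succ_le_of_lt h1) with h2 | h2
    · subst h2
      exact ⟨h.ip1 j, h.Dir1 j⟩
    · have h3 := h.far (j := j) (k := k) (by omega)
      exact ⟨ip_zero_of' fun x => (h3 x).imp (fun h => h.self_of_nhds) (fun h => h.self_of_nhds),
        Dir_zero_of h3⟩
  · rcases Nat.eq_or_lt_of_le (Nat.succ_le_of_lt h1) with h2 | h2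
    · subst h2
      rw [ip_comm, Dir_comm]
      exact ⟨h.ip1 k, h.Dir1 k⟩
    · have h3 := h.far (j := k) (k := j) (by omega)
      rw [ip_comm, Dir_comm]
      exact ⟨ip_zero_of' fun x => (h3 x).imp (fun h => h.self_of_nhds) (fun h => h.self_of_nhds),
        Dir_zero_of h3⟩

theorem P0 (h : Chn P lo hi R) : P 0 = fun _ => 0 := funext h.zero

theorem B0 (h : Chn P lo hi R) : Bb P 0 = 0 := by
  unfold Bb tri
  rw [h.P0]
  have : ∀ (x : V) (i j : Fin 3), pd j (fun _ : V => (0 : V) i) x = 0 := by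
    intro x i j
    exact pd_const _ _ _
  simp_rw [this]
  simp

theorem C0 (h : Chn P lo hi R) : Cc P 0 = 0 := by
  unfold Cc tri
  rw [h.P0]
  simp

theorem tri_far (h : Chn P lo hi R) {a b k : ℕ}
    (hk : (a + 2 ≤ k ∨ k + 2 ≤ a) ∨ (b + 2 ≤ k ∨ k + 2 ≤ b)) :
    ip (adv (P a) (P b)) (P k) = 0 := by
  apply ip_zero_of'
  intro x
  have key : ∀ c : ℕ, (c + 2 ≤ k ∨ k + 2 ≤ c) →
      (∀ᶠ y in 𝓝 x, P c y = 0) ∨ P k x = 0 := by
    intro c hc
    exact (h.far' hc x).imp id (fun h => h.self_of_nhds)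
  rcases hk with hk | hk
  · rcases key a hk with h | h
    · exact Or.inl (adv_zero (Or.inl h))
    · exact Or.inr h
  · rcases key b hk with h | h
    · exact Or.inl (adv_zero (Or.inr h))
    · exact Or.inr h

theorem BN (h : Chn P lo hi R) (j : ℕ) : Bb P j / Nn P j * Nn P j = Bb P j := by
  cases j with
  | zero => rw [h.B0]; ring
  | succ j =>
    have : Nn P (j + 1) ≠ 0 := (h.N0 j).ne'
    field_simp

/-- The fields themselves satisfy the constraints. -/
theorem con (h : Chn P lo hi R) (ν : ℝ) (k : ℕ) : Con ν P (P k) := by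
  have hk := h.cf k
  refine ⟨hk.l2, fun j => ?_, fun j => ?_, fun _ j => ?_⟩
  · rw [h.ip_GA j hk.l2]
    have hn := h.cf (j + 1)
    have hN2 : Nn P (j + 2) ≠ 0 := (h.N0 (j + 1)).ne'
    by_cases h1 : k = j + 2
    · subst h1
      have e1 : ip (P (j + 2)) (P (j + 2)) = Nn P (j + 2) := rfl
      have e2 : ip (adv (P (j + 1)) (P (j + 1))) (P (j + 2)) = -Cc P (j + 1) := by
        rw [ip_adv]
        unfold Cc
        rw [neg_neg]
      rw [e1, e2, (h.orth (j := j) (k := j + 2) (by omega)).1]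
      field_simp
      ring
    · by_cases h2 : k = j
      · subst h2
        have e1 : ip (P k) (P k) = Nn P k := rfl
        have e2 : ip (adv (P (k + 1)) (P (k + 1))) (P k) = Bb P k := by
          rw [ip_adv, tri_anti hn (h.dv _) hn hk]
          rfl
        rw [e1, e2, (h.orth (j := k + 2) (k := k) (by omega)).1, h.BN]
        ring
      · rw [(h.orth (j := j + 2) (k := k) (Ne.symm h1)).1,
          (h.orth (j := j) (k := k) (Ne.symm h2)).1]
        have h3 : ip (adv (P (j + 1)) (P (j + 1))) (P k) = 0 := by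
          by_cases h4 : k = j + 1
          · subst h4
            rw [ip_adv]
            exact tri_self hn (h.dv _) hn
          · exact h.tri_far (Or.inl (by omega))
        rw [h3]
        ring
  · rw [h.ip_GB j hk.l2]
    have hn := h.cf (j + 1)
    have hn1 := h.cf (j + 2)
    have hN1 : Nn P (j + 1) ≠ 0 := (h.N0 j).ne'
    have hN2 : Nn P (j + 2) ≠ 0 := (h.N0 (j + 1)).ne'
    by_cases h1 : k = j + 2
    · subst h1
      have e1 : ip (P (j + 2)) (P (j + 2)) = Nn P (j + 2) := rfl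
      have e2 : ip (adv (P (j + 1)) (P (j + 2))) (P (j + 2)) = 0 := by
        rw [ip_adv]
        exact tri_self hn (h.dv _) hn1
      have e3 : ip (adv (P (j + 2)) (P (j + 1))) (P (j + 2)) = -Bb P (j + 1) := by
        rw [ip_adv]
        unfold Bb
        rw [neg_neg]
      rw [e1, e2, e3, (h.orth (j := j + 1) (k := j + 2) (by omega)).1]
      field_simp
      ring
    · by_cases h2 : k = j + 1
      · subst h2
        have e1 : ip (P (j + 1)) (P (j + 1)) = Nn P (j + 1) := rfl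
        have e2 : ip (adv (P (j + 1)) (P (j + 2))) (P (j + 1)) = Cc P (j + 1) := by
          rw [ip_adv, tri_anti hn (h.dv _) hn1 hn]
          rfl
        have e3 : ip (adv (P (j + 2)) (P (j + 1))) (P (j + 1)) = 0 := by
          rw [ip_adv]
          exact tri_self hn1 (h.dv _) hn
        rw [e1, e2, e3, (h.orth (j := j + 2) (k := j + 1) (by omega)).1]
        field_simp
        ring
      · rw [(h.orth (j := j + 2) (k := k) (Ne.symm h1)).1,
          (h.orth (j := j + 1) (k := k) (Ne.symm h2)).1, h.tri_far (by omega),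
          h.tri_far (by omega)]
        ring
  · have hn := h.cf (j + 1)
    have hN1 : Nn P (j + 1) ≠ 0 := (h.N0 j).ne'
    rw [h.ip_GC j hk.l2, ip_lap hn hk]
    by_cases h2 : k = j + 1
    · subst h2
      have e1 : ip (P (j + 1)) (P (j + 1)) = Nn P (j + 1) := rfl
      have e2 : Dir (P (j + 1)) (P (j + 1)) = Dd P (j + 1) := rfl
      rw [e1, e2]
      field_simp
      ring
    · rw [(h.orth (j := j + 1) (k := k) (Ne.symm h2)).1,
        (h.orth (j := j + 1) (k := k) (Ne.symm h2)).2]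
      ring

/-- Near a point off the plane `x 0 = 0` only finitely many fields do not vanish. -/
theorem fin_near (h : Chn P lo hi R) {x : V} (hx : x 0 ≠ 0) :
    ∃ K : ℕ, ∀ᶠ y in 𝓝 x, ∀ n ≥ K, P n y = 0 := by
  rcases lt_or_gt_of_ne hx with hneg | hpos
  · refine ⟨0, ?_⟩
    filter_upwards [nhds_lt hneg] with y hy n _
    by_contra hcon
    linarith [(h.supp n y hcon).1, h.lo0 n]
  · obtain ⟨K, hK⟩ := (h.lim.eventually (gt_mem_nhds (show 0 < x 0 / 2 by linarith))).exists_forall_of_atTop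
    refine ⟨K, ?_⟩
    filter_upwards [nhds_gt (show x 0 / 2 < x 0 by linarith)] with y hy n hn
    by_contra hcon
    linarith [(h.supp n y hcon).2, hK n hn]

/-- Beyond a plane only finitely many fields do not vanish. -/
theorem fin_far (h : Chn P lo hi R) {a : ℝ} (ha : 0 < a) :
    ∃ K : ℕ, ∀ x : V, a ≤ x 0 → ∀ n ≥ K, P n x = 0 := by
  obtain ⟨K, hK⟩ := (h.lim.eventually (gt_mem_nhds ha)).exists_forall_of_atTop
  refine ⟨K, fun x hx n hn => ?_⟩
  by_contra hcon
  linarith [(h.supp n x hcon).2, hK n hn]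

end Chn

/-- `v` is the superposition of the fields with coefficients `c`. -/
def Mem (P : ℕ → V → V) (c : ℕ → ℝ) (v : V → V) : Prop :=
  ∀ x, HasSum (fun n => c n • P n x) (v x)

/-- The `n`-th part of the residual. -/
noncomputable def Qf (P : ℕ → V → V) (ν : ℝ) (a a' : ℕ → ℝ) (n : ℕ) (x : V) : V :=
  a' n • P n x + (a n ^ 2) • adv (P n) (P n) x
    + (a n * a (n + 1)) • (adv (P n) (P (n + 1)) x + adv (P (n + 1)) (P n) x)
    - (ν * a n) • lap (P n) x

theorem Qf_apply (ν : ℝ) (a a' : ℕ → ℝ) (n : ℕ) (x : V) (i : Fin 3) :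
    Qf P ν a a' n x i = a' n * P n x i + a n ^ 2 * adv (P n) (P n) x i
    + a n * a (n + 1) * (adv (P n) (P (n + 1)) x i + adv (P (n + 1)) (P n) x i)
    - ν * a n * lap (P n) x i := rfl

end Pool.Agent.Run7.h407.G
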