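import Mathlib
import Pool.Agent.Run7.h407.G.Chain
import Pool.Agent.Run7.h407.W.Test

/-!
The residual of a superposition of the fields of a chain is orthogonal to every square
integrable field which satisfies the constraints.
-/

namespace Pool.Agent.Run7.h407.G

open Set Filter Topology MeasureTheory
open scoped ContDiff

variable {P : ℕ → V → V} {lo hi : ℕ → ℝ} {R : ℝ} {w : ℕ → ℝ}

theorem res_fin (h : Chn P lo hi R) {u : ℝ → V → V} {T' : ℝ} {c : ℕ → ℝ → ℝ}
    (hm : ∀ s ∈ Ico 0 T', Mem P (fun n => c n s) (u s)) {t : ℝ} (ht : t ∈ Ioo 0 T')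
    {c' : ℕ → ℝ} (hc : ∀ n, HasDerivAt (c n) (c' n) t) (ν : ℝ) {x : V} (hx : x 0 ≠ 0)
    (i : Fin 3) :
    HasSum (fun n => Qf P ν (fun k => c k t) c' n x i) (residual ν u t x i) := by
  obtain ⟨K, hK⟩ := h.fin_near hx
  have hph := h.cf
  have hKx : ∀ n ≥ K, ∀ᶠ y in 𝓝 x, P n y = 0 := by
    intro n hn
    filter_upwards [hK] with y hy
    exact hy n hn
  have hQ : ∀ n, n ∉ Finset.range K → Qf P ν (fun k => c k t) c' n x i = 0 := by
    intro n hn
    rw [Finset.mem_range, not_lt] at hn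
    have h1 := hKx n hn
    rw [Qf_apply, adv_zero (Or.inl h1), adv_zero (Or.inl h1), adv_zero (Or.inr h1), lap_zero h1,
      h1.self_of_nhds]
    simp
  have key : residual ν u t x i = ∑ n ∈ Finset.range K, Qf P ν (fun k => c k t) c' n x i := by
    -- representation near `x`
    have hrep : ∀ s ∈ Ico 0 T', ∀ y : V, (∀ n ≥ K, P n y = 0) → ∀ j,
        u s y j = ∑ n ∈ Finset.range K, c n s * P n y j := by
      intro s hs y hy j
      have h1 : HasSum (fun n => c n s • P n y)
          (∑ n ∈ Finset.range K, c n s • P n y) := by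
        apply hasSum_sum_of_ne_finset_zero
        intro n hn
        rw [Finset.mem_range, not_lt] at hn
        rw [hy n hn, smul_zero]
      have h2 := (hm s hs y).unique h1
      rw [h2, Finset.sum_apply]
      rfl
    have htm : t ∈ Ico 0 T' := ⟨ht.1.le, ht.2⟩
    have e1 : ∀ j k, ∀ᶠ y in 𝓝 x, pd j (fun z => u t z k) y
        = ∑ n ∈ Finset.range K, c n t * pd j (fun z => P n z k) y := by
      intro j k
      filter_upwards [hK.eventually_nhds] with y hy
      have h1 : (fun z => u t z k) =ᶠ[𝓝 y] fun z => ∑ n ∈ Finset.range K, c n t * P n z k := by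
        filter_upwards [hy] with z hz
        exact hrep t htm z hz k
      rw [pd_congr h1, pd_sum (fun n _ => ((contDiff_const.mul ((hph n).smc k)).differentiable
        (by simp) y : DifferentiableAt ℝ (fun z => c n t * P n z k) y))]
      apply Finset.sum_congr rfl
      intro n _
      exact pd_const_mul _ (((hph n).smc k).diff y) j
    have e2 : ∀ j, pd j (pd j (fun z => u t z i)) x
        = ∑ n ∈ Finset.range K, c n t * pd j (pd j (fun z => P n z i)) x := by
      intro j
      rw [pd_congr (e1 j i), pd_sum (fun n _ => ((contDiff_const.mul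
        (((hph n).smc i).pd j)).differentiable (by simp) x :
        DifferentiableAt ℝ (fun z => c n t * pd j (fun z => P n z i) z) x))]
      apply Finset.sum_congr rfl
      intro n _
      exact pd_const_mul _ ((((hph n).smc i).pd j).diff x) j
    have e3 : deriv (fun s => u s x i) t = ∑ n ∈ Finset.range K, c' n * P n x i := by
      have h1 : (fun s => u s x i) =ᶠ[𝓝 t] fun s => ∑ n ∈ Finset.range K, c n s * P n x i := by
        filter_upwards [Ioo_mem_nhds ht.1 ht.2] with s hs
        exact hrep s ⟨hs.1.le, hs.2⟩ x hK.self_of_nhds i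
      rw [h1.deriv_eq]
      exact (HasDerivAt.fun_sum fun n _ => (hc n).mul_const _).deriv
    have e4 : ∑ j, u t x j * pd j (fun y => u t y i) x
        = ∑ a ∈ Finset.range K, ∑ b ∈ Finset.range K,
          c a t * c b t * adv (P a) (P b) x i := by
      have h1 : ∀ j, u t x j * pd j (fun y => u t y i) x
          = ∑ a ∈ Finset.range K, ∑ b ∈ Finset.range K,
            c a t * c b t * (P a x j * pd j (fun z => P b z i) x) := by
        intro j
        rw [hrep t htm x hK.self_of_nhds j, (e1 j i).self_of_nhds, Finset.sum_mul_sum]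
        apply Finset.sum_congr rfl
        intro a _
        apply Finset.sum_congr rfl
        intro b _
        ring
      simp_rw [h1]
      rw [Finset.sum_comm]
      apply Finset.sum_congr rfl
      intro a _
      rw [Finset.sum_comm]
      apply Finset.sum_congr rfl
      intro b _
      unfold adv
      rw [Finset.mul_sum]
    have e5 := dbl_sum' (fun a b => c a t * c b t * adv (P a) (P b) x i)
      (by
        intro a b hab
        have h1 : adv (P a) (P b) x = 0 := adv_zero (h.far' hab x)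
        simp only [h1]
        simp) K
      (by
        intro a b hab
        have h1 : adv (P a) (P b) x = 0 := by
          apply adv_zero
          rcases hab with hab | hab
          · exact Or.inl (hKx a hab)
          · exact Or.inr (hKx b hab)
        simp only [h1]
        simp)
    unfold residual
    rw [e3, e4, e5]
    simp_rw [e2, Qf_apply]
    rw [Finset.sum_comm, Finset.mul_sum, ← Finset.sum_add_distrib, ← Finset.sum_sub_distrib]
    apply Finset.sum_congr rfl
    intro n _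
    have e6 : lap (P n) x i = ∑ j, pd j (pd j (fun z => P n z i)) x := rfl
    rw [e6, ← Finset.mul_sum]
    ring
  rw [key]
  exact hasSum_sum_of_ne_finset_zero hQ

/-- Uniform bounds by powers of the weight. -/
def UB (w : ℕ → ℝ) (F : ℕ → V → V) : Prop :=
  ∃ s : ℕ → ℝ, PB w s ∧ (∀ j, 0 ≤ s j) ∧ ∀ j x, ‖F j x‖ ≤ s j

/-- Rapidly decaying sequences. -/
def Rap (w a : ℕ → ℝ) : Prop := RD w 1 (fun j _ => a j)

theorem Rap.intro {a : ℕ → ℝ} (h : ∀ k : ℕ, ∃ C, ∀ j, |a j| * w j ^ k ≤ C) : Rap w a := by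
  intro k
  obtain ⟨C, hC⟩ := h k
  exact ⟨C, fun j _ _ => hC j⟩

theorem Rap.summ (hw : Wgt w) {a s : ℕ → ℝ} (h : Rap w a) (hs : PB w s) :
    Summable (fun j => |a j| * |s j|) := by
  obtain ⟨u, hu, hu2⟩ := RD.summable_bound hw (RD.wmul hw h hs)
  refine Summable.of_nonneg_of_le (fun j => ?_) (fun j => ?_) hu
  · positivity
  · have := hu2 j 0 (by norm_num)
    rw [abs_mul] at this
    linarith

theorem Rap.mul (hw : Wgt w) {a b : ℕ → ℝ} (ha : Rap w a) (hb : Rap w b) :
    Rap w (fun n => a n * b n) := RD.mul hw ha hb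

theorem Rap.add (hw : Wgt w) {a b : ℕ → ℝ} (ha : Rap w a) (hb : Rap w b) :
    Rap w (fun n => a n + b n) := RD.add hw ha hb

theorem Rap.wmul (hw : Wgt w) {a s : ℕ → ℝ} (ha : Rap w a) (hs : PB w s) :
    Rap w (fun n => s n * a n) := RD.wmul hw ha hs

theorem Rap.shift (hw : Wgt w) {a : ℕ → ℝ} (ha : Rap w a) : Rap w (fun n => a (n + 1)) :=
  RD.shift hw ha

theorem Rap.unsh (hw : Wgt w) {a : ℕ → ℝ} (ha : Rap w (fun n => a (n + 1))) (h0 : a 0 = 0) :
    Rap w a := by
  have h := RD.unsh hw ha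
  intro k
  obtain ⟨C, hC⟩ := h k
  refine ⟨C, fun j t ht => ?_⟩
  have h1 := hC j t ht
  cases j with
  | zero =>
    simp only [h0]
    exact h1
  | succ j => exact h1

/-- The integral of a square integrable field over a ball. -/
theorem ball_int (R : ℝ) {v : V → V} (hv : L2F v) :
    Integrable (fun x => (Metric.closedBall (0 : V) R).indicator
      (fun y => ∑ i, |v y i|) x) volume := by
  rw [integrable_indicator_iff measurableSet_closedBall]
  apply integrable_finsetSum
  intro i _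
  have h1 : MemLp (fun x => v x i) 2 (volume.restrict (Metric.closedBall (0 : V) R)) :=
    (hv i).restrict _
  have : IsFiniteMeasure (volume.restrict (Metric.closedBall (0 : V) R)) :=
    ⟨by
      rw [Measure.restrict_apply_univ]
      exact (isCompact_closedBall (0 : V) R).measure_lt_top⟩
  exact (h1.integrable (by norm_num)).abs

/-- Testing a field with support in the ball. -/
theorem test_bd {v : V → V} (hv : L2F v) (R : ℝ) : ∃ C, 0 ≤ C ∧ ∀ (b s : ℝ) (F : V → V), 0 ≤ s →
    (∀ x, ‖F x‖ ≤ s) → (∀ x, F x ≠ 0 → ‖x‖ ≤ R) →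
    ∫ x, ‖∑ i, (b • F x) i * v x i‖ ≤ |b| * s * C := by
  refine ⟨∫ x, (Metric.closedBall (0 : V) R).indicator (fun y => ∑ i, |v y i|) x,
    integral_nonneg fun x => indicator_nonneg
      (fun y _ => Finset.sum_nonneg fun i _ => abs_nonneg _) x, fun b s F hs hF hR => ?_⟩
  have hpt : ∀ x, ‖∑ i, (b • F x) i * v x i‖ ≤ |b| * s
      * (Metric.closedBall (0 : V) R).indicator (fun y => ∑ i, |v y i|) x := by
    intro x
    by_cases hx : x ∈ Metric.closedBall (0 : V) R
    · rw [indicator_of_mem hx]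
      calc ‖∑ i, (b • F x) i * v x i‖
          ≤ ∑ i, ‖(b • F x) i * v x i‖ := norm_sum_le _ _
        _ ≤ ∑ i, (|b| * s) * |v x i| := by
            apply Finset.sum_le_sum
            intro i _
            rw [norm_mul, Real.norm_eq_abs, Real.norm_eq_abs]
            apply mul_le_mul_of_nonneg_right _ (abs_nonneg _)
            show |b * F x i| ≤ _
            rw [abs_mul]
            apply mul_le_mul_of_nonneg_left _ (abs_nonneg _)
            rw [← Real.norm_eq_abs]
            exact (norm_le_pi_norm _ i).trans (hF _)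
        _ = _ := by rw [← Finset.mul_sum]
    · have h1 : F x = 0 := by
        by_contra hcon
        exact hx (mem_closedBall_zero_iff.2 (hR x hcon))
      rw [h1, indicator_of_notMem hx]
      simp
  calc ∫ x, ‖∑ i, (b • F x) i * v x i‖
      ≤ ∫ x, |b| * s * (Metric.closedBall (0 : V) R).indicator (fun y => ∑ i, |v y i|) x :=
        integral_mono_of_nonneg (Eventually.of_forall fun x => norm_nonneg _)
          ((ball_int R hv).const_mul _) (Eventually.of_forall hpt)
    _ = _ := by rw [integral_const_mul]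

/-- All the uniform bounds needed. -/
structure Bds (P : ℕ → V → V) (w : ℕ → ℝ) : Prop where
  b0 : UB w P
  b1 : UB w (fun j => adv (P j) (P j))
  b2 : UB w (fun j x => adv (P j) (P (j + 1)) x + adv (P (j + 1)) (P j) x)
  b3 : UB w (fun j => lap (P j))

theorem adv_ne {u v : V → V} {x : V} (h : adv u v x ≠ 0) : u x ≠ 0 := by
  intro h0
  apply h
  funext i
  unfold adv
  rw [h0]
  simp

theorem Chn.adv_ball (h : Chn P lo hi R) {a b : ℕ} {x : V} (hx : adv (P a) (P b) x ≠ 0) :
    ‖x‖ ≤ R := h.ball a x (adv_ne hx)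

theorem closure_ball {u : V → V} (hu : ∀ x, u x ≠ 0 → ‖x‖ ≤ R) {x : V} (hx : R < ‖x‖) :
    ∀ᶠ y in 𝓝 x, u y = 0 := by
  have ho : IsOpen {y : V | R < ‖y‖} := isOpen_lt continuous_const continuous_norm
  filter_upwards [ho.mem_nhds hx] with y hy
  by_contra hcon
  exact absurd (hu y hcon) (not_le.2 hy)

theorem Chn.lap_ball (h : Chn P lo hi R) {a : ℕ} {x : V} (hx : lap (P a) x ≠ 0) :
    ‖x‖ ≤ R := by
  by_contra hcon
  exact hx (lap_zero (closure_ball (h.ball a) (not_le.1 hcon)))

theorem Qf_summ (h : Chn P lo hi R) (hw : Wgt w) (hB : Bds P w) (ν : ℝ) {a a' : ℕ → ℝ}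
    (ha : Rap w a) (ha' : Rap w a') {v : V → V} (hv : L2F v) :
    (∀ n, Integrable (fun x => ∑ i, Qf P ν a a' n x i * v x i) volume) ∧
    Summable (fun n => ∫ x, ‖∑ i, Qf P ν a a' n x i * v x i‖) := by
  obtain ⟨C, hC0, hC⟩ := test_bd hv R
  obtain ⟨s0, p0, n0, m0⟩ := hB.b0
  obtain ⟨s1, p1, n1, m1⟩ := hB.b1
  obtain ⟨s2, p2, n2, m2⟩ := hB.b2
  obtain ⟨s3, p3, n3, m3⟩ := hB.b3
  have r1 : Rap w (fun n => a n ^ 2) := by
    simp_rw [pow_two]
    exact ha.mul hw ha
  have r2 : Rap w (fun n => a n * a (n + 1)) := ha.mul hw (ha.shift hw)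
  have r3 : Rap w (fun n => -(ν * a n)) := by
    have := ha.wmul hw (PB.const (-ν))
    refine (congrArg (Rap w) (funext fun n => ?_)).mp this
    ring
  have hnn : ∀ f : V → ℝ, 0 ≤ ∫ x, ‖f x‖ := fun f => integral_nonneg fun x => norm_nonneg _
  have ssum : ∀ {b s : ℕ → ℝ}, Rap w b → PB w s → (∀ j, 0 ≤ s j) →
      Summable (fun n => |b n| * s n * C) := by
    intro b s hb hs h0
    have := (hb.summ hw hs).mul_right C
    refine (congrArg Summable (funext fun n => ?_)).mp this
    rw [abs_of_nonneg (h0 n)]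
  have cadv : ∀ n, CF (fun x => adv (P n) (P (n + 1)) x + adv (P (n + 1)) (P n) x) := fun n =>
    (adv_CF (h.cf _) (h.cf _)).add (adv_CF (h.cf _) (h.cf _))
  refine sum_four (f0 := fun n x => ∑ i, (a' n • P n x) i * v x i)
    (f1 := fun n x => ∑ i, ((a n ^ 2) • adv (P n) (P n) x) i * v x i)
    (f2 := fun n x => ∑ i, ((a n * a (n + 1)) • (adv (P n) (P (n + 1)) x
      + adv (P (n + 1)) (P n) x)) i * v x i)
    (f3 := fun n x => ∑ i, ((-(ν * a n)) • lap (P n) x) i * v x i)
    (fun n => ipL_int ((h.cf n).smul _).l2 hv)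
    (fun n => ipL_int ((adv_CF (h.cf n) (h.cf n)).smul _).l2 hv)
    (fun n => ipL_int ((cadv n).smul _).l2 hv)
    (fun n => ipL_int ((lap_CF (h.cf n)).smul _).l2 hv) ?_
    (Summable.of_nonneg_of_le (fun n => hnn _)
      (fun n => hC (a' n) (s0 n) (P n) (n0 n) (m0 n) (h.ball n)) (ssum ha' p0 n0))
    (Summable.of_nonneg_of_le (fun n => hnn _)
      (fun n => hC (a n ^ 2) (s1 n) (adv (P n) (P n)) (n1 n) (m1 n) (fun x hx => h.adv_ball hx))
      (ssum r1 p1 n1))
    (Summable.of_nonneg_of_le (fun n => hnn _)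
      (fun n => hC (a n * a (n + 1)) (s2 n)
        (fun x => adv (P n) (P (n + 1)) x + adv (P (n + 1)) (P n) x) (n2 n) (m2 n)
        (fun x hx => by
          by_contra hcon
          apply hx
          have h1 : adv (P n) (P (n + 1)) x = 0 := by
            by_contra h2
            exact hcon (h.adv_ball h2)
          have h3 : adv (P (n + 1)) (P n) x = 0 := by
            by_contra h2
            exact hcon (h.adv_ball h2)
          rw [h1, h3, add_zero]))
      (ssum r2 p2 n2))
    (Summable.of_nonneg_of_le (fun n => hnn _)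
      (fun n => hC (-(ν * a n)) (s3 n) (lap (P n)) (n3 n) (m3 n) (fun x hx => h.lap_ball hx))
      (ssum r3 p3 n3))
  intro n x
  rw [← Finset.sum_add_distrib, ← Finset.sum_add_distrib, ← Finset.sum_add_distrib]
  apply Finset.sum_congr rfl
  intro i _
  rw [Qf_apply]
  simp only [Pi.smul_apply, Pi.add_apply, smul_eq_mul]
  ring

theorem ip_Qf (h : Chn P lo hi R) (ν : ℝ) (a a' : ℕ → ℝ) (n : ℕ) {v : V → V}
    (hv : L2F v) : ∫ x, ∑ i, Qf P ν a a' n x i * v x i
      = a' n * ip (P n) v + a n ^ 2 * ip (adv (P n) (P n)) v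
        + a n * a (n + 1) * (ip (adv (P n) (P (n + 1))) v
          + ip (adv (P (n + 1)) (P n)) v)
        - ν * a n * ip (lap (P n)) v := by
  have h0 := h.cf n
  have h1 := h.cf (n + 1)
  have c1 := adv_CF h0 h0
  have c2 := (adv_CF h0 h1).add (adv_CF h1 h0)
  have c3 := lap_CF h0
  have e : ∫ x, ∑ i, Qf P ν a a' n x i * v x i = ip (fun x => (fun x => (fun x => a' n • P n x
      + (a n ^ 2) • adv (P n) (P n) x) x
      + (a n * a (n + 1)) • (fun x => adv (P n) (P (n + 1)) x
        + adv (P (n + 1)) (P n) x) x) x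
      - (ν * a n) • lap (P n) x) v := rfl
  rw [e, ipL_sub (((h0.smul _).add (c1.smul _)).add (c2.smul _)).l2 (c3.smul _).l2 hv,
    ipL_add ((h0.smul _).add (c1.smul _)).l2 (c2.smul _).l2 hv,
    ipL_add (h0.smul _).l2 (c1.smul _).l2 hv, ip_smul_left, ip_smul_left, ip_smul_left,
    ip_smul_left, ipL_add (adv_CF h0 h1).l2 (adv_CF h1 h0).l2 hv]

/-- The equations for the coefficients. -/
def Ode (P : ℕ → V → V) (ν : ℝ) (a a' : ℕ → ℝ) : Prop := ∀ j, Nn P (j + 1) * a' (j + 1)
  = -(ν * Dd P (j + 1) * a (j + 1)) + Cc P j * a j ^ 2 + Bb P j * (a j * a (j + 1))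
    - Cc P (j + 1) * (a (j + 1) * a (j + 2)) - Bb P (j + 1) * a (j + 2) ^ 2

theorem ip_growth (h : Chn P lo hi R) {s : ℕ → ℝ} (n0 : ∀ j, 0 ≤ s j) (m0 : ∀ j x, ‖P j x‖ ≤ s j)
    {v : V → V} (hv : L2F v) : ∃ C, 0 ≤ C ∧ ∀ n, |ip (P n) v| ≤ s n * C := by
  obtain ⟨C, hC0, hC⟩ := test_bd hv R
  refine ⟨C, hC0, fun n => ?_⟩
  have h1 := hC 1 (s n) (P n) (n0 n) (m0 n) (h.ball n)
  rw [abs_one, one_mul] at h1
  refine le_trans ?_ h1
  have e : ip (P n) v = ∫ x, ∑ i, ((1 : ℝ) • P n x) i * v x i := by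
    unfold ip
    congr 1
    funext x
    rw [one_smul]
  rw [e, ← Real.norm_eq_abs]
  exact norm_integral_le_integral_norm _

/-- The coupling coefficients are bounded. -/
structure Cb (P : ℕ → V → V) (w : ℕ → ℝ) : Prop where
  n : PB w (fun j => (Nn P j)⁻¹)
  b : PB w (Bb P)
  c : PB w (Cc P)
  d : PB w (Dd P)

theorem rap_prime (hw : Wgt w) (hN : ∀ j, Nn P (j + 1) ≠ 0) (hcb : Cb P w) (ν : ℝ)
    {a a' : ℕ → ℝ} (ha : Rap w a) (hode : Ode P ν a a') (h0 : a' 0 = 0) : Rap w a' := by
  apply Rap.unsh hw _ h0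
  have i1 := hcb.n.shift hw
  have s1 : PB w (fun j => -ν * Dd P (j + 1) * (Nn P (j + 1))⁻¹) :=
    ((PB.const (-ν)).mul hw (hcb.d.shift hw)).mul hw i1
  have s2 : PB w (fun j => Cc P j * (Nn P (j + 1))⁻¹) := hcb.c.mul hw i1
  have s3 : PB w (fun j => Bb P j * (Nn P (j + 1))⁻¹) := hcb.b.mul hw i1
  have s4 : PB w (fun j => -Cc P (j + 1) * (Nn P (j + 1))⁻¹) := by
    have := ((PB.const (-1)).mul hw (hcb.c.shift hw)).mul hw i1
    refine (congrArg (PB w) (funext fun n => ?_)).mp this
    ring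
  have s5 : PB w (fun j => -Bb P (j + 1) * (Nn P (j + 1))⁻¹) := by
    have := ((PB.const (-1)).mul hw (hcb.b.shift hw)).mul hw i1
    refine (congrArg (PB w) (funext fun n => ?_)).mp this
    ring
  have a1 := ha.shift hw
  have a2 := a1.shift hw
  have key := ((((a1.wmul hw s1).add hw ((ha.mul hw ha).wmul hw s2)).add hw
    ((ha.mul hw a1).wmul hw s3)).add hw ((a1.mul hw a2).wmul hw s4)).add hw
    ((a2.mul hw a2).wmul hw s5)
  refine (congrArg (Rap w) (funext fun j => ?_)).mp key
  have h1 := hode j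
  have h2 := hN j
  have e : a' (j + 1) = (-(ν * Dd P (j + 1) * a (j + 1)) + Cc P j * a j ^ 2
      + Bb P j * (a j * a (j + 1)) - Cc P (j + 1) * (a (j + 1) * a (j + 2))
      - Bb P (j + 1) * a (j + 2) ^ 2) * (Nn P (j + 1))⁻¹ := by
    rw [← h1]
    field_simp
  rw [e]
  ring

theorem test_zero (h : Chn P lo hi R) (hw : Wgt w) (hB : Bds P w) (hcb : Cb P w)
    {u : ℝ → V → V} {T' : ℝ} {c : ℕ → ℝ → ℝ}
    (hm : ∀ s ∈ Ico 0 T', Mem P (fun n => c n s) (u s)) {t : ℝ} (ht : t ∈ Ioo 0 T')
    {c' : ℕ → ℝ} (hc : ∀ n, HasDerivAt (c n) (c' n) t) (h0 : c' 0 = 0) (ν : ℝ)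
    (hode : Ode P ν (fun n => c n t) c')
    (ha : Rap w (fun n => c n t)) {v : V → V} (hv : Con ν P v) :
    ∫ x, ∑ i, residual ν u t x i * v x i = 0 := by
  have hN : ∀ j, Nn P (j + 1) ≠ 0 := fun j => (h.N0 j).ne'
  have ha' : Rap w c' := rap_prime hw hN hcb ν ha hode h0
  obtain ⟨hi', hs⟩ := Qf_summ h hw hB ν ha ha' hv.l2
  have key := hasSum_integral_of_summable_integral_norm hi' hs
  have e1 : ∫ x, ∑' n, ∑ i, Qf P ν (fun n => c n t) c' n x i * v x i
      = ∫ x, ∑ i, residual ν u t x i * v x i := by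
    apply integral_congr_ae
    filter_upwards [ae_ne_zero] with x hx
    have h1 : HasSum (fun n => ∑ i, Qf P ν (fun n => c n t) c' n x i * v x i)
        (∑ i, residual ν u t x i * v x i) :=
      hasSum_sum fun i _ => (res_fin h hm ht hc ν hx i).mul_right _
    exact h1.tsum_eq
  rw [e1] at key
  set S := ∫ x, ∑ i, residual ν u t x i * v x i with hS
  set p : ℕ → ℝ := fun n => ip (P n) v with hp
  set a : ℕ → ℝ := fun n => c n t with haa
  set b : ℕ → ℝ := fun j => (Nn P (j + 1))⁻¹ * p (j + 1) * (Cc P j * a j ^ 2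
    + Bb P j * (a j * a (j + 1))) + Bb P j / Nn P j * a (j + 1) ^ 2 * p j with hb
  have hterm : ∀ j, ∫ x, ∑ i, Qf P ν a c' (j + 1) x i * v x i = b j - b (j + 1) := by
    intro j
    rw [ip_Qf h ν a c' (j + 1) hv.l2]
    have f1 := hv.ca j
    rw [h.ip_GA j hv.l2] at f1
    have f2 := hv.cb j
    rw [h.ip_GB j hv.l2] at f2
    have f3 : ν * a (j + 1) * (ip (lap (P (j + 1))) v
        + Dd P (j + 1) / Nn P (j + 1) * ip (P (j + 1)) v) = 0 := by
      by_cases hν : ν = 0
      · rw [hν]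
        ring
      · have := hv.cc hν j
        rw [h.ip_GC j hv.l2] at this
        rw [this, mul_zero]
    have f4 := hode j
    have h1 := hN j
    have h2 := hN (j + 1)
    have f5 : c' (j + 1) = (-(ν * Dd P (j + 1) * a (j + 1)) + Cc P j * a j ^ 2
        + Bb P j * (a j * a (j + 1)) - Cc P (j + 1) * (a (j + 1) * a (j + 2))
        - Bb P (j + 1) * a (j + 2) ^ 2) * (Nn P (j + 1))⁻¹ := by
      rw [← f4]
      field_simp
    have e8 : ∀ k, ip (P k) v = p k := fun k => rfl
    simp only [e8] at f1 f2 f3 ⊢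
    have e9 : a (j + 1 + 1) = a (j + 2) := rfl
    have e10 : P (j + 1 + 1) = P (j + 2) := rfl
    rw [e9, e10, f5]
    rw [hb]
    simp only
    have e11 : Nn P (j + 1 + 1) = Nn P (j + 2) := rfl
    have e12 : p (j + 1 + 1) = p (j + 2) := rfl
    rw [e9, e11, e12]
    simp only [div_eq_mul_inv] at f1 f2 f3 ⊢
    linear_combination a (j + 1) ^ 2 * f1 + a (j + 1) * a (j + 2) * f2 - f3
  have hz : ∫ x, ∑ i, Qf P ν a c' 0 x i * v x i = 0 := by
    have : (fun x => ∑ i, Qf P ν a c' 0 x i * v x i) = fun _ => 0 := by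
      funext x
      have hz0 : ∀ᶠ y in 𝓝 x, P 0 y = 0 := Eventually.of_forall h.zero
      simp_rw [Qf_apply]
      rw [adv_zero (Or.inl hz0), adv_zero (Or.inl hz0), adv_zero (Or.inr hz0), lap_zero hz0,
        h.zero]
      simp
    rw [this]
    simp
  have hb00 : b 0 = 0 := by
    rw [hb]
    simp only
    rw [h.B0, h.C0]
    ring
  have hpart : ∀ M : ℕ, ∑ n ∈ Finset.range (M + 1),
      ∫ x, ∑ i, Qf P ν a c' n x i * v x i = -b M := by
    intro M
    induction M with
    | zero =>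
      rw [Finset.sum_range_one, hz, hb00]
      simp
    | succ M ih =>
      rw [Finset.sum_range_succ, ih, hterm]
      ring
  have hb0 : Tendsto b atTop (𝓝 0) := by
    obtain ⟨s, ps, ns, ms⟩ := hB.b0
    obtain ⟨C, hC0, hC⟩ := ip_growth h ns ms hv.l2
    have t1 : PB w (fun j => (Nn P (j + 1))⁻¹ * Cc P j) := (hcb.n.shift hw).mul hw hcb.c
    have t2 : PB w (fun j => (Nn P (j + 1))⁻¹ * Bb P j) := (hcb.n.shift hw).mul hw hcb.b
    have t3 : PB w (fun j => Bb P j * (Nn P j)⁻¹) := hcb.b.mul hw hcb.n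
    have r1 := ((ha.mul hw ha).wmul hw t1).add hw ((ha.mul hw (ha.shift hw)).wmul hw t2)
    have r2 := ((ha.shift hw).mul hw (ha.shift hw)).wmul hw t3
    have s1 := ((r1.summ hw (ps.shift hw)).tendsto_atTop_zero).mul_const C
    have s2 := ((r2.summ hw ps).tendsto_atTop_zero).mul_const C
    have s3 := s1.add s2
    simp only [zero_mul, add_zero] at s3
    apply squeeze_zero_norm _ s3
    intro n
    have h1 := hC n
    have h2 := hC (n + 1)
    rw [Real.norm_eq_abs]
    have e : b n = ((Nn P (n + 1))⁻¹ * Cc P n * (a n * a n)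
        + (Nn P (n + 1))⁻¹ * Bb P n * (a n * a (n + 1))) * p (n + 1)
        + (Bb P n * (Nn P n)⁻¹ * (a (n + 1) * a (n + 1))) * p n := by
      rw [hb]
      simp only [div_eq_mul_inv]
      ring
    rw [e]
    refine (abs_add_le _ _).trans (add_le_add ?_ ?_)
    · rw [abs_mul]
      refine (mul_le_mul_of_nonneg_left h2 (abs_nonneg _)).trans (le_of_eq ?_)
      rw [abs_of_nonneg (ns (n + 1))]
      ring
    · rw [abs_mul]
      refine (mul_le_mul_of_nonneg_left h1 (abs_nonneg _)).trans (le_of_eq ?_)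
      rw [abs_of_nonneg (ns n)]
      ring
  have key3 := (key.tendsto_sum_nat).comp (tendsto_add_atTop_nat 1)
  have key4 : Tendsto (fun M : ℕ => -b M) atTop (𝓝 (-0)) := hb0.neg
  have e2 : ((fun n => ∑ i ∈ Finset.range n,
      ∫ x, ∑ i_1, Qf P ν a c' i x i_1 * v x i_1) ∘ fun a => a + 1)
      = fun M => -b M := funext hpart
  rw [e2] at key3
  have h5 := tendsto_nhds_unique key3 key4
  rw [neg_zero] at h5
  exact h5

end Pool.Agent.Run7.h407.G
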