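import Mathlib
import Pool.Agent.Run7.h407.G.Test
import Pool.Agent.Run7.h407.G.Reg

/-!
Sequences of functions made of three rescaled bumps: bounds and smooth superpositions.
-/

namespace Pool.Agent.Run7.h407.G

open Set Filter Topology MeasureTheory
open scoped ContDiff

variable {w : ℕ → ℝ}

theorem PB.add (hw : Wgt w) {s t : ℕ → ℝ} (hs : PB w s) (ht : PB w t) :
    PB w (fun j => s j + t j) := by
  obtain ⟨C, m, hC, h1⟩ := hs
  obtain ⟨D, n, hD, h2⟩ := ht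
  refine ⟨C + D, m + n, add_nonneg hC hD, fun j => ?_⟩
  have hj := hw.one_le j
  have e1 : w j ^ m ≤ w j ^ (m + n) := pow_le_pow_right₀ hj (by omega)
  have e2 : w j ^ n ≤ w j ^ (m + n) := pow_le_pow_right₀ hj (by omega)
  calc |s j + t j| ≤ |s j| + |t j| := abs_add_le _ _
    _ ≤ C * w j ^ m + D * w j ^ n := add_le_add (h1 j) (h2 j)
    _ ≤ C * w j ^ (m + n) + D * w j ^ (m + n) :=
        add_le_add (mul_le_mul_of_nonneg_left e1 hC) (mul_le_mul_of_nonneg_left e2 hD)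
    _ = _ := by ring

/-- Uniform bounds of scalar functions by powers of the weight. -/
def US (w : ℕ → ℝ) (f : ℕ → V → ℝ) : Prop :=
  ∃ s : ℕ → ℝ, PB w s ∧ (∀ j, 0 ≤ s j) ∧ ∀ j x, |f j x| ≤ s j

theorem US.add (hw : Wgt w) {f g : ℕ → V → ℝ} (hf : US w f) (hg : US w g) :
    US w (fun j x => f j x + g j x) := by
  obtain ⟨s, ps, ns, ms⟩ := hf
  obtain ⟨t, pt, nt, mt⟩ := hg
  exact ⟨_, ps.add hw pt, fun j => add_nonneg (ns j) (nt j),
    fun j x => (abs_add_le _ _).trans (add_le_add (ms j x) (mt j x))⟩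

theorem US.mul (hw : Wgt w) {f g : ℕ → V → ℝ} (hf : US w f) (hg : US w g) :
    US w (fun j x => f j x * g j x) := by
  obtain ⟨s, ps, ns, ms⟩ := hf
  obtain ⟨t, pt, nt, mt⟩ := hg
  refine ⟨_, ps.mul hw pt, fun j => mul_nonneg (ns j) (nt j), fun j x => ?_⟩
  rw [abs_mul]
  exact mul_le_mul (ms j x) (mt j x) (abs_nonneg _) (ns j)

theorem US.shift (hw : Wgt w) {f : ℕ → V → ℝ} (hf : US w f) : US w (fun j => f (j + 1)) := by
  obtain ⟨s, ps, ns, ms⟩ := hf
  exact ⟨_, ps.shift hw, fun j => ns _, fun j x => ms _ x⟩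

theorem US.sum3 (hw : Wgt w) {f : Fin 3 → ℕ → V → ℝ} (hf : ∀ i, US w (f i)) :
    US w (fun j x => ∑ i, f i j x) := by
  simp only [Fin.sum_univ_three]
  exact ((hf 0).add hw (hf 1)).add hw (hf 2)

theorem UB.of_comp (hw : Wgt w) {F : ℕ → V → V} (h : ∀ i, US w (fun j x => F j x i)) :
    UB w F := by
  obtain ⟨s0, p0, n0, m0⟩ := h 0
  obtain ⟨s1, p1, n1, m1⟩ := h 1
  obtain ⟨s2, p2, n2, m2⟩ := h 2
  refine ⟨_, (p0.add hw p1).add hw p2, fun j => add_nonneg (add_nonneg (n0 j) (n1 j)) (n2 j),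
    fun j x => ?_⟩
  rw [pi_norm_le_iff_of_nonneg (add_nonneg (add_nonneg (n0 j) (n1 j)) (n2 j))]
  intro i
  rw [Real.norm_eq_abs]
  have k0 := m0 j x
  have k1 := m1 j x
  have k2 := m2 j x
  have l0 := n0 j
  have l1 := n1 j
  have l2 := n2 j
  fin_cases i
  · show |F j x 0| ≤ _
    linarith
  · show |F j x 1| ≤ _
    linarith
  · show |F j x 2| ≤ _
    linarith

/-- Sequences of functions made of three rescaled bumps. -/
def BS (w : ℕ → ℝ) (f : ℕ → V → ℝ) : Prop :=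
  ∃ (a s : Fin 3 → ℕ → ℝ) (z : Fin 3 → ℕ → V) (φ : Fin 3 → V → ℝ),
    (∀ m, Sm (φ m)) ∧ (∀ m, HasCompactSupport (φ m)) ∧ (∀ m, PB w (a m)) ∧ (∀ m, PB w (s m)) ∧
    ∀ j x, f j x = ∑ m, a m j * φ m (s m j • x - z m j)

theorem sm_bump {φ : V → ℝ} (h : Sm φ) (s : ℝ) (z : V) : Sm (fun x => φ (s • x - z)) := by
  have h1 : ContDiff ℝ ∞ (fun x : V => s • x - z) := by fun_prop
  exact h.comp h1

theorem pd_bump {φ : V → ℝ} (h : Sm φ) (s : ℝ) (z x : V) (k : Fin 3) :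
    pd k (fun y => φ (s • y - z)) x = s * pd k φ (s • x - z) := by
  have h1 : Differentiable ℝ (fun y : V => φ (y - z)) :=
    (h.comp (contDiff_id.sub contDiff_const)).differentiable (by simp)
  have h2 := pd_comp_smul h1 s x k
  rw [pd_comp_sub (h.differentiable (by simp))] at h2
  exact h2

theorem BS.pd (hw : Wgt w) {f : ℕ → V → ℝ} (hf : BS w f) (k : Fin 3) :
    BS w (fun j => pd k (f j)) := by
  obtain ⟨a, s, z, φ, h1, h2, h3, h4, h5⟩ := hf
  refine ⟨fun m j => a m j * s m j, s, z, fun m => Run7.h407.pd k (φ m), fun m => (h1 m).pd k,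
    fun m => pd_cs (h2 m) k, fun m => (h3 m).mul hw (h4 m), h4, fun j x => ?_⟩
  have e : f j = fun x => ∑ m, a m j * φ m (s m j • x - z m j) := funext fun x => h5 j x
  beta_reduce
  rw [e, pd_sum (fun m _ => ((contDiff_const.mul (sm_bump (h1 m) (s m j) (z m j))).differentiable
    (by simp) x : DifferentiableAt ℝ (fun y => a m j * φ m (s m j • y - z m j)) x))]
  apply Finset.sum_congr rfl
  intro m _
  rw [pd_const_mul _ ((sm_bump (h1 m) (s m j) (z m j)).diff x), pd_bump (h1 m)]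
  ring

theorem BS.us (hw : Wgt w) {f : ℕ → V → ℝ} (hf : BS w f) : US w f := by
  obtain ⟨a, s, z, φ, h1, h2, h3, h4, h5⟩ := hf
  choose M hM0 hM using fun m => cs_bound (h1 m) (h2 m)
  have key : ∀ m, US w (fun j x => a m j * φ m (s m j • x - z m j)) := by
    intro m
    have hp : PB w (fun j => |a m j|) := (h3 m).mono fun j => by rw [abs_abs]
    refine ⟨_, hp.mul hw (PB.const (M m)), fun j => mul_nonneg (abs_nonneg _) (hM0 m),
      fun j x => ?_⟩
    rw [abs_mul]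
    apply mul_le_mul_of_nonneg_left _ (abs_nonneg _)
    rw [← Real.norm_eq_abs]
    exact hM m _
  have := US.sum3 hw key
  refine (congrArg (US w) (funext fun j => funext fun x => ?_)).mp this
  rw [h5]

/-- Sequences of fields made of three rescaled fields. -/
def BV (w : ℕ → ℝ) (P : ℕ → V → V) : Prop :=
  ∃ (a s : Fin 3 → ℕ → ℝ) (z : Fin 3 → ℕ → V) (F : Fin 3 → V → V),
    (∀ m, CF (F m)) ∧ (∀ m, PB w (a m)) ∧ (∀ m, PB w (s m)) ∧
    ∀ j x, P j x = ∑ m, a m j • F m (s m j • x - z m j)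

theorem BV.comp {P : ℕ → V → V} (h : BV w P) (i : Fin 3) : BS w (fun j x => P j x i) := by
  obtain ⟨a, s, z, F, h1, h2, h3, h4⟩ := h
  refine ⟨a, s, z, fun m x => F m x i, fun m => (h1 m).smc i, fun m => (h1 m).csc i, h2, h3,
    fun j x => ?_⟩
  beta_reduce
  rw [h4, Finset.sum_apply]
  rfl

theorem adv_us (hw : Wgt w) {P Q : ℕ → V → V} (hP : ∀ i, US w (fun j x => P j x i))
    (hQ : ∀ i k, US w (fun j => pd k (fun y => Q j y i))) (i : Fin 3) :
    US w (fun j x => adv (P j) (Q j) x i) :=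
  US.sum3 hw fun k => (hP k).mul hw (hQ i k)

theorem BV.bds (hw : Wgt w) {P : ℕ → V → V} (h : BV w P) : Bds P w := by
  have c0 : ∀ i, US w (fun j x => P j x i) := fun i => (h.comp i).us hw
  have c1 : ∀ i k, US w (fun j => pd k (fun y => P j y i)) := fun i k =>
    ((h.comp i).pd hw k).us hw
  have c2 : ∀ i k, US w (fun j => pd k (pd k (fun y => P j y i))) := fun i k =>
    (((h.comp i).pd hw k).pd hw k).us hw
  have d0 : ∀ i, US w (fun j x => P (j + 1) x i) := fun i => (c0 i).shift hw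
  have d1 : ∀ i k, US w (fun j => pd k (fun y => P (j + 1) y i)) := fun i k =>
    (c1 i k).shift hw
  refine ⟨UB.of_comp hw c0, UB.of_comp hw fun i => adv_us hw c0 c1 i,
    UB.of_comp hw fun i => ?_, UB.of_comp hw fun i => ?_⟩
  · exact (adv_us hw c0 d1 i).add hw (adv_us hw d0 c1 i)
  · exact US.sum3 hw fun k => c2 i k

/-- Families of coefficients which are smooth in time on `[0,T)` and decay rapidly. -/
def TS (w : ℕ → ℝ) (T : ℝ) (c : ℕ → ℝ → ℝ) : Prop :=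
  ∀ b, 0 < b → b < T → ∀ k, ∃ B : ℕ → ℝ → ℝ, RC w k b B ∧ ∀ j, ∀ t ∈ Ico 0 T, B j t = c j t

/-- The superposition. -/
noncomputable def vel (P : ℕ → V → V) (c : ℕ → ℝ → ℝ) (t : ℝ) (x : V) : V :=
  ∑' j, c j t • P j x

theorem ts_summ (hw : Wgt w) {P : ℕ → V → V} (h : BV w P) {b : ℝ} {B : ℕ → ℝ → ℝ}
    (hB : RD w b B) {t : ℝ} (ht : t ∈ Ioo (-1) b) (x : V) :
    Summable (fun j => B j t • P j x) := by
  obtain ⟨a, s, z, F, h1, h2, h3, h4⟩ := h
  have key : ∀ m, Summable (fun j => (a m j * B j t) • F m (s m j • x - z m j)) := fun m =>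
    ser_summable hw (hB.wmul hw (h2 m)) (h1 m).sm (h1 m).cs (y := (t, x)) ht
  have h5 : Summable (fun j => ∑ m, (a m j * B j t) • F m (s m j • x - z m j)) :=
    summable_sum fun m _ => key m
  refine h5.congr fun j => ?_
  rw [h4, Finset.smul_sum]
  apply Finset.sum_congr rfl
  intro m _
  rw [smul_smul, mul_comm]

theorem ts_smooth (hw : Wgt w) {P : ℕ → V → V} (h : BV w P) {b : ℝ} {B : ℕ → ℝ → ℝ} {k : ℕ}
    (hB : RC w k b B) : ContDiffOn ℝ k (fun z : ℝ × V => ∑' j, B j z.1 • P j z.2)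
      (Ioo (-1) b ×ˢ univ) := by
  obtain ⟨a, s, z, F, h1, h2, h3, h4⟩ := h
  have key : ∀ m, ContDiffOn ℝ k (Ser (s m) (z m) (fun j t => a m j * B j t) (F m))
      (Ioo (-1) b ×ˢ univ) := fun m =>
    ser_smooth hw (h3 m) k V _ (hB.wmul hw (h2 m)) (F m) (h1 m).sm (h1 m).cs
  have h5 : ContDiffOn ℝ k (fun y => ∑ m, Ser (s m) (z m) (fun j t => a m j * B j t) (F m) y)
      (Ioo (-1) b ×ˢ univ) := ContDiffOn.sum fun m _ => key m
  apply h5.congr
  intro y hy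
  unfold Ser
  rw [← Summable.tsum_finsetSum fun m _ =>
    ser_summable hw (hB.rd.wmul hw (h2 m)) (h1 m).sm (h1 m).cs (y := y) hy.1]
  congr 1
  funext j
  rw [h4, Finset.smul_sum]
  apply Finset.sum_congr rfl
  intro m _
  rw [smul_smul, mul_comm]

theorem vel_mem (hw : Wgt w) {P : ℕ → V → V} (h : BV w P) {T : ℝ} {c : ℕ → ℝ → ℝ}
    (hc : TS w T c) {t : ℝ} (ht : t ∈ Ico 0 T) : Mem P (fun n => c n t) (vel P c t) := by
  intro x
  obtain ⟨b, hb1, hb2⟩ := exists_between ht.2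
  have hb0 : 0 < b := ht.1.trans_lt hb1
  obtain ⟨B, hB, hB2⟩ := hc b hb0 hb2 0
  have h2 := ts_summ hw h hB.rd (t := t) ⟨by linarith [ht.1], hb1⟩ x
  have h3 : (fun j => B j t • P j x) = fun j => c j t • P j x := by
    funext j
    rw [hB2 j t ht]
  rw [h3] at h2
  exact h2.hasSum

theorem vel_smooth (hw : Wgt w) {P : ℕ → V → V} (h : BV w P) {T : ℝ} {c : ℕ → ℝ → ℝ}
    (hc : TS w T c) :
    ContDiffOn ℝ ∞ (fun z : ℝ × V => vel P c z.1 z.2) (Ico 0 T ×ˢ univ) := by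
  rw [contDiffOn_infty]
  intro k z hz
  obtain ⟨b, hb1, hb2⟩ := exists_between hz.1.2
  have hb0 : 0 < b := hz.1.1.trans_lt hb1
  obtain ⟨B, hB, hB2⟩ := hc b hb0 hb2 k
  have h1 := ts_smooth hw h hB
  have hs : IsOpen (Ioo (-1) b ×ˢ (univ : Set V)) := isOpen_Ioo.prod isOpen_univ
  have hzm : z ∈ Ioo (-1) b ×ˢ (univ : Set V) := ⟨⟨by linarith [hz.1.1], hb1⟩, mem_univ _⟩
  have h2 : ContDiffAt ℝ k (fun z : ℝ × V => ∑' j, B j z.1 • P j z.2) z :=
    h1.contDiffAt (hs.mem_nhds hzm)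
  have he : ∀ y ∈ Ico 0 T ×ˢ (univ : Set V), vel P c y.1 y.2 = ∑' j, B j y.1 • P j y.2 := by
    intro y hy
    unfold vel
    congr 1
    funext j
    rw [hB2 j y.1 hy.1]
  exact (h2.contDiffWithinAt (s := Ico 0 T ×ˢ (univ : Set V))).congr he (he z hz)

theorem TS.rap {T : ℝ} {c : ℕ → ℝ → ℝ} (hc : TS w T c) {t : ℝ} (ht : t ∈ Ico 0 T) :
    Rap w (fun n => c n t) := by
  obtain ⟨b, hb1, hb2⟩ := exists_between ht.2
  have hb0 : 0 < b := ht.1.trans_lt hb1
  obtain ⟨B, hB, hB2⟩ := hc b hb0 hb2 0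
  apply Rap.intro
  intro k
  obtain ⟨C, hC⟩ := hB.rd k
  refine ⟨C, fun j => ?_⟩
  rw [← hB2 j t ht]
  exact hC j t ⟨by linarith [ht.1], hb1⟩

theorem TS.smul (hw : Wgt w) {T : ℝ} {c : ℕ → ℝ → ℝ} (hc : TS w T c) {s : ℕ → ℝ} (hs : PB w s) :
    TS w T (fun j t => s j * c j t) := by
  intro b hb hbT k
  obtain ⟨B, hB, hB2⟩ := hc b hb hbT k
  refine ⟨_, hB.wmul hw hs, fun j t ht => ?_⟩
  rw [hB2 j t ht]

theorem Sol.ts {p : Par} (h : PW p w) {Tb : ℝ} {A : ℕ → ℝ → ℝ} (S : Sol p Tb A) :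
    TS w Tb A := fun _ hb hbT k => ⟨_, PI_RC h S hb hbT k, PI_eq S k⟩

/-- Superpositions of fields supported in a ball. -/
theorem mem_ball {P : ℕ → V → V} {R : ℝ} (hR : ∀ j x, P j x ≠ 0 → ‖x‖ ≤ R) {c : ℕ → ℝ} {v : V → V}
    (hm : Mem P c v) {x : V} (hx : R < ‖x‖) : v x = 0 := by
  have h1 := hm x
  have h2 : (fun n => c n • P n x) = fun _ => 0 := by
    funext n
    have : P n x = 0 := by
      by_contra hcon
      exact absurd (hR n x hcon) (not_le.2 hx)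
    rw [this, smul_zero]
  rw [h2] at h1
  exact h1.unique hasSum_zero

end Pool.Agent.Run7.h407.G
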