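import Mathlib
import Pool.Agent.Run7.h407.G.Blob
import Pool.Agent.Run7.h407.G.Scal

/-!
The concrete chain with scales `σ n`.
-/

namespace Pool.Agent.Run7.h407.G

open Set Filter Topology MeasureTheory
open scoped ContDiff

theorem S0_pos' : 0 < S0 := S0_pos

theorem psi3_zero_of {r μ δ : ℝ} (hμ : 2 ≤ μ) {x : V} (h1 : 1 / 4 < ‖x - e1‖)
    (h2 : 1 / 4 < ‖x - r ^ 2 • e1‖) : psi3 r μ δ x = 0 := by
  have key : ∀ y : V, s2 y ≤ 1 / 16 → ‖y‖ ≤ 1 / 4 := by
    intro y hy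
    rw [pi_norm_le_iff_of_nonneg (by norm_num)]
    intro i
    rw [Real.norm_eq_abs]
    exact abs_coord_le (by norm_num) (by linarith) i
  have e1' : x - e1 ∉ tsupport Gp := fun h => by
    linarith [key _ (Gp_tsupport h)]
  have e2 : sw (pd 2 (hc μ)) (x - e1) = 0 := by
    by_contra h
    have h3 := hc_supp hμ (pd_tsupport 2 (sw_ne h))
    have h4 := inv_mu4_small hμ
    have h5 := key (x - e1) (by linarith)
    linarith
  have e3 : sw chi (x - r ^ 2 • e1) = 0 := by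
    by_contra h
    linarith [key _ (chi_tsupport (sw_ne h))]
  unfold psi3 par
  rw [str_eq_zero e1', e2, e3]
  simp

theorem norm_e1 : ‖e1‖ = 1 := by
  have h : ∀ i, ‖e1 i‖ ≤ 1 := by
    intro i
    unfold e1
    by_cases hi : i = 0
    · subst hi
      simp
    · simp [hi]
  apply le_antisymm
  · rw [pi_norm_le_iff_of_nonneg (by norm_num)]
    exact h
  · have := norm_le_pi_norm e1 0
    rw [e1_zero] at this
    simpa using this

theorem psi3_ball {r μ δ : ℝ} (hr : 2 ≤ r) (hμ : 2 ≤ μ) {x : V} (hx : psi3 r μ δ x ≠ 0) :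
    ‖x‖ ≤ r ^ 2 + 1 / 4 := by
  by_contra hcon
  push Not at hcon
  apply hx
  apply psi3_zero_of hμ
  · have h1 := norm_sub_norm_le x e1
    rw [norm_e1] at h1
    nlinarith
  · have h1 := norm_sub_norm_le x (r ^ 2 • e1)
    rw [norm_smul, norm_e1, Real.norm_eq_abs, abs_of_nonneg (by positivity)] at h1
    linarith

/-- Scale data. -/
structure Sc where
  s0 : ℝ
  ρ : ℕ → ℝ
  ε : ℕ → ℝ
  h0 : 1 ≤ s0
  hρ : ∀ n, 2 ≤ ρ n
  hε : ∀ n, 0 < ε n
  hε1 : ∀ n, ε n ≤ 1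

namespace Sc

variable (c : Sc)

/-- The scales. -/
noncomputable def σ (n : ℕ) : ℝ := c.s0 * ∏ i ∈ Finset.range n, c.ρ i

/-- The ratio to the previous scale. -/
noncomputable def rr : ℕ → ℝ
  | 0 => 2
  | n + 1 => c.ρ n

/-- The seeding parameter. -/
noncomputable def dl (n : ℕ) : ℝ := c.ε n * β0 / (c.ρ n ^ 4 * S0)

/-- The blocks. -/
noncomputable def blk (n : ℕ) : V → V := psi3 (c.rr n) (c.ρ n) (c.dl n)

/-- The chain. -/
noncomputable def P : ℕ → V → V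
  | 0 => fun _ => 0
  | n + 1 => dil (c.σ n) (c.blk n)

theorem σ_zero : c.σ 0 = c.s0 := by simp [σ]

theorem σ_succ (n : ℕ) : c.σ (n + 1) = c.σ n * c.ρ n := by
  unfold σ
  rw [Finset.prod_range_succ]
  ring

theorem one_le_σ (n : ℕ) : (2 : ℝ) ^ n ≤ c.σ n := by
  induction n with
  | zero =>
    rw [c.σ_zero]
    simpa using c.h0
  | succ n ih =>
    rw [c.σ_succ, pow_succ]
    exact mul_le_mul ih (c.hρ n) (by norm_num) ((by positivity : (0 : ℝ) ≤ 2 ^ n).trans ih)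

theorem σ_pos (n : ℕ) : 0 < c.σ n := (by positivity : (0 : ℝ) < 2 ^ n).trans_le (c.one_le_σ n)

theorem σ_one (n : ℕ) : 1 ≤ c.σ n := (one_le_pow₀ (by norm_num)).trans (c.one_le_σ n)

theorem ρ_pos (n : ℕ) : 0 < c.ρ n := by linarith [c.hρ n]

theorem σ_le (n : ℕ) : c.σ n ≤ c.σ (n + 1) := by
  rw [c.σ_succ]
  have := c.σ_pos n
  nlinarith [c.hρ n]

theorem σ_mono {m n : ℕ} (h : m ≤ n) : c.σ m ≤ c.σ n := by
  induction n, h using Nat.le_induction with
  | base => exact le_rfl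
  | succ n _ ih => exact ih.trans (c.σ_le n)

theorem ρ_le (n : ℕ) : c.ρ n ≤ c.σ (n + 1) := by
  rw [c.σ_succ]
  have := c.σ_one n
  nlinarith [c.hρ n]

theorem rr_two (n : ℕ) : 2 ≤ c.rr n := by
  cases n with
  | zero => exact le_rfl
  | succ n => exact c.hρ n

theorem P_succ (n : ℕ) : c.P (n + 1) = dil (c.σ n) (c.blk n) := rfl

theorem P_next (n : ℕ) : c.P (n + 2) = dil (c.σ n) (dil (c.ρ n) (c.blk (n + 1))) := by
  rw [dil_dil, ← c.σ_succ]
  rfl

theorem dl_nonneg (n : ℕ) : 0 ≤ c.dl n := by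
  have h1 := c.hε n
  have h2 := β0_pos
  have h3 := S0_pos
  have h4 := c.ρ_pos n
  unfold dl
  positivity

theorem dl_eq (n : ℕ) : c.dl n * (c.ρ n ^ 4 * S0) = c.ε n * β0 := by
  have h3 := S0_pos
  have h4 := c.ρ_pos n
  unfold dl
  field_simp

theorem dl_le (n : ℕ) : |c.dl n| * c.ρ n ^ 4 ≤ β0 / S0 := by
  have h2 := β0_pos
  have h3 := S0_pos
  rw [abs_of_nonneg (c.dl_nonneg n), le_div_iff₀ h3]
  have := c.dl_eq n
  have h5 : c.ε n * β0 ≤ 1 * β0 := mul_le_mul_of_nonneg_right (c.hε1 n) h2.le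
  linarith

theorem blk_CF (n : ℕ) : CF (c.blk n) := psi3_CF (c.hρ n) _ _

theorem nn_eq (n : ℕ) : Nn c.P (n + 1) = ip (c.blk n) (c.blk n) := ip_dil _ _ (c.σ_pos n)

theorem nn_low (n : ℕ) : β0 ≤ Nn c.P (n + 1) := by
  rw [c.nn_eq]
  exact N_low (c.rr_two n) (c.hρ n) _

theorem nn_up (n : ℕ) : Nn c.P (n + 1) ≤ Nup := by
  rw [c.nn_eq]
  exact N_up (c.rr_two n) (c.hρ n) _ (c.dl_le n)

theorem nn_pos (n : ℕ) : 0 < Nn c.P (n + 1) := β0_pos.trans_le (c.nn_low n)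

theorem dd_eq (n : ℕ) : Dd c.P (n + 1) = c.σ n ^ 4 * Dir (c.blk n) (c.blk n) :=
  Dir_dil (c.blk_CF n).smc (c.blk_CF n).smc (c.σ_pos n)

theorem dd_low (n : ℕ) : c.σ n ^ 4 * S0 ≤ Dd c.P (n + 1) := by
  rw [c.dd_eq]
  have := c.σ_pos n
  exact mul_le_mul_of_nonneg_left (D_low (c.rr_two n) (c.hρ n) _) (by positivity)

theorem dd_up (n : ℕ) : Dd c.P (n + 1) ≤ c.σ n ^ 4 * Dup := by
  rw [c.dd_eq]
  have := c.σ_pos n
  exact mul_le_mul_of_nonneg_left (D_up (c.rr_two n) (c.hρ n) _ (c.dl_le n)) (by positivity)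

theorem bb_eq (n : ℕ) : Bb c.P (n + 1) = c.σ n ^ 5 * β0 := by
  unfold Bb
  rw [show n + 1 + 1 = n + 2 from rfl, c.P_next, c.P_succ,
    tri_dil (c.blk_CF n).smc (c.σ_pos n)]
  have h := tri_psi3_2 (c.rr_two n) (c.hρ n) (c.hρ (n + 1)) (c.dl n) (c.dl (n + 1))
  rw [beta_scale (c.hρ n)] at h
  have h' : tri (dil (c.ρ n) (c.blk (n + 1))) (c.blk n) (dil (c.ρ n) (c.blk (n + 1))) = -β0 := h
  rw [h']
  ring

theorem cc_eq (n : ℕ) : Cc c.P (n + 1) = c.σ n ^ 5 * (c.ε n * β0) := by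
  unfold Cc
  rw [show n + 1 + 1 = n + 2 from rfl, c.P_next, c.P_succ,
    tri_dil (c.blk_CF n).smc (c.σ_pos n)]
  have h := tri_psi3_1 (c.rr_two n) (c.hρ n) (c.hρ (n + 1)) (c.dl n) (c.dl (n + 1))
  rw [S_scale (c.hρ n), c.dl_eq] at h
  have h' : tri (c.blk n) (c.blk n) (dil (c.ρ n) (c.blk (n + 1))) = -(c.ε n * β0) := h
  rw [h']
  ring

/-- The left ends of the supports. -/
noncomputable def lo : ℕ → ℝ
  | 0 => 2
  | n + 1 => 3 / 4 / c.σ n ^ 2

/-- The right ends of the supports. -/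
noncomputable def hi : ℕ → ℝ
  | 0 => 0
  | n + 1 => (c.rr n ^ 2 + 1 / 4) / c.σ n ^ 2

theorem hi_le (n : ℕ) : c.hi (n + 2) ≤ 17 / 16 / c.σ n ^ 2 := by
  show (c.ρ n ^ 2 + 1 / 4) / c.σ (n + 1) ^ 2 ≤ 17 / 16 / c.σ n ^ 2
  rw [c.σ_succ]
  have h1 := c.σ_pos n
  have h2 := c.ρ_pos n
  rw [div_le_div_iff₀ (by positivity) (by positivity)]
  have h3 : 4 ≤ c.ρ n ^ 2 := by nlinarith [c.hρ n]
  have h4 : 0 < c.σ n ^ 2 := by positivity
  nlinarith

theorem σ_sq {m n : ℕ} (h : m < n) : 4 * c.σ m ^ 2 ≤ c.σ n ^ 2 := by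
  have h1 : c.σ (m + 1) ≤ c.σ n := c.σ_mono h
  have h2 : 2 * c.σ m ≤ c.σ (m + 1) := by
    rw [c.σ_succ]
    nlinarith [c.hρ m, c.σ_pos m]
  have h3 := c.σ_pos m
  nlinarith

theorem blk_supp {n : ℕ} {x : V} (hx : c.P (n + 1) x ≠ 0) :
    3 / 4 ≤ c.σ n ^ 2 * x 0 ∧ c.σ n ^ 2 * x 0 ≤ c.rr n ^ 2 + 1 / 4 ∧
      c.σ n ^ 2 * ‖x‖ ≤ c.rr n ^ 2 + 1 / 4 := by
  have h1 : c.blk n (c.σ n ^ 2 • x) ≠ 0 := by
    intro h
    apply hx
    rw [P_succ]
    unfold dil
    rw [h, smul_zero]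
  have h2 := psi3_supp (c.rr_two n) (c.hρ n) _ _ h1
  have h3 := psi3_ball (c.rr_two n) (c.hρ n) h1
  rw [norm_smul, Real.norm_eq_abs, abs_of_nonneg (by positivity)] at h3
  exact ⟨h2.1, h2.2, h3⟩

/-- The radii of the supports. -/
theorem supp_ball {n : ℕ} {x : V} (hx : c.P n x ≠ 0) : ‖x‖ ≤ c.hi n := by
  cases n with
  | zero => exact absurd rfl hx
  | succ n =>
    show ‖x‖ ≤ (c.rr n ^ 2 + 1 / 4) / c.σ n ^ 2
    have h1 := c.σ_pos n
    rw [le_div_iff₀ (by positivity)]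
    linarith [(c.blk_supp hx).2.2]

theorem hi_bd (n : ℕ) : c.hi n ≤ 17 / 4 := by
  cases n with
  | zero => exact (by norm_num : (0 : ℝ) ≤ 17 / 4)
  | succ n =>
    cases n with
    | zero =>
      show ((2 : ℝ) ^ 2 + 1 / 4) / c.σ 0 ^ 2 ≤ 17 / 4
      have h1 := c.σ_one 0
      rw [div_le_iff₀ (by positivity)]
      have : 1 ≤ c.σ 0 ^ 2 := one_le_pow₀ h1
      nlinarith
    | succ n =>
      refine (c.hi_le n).trans ?_
      have h1 := c.σ_one n
      rw [div_le_iff₀ (by positivity)]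
      have : 1 ≤ c.σ n ^ 2 := one_le_pow₀ h1
      nlinarith

theorem chn : Chn c.P c.lo c.hi (17 / 4) where
  zero := fun _ => rfl
  cf := by
    intro j
    cases j with
    | zero => exact CF.of_comp (fun i => contDiff_const) (fun i => HasCompactSupport.zero)
    | succ n => exact dil_CF (c.blk_CF n) (c.σ_pos n).ne'
  dv := by
    intro j x
    cases j with
    | zero =>
      unfold dvg
      have : ∀ i, pd i (fun y => c.P 0 y i) x = 0 := fun i => pd_const 0 x i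
      simp [this]
    | succ n =>
      have h1 := dvg_dil (c.blk_CF n).smc (c.σ n) x
      rw [c.P_succ, h1]
      have h2 : dvg (c.blk n) (c.σ n ^ 2 • x) = 0 := psi3_dvg (c.hρ n) _ _ _
      rw [h2, mul_zero]
  supp := by
    intro j x hx
    cases j with
    | zero => exact absurd rfl hx
    | succ n =>
      have h := c.blk_supp hx
      have h1 := c.σ_pos n
      constructor
      · show 3 / 4 / c.σ n ^ 2 ≤ x 0
        rw [div_le_iff₀ (by positivity)]
        linarith [h.1]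
      · show x 0 ≤ (c.rr n ^ 2 + 1 / 4) / c.σ n ^ 2
        rw [le_div_iff₀ (by positivity)]
        linarith [h.2.1]
  lo0 := by
    intro j
    cases j with
    | zero => exact (by norm_num : (0 : ℝ) < 2)
    | succ n =>
      have h1 := c.σ_pos n
      show 0 < 3 / 4 / c.σ n ^ 2
      positivity
  sep := by
    intro j k hjk
    obtain ⟨m, rfl⟩ : ∃ m, k = m + 2 := ⟨k - 2, by omega⟩
    refine (c.hi_le m).trans_lt ?_
    have hm := c.σ_pos m
    cases j with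
    | zero =>
      show 17 / 16 / c.σ m ^ 2 < 2
      rw [div_lt_iff₀ (by positivity)]
      have : 1 ≤ c.σ m ^ 2 := one_le_pow₀ (c.σ_one m)
      linarith
    | succ n =>
      show 17 / 16 / c.σ m ^ 2 < 3 / 4 / c.σ n ^ 2
      have hn := c.σ_pos n
      rw [div_lt_div_iff₀ (by positivity) (by positivity)]
      have := c.σ_sq (m := n) (n := m) (by omega)
      nlinarith
  lim := by
    rw [← tendsto_add_atTop_iff_nat 2]
    have h1 : Tendsto (fun n : ℕ => 17 / 16 * ((1 / 4 : ℝ)) ^ n) atTop (𝓝 0) := by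
      have := (tendsto_pow_atTop_nhds_zero_of_lt_one (r := (1 / 4 : ℝ)) (by norm_num)
        (by norm_num)).const_mul (17 / 16)
      rwa [mul_zero] at this
    apply squeeze_zero _ _ h1
    · intro n
      show 0 ≤ (c.ρ n ^ 2 + 1 / 4) / c.σ (n + 1) ^ 2
      positivity
    · intro n
      refine (c.hi_le n).trans ?_
      have h2 := c.one_le_σ n
      have h3 := c.σ_pos n
      rw [div_le_iff₀ (by positivity)]
      have h4 : ((2 : ℝ) ^ n) ^ 2 ≤ c.σ n ^ 2 := pow_le_pow_left₀ (by positivity) h2 2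
      have h5 : (1 / 4 : ℝ) ^ n * ((2 : ℝ) ^ n) ^ 2 = 1 := by
        rw [← pow_mul, mul_comm n 2, pow_mul, ← mul_pow]
        norm_num
      have h6 : 0 < (1 / 4 : ℝ) ^ n := by positivity
      nlinarith
  N0 := c.nn_pos
  ip1 := by
    intro j
    cases j with
    | zero => exact ip_zero_of' fun x => Or.inl rfl
    | succ n =>
      rw [show n + 1 + 1 = n + 2 from rfl, c.P_next, c.P_succ, ip_dil _ _ (c.σ_pos n)]
      exact ip_psi3 (c.rr_two n) (c.hρ n) (c.hρ (n + 1)) _ _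
  Dir1 := by
    intro j
    cases j with
    | zero => exact Dir_zero_of fun x => Or.inl (Eventually.of_forall fun y => rfl)
    | succ n =>
      rw [show n + 1 + 1 = n + 2 from rfl, c.P_next, c.P_succ,
        Dir_dil (c.blk_CF n).smc (dil_CF (c.blk_CF (n + 1)) (c.ρ_pos n).ne').smc (c.σ_pos n)]
      have h : Dir (c.blk n) (dil (c.ρ n) (c.blk (n + 1))) = 0 :=
        Dir_psi3 (c.rr_two n) (c.hρ n) (c.hρ (n + 1)) _ _
      rw [h, mul_zero]
  ball := fun j x hx => (c.supp_ball hx).trans (c.hi_bd j)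

/-- The scales are a weight. -/
def Stp : Prop := ∃ (C : ℝ) (q : ℕ), 0 ≤ C ∧ ∀ j, c.σ (j + 1) ≤ C * c.σ j ^ q

theorem wgt (h : c.Stp) : Wgt c.σ := ⟨c.one_le_σ, c.σ_le, h⟩

/-- Shifted sequences. -/
def sh (f : ℕ → ℝ) : ℕ → ℝ
  | 0 => 0
  | n + 1 => f n

theorem sh_PB {f : ℕ → ℝ} {C : ℝ} {m : ℕ} (hC : 0 ≤ C) (h : ∀ n, |f n| ≤ C * c.σ n ^ m) :
    PB c.σ (sh f) := by
  refine ⟨C, m, hC, fun j => ?_⟩
  cases j with
  | zero =>
    have := c.σ_pos 0
    show |(0 : ℝ)| ≤ C * c.σ 0 ^ m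
    rw [abs_zero]
    positivity
  | succ n =>
    show |f n| ≤ C * c.σ (n + 1) ^ m
    refine (h n).trans (mul_le_mul_of_nonneg_left ?_ hC)
    exact pow_le_pow_left₀ (c.σ_pos n).le (c.σ_le n) m

theorem sh_PB' {f : ℕ → ℝ} {C : ℝ} {m : ℕ} (hC : 0 ≤ C) (h : ∀ n, |f n| ≤ C * c.σ (n + 1) ^ m) :
    PB c.σ (sh f) := by
  refine ⟨C, m, hC, fun j => ?_⟩
  cases j with
  | zero =>
    have := c.σ_pos 0
    show |(0 : ℝ)| ≤ C * c.σ 0 ^ m
    rw [abs_zero]
    positivity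
  | succ n => exact h n

theorem dl_ρ (n : ℕ) : |c.dl n * c.ρ n ^ 5| ≤ β0 / S0 * c.ρ n := by
  have h1 := c.dl_le n
  have h2 := c.ρ_pos n
  rw [abs_mul, abs_of_pos (by positivity : 0 < c.ρ n ^ 5)]
  calc |c.dl n| * c.ρ n ^ 5 = (|c.dl n| * c.ρ n ^ 4) * c.ρ n := by ring
    _ ≤ _ := mul_le_mul_of_nonneg_right h1 h2.le

theorem bv : BV c.σ c.P := by
  have hβ := β0_pos
  have hS := S0_pos
  refine ⟨![sh (fun n => c.σ n ^ 3), sh (fun n => c.σ n ^ 3 * (c.dl n * c.ρ n ^ 5)),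
      sh (fun n => c.σ n ^ 3)],
    ![sh (fun n => c.σ n ^ 2), sh (fun n => c.ρ n ^ 2 * c.σ n ^ 2), sh (fun n => c.σ n ^ 2)],
    ![fun _ => e1, fun j => (sh (fun n => c.ρ n ^ 2) j) • e1,
      fun j => (sh (fun n => c.rr n ^ 2) j) • e1],
    ![str Gp, sw (pd 2 chi), sw chi], ?_, ?_, ?_, ?_⟩
  · intro m
    fin_cases m
    · exact str_CF
    · exact swd_CF
    · exact swc_CF
  · have h1 : PB c.σ (sh (fun n => c.σ n ^ 3)) := c.sh_PB (C := 1) (m := 3) zero_le_one fun n => by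
      rw [abs_of_pos (pow_pos (c.σ_pos n) 3), one_mul]
    intro m
    fin_cases m
    · exact h1
    · apply c.sh_PB' (C := β0 / S0) (m := 4) (by positivity)
      intro n
      rw [abs_mul, abs_of_pos (pow_pos (c.σ_pos n) 3)]
      have h2 := c.dl_ρ n
      have h3 := c.ρ_le n
      have h4 := c.σ_le n
      have h5 := c.σ_pos n
      have h6 := c.σ_pos (n + 1)
      calc c.σ n ^ 3 * |c.dl n * c.ρ n ^ 5| ≤ c.σ (n + 1) ^ 3 * (β0 / S0 * c.σ (n + 1)) := by
            apply mul_le_mul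
            · exact pow_le_pow_left₀ h5.le h4 3
            · exact h2.trans (mul_le_mul_of_nonneg_left h3 (by positivity))
            · exact abs_nonneg _
            · positivity
        _ = _ := by ring
    · exact h1
  · have h1 : PB c.σ (sh (fun n => c.σ n ^ 2)) := c.sh_PB (C := 1) (m := 2) zero_le_one fun n => by
      rw [abs_of_pos (pow_pos (c.σ_pos n) 2), one_mul]
    intro m
    fin_cases m
    · exact h1
    · apply c.sh_PB' (C := 1) (m := 2) zero_le_one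
      intro n
      have h5 := c.σ_pos n
      have h6 := c.ρ_pos n
      rw [abs_of_pos (by positivity), c.σ_succ, one_mul]
      apply le_of_eq
      ring
    · exact h1
  · intro j x
    cases j with
    | zero =>
      rw [Fin.sum_univ_three]
      show (0 : V) = (0 : ℝ) • _ + (0 : ℝ) • _ + (0 : ℝ) • _
      simp
    | succ n =>
      rw [Fin.sum_univ_three, c.P_succ]
      show c.σ n ^ 3 • psi3 (c.rr n) (c.ρ n) (c.dl n) (c.σ n ^ 2 • x) =
        c.σ n ^ 3 • str Gp (c.σ n ^ 2 • x - e1)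
        + (c.σ n ^ 3 * (c.dl n * c.ρ n ^ 5)) • sw (pd 2 chi) ((c.ρ n ^ 2 * c.σ n ^ 2) • x
          - c.ρ n ^ 2 • e1)
        + c.σ n ^ 3 • sw chi (c.σ n ^ 2 • x - c.rr n ^ 2 • e1)
      rw [psi3_pieces, smul_add, smul_add, smul_smul, smul_smul]

theorem nn_inv (n : ℕ) : |(Nn c.P n)⁻¹| ≤ β0⁻¹ := by
  have hβ := β0_pos
  cases n with
  | zero =>
    have : Nn c.P 0 = 0 := ip_zero_of' fun x => Or.inl rfl
    rw [this, inv_zero, abs_zero]
    positivity
  | succ n =>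
    rw [abs_of_pos (inv_pos.2 (c.nn_pos n))]
    exact inv_anti₀ hβ (c.nn_low n)

theorem cb : Cb c.P c.σ := by
  have hβ := β0_pos
  refine ⟨PB.of_le c.nn_inv, ?_, ?_, ?_⟩
  · have h : Bb c.P = sh (fun n => c.σ n ^ 5 * β0) := by
      funext j
      cases j with
      | zero => exact c.chn.B0
      | succ n => exact c.bb_eq n
    rw [h]
    apply c.sh_PB (C := β0) (m := 5) hβ.le
    intro n
    have := c.σ_pos n
    rw [abs_of_pos (by positivity)]
    apply le_of_eq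
    ring
  · have h : Cc c.P = sh (fun n => c.σ n ^ 5 * (c.ε n * β0)) := by
      funext j
      cases j with
      | zero => exact c.chn.C0
      | succ n => exact c.cc_eq n
    rw [h]
    apply c.sh_PB (C := β0) (m := 5) hβ.le
    intro n
    have h1 := c.σ_pos n
    have h2 := c.hε n
    rw [abs_of_pos (by positivity)]
    have h3 : c.ε n * β0 ≤ 1 * β0 := mul_le_mul_of_nonneg_right (c.hε1 n) hβ.le
    nlinarith [pow_pos h1 5]
  · have h : Dd c.P = sh (fun n => Dd c.P (n + 1)) := by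
      funext j
      cases j with
      | zero => exact Dir_zero_of fun x => Or.inl (Eventually.of_forall fun y => rfl)
      | succ n => rfl
    rw [h]
    have h0 : 0 ≤ Dup := by
      have h1 := c.dd_low 0
      have h2 := c.dd_up 0
      have h3 := c.σ_pos 0
      have h4 := S0_pos
      have h5 : 0 < c.σ 0 ^ 4 * S0 := by positivity
      by_contra hcon
      push Not at hcon
      nlinarith [pow_pos h3 4]
    apply c.sh_PB (C := Dup) (m := 4) h0
    intro n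
    have h1 := c.σ_pos n
    have h2 := S0_pos
    have h3 : 0 ≤ Dd c.P (n + 1) := le_trans (by positivity) (c.dd_low n)
    rw [abs_of_nonneg h3]
    linarith [c.dd_up n]

end Sc

end Pool.Agent.Run7.h407.G
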