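import Mathlib
import Pool.Agent.Run7.h407.G.Conc
import Pool.Agent.Run7.h407.W.Space

/-!
The coefficients of the velocity field.
-/

namespace Pool.Agent.Run7.h407.G

open Set Filter Topology MeasureTheory
open scoped ContDiff

namespace Sc

variable (c : Sc)

/-- The normalisations. -/
noncomputable def kap : ℕ → ℝ
  | 0 => 0
  | n + 1 => Nn c.P (n + 2) / (c.σ n ^ 5 * β0)

theorem kap_succ (n : ℕ) : c.kap (n + 1) = Nn c.P (n + 2) / (c.σ n ^ 5 * β0) := rfl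

theorem kap_pos (n : ℕ) : 0 < c.kap (n + 1) := by
  have h1 := c.nn_pos (n + 1)
  have h2 := c.σ_pos n
  have h3 := β0_pos
  rw [kap_succ]
  positivity

/-- The parameters fit the chain. -/
structure FitP (ν : ℝ) (p : Par) : Prop where
  e : ∀ n, p.e (n + 1) = c.ε n * c.ρ n ^ 5 * Nn c.P (n + 2) / Nn c.P (n + 3)
  g : ∀ n, p.g n = Nn c.P (n + 3) ^ 2 / (c.ρ n ^ 10 * Nn c.P (n + 1) * Nn c.P (n + 2))
  d : ∀ n, p.d n = ν * Dd c.P (n + 1) / Nn c.P (n + 1)

/-- The coefficients. -/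
noncomputable def cof (A : ℕ → ℝ → ℝ) (j : ℕ) (t : ℝ) : ℝ := c.kap j * A j t

/-- The time derivatives of the coefficients. -/
noncomputable def cofd (p : Par) (A : ℕ → ℝ → ℝ) (t : ℝ) : ℕ → ℝ
  | 0 => 0
  | n + 1 => c.kap (n + 1) * rhs p A n t

variable {c}

theorem FitP.ode {ν : ℝ} {p : Par} (h : c.FitP ν p) {A : ℕ → ℝ → ℝ} {t : ℝ} (h0 : A 0 t = 0) :
    Ode c.P ν (fun j => c.cof A j t) (c.cofd p A t) := by
  have hβ := β0_pos
  intro j
  cases j with
  | zero =>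
    rw [c.chn.B0, c.chn.C0, show (0 : ℕ) + 1 = 1 from rfl, show (0 : ℕ) + 2 = 1 + 1 from rfl]
    show Nn c.P 1 * (c.kap 1 * rhs p A 0 t) = _
    have hb := c.bb_eq 0
    have hcc := c.cc_eq 0
    have e1 := h.e 0
    have e2 := h.g 0
    have e3 := h.d 0
    have n1 := c.nn_pos 0
    have n2 := c.nn_pos 1
    have n3 := c.nn_pos 2
    have s0 := c.σ_pos 0
    have r0 := c.ρ_pos 0
    have hs := c.σ_succ 0
    simp only [zero_add] at hb hcc e1 e2 e3 n1 n2 n3 hs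
    rw [hb, hcc]
    unfold cof rhs Par.f
    rw [show (1 : ℕ) + 1 = 2 from rfl] at *
    rw [show (2 : ℕ) + 1 = 3 from rfl] at n3
    have k1 : c.kap 1 = Nn c.P 2 / (c.σ 0 ^ 5 * β0) := rfl
    have k2 : c.kap 2 = Nn c.P 3 / (c.σ 1 ^ 5 * β0) := rfl
    simp only [zero_add]
    rw [e1, e2, e3, h0, k1, k2, hs]
    field_simp
    ring
  | succ n =>
    show Nn c.P (n + 2) * (c.kap (n + 2) * rhs p A (n + 1) t)
      = -(ν * Dd c.P (n + 2) * c.cof A (n + 2) t) + Cc c.P (n + 1) * c.cof A (n + 1) t ^ 2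
        + Bb c.P (n + 1) * (c.cof A (n + 1) t * c.cof A (n + 2) t)
        - Cc c.P (n + 2) * (c.cof A (n + 2) t * c.cof A (n + 3) t)
        - Bb c.P (n + 2) * c.cof A (n + 3) t ^ 2
    have hb := c.bb_eq n
    have hcc := c.cc_eq n
    have hb' := c.bb_eq (n + 1)
    have hcc' := c.cc_eq (n + 1)
    have e0 := h.e n
    have e1 := h.e (n + 1)
    have e2 := h.g (n + 1)
    have e3 := h.d (n + 1)
    have n1 := c.nn_pos (n + 1)
    have n2 := c.nn_pos (n + 2)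
    have n3 := c.nn_pos (n + 3)
    have s0 := c.σ_pos n
    have r0 := c.ρ_pos n
    have r1 := c.ρ_pos (n + 1)
    have hs := c.σ_succ n
    have hs1 := c.σ_succ (n + 1)
    rw [show n + 1 + 1 = n + 2 from rfl] at *
    rw [show n + 1 + 2 = n + 3 from rfl] at *
    rw [show n + 1 + 3 = n + 4 from rfl] at *
    rw [show n + 2 + 1 = n + 3 from rfl] at *
    rw [show n + 3 + 1 = n + 4 from rfl] at *
    rw [hb, hcc, hb', hcc']
    unfold cof rhs Par.f
    rw [show n + 1 + 1 = n + 2 from rfl, show n + 1 + 2 = n + 3 from rfl]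
    have k1 : c.kap (n + 1) = Nn c.P (n + 2) / (c.σ n ^ 5 * β0) := rfl
    have k2 : c.kap (n + 2) = Nn c.P (n + 3) / (c.σ (n + 1) ^ 5 * β0) := rfl
    have k3 : c.kap (n + 3) = Nn c.P (n + 4) / (c.σ (n + 2) ^ 5 * β0) := rfl
    rw [e0, e1, e2, e3, k1, k2, k3, hs1, hs]
    field_simp
    ring

theorem cof_deriv {p : Par} {Tb : ℝ} {A : ℕ → ℝ → ℝ} (S : Sol p Tb A) {t : ℝ}
    (ht : t ∈ Ioo 0 Tb) (j : ℕ) : HasDerivAt (c.cof A j) (c.cofd p A t j) t := by
  cases j with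
  | zero =>
    have : c.cof A 0 = fun _ => 0 := by
      funext s
      show 0 * A 0 s = 0
      ring
    rw [this]
    exact hasDerivAt_const t 0
  | succ n => exact (S.deriv n ht).const_mul _

theorem kap_PB : PB c.σ c.kap := by
  have hβ := β0_pos
  have hN : 0 < Nup := (c.nn_pos 0).trans_le (c.nn_up 0)
  apply PB.of_le (C := Nup / β0)
  intro j
  cases j with
  | zero =>
    show |(0 : ℝ)| ≤ _
    rw [abs_zero]
    positivity
  | succ n =>
    rw [abs_of_pos (c.kap_pos n), c.kap_succ]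
    have h1 := c.nn_up (n + 1)
    have h2 := c.nn_pos (n + 1)
    have h3 := c.σ_one n
    have h4 : 1 ≤ c.σ n ^ 5 := one_le_pow₀ h3
    apply div_le_div₀ hN.le h1 hβ
    nlinarith

theorem cof_ts {p : Par} (hw : PW p c.σ) {Tb : ℝ} {A : ℕ → ℝ → ℝ} (S : Sol p Tb A) :
    TS c.σ Tb (c.cof A) := (S.ts hw).smul hw.wg kap_PB

/-- The velocity field. -/
theorem vel_TF {p : Par} (hw : PW p c.σ) {Tb : ℝ} {A : ℕ → ℝ → ℝ} (S : Sol p Tb A) :
    TF Tb (17 / 4) (vel c.P (c.cof A)) := by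
  refine ⟨vel_smooth hw.wg c.bv (cof_ts hw S), fun t ht x hx => ?_⟩
  exact mem_ball c.chn.ball (vel_mem hw.wg c.bv (cof_ts hw S) ht) hx

/-- The velocity field satisfies the equations tested with constrained fields. -/
theorem vel_test {ν : ℝ} {p : Par} (hf : c.FitP ν p) (hw : PW p c.σ) {Tb : ℝ} {A : ℕ → ℝ → ℝ}
    (S : Sol p Tb A) {t : ℝ} (ht : t ∈ Ioo 0 Tb) {v : V → V} (hv : Con ν c.P v) :
    ∫ x, ∑ i, residual ν (vel c.P (c.cof A)) t x i * v x i = 0 :=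
  test_zero c.chn hw.wg (c.bv.bds hw.wg) c.cb
    (fun _ hs => vel_mem hw.wg c.bv (cof_ts hw S) hs) ht (cof_deriv S ht) rfl ν
    (hf.ode (S.zero t)) ((cof_ts hw S).rap ⟨ht.1.le, ht.2⟩) hv

end Sc

end Pool.Agent.Run7.h407.G
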