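import Mathlib
import Pool.Agent.Run7.h407.G.Prm

/-!
The spaces between the span of the modes and the space given by the constraints.
-/

namespace Pool.Agent.Run7.h407.G

open Set Filter Topology MeasureTheory
open scoped ContDiff

variable {P : ℕ → V → V} {lo hi : ℕ → ℝ} {R : ℝ}

theorem mem_of_shift (h0 : ∀ x, P 0 x = 0) {c : ℕ → ℝ} {v : V → V}
    (h : ∀ x, HasSum (fun n => c n • P (n + 1) x) (v x)) : Mem P (Sc.sh c) v := by
  intro x
  rw [← hasSum_nat_add_iff' 1]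
  simp only [Finset.sum_range_one, h0 x, smul_zero, sub_zero]
  exact h x

theorem shift_of_mem (h0 : ∀ x, P 0 x = 0) {c : ℕ → ℝ} {v : V → V} (h : Mem P c v) (x : V) :
    HasSum (fun n => c (n + 1) • P (n + 1) x) (v x) := by
  have h1 := h x
  rw [← hasSum_nat_add_iff' 1] at h1
  simpa only [Finset.sum_range_one, h0 x, smul_zero, sub_zero] using h1

theorem dvg_sum {K : ℕ} {u : ℕ → V → V} (hu : ∀ n, CF (u n)) (c : ℕ → ℝ) (x : V) :
    dvg (fun y => ∑ n ∈ Finset.range K, c n • u n y) x = ∑ n ∈ Finset.range K, c n * dvg (u n) x := by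
  unfold dvg
  have h : ∀ i, pd i (fun y => (∑ n ∈ Finset.range K, c n • u n y) i) x
      = ∑ n ∈ Finset.range K, c n * pd i (fun y => u n y i) x := by
    intro i
    have e : (fun y => (∑ n ∈ Finset.range K, c n • u n y) i)
        = fun y => ∑ n ∈ Finset.range K, c n * u n y i := by
      funext y
      rw [Finset.sum_apply]
      rfl
    rw [e, pd_sum (fun n _ => ((contDiff_const.mul ((hu n).smc i)).differentiable
        (by simp) x : DifferentiableAt ℝ (fun y => c n * u n y i) x))]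
    apply Finset.sum_congr rfl
    intro n _
    exact pd_const_mul _ (((hu n).smc i).diff x) i
  simp_rw [h]
  rw [Finset.sum_comm]
  apply Finset.sum_congr rfl
  intro n _
  rw [Finset.mul_sum]

theorem mem_rep (h : Chn P lo hi R) {c : ℕ → ℝ} {v : V → V} (hm : Mem P c v)
    {x : V} (hx : x 0 ≠ 0) : ∃ K : ℕ, ∀ᶠ y in 𝓝 x, v y = ∑ n ∈ Finset.range K, c n • P n y := by
  obtain ⟨K, hK⟩ := h.fin_near hx
  refine ⟨K, ?_⟩
  filter_upwards [hK] with y hy
  have h1 : HasSum (fun n => c n • P n y) (∑ n ∈ Finset.range K, c n • P n y) := by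
    apply hasSum_sum_of_ne_finset_zero
    intro n hn
    rw [Finset.mem_range, not_lt] at hn
    rw [hy n hn, smul_zero]
  exact (hm y).unique h1

theorem mem_local (h : Chn P lo hi R) {c : ℕ → ℝ} {v : V → V} (hm : Mem P c v)
    {x : V} (hx : x 0 ≠ 0) : dvg v x = 0 := by
  obtain ⟨K, hK⟩ := mem_rep h hm hx
  rw [dvg_congr hK, dvg_sum h.cf]
  apply Finset.sum_eq_zero
  intro n _
  rw [h.dv, mul_zero]

theorem mem_dvg (h : Chn P lo hi R) {c : ℕ → ℝ} {v : V → V} (hm : Mem P c v)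
    (hv : ContDiff ℝ ∞ v) (x : V) : dvg v x = 0 := by
  by_cases hx : x 0 = 0
  · have hc : Continuous (dvg v) := by
      unfold dvg
      apply continuous_finsetSum
      intro i _
      exact ((sm_comp hv i).pd i).continuous
    have hl : Continuous (fun t : ℝ => x + t • (Pi.single 0 1 : V)) := by fun_prop
    have h1 : Tendsto (fun t : ℝ => dvg v (x + t • (Pi.single 0 1 : V))) (𝓝[≠] 0)
        (𝓝 (dvg v (x + (0 : ℝ) • (Pi.single 0 1 : V)))) :=
      ((hc.comp hl).tendsto 0).mono_left nhdsWithin_le_nhds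
    have h2 : Tendsto (fun t : ℝ => dvg v (x + t • (Pi.single 0 1 : V))) (𝓝[≠] 0) (𝓝 0) := by
      apply tendsto_const_nhds.congr'
      filter_upwards [self_mem_nhdsWithin] with t ht
      symm
      apply mem_local h hm
      simp only [Pi.add_apply, Pi.smul_apply, Pi.single_eq_same, smul_eq_mul, mul_one]
      rw [hx, zero_add]
      exact ht
    have h3 := tendsto_nhds_unique h1 h2
    simpa using h3
  · exact mem_local h hm hx

/-- Superpositions of the fields are orthogonal to `g` if the fields are. -/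
theorem mem_orth (h : Chn P lo hi R) {c : ℕ → ℝ} {v : V → V} (hm : Mem P c v)
    {g : V → V} (hg : CF g) (ha : Aw g) (hk : ∀ k, ip (P k) g = 0) : ip v g = 0 := by
  obtain ⟨a, ha0, ha⟩ := ha
  obtain ⟨K, hK⟩ := h.fin_far ha0
  have e : ∀ x, ∑ i, v x i * g x i
      = ∑ k ∈ Finset.range K, c k * ∑ i, P k x i * g x i := by
    intro x
    rcases lt_or_ge (x 0) a with hx | hx
    · rw [ha x hx]
      simp
    · have h1 : HasSum (fun n => c n • P n x)
          (∑ n ∈ Finset.range K, c n • P n x) := by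
        apply hasSum_sum_of_ne_finset_zero
        intro n hn
        rw [Finset.mem_range, not_lt] at hn
        rw [hK x hx n hn, smul_zero]
      have h2 := (hm x).unique h1
      rw [h2]
      simp_rw [Finset.mul_sum]
      rw [Finset.sum_comm]
      apply Finset.sum_congr rfl
      intro i _
      rw [Finset.sum_apply, Finset.sum_mul]
      apply Finset.sum_congr rfl
      intro k _
      simp only [Pi.smul_apply, smul_eq_mul]
      ring
  unfold ip
  simp_rw [e]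
  rw [integral_finsetSum _ fun k _ => (ip_int (h.cf k).sm.continuous hg).const_mul _]
  apply Finset.sum_eq_zero
  intro k _
  rw [integral_const_mul]
  have := hk k
  unfold ip at this
  rw [this, mul_zero]

/-- The fields of the chain vanish on a half space containing the origin. -/
theorem Chn.aw (h : Chn P lo hi R) (j : ℕ) : Aw (P j) := by
  refine ⟨lo j, h.lo0 j, fun x hx => ?_⟩
  by_contra hcon
  linarith [(h.supp j x hcon).1]

theorem Chn.aw_A (h : Chn P lo hi R) (j : ℕ) : Aw (GA P j) :=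
  ((h.aw (j + 1)).adv _).add (((h.aw (j + 2)).smul _).sub ((h.aw j).smul _))

theorem Chn.aw_B (h : Chn P lo hi R) (j : ℕ) : Aw (GB P j) :=
  (((h.aw (j + 1)).adv _).add ((h.aw (j + 2)).adv _)).add
    (((h.aw (j + 2)).smul _).sub ((h.aw (j + 1)).smul _))

theorem Chn.aw_C (h : Chn P lo hi R) (j : ℕ) : Aw (GC P j) :=
  (h.aw (j + 1)).lap.add ((h.aw (j + 1)).smul _)

/-- Fields with support in a ball. -/
def Sb (r : ℝ) (g : V → V) : Prop := ∀ x, g x ≠ 0 → ‖x‖ ≤ r

theorem Sb.add {r : ℝ} {g h : V → V} (hg : Sb r g) (hh : Sb r h) : Sb r (fun x => g x + h x) := by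
  intro x hx
  by_contra hcon
  have h1 : g x = 0 := by
    by_contra h2
    exact hcon (hg x h2)
  have h3 : h x = 0 := by
    by_contra h2
    exact hcon (hh x h2)
  apply hx
  show g x + h x = 0
  rw [h1, h3, add_zero]

theorem Sb.sub {r : ℝ} {g h : V → V} (hg : Sb r g) (hh : Sb r h) : Sb r (fun x => g x - h x) := by
  intro x hx
  by_contra hcon
  have h1 : g x = 0 := by
    by_contra h2
    exact hcon (hg x h2)
  have h3 : h x = 0 := by
    by_contra h2
    exact hcon (hh x h2)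
  apply hx
  show g x - h x = 0
  rw [h1, h3, sub_zero]

theorem Sb.smul {r : ℝ} {g : V → V} (hg : Sb r g) (c : ℝ) : Sb r (fun x => c • g x) := by
  intro x hx
  apply hg x
  intro h
  apply hx
  show c • g x = 0
  rw [h, smul_zero]

theorem Sb.adv {r : ℝ} {g : V → V} (hg : Sb r g) (h : V → V) : Sb r (adv g h) :=
  fun x hx => hg x (adv_ne hx)

theorem Sb.lap {r : ℝ} {g : V → V} (hg : Sb r g) : Sb r (lap g) := by
  intro x hx
  by_contra hcon
  exact hx (lap_zero (closure_ball hg (not_le.1 hcon)))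

theorem Sb.mono {r r' : ℝ} {g : V → V} (hg : Sb r g) (h : r ≤ r') : Sb r' g :=
  fun x hx => (hg x hx).trans h

theorem sb_A {r : ℝ} {j : ℕ} (h0 : Sb r (P j)) (h1 : Sb r (P (j + 1))) (h2 : Sb r (P (j + 2))) :
    Sb r (GA P j) :=
  (h1.adv _).add ((h2.smul _).sub (h0.smul _))

theorem sb_B {r : ℝ} {j : ℕ} (h1 : Sb r (P (j + 1))) (h2 : Sb r (P (j + 2))) : Sb r (GB P j) :=
  ((h1.adv _).add (h2.adv _)).add ((h2.smul _).sub (h1.smul _))

theorem sb_C {r : ℝ} {j : ℕ} (h1 : Sb r (P (j + 1))) : Sb r (GC P j) :=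
  h1.lap.add (h1.smul _)

/-- The linear spaces between the span of the modes and the space of the square
integrable weakly divergence-free fields which satisfy the constraints. -/
structure IsSpG {m : ℕ} (p : ℕ → V → V) (g : ℕ → Fin m → V → V) (W : Submodule ℝ (V → V)) :
    Prop where
  l2 : ∀ w ∈ W, L2F w
  wdf : ∀ w ∈ W, WDF w
  cs : ∀ w ∈ W, ∀ (n : ℕ) (i : Fin m), ip w (g n i) = 0
  mem : ∀ v : V → V, ContDiff ℝ ∞ v → HasCompactSupport v →
    (∃ c : ℕ → ℝ, ∀ x, HasSum (fun n => c n • p n x) (v x)) → v ∈ W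

/-- The space of all square integrable weakly divergence-free fields which satisfy the
constraints. -/
noncomputable def WmaxG {m : ℕ} (g : ℕ → Fin m → V → V) (hG : ∀ n i, L2F (g n i)) :
    Submodule ℝ (V → V) where
  carrier := {w | L2F w ∧ WDF w ∧ ∀ (n : ℕ) (i : Fin m), ip w (g n i) = 0}
  add_mem' := by
    rintro u v ⟨u1, u2, u4⟩ ⟨v1, v2, v4⟩
    refine ⟨u1.add v1, fun φ h hc => ?_, fun n i => ?_⟩
    · have h1 := ipL_add u1 v1 (grd_CF h hc).l2
      have h2 : ip u (grd φ) = 0 := u2 φ h hc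
      have h3 : ip v (grd φ) = 0 := v2 φ h hc
      rw [h2, h3, add_zero] at h1
      exact h1
    · have h1 := ipL_add u1 v1 (hG n i)
      rw [u4, v4, add_zero] at h1
      exact h1
  zero_mem' := by
    refine ⟨fun i => MemLp.zero, fun φ h hc => ?_, fun n i => ?_⟩
    · simp
    · exact ip_zero_of fun x => Or.inl rfl
  smul_mem' := by
    rintro c u ⟨u1, u2, u4⟩
    refine ⟨u1.smul c, fun φ h hc => ?_, fun n i => ?_⟩
    · have h1 := ip_smul_left c u (grd φ)
      have h2 : ip u (grd φ) = 0 := u2 φ h hc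
      rw [h2, mul_zero] at h1
      exact h1
    · have h1 := ip_smul_left c u (g n i)
      rw [u4, mul_zero] at h1
      exact h1

/-- The constraint fields of the Navier-Stokes equations. -/
noncomputable def G3 (P : ℕ → V → V) (n : ℕ) : Fin 3 → V → V := ![GA P n, GB P n, GC P n]

theorem G3_CF (h : Chn P lo hi R) (n : ℕ) (i : Fin 3) : CF (G3 P n i) := by
  fin_cases i
  · exact h.GA_CF n
  · exact h.GB_CF n
  · exact h.GC_CF n

theorem G3_aw (h : Chn P lo hi R) (n : ℕ) (i : Fin 3) : Aw (G3 P n i) := by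
  fin_cases i
  · exact h.aw_A n
  · exact h.aw_B n
  · exact h.aw_C n

theorem IsSpG.con {W : Submodule ℝ (V → V)} {p : ℕ → V → V} (h : IsSpG p (G3 P) W) {w : V → V}
    (hw : w ∈ W) (ν : ℝ) : Con ν P w := by
  refine ⟨h.l2 w hw, fun j => ?_, fun j => ?_, fun _ j => ?_⟩
  · rw [ip_comm]
    exact h.cs w hw j 0
  · rw [ip_comm]
    exact h.cs w hw j 1
  · rw [ip_comm]
    exact h.cs w hw j 2

theorem WmaxG_isSp (h : Chn P lo hi R) (hG : ∀ n i, L2F (G3 P n i)) :
    IsSpG (fun n => P (n + 1)) (G3 P) (WmaxG (G3 P) hG) := by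
  refine ⟨fun w hw => hw.1, fun w hw => hw.2.1, fun w hw => hw.2.2, ?_⟩
  rintro v hv hvc ⟨c, hm⟩
  have hm' := mem_of_shift h.zero hm
  have hC : CF v := ⟨hv, hvc⟩
  refine ⟨hC.l2, wdf_of_dvg hv (mem_dvg h hm' hv), fun n i => ?_⟩
  apply mem_orth h hm' (G3_CF h n i) (G3_aw h n i)
  intro k
  have hk := h.con (1 : ℝ) k
  rw [ip_comm]
  fin_cases i
  · exact hk.ca n
  · exact hk.cb n
  · exact hk.cc one_ne_zero n

theorem IsProj.dvgG {m : ℕ} {W : Submodule ℝ (V → V)} {p : ℕ → V → V} {g : ℕ → Fin m → V → V}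
    (hW : IsSpG p g W) {ν T : ℝ}
    {u : ℝ → V → V} (h : IsProj W ν T u) {t : ℝ} (ht : t ∈ Ico 0 T) (x : V) :
    dvg (u t) x = 0 :=
  dvg_of_wdf (h.cls.sl ht).sm (hW.wdf _ (h.mem t ht)) x

/-- Every solution of the projected equations satisfies the energy equality. -/
theorem IsProj.energyG {m : ℕ} {W : Submodule ℝ (V → V)} {p : ℕ → V → V} {g : ℕ → Fin m → V → V}
    (hW : IsSpG p g W) {ν T : ℝ}
    {u : ℝ → V → V} (h : IsProj W ν T u) {t : ℝ} (ht : t ∈ Ico 0 T) :
    ip (u t) (u t) + 2 * ν * ∫ s in (0 : ℝ)..t, Dir (u s) (u s) = ip (u 0) (u 0) :=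
  cls_energy h.cls (fun _ hs x => IsProj.dvgG hW h ⟨hs.1.le, hs.2⟩ x)
    (fun _ hs => h.eqn _ hs _ (h.mem _ ⟨hs.1.le, hs.2⟩)) ht

/-- Uniqueness. -/
theorem proj_uniqueG {m : ℕ} {W : Submodule ℝ (V → V)} {p : ℕ → V → V} {g : ℕ → Fin m → V → V}
    (hW : IsSpG p g W) {ν T : ℝ}
    (hν : 0 ≤ ν) {w u : ℝ → V → V} (hw : IsProj W ν T w) (hu : IsProj W ν T u)
    (hG : ∀ s ∈ Ico 0 T, ∃ G, ∀ t ∈ Icc 0 s, ∀ x i j, |pd j (fun y => u t y i) x| ≤ G)
    (h0 : ∀ x, w 0 x = u 0 x) : ∀ t ∈ Ico 0 T, w t = u t := by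
  have hd : ∀ t ∈ Ioo 0 T, (fun x => w t x - u t x) ∈ W := fun t ht =>
    W.sub_mem (hw.mem t ⟨ht.1.le, ht.2⟩) (hu.mem t ⟨ht.1.le, ht.2⟩)
  exact cls_unique hν hw.cls hu.cls h0 (fun t ht x => IsProj.dvgG hW hw ⟨ht.1.le, ht.2⟩ x) hG
    (fun t ht => hw.eqn t ht _ (hd t ht)) (fun t ht => hu.eqn t ht _ (hd t ht))

namespace Sc

variable {c : Sc}

/-- The velocity field solves the equations projected on each of the spaces. -/
theorem vel_isProj {ν : ℝ} {p : Par} (hf : c.FitP ν p) (hw : PW p c.σ) {Tb : ℝ} {A : ℕ → ℝ → ℝ}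
    (S : Sol p Tb A) {W : Submodule ℝ (V → V)} (hW : IsSpG (fun n => c.P (n + 1)) (G3 c.P) W) :
    IsProj W ν Tb (vel c.P (c.cof A)) := by
  have hT := vel_TF hw S
  refine ⟨hT.cls, fun t ht => ?_, fun t ht w hw' => vel_test hf hw S ht (hW.con hw' ν)⟩
  exact hW.mem _ (hT.slice_CF ht).sm (hT.slice_CF ht).cs
    ⟨_, shift_of_mem c.chn.zero (vel_mem hw.wg c.bv (cof_ts hw S) ht)⟩

/-- Maximality of the velocity field. -/
theorem vel_max {ν : ℝ} {p : Par} (hf : c.FitP ν p) (hw : PW p c.σ) {Tb : ℝ} {A : ℕ → ℝ → ℝ}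
    (S : Sol p Tb A) (hν : 0 ≤ ν) {W : Submodule ℝ (V → V)}
    (hW : IsSpG (fun n => c.P (n + 1)) (G3 c.P) W)
    (hb : ∀ M, ∀ᶠ t in 𝓝[<] Tb, ∃ x, M < ‖vel c.P (c.cof A) t x‖)
    {T' : ℝ} {u : ℝ → V → V} (hu : IsProj W ν T' u)
    (h0 : ∀ x, u 0 x = vel c.P (c.cof A) 0 x) :
    T' ≤ Tb ∧ ∀ t ∈ Ico 0 T', u t = vel c.P (c.cof A) t := by
  have hT := vel_TF hw S
  have hv := vel_isProj hf hw S hW
  have hle : T' ≤ Tb := by
    by_contra hcon
    push Not at hcon
    have h1 := proj_uniqueG hW hν (hu.restrict hcon.le) hv (fun _ hs => hT.grad_bdd hs) h0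
    obtain ⟨C, hC⟩ := hu.cls.bd Tb ⟨S.Tpos.le, hcon⟩
    obtain ⟨t, ⟨x, hx⟩, ht⟩ := ((hb C).and (Ioo_mem_nhdsLT S.Tpos)).exists
    have h2 := (hC t ⟨ht.1.le, ht.2.le⟩).1 x
    rw [h1 t ⟨ht.1.le, ht.2⟩] at h2
    linarith
  exact ⟨hle, proj_uniqueG hW hν hu (hv.restrict hle)
    (fun s hs => hT.grad_bdd ⟨hs.1, hs.2.trans_le hle⟩) h0⟩

end Sc

end Pool.Agent.Run7.h407.G
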