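import Mathlib
import Pool.Agent.Run7.h407.G.Spc

/-!
Growth of the velocity field.
-/

namespace Pool.Agent.Run7.h407.G

open Set Filter Topology MeasureTheory
open scoped ContDiff

theorem psi3_slab {r μ δ : ℝ} (hr : 2 ≤ r) (hμ : 2 ≤ μ) {y : V} (h1 : 17 / 16 < y 0)
    (h2 : y 0 < 3) : psi3 r μ δ y = str Gp (y - e1) := by
  have e3 : sw chi (y - r ^ 2 • e1) = 0 := by
    by_contra hcon
    have h3 := abs_le.1 (sw_chi_supp hcon)
    rw [sub_mu_e1_zero] at h3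
    nlinarith [h3.1]
  have e2 : sw (pd 2 (hc μ)) (y - e1) = 0 := by
    by_contra h
    have h3 := hc_supp hμ (pd_tsupport 2 (sw_ne h))
    have h4 := inv_mu4_small hμ
    have h5 : |(y - e1) 0| ≤ 1 / 16 := abs_coord_le (by norm_num) (by linarith) 0
    rw [sub_e1_zero] at h5
    linarith [(abs_le.1 h5).2]
  unfold psi3 par
  rw [e2, e3]
  simp

/-- The cubic mass of the straining part in the slab. -/
noncomputable def sm0 : ℝ := ∫ y, slab.indicator (fun z => ‖str Gp (z - e1)‖ ^ 3) y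

theorem stre_CF : CF (fun z => str Gp (z - e1)) := trans_CF str_CF e1

theorem sm0_pos : 0 < sm0 := by
  unfold sm0
  rw [integral_indicator slab_open.measurableSet]
  have hc := cube_cont stre_CF.sm.continuous
  rw [setIntegral_pos_iff_support_of_nonneg_ae]
  · obtain ⟨h1, _, _⟩ := psi3_pt (r := 2) (μ := 2) le_rfl le_rfl 0
    have h0 : ((9 / 8 : ℝ) • e1) 0 = 9 / 8 := by
      simp [e1_zero]
    rw [psi3_slab le_rfl le_rfl (by rw [h0]; norm_num) (by rw [h0]; norm_num)] at h1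
    have ho : IsOpen (Function.support (fun z => ‖str Gp (z - e1)‖ ^ 3) ∩ slab) :=
      hc.isOpen_support.inter slab_open
    refine ho.measure_pos volume ⟨(9 / 8 : ℝ) • e1, ?_, ?_⟩
    · intro h
      have h2 : str Gp ((9 / 8 : ℝ) • e1 - e1) = 0 := by simpa using h
      rw [h2] at h1
      norm_num at h1
    · constructor <;> rw [h0] <;> norm_num
  · exact Eventually.of_forall fun x => by positivity
  · exact (hc.integrable_of_hasCompactSupport (cube_cs stre_CF)).integrableOn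

namespace Sc

variable (c : Sc)

theorem other_zero (n : ℕ) {x : V} (h1 : 17 / 16 < c.σ n ^ 2 * x 0) (h2 : c.σ n ^ 2 * x 0 < 3)
    {k : ℕ} (hk : k ≠ n + 1) : c.P k x = 0 := by
  have hn := c.σ_pos n
  have hx : 0 < x 0 := by
    by_contra hcon
    push Not at hcon
    nlinarith [pow_pos hn 2]
  cases k with
  | zero => rfl
  | succ m =>
    by_contra hcon
    have h3 := c.blk_supp hcon
    rcases lt_or_gt_of_ne (show m ≠ n by omega) with hlt | hgt
    · have h4 := c.σ_sq hlt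
      nlinarith [h3.1]
    · obtain ⟨k, rfl⟩ : ∃ k, m = k + 1 := ⟨m - 1, by omega⟩
      have h4 := (c.chn.supp _ _ hcon).2.trans (c.hi_le k)
      have h5 : c.σ n ^ 2 ≤ c.σ k ^ 2 := pow_le_pow_left₀ hn.le (c.σ_mono (by omega)) 2
      have h6 := c.σ_pos k
      rw [le_div_iff₀ (by positivity)] at h4
      nlinarith

/-- Reading off a coefficient. -/
theorem rep_one {a : ℕ → ℝ} {v : V → V} (hm : Mem c.P a v) (n : ℕ) {x : V}
    (h1 : 17 / 16 < c.σ n ^ 2 * x 0) (h2 : c.σ n ^ 2 * x 0 < 3) :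
    v x = a (n + 1) • c.P (n + 1) x := by
  have h3 : HasSum (fun k => a k • c.P k x) (a (n + 1) • c.P (n + 1) x) := by
    apply hasSum_single
    intro k hk
    rw [c.other_zero n h1 h2 hk, smul_zero]
  exact (hm x).unique h3

theorem cubic_lower {a : ℕ → ℝ} {v : V → V} (hm : Mem c.P a v)
    (hv : CF v) (n : ℕ) : (|a (n + 1)| * c.σ n) ^ 3 * sm0 ≤ ∫ x, ‖v x‖ ^ 3 := by
  have hs := c.σ_pos n
  have h1 : (|a (n + 1)| * c.σ n) ^ 3 * sm0
      = ∫ x, (fun y => (|a (n + 1)| * c.σ n ^ 3) ^ 3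
        * slab.indicator (fun z => ‖str Gp (z - e1)‖ ^ 3) y) (c.σ n ^ 2 • x) := by
    rw [integral_scale (fun y => (|a (n + 1)| * c.σ n ^ 3) ^ 3 * slab.indicator
      (fun z => ‖str Gp (z - e1)‖ ^ 3) y) hs, integral_const_mul]
    unfold sm0
    field_simp
  rw [h1]
  apply integral_mono_of_nonneg
  · apply Eventually.of_forall
    intro x
    show 0 ≤ (|a (n + 1)| * c.σ n ^ 3) ^ 3
      * slab.indicator (fun z => ‖str Gp (z - e1)‖ ^ 3) (c.σ n ^ 2 • x)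
    have h2 : 0 ≤ slab.indicator (fun z => ‖str Gp (z - e1)‖ ^ 3) (c.σ n ^ 2 • x) :=
      indicator_nonneg (fun z _ => by positivity) _
    positivity
  · exact (cube_cont hv.sm.continuous).integrable_of_hasCompactSupport (cube_cs hv)
  · apply Eventually.of_forall
    intro x
    show (|a (n + 1)| * c.σ n ^ 3) ^ 3
      * slab.indicator (fun z => ‖str Gp (z - e1)‖ ^ 3) (c.σ n ^ 2 • x) ≤ ‖v x‖ ^ 3
    by_cases hx : c.σ n ^ 2 • x ∈ slab
    · rw [indicator_of_mem hx]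
      have h2 : 17 / 16 < c.σ n ^ 2 * x 0 ∧ c.σ n ^ 2 * x 0 < 3 := hx
      rw [c.rep_one hm n h2.1 h2.2, norm_smul, c.P_succ]
      unfold dil
      have h3 : c.blk n (c.σ n ^ 2 • x) = str Gp (c.σ n ^ 2 • x - e1) :=
        psi3_slab (c.rr_two n) (c.hρ n) h2.1 h2.2
      rw [norm_smul, Real.norm_eq_abs, Real.norm_eq_abs, abs_of_pos (by positivity : 0 < c.σ n ^ 3),
        h3]
      apply le_of_eq
      ring
    · rw [indicator_of_notMem hx, mul_zero]
      positivity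

/-- The initial value. -/
theorem vel_init {p : Par} {Tb : ℝ} {A : ℕ → ℝ → ℝ} (S : Sol p Tb A) (x : V) :
    vel c.P (c.cof A) 0 x = (c.kap 1 * p.a0) • c.P 1 x := by
  unfold vel
  rw [tsum_eq_single 1]
  · unfold cof
    rw [S.init0]
  · intro j hj
    cases j with
    | zero =>
      show (0 * A 0 0) • c.P 0 x = 0
      rw [zero_mul, zero_smul]
    | succ j =>
      cases j with
      | zero => exact absurd rfl hj
      | succ j =>
        unfold cof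
        rw [show j + 1 + 1 = j + 2 from rfl, S.init1 j, mul_zero, zero_smul]

end Sc

section

variable {α γ s0 R : ℝ} (h : Pre α γ s0 R)

include h in
theorem Pre.R_pos : 0 < R := by linarith [h.hR]

include h in
theorem Pre.s0_pos : 0 < s0 := by linarith [h.hs]

theorem Pre.σ_eq (n : ℕ) : h.sc.σ n = s0 * ∏ i ∈ Finset.range n, rh R γ i := rfl

/-- The recursion of the scales. -/
theorem Pre.σ_rec (n : ℕ) : h.sc.σ (n + 1) = s0 ^ (1 - γ) * R * h.sc.σ n ^ γ := by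
  induction n with
  | zero =>
    rw [h.sc.σ_succ, h.sc.σ_zero, h.ρ_eq, rh_zero]
    show s0 * R = s0 ^ (1 - γ) * R * s0 ^ γ
    have e : s0 ^ (1 - γ) * s0 ^ γ = s0 := by
      rw [← Real.rpow_add h.s0_pos]
      simp
    calc s0 * R = (s0 ^ (1 - γ) * s0 ^ γ) * R := by rw [e]
      _ = _ := by ring
  | succ n ih =>
    rw [h.sc.σ_succ (n + 1), h.ρ_eq, rh_succ h.R_pos]
    have e : h.sc.σ (n + 1) ^ γ = h.sc.σ n ^ γ * rh R γ n ^ γ := by
      rw [h.sc.σ_succ n, h.ρ_eq, Real.mul_rpow (h.sc.σ_pos n).le (h.rh_pos n).le]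
    rw [e]
    calc h.sc.σ (n + 1) * rh R γ n ^ γ = (s0 ^ (1 - γ) * R * h.sc.σ n ^ γ) * rh R γ n ^ γ := by
          rw [ih]
      _ = _ := by ring

theorem Pre.σ_ge (n : ℕ) : R ^ n ≤ h.sc.σ n := by
  induction n with
  | zero =>
    rw [h.sc.σ_zero, pow_zero]
    exact h.hs
  | succ n ih =>
    rw [h.sc.σ_succ, pow_succ]
    exact mul_le_mul ih (h.rh_le n) h.R_pos.le (h.sc.σ_pos n).le

theorem Pre.PL_eq (n : ℕ) : ∏ i ∈ Finset.range n, rh R γ (i + 1) ^ α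
    = (h.sc.σ n / s0) ^ (α * γ) := by
  have hs := h.s0_pos
  induction n with
  | zero =>
    rw [h.sc.σ_zero, Finset.prod_range_zero]
    show (1 : ℝ) = (s0 / s0) ^ (α * γ)
    rw [div_self hs.ne', Real.one_rpow]
  | succ n ih =>
    rw [Finset.prod_range_succ, ih, h.sc.σ_succ, h.ρ_eq, h.pow_next,
      ← Real.mul_rpow (by have := h.sc.σ_pos n; positivity) (h.rh_pos n).le]
    congr 1
    ring

/-- The sums which occur are dominated by geometric series. -/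
theorem Pre.geo {s θ : ℝ} (hs : 0 ≤ s) (h16 : 16 ≤ R ^ (2 * s - γ * θ)) :
    ∃ C, 0 ≤ C ∧ ∀ (n : ℕ) (x : V), ‖x‖ ≤ h.sc.hi (n + 1) →
      8 ^ n * h.sc.σ n ^ θ * ‖x‖ ^ s ≤ C * (1 / 2) ^ n := by
  have hR := h.R_pos
  have hs0 := h.s0_pos
  set c1 : ℝ := s0 ^ (1 - γ) * R with hc1
  have hc1p : 0 < c1 := mul_pos (Real.rpow_pos_of_pos hs0 _) hR
  have h0 : 0 ≤ h.sc.σ 0 ^ θ * (17 / 4 : ℝ) ^ s :=
    mul_nonneg (Real.rpow_nonneg (h.sc.σ_pos 0).le _) (by positivity)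
  have h1 : 0 ≤ 16 * c1 ^ θ * (17 / 16 : ℝ) ^ s := by positivity
  have hη : 0 < 2 * s - γ * θ := by
    by_contra hcon
    push Not at hcon
    have := Real.rpow_le_one_of_one_le_of_nonpos h.R1.le hcon
    linarith
  refine ⟨h.sc.σ 0 ^ θ * (17 / 4 : ℝ) ^ s + 16 * c1 ^ θ * (17 / 16 : ℝ) ^ s,
    add_nonneg h0 h1, fun n x hx => ?_⟩
  cases n with
  | zero =>
    rw [pow_zero, pow_zero, one_mul, mul_one]
    have h2 : ‖x‖ ^ s ≤ (17 / 4 : ℝ) ^ s :=
      Real.rpow_le_rpow (norm_nonneg _) (hx.trans (h.sc.hi_bd _)) hs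
    have h3 := mul_le_mul_of_nonneg_left h2 (Real.rpow_nonneg (h.sc.σ_pos 0).le θ)
    linarith
  | succ m =>
    have hm := h.sc.σ_pos m
    have h2 : ‖x‖ ^ s ≤ (17 / 16 / h.sc.σ m ^ 2) ^ s :=
      Real.rpow_le_rpow (norm_nonneg _) (hx.trans (h.sc.hi_le m)) hs
    have e1 : (17 / 16 / h.sc.σ m ^ 2) ^ s = (17 / 16 : ℝ) ^ s * h.sc.σ m ^ (-(2 * s)) := by
      rw [Real.div_rpow (by norm_num) (by positivity), ← Real.rpow_natCast (h.sc.σ m) 2,
        ← Real.rpow_mul hm.le, Real.rpow_neg hm.le, div_eq_mul_inv]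
      norm_cast
    have e2 : h.sc.σ (m + 1) ^ θ = c1 ^ θ * h.sc.σ m ^ (γ * θ) := by
      rw [h.σ_rec, ← hc1, Real.mul_rpow hc1p.le (Real.rpow_nonneg hm.le _),
        ← Real.rpow_mul hm.le]
    have e3 : h.sc.σ m ^ (γ * θ) * h.sc.σ m ^ (-(2 * s)) ≤ (1 / 16) ^ m := by
      rw [← Real.rpow_add hm, show γ * θ + -(2 * s) = -(2 * s - γ * θ) by ring,
        Real.rpow_neg hm.le, one_div, inv_pow]
      apply inv_anti₀ (by positivity)
      calc (16 : ℝ) ^ m ≤ (R ^ (2 * s - γ * θ)) ^ m := pow_le_pow_left₀ (by norm_num) h16 m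
        _ = (R ^ m) ^ (2 * s - γ * θ) := by
            rw [← Real.rpow_natCast (R ^ (2 * s - γ * θ)) m, ← Real.rpow_mul hR.le,
              ← Real.rpow_natCast R m, ← Real.rpow_mul hR.le, mul_comm]
        _ ≤ _ := Real.rpow_le_rpow (by positivity) (h.σ_ge m) hη.le
    have e4 : (0 : ℝ) < 1 / 16 := by norm_num
    calc 8 ^ (m + 1) * h.sc.σ (m + 1) ^ θ * ‖x‖ ^ s
        ≤ 8 ^ (m + 1) * h.sc.σ (m + 1) ^ θ * ((17 / 16 : ℝ) ^ s * h.sc.σ m ^ (-(2 * s))) := by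
          rw [← e1]
          apply mul_le_mul_of_nonneg_left h2
          exact mul_nonneg (by positivity) (Real.rpow_nonneg (h.sc.σ_pos _).le _)
      _ = 8 ^ (m + 1) * c1 ^ θ * (17 / 16 : ℝ) ^ s
          * (h.sc.σ m ^ (γ * θ) * h.sc.σ m ^ (-(2 * s))) := by
          rw [e2]
          ring
      _ ≤ 8 ^ (m + 1) * c1 ^ θ * (17 / 16 : ℝ) ^ s * (1 / 16) ^ m :=
          mul_le_mul_of_nonneg_left e3 (by positivity)
      _ = (16 * c1 ^ θ * (17 / 16 : ℝ) ^ s) * (1 / 2) ^ (m + 1) := by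
          have e5 : (8 : ℝ) ^ m * (1 / 16) ^ m = (1 / 2) ^ m := by
            rw [← mul_pow]
            norm_num
          rw [pow_succ, pow_succ, ← e5]
          ring
      _ ≤ _ := by
          apply mul_le_mul_of_nonneg_right _ (by positivity)
          linarith

/-- The seeding parameters are tiny. -/
theorem Pre.dl7 (n : ℕ) : |h.sc.dl n| * h.sc.ρ n ^ 7 ≤ β0 / S0 := by
  have hβ := β0_pos
  have hS := S0_pos
  have hρ : 0 < h.sc.ρ n := h.sc.ρ_pos n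
  have hρ1 : 1 ≤ h.sc.ρ n := by linarith [h.sc.hρ n]
  rw [abs_of_nonneg (h.sc.dl_nonneg n)]
  have h1 : h.sc.ε n ≤ 1 / h.sc.ρ n ^ 5 := by
    show Real.exp (-(3 * rh R γ n ^ α)) / rh R γ n ^ 5 ≤ 1 / rh R γ n ^ 5
    have hr := h.rh_pos n
    apply div_le_div_of_nonneg_right _ (by positivity)
    rw [Real.exp_le_one_iff]
    have := Real.rpow_pos_of_pos hr α
    linarith
  have h2 : h.sc.dl n * h.sc.ρ n ^ 7 = h.sc.ε n * h.sc.ρ n ^ 3 * (β0 / S0) := by
    unfold Sc.dl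
    field_simp
  rw [h2]
  have h3 : h.sc.ε n * h.sc.ρ n ^ 3 ≤ 1 := by
    calc h.sc.ε n * h.sc.ρ n ^ 3 ≤ 1 / h.sc.ρ n ^ 5 * h.sc.ρ n ^ 3 :=
          mul_le_mul_of_nonneg_right h1 (by positivity)
      _ = 1 / h.sc.ρ n ^ 2 := by
          field_simp
      _ ≤ 1 := by
          rw [div_le_one (by positivity)]
          exact one_le_pow₀ hρ1
  have h4 : 0 < β0 / S0 := by positivity
  nlinarith

theorem Pre.dl5 (n : ℕ) : |h.sc.dl n| * h.sc.ρ n ^ 5 ≤ β0 / S0 := by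
  refine le_trans ?_ (h.dl7 n)
  apply mul_le_mul_of_nonneg_left _ (abs_nonneg _)
  exact pow_le_pow_right₀ (by linarith [h.sc.hρ n]) (by norm_num)

/-- Uniform bound of the blocks. -/
theorem Pre.blk_bd : ∃ B, 0 ≤ B ∧ ∀ n x, ‖h.sc.P (n + 1) x‖ ≤ h.sc.σ n ^ 3 * B := by
  obtain ⟨M1, m1, b1⟩ := cs_bound str_CF.sm str_CF.cs
  obtain ⟨M2, m2, b2⟩ := cs_bound swd_CF.sm swd_CF.cs
  obtain ⟨M3, m3, b3⟩ := cs_bound swc_CF.sm swc_CF.cs
  have hβ := β0_pos
  have hS := S0_pos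
  refine ⟨M1 + β0 / S0 * M2 + M3, by positivity, fun n x => ?_⟩
  have hσ := h.sc.σ_pos n
  have hρ := h.sc.ρ_pos n
  rw [h.sc.P_succ]
  unfold dil
  rw [norm_smul, Real.norm_eq_abs, abs_of_pos (by positivity)]
  apply mul_le_mul_of_nonneg_left _ (by positivity)
  unfold Sc.blk
  rw [psi3_pieces]
  refine (norm_add_le _ _).trans (add_le_add ((norm_add_le _ _).trans
    (add_le_add (b1 _) ?_)) (b3 _))
  rw [norm_smul, Real.norm_eq_abs, abs_mul, abs_of_pos (by positivity : 0 < h.sc.ρ n ^ 5)]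
  exact mul_le_mul (h.dl5 n) (b2 _) (norm_nonneg _) (by positivity)

theorem cs_bound' {f : V → ℝ} (hf : Sm f) (hc : HasCompactSupport f) :
    ∃ M, 0 ≤ M ∧ ∀ x, |f x| ≤ M := by
  obtain ⟨M, hM, h⟩ := cs_bound hf hc
  exact ⟨M, hM, fun x => by
    rw [← Real.norm_eq_abs]
    exact h x⟩

/-- Uniform bound of the gradients of the blocks. -/
theorem Pre.blk_grad : ∃ B, 0 ≤ B ∧ ∀ n x i j,
    |pd j (fun y => h.sc.P (n + 1) y i) x| ≤ h.sc.σ n ^ 5 * B := by
  have hβ := β0_pos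
  have hS := S0_pos
  choose M1 m1 b1 using fun (i j : Fin 3) =>
    cs_bound' ((str_CF.smc i).pd j) (pd_cs (str_CF.csc i) j)
  choose M2 m2 b2 using fun (i j : Fin 3) =>
    cs_bound' ((swd_CF.smc i).pd j) (pd_cs (swd_CF.csc i) j)
  choose M3 m3 b3 using fun (i j : Fin 3) =>
    cs_bound' ((swc_CF.smc i).pd j) (pd_cs (swc_CF.csc i) j)
  set Mt : Fin 3 → Fin 3 → ℝ := fun i j => M1 i j + β0 / S0 * M2 i j + M3 i j with hMt
  have hMt0 : ∀ i j, 0 ≤ Mt i j := fun i j => by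
    have := m1 i j
    have := m2 i j
    have := m3 i j
    rw [hMt]
    positivity
  refine ⟨∑ i, ∑ j, Mt i j, Finset.sum_nonneg fun i _ => Finset.sum_nonneg fun j _ => hMt0 i j,
    fun n x i j => ?_⟩
  have hle : Mt i j ≤ ∑ i, ∑ j, Mt i j := by
    refine (Finset.single_le_sum (f := fun j => Mt i j) (fun j _ => hMt0 i j)
      (Finset.mem_univ j)).trans ?_
    exact Finset.single_le_sum (f := fun i => ∑ j, Mt i j)
      (fun i _ => Finset.sum_nonneg fun j _ => hMt0 i j) (Finset.mem_univ i)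
  have hσ := h.sc.σ_pos n
  have hρ := h.sc.ρ_pos n
  rw [h.sc.P_succ, pd_dil (h.sc.blk_CF n).smc]
  rw [abs_mul, abs_of_pos (by positivity : 0 < h.sc.σ n ^ 5)]
  apply mul_le_mul_of_nonneg_left _ (by positivity)
  refine le_trans ?_ hle
  set y := h.sc.σ n ^ 2 • x with hy
  have s1 : Sm (fun z : V => str Gp (z - e1) i) := (trans_CF str_CF e1).smc i
  have s2 : Sm (fun z : V => sw (pd 2 chi) (h.sc.ρ n ^ 2 • z - h.sc.ρ n ^ 2 • e1) i) :=
    sm_bump (swd_CF.smc i) _ _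
  have s3 : Sm (fun z : V => sw chi (z - h.sc.rr n ^ 2 • e1) i) := (trans_CF swc_CF _).smc i
  have s2' : Sm (fun z : V => (h.sc.dl n * h.sc.ρ n ^ 5)
      * sw (pd 2 chi) (h.sc.ρ n ^ 2 • z - h.sc.ρ n ^ 2 • e1) i) := contDiff_const.mul s2
  have s12 : Sm (fun z : V => str Gp (z - e1) i + (h.sc.dl n * h.sc.ρ n ^ 5)
      * sw (pd 2 chi) (h.sc.ρ n ^ 2 • z - h.sc.ρ n ^ 2 • e1) i) := s1.add s2'
  have e : (fun z => h.sc.blk n z i) = fun z => (str Gp (z - e1) i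
      + (h.sc.dl n * h.sc.ρ n ^ 5) * sw (pd 2 chi) (h.sc.ρ n ^ 2 • z - h.sc.ρ n ^ 2 • e1) i)
      + sw chi (z - h.sc.rr n ^ 2 • e1) i := by
    funext z
    unfold Sc.blk
    rw [psi3_pieces]
    rfl
  rw [e, pd_add (s12.diff y) (s3.diff y), pd_add (s1.diff y) (s2'.diff y),
    pd_const_mul _ (s2.diff y), pd_bump (swd_CF.smc i), pd_trans str_CF, pd_trans swc_CF]
  refine (abs_add_le _ _).trans (add_le_add ((abs_add_le _ _).trans
    (add_le_add (b1 i j _) ?_)) (b3 i j _))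
  rw [← mul_assoc, abs_mul]
  have e2 : |h.sc.dl n * h.sc.ρ n ^ 5 * h.sc.ρ n ^ 2| = |h.sc.dl n| * h.sc.ρ n ^ 7 := by
    rw [abs_mul, abs_mul, abs_of_pos (by positivity : 0 < h.sc.ρ n ^ 5),
      abs_of_pos (by positivity : 0 < h.sc.ρ n ^ 2)]
    ring
  rw [e2]
  exact mul_le_mul (h.dl7 n) (b2 i j _) (abs_nonneg _) (by positivity)

end

end Pool.Agent.Run7.h407.G
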