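import Mathlib
import Pool.Agent.Run7.h407.G.Grw

/-!
Supports of the constraint fields and bounds of the coefficients.
-/

namespace Pool.Agent.Run7.h407.G

open Set Filter Topology MeasureTheory
open scoped ContDiff

section

variable {α γ s0 R : ℝ} (h : Pre α γ s0 R)

theorem Pre.hi_le0 (k : ℕ) : h.sc.hi k ≤ 17 / 4 / s0 ^ 2 := by
  have hs := h.s0_pos
  cases k with
  | zero =>
    show (0 : ℝ) ≤ _
    positivity
  | succ k =>
    cases k with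
    | zero =>
      show ((2 : ℝ) ^ 2 + 1 / 4) / h.sc.σ 0 ^ 2 ≤ 17 / 4 / s0 ^ 2
      rw [h.sc.σ_zero]
      show ((2 : ℝ) ^ 2 + 1 / 4) / s0 ^ 2 ≤ 17 / 4 / s0 ^ 2
      apply le_of_eq
      norm_num
    | succ k =>
      refine (h.sc.hi_le k).trans ?_
      have h1 : h.sc.σ 0 ≤ h.sc.σ k := h.sc.σ_mono (Nat.zero_le k)
      rw [h.sc.σ_zero] at h1
      have h2 : s0 ≤ h.sc.σ k := h1
      have h3 := h.sc.σ_pos k
      have h4 : s0 ^ 2 ≤ h.sc.σ k ^ 2 := pow_le_pow_left₀ hs.le h2 2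
      rw [div_le_div_iff₀ (by positivity) (by positivity)]
      nlinarith

/-- The supports shrink doubly exponentially. -/
theorem Pre.hi_small (h1 : 17 / 4 / s0 ^ 2 ≤ (2 : ℝ) ^ (-(γ ^ 2))) (h2 : (2 : ℝ) ^ (γ ^ 3) ≤ R ^ 2)
    {n k : ℕ} (hk : n ≤ k) : h.sc.hi k ≤ (2 : ℝ) ^ (-(γ ^ n)) := by
  have hs := h.s0_pos
  have hγ := h.hγ
  by_cases hn : n ≤ 2
  · refine (h.hi_le0 k).trans (h1.trans ?_)
    apply Real.rpow_le_rpow_of_exponent_le (by norm_num)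
    have : γ ^ n ≤ γ ^ 2 := pow_le_pow_right₀ hγ.le hn
    linarith
  · obtain ⟨m, rfl⟩ : ∃ m, n = m + 3 := ⟨n - 3, by omega⟩
    obtain ⟨j, rfl⟩ : ∃ j, k = j + 2 := ⟨k - 2, by omega⟩
    refine (h.sc.hi_le j).trans ?_
    have h3 : h.sc.σ (m + 1) ≤ h.sc.σ j := h.sc.σ_mono (by omega)
    have h4 : s0 * rh R γ m ≤ h.sc.σ (m + 1) := by
      rw [h.sc.σ_succ, h.ρ_eq]
      apply mul_le_mul_of_nonneg_right _ (h.rh_pos m).le
      have := h.sc.σ_mono (Nat.zero_le m)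
      rw [h.sc.σ_zero] at this
      exact this
    have hr := h.rh_pos m
    have h5 : (s0 * rh R γ m) ^ 2 ≤ h.sc.σ j ^ 2 :=
      pow_le_pow_left₀ (by positivity) (h4.trans h3) 2
    have h6 : 17 / 4 ≤ s0 ^ 2 := by
      have h7 : (2 : ℝ) ^ (-(γ ^ 2)) ≤ 1 :=
        Real.rpow_le_one_of_one_le_of_nonpos (by norm_num) (by
          have : 0 < γ ^ 2 := by positivity
          linarith)
      have h8 := h1.trans h7
      rw [div_le_one (by positivity)] at h8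
      exact h8
    have h9 : rh R γ m ^ 2 = (R ^ 2) ^ (γ ^ m) := by
      unfold rh
      rw [← Real.rpow_natCast (R ^ (γ ^ m)) 2, ← Real.rpow_mul h.R_pos.le,
        ← Real.rpow_natCast R 2, ← Real.rpow_mul h.R_pos.le, mul_comm]
    have h10 : (2 : ℝ) ^ (γ ^ (m + 3)) ≤ rh R γ m ^ 2 := by
      rw [h9]
      have e : (2 : ℝ) ^ (γ ^ (m + 3)) = ((2 : ℝ) ^ (γ ^ 3)) ^ (γ ^ m) := by
        rw [← Real.rpow_mul (by norm_num)]
        congr 1
        ring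
      rw [e]
      exact Real.rpow_le_rpow (by positivity) h2 (by positivity)
    rw [Real.rpow_neg (by norm_num)]
    have h11 : (0 : ℝ) < 2 ^ (γ ^ (m + 3)) := by positivity
    have h12 := h.sc.σ_pos j
    rw [← one_div, div_le_div_iff₀ (by positivity) h11]
    rw [mul_pow] at h5
    calc 17 / 16 * (2 : ℝ) ^ (γ ^ (m + 3)) ≤ 17 / 16 * rh R γ m ^ 2 := by linarith
      _ ≤ s0 ^ 2 * rh R γ m ^ 2 := by
          apply mul_le_mul_of_nonneg_right _ (by positivity)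
          linarith
      _ ≤ 1 * h.sc.σ j ^ 2 := by linarith

theorem Pre.sb (h1 : 17 / 4 / s0 ^ 2 ≤ (2 : ℝ) ^ (-(γ ^ 2))) (h2 : (2 : ℝ) ^ (γ ^ 3) ≤ R ^ 2)
    {n k : ℕ} (hk : n ≤ k) : Sb ((2 : ℝ) ^ (-(γ ^ n))) (h.sc.P k) :=
  fun _ hx => (h.sc.supp_ball hx).trans (h.hi_small h1 h2 hk)

/-- The parameters of the solution. -/
structure Pre.Cf (p : Par) : Prop where
  L : ∀ n, p.Λ n = rh R γ n ^ α

theorem Pre.PL_eq' {p : Par} (hp : Pre.Cf (R := R) (γ := γ) (α := α) p) (n : ℕ) :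
    p.PL n = (h.sc.σ n / s0) ^ (α * γ) := by
  rw [← h.PL_eq]
  unfold Par.PL
  apply Finset.prod_congr rfl
  intro i _
  exact hp.L _

/-- Upper bound of the coefficients. -/
theorem Pre.cof_up {p : Par} (hp : Pre.Cf (R := R) (γ := γ) (α := α) p) {Tb : ℝ}
    {A : ℕ → ℝ → ℝ} (S : Sol p Tb A) (n : ℕ) {t : ℝ} (ht : t ∈ Ico 0 Tb) :
    |h.sc.cof A (n + 1) t| ≤ Kq * p.a0 * (8 ^ n * h.sc.σ n ^ (α * γ - 5)) := by
  have hσ := h.sc.σ_pos n
  have hs := h.s0_pos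
  have hβ := β0_pos
  have ha0 := p.ha0
  have h1 := S.upp n t ht
  have h2 := S.nonneg (n + 1) t ht
  have h3 := h.sc.kap_pos n
  unfold Sc.cof
  rw [abs_of_nonneg (mul_nonneg h3.le h2)]
  rw [h.PL_eq' hp] at h1
  have hag : 0 < α * γ := mul_pos h.hα (by linarith [h.hγ])
  have h4 : (h.sc.σ n / s0) ^ (α * γ) ≤ h.sc.σ n ^ (α * γ) := by
    apply Real.rpow_le_rpow (by positivity) _ hag.le
    exact div_le_self hσ.le h.hs
  have h5 : h.sc.kap (n + 1) ≤ Kq * h.sc.σ n ^ (-5 : ℝ) := by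
    rw [h.sc.kap_succ, Real.rpow_neg hσ.le]
    have e : Kq * (h.sc.σ n ^ (5 : ℝ))⁻¹ = Nup / (h.sc.σ n ^ 5 * β0) := by
      unfold Kq
      have : h.sc.σ n ^ (5 : ℝ) = h.sc.σ n ^ (5 : ℕ) := by norm_cast
      rw [this]
      field_simp
    rw [e]
    exact div_le_div_of_nonneg_right (h.sc.nn_up (n + 1)) (by positivity)
  have hK := Kq_pos h.sc
  calc h.sc.kap (n + 1) * A (n + 1) t
      ≤ (Kq * h.sc.σ n ^ (-5 : ℝ)) * (p.a0 * (8 ^ n * h.sc.σ n ^ (α * γ))) := by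
        apply mul_le_mul h5 _ h2 (by positivity)
        refine h1.trans (mul_le_mul_of_nonneg_left ?_ ha0.le)
        exact mul_le_mul_of_nonneg_left h4 (by positivity)
    _ = Kq * p.a0 * (8 ^ n * (h.sc.σ n ^ (α * γ) * h.sc.σ n ^ (-5 : ℝ))) := by ring
    _ = _ := by
        rw [← Real.rpow_add hσ]
        rfl

/-- Lower bound of the coefficients. -/
theorem Pre.cof_low {p : Par} (hp : Pre.Cf (R := R) (γ := γ) (α := α) p) {A : ℕ → ℝ → ℝ} {n : ℕ}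
    {t : ℝ} (hA : p.a0 / 2 * (1.5 ^ n * p.PL n) ≤ A (n + 1) t) :
    p.a0 / 2 * (1.5 ^ n * (h.sc.σ n / s0) ^ (α * γ)) / h.sc.σ n ^ 5 ≤ h.sc.cof A (n + 1) t := by
  have hσ := h.sc.σ_pos n
  have hs := h.s0_pos
  have hβ := β0_pos
  have ha0 := p.ha0
  rw [h.PL_eq' hp] at hA
  have h0 : 0 < p.a0 / 2 * (1.5 ^ n * (h.sc.σ n / s0) ^ (α * γ)) := by positivity
  have h5 : 1 / h.sc.σ n ^ 5 ≤ h.sc.kap (n + 1) := by
    rw [h.sc.kap_succ, div_le_div_iff₀ (by positivity) (by positivity)]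
    have := h.sc.nn_low (n + 1)
    have h6 : 0 < h.sc.σ n ^ 5 := by positivity
    nlinarith
  unfold Sc.cof
  rw [div_eq_inv_mul, ← one_div]
  exact mul_le_mul h5 hA h0.le (h.sc.kap_pos n).le

theorem mem_smul_bd {P : ℕ → V → V} (h0 : ∀ x, P 0 x = 0) {a : ℕ → ℝ} {v : V → V}
    (hm : Mem P a v) {x : V} {s C : ℝ}
    (hC : ∀ n, ‖x‖ ^ s * ‖a (n + 1) • P (n + 1) x‖ ≤ C * (1 / 2) ^ n) :
    ‖v x‖ * ‖x‖ ^ s ≤ C * 2 := by
  have h1 : HasSum (fun n => (‖x‖ ^ s) • (a (n + 1) • P (n + 1) x)) ((‖x‖ ^ s) • v x) :=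
    (shift_of_mem h0 hm x).const_smul _
  have h2 : HasSum (fun n : ℕ => C * (1 / 2) ^ n) (C * 2) := hasSum_geometric_two.mul_left C
  have h3 := h1.norm_le_of_bounded h2 (fun n => by
    rw [norm_smul, Real.norm_eq_abs, abs_of_nonneg (Real.rpow_nonneg (norm_nonneg _) _)]
    exact hC n)
  rw [norm_smul, Real.norm_eq_abs, abs_of_nonneg (Real.rpow_nonneg (norm_nonneg _) _)] at h3
  linarith

/-- Pointwise bound of the velocity. -/
theorem Pre.vel_bd {p : Par} (hp : Pre.Cf (R := R) (γ := γ) (α := α) p) (hw : PW p h.sc.σ)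
    {Tb : ℝ} {A : ℕ → ℝ → ℝ} (S : Sol p Tb A) {s : ℝ} (hs : 0 ≤ s)
    (h16 : 16 ≤ R ^ (2 * s - γ * (α * γ - 2))) :
    ∃ C, ∀ t ∈ Ico 0 Tb, ∀ x, ‖vel h.sc.P (h.sc.cof A) t x‖ * ‖x‖ ^ s ≤ C := by
  obtain ⟨C, hC0, hC⟩ := h.geo hs h16
  obtain ⟨B, hB0, hB⟩ := h.blk_bd
  have hK := Kq_pos h.sc
  have ha0 := p.ha0
  refine ⟨Kq * p.a0 * B * C * 2, fun t ht x => ?_⟩
  apply mem_smul_bd h.sc.chn.zero (vel_mem hw.wg h.sc.bv (Sc.cof_ts hw S) ht)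
  intro n
  by_cases hx : h.sc.P (n + 1) x = 0
  · rw [hx, smul_zero, norm_zero, mul_zero]
    positivity
  · have hσ := h.sc.σ_pos n
    have h1 := hC n x (h.sc.supp_ball hx)
    have h2 := h.cof_up hp S n ht
    have h3 := hB n x
    have hxs : 0 ≤ ‖x‖ ^ s := Real.rpow_nonneg (norm_nonneg _) _
    rw [norm_smul, Real.norm_eq_abs]
    calc ‖x‖ ^ s * (|h.sc.cof A (n + 1) t| * ‖h.sc.P (n + 1) x‖)
        ≤ ‖x‖ ^ s * ((Kq * p.a0 * (8 ^ n * h.sc.σ n ^ (α * γ - 5))) * (h.sc.σ n ^ 3 * B)) := by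
          apply mul_le_mul_of_nonneg_left _ hxs
          exact mul_le_mul h2 h3 (norm_nonneg _) (by positivity)
      _ = Kq * p.a0 * B * (8 ^ n * (h.sc.σ n ^ (α * γ - 5) * h.sc.σ n ^ (3 : ℕ)) * ‖x‖ ^ s) := by
          ring
      _ = Kq * p.a0 * B * (8 ^ n * h.sc.σ n ^ (α * γ - 2) * ‖x‖ ^ s) := by
          rw [← Real.rpow_natCast (h.sc.σ n) 3, ← Real.rpow_add hσ]
          congr 4
          push_cast
          ring
      _ ≤ Kq * p.a0 * B * (C * (1 / 2) ^ n) := mul_le_mul_of_nonneg_left h1 (by positivity)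
      _ = _ := by ring

end

end Pool.Agent.Run7.h407.G
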