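import Mathlib
import Pool.Agent.Run7.h407.G.Sup

/-!
The Navier-Stokes equations: assembly.
-/

namespace Pool.Agent.Run7.h407.G

open Set Filter Topology MeasureTheory
open scoped ContDiff

/-- There are data of the scales. -/
theorem exists_pre {α γ : ℝ} (hα : 0 < α) (hγ : 1 < γ) (h5 : α * γ < 5) {η : ℝ} (hη : 0 < η)
    {s0 : ℝ} (hs : 1 ≤ s0) :
    ∃ R : ℝ, Pre α γ s0 R ∧ 16 ≤ R ^ η ∧ (2 : ℝ) ^ (γ ^ 3) ≤ R ^ 2 := by
  obtain ⟨X, hX⟩ := (cnd_eventually hα h5).exists_forall_of_atTop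
  have h1 : ∀ᶠ x : ℝ in atTop, 16 ≤ x ^ η := (tendsto_rpow_atTop hη).eventually_ge_atTop _
  have h2 : ∀ᶠ x : ℝ in atTop, (2 : ℝ) ^ (γ ^ 3) ≤ x ^ 2 :=
    (tendsto_pow_atTop (by norm_num)).eventually_ge_atTop _
  obtain ⟨R, ⟨⟨a1, a2⟩, a3⟩, a4⟩ := (((h1.and h2).and (eventually_ge_atTop X)).and
    (eventually_ge_atTop 100)).exists
  exact ⟨R, ⟨hα, hγ, hs, a4, fun x hx => hX x (a3.trans hx)⟩, a1, a2⟩

theorem mainNS (δ q : ℝ) (hq : 1 < q) (hq1 : q < 5 / 4) (hq2 : q ≤ 1 + δ / 4) :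
    ∃ (p : ℕ → V → V) (g : ℕ → Fin 3 → V → V),
    (∀ n, ContDiff ℝ ∞ (p n) ∧ HasCompactSupport (p n) ∧ (∀ x, dvg (p n) x = 0) ∧
      0 < ip (p n) (p n)) ∧
    (∀ m n, m ≠ n → ip (p m) (p n) = 0 ∧ Dir (p m) (p n) = 0) ∧
    (∀ n i, ContDiff ℝ ∞ (g n i) ∧ (∀ᶠ x in 𝓝 0, g n i x = 0) ∧
      ∀ x, g n i x ≠ 0 → ‖x‖ ≤ (2 : ℝ) ^ (-(q ^ n))) ∧
    (∃ W : Submodule ℝ (V → V), IsSpG p g W ∧ ∀ w, w ∈ W ↔ L2F w ∧ WDF w ∧
      ∀ (n : ℕ) (i : Fin 3), ip w (g n i) = 0) ∧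
    ∃ A₀ : ℝ, 0 < A₀ ∧ ∀ ν ≥ 0, ∀ a > 0, A₀ * ν ≤ a →
      ∃ T, 0 < T ∧ T ≤ A₀ / a ∧ ∃ u : ℝ → V → V,
        (∀ x, u 0 x = a • p 0 x) ∧
        (∀ t ∈ Ico 0 T, ∀ x, 1 < ‖x‖ → u t x = 0) ∧
        (∃ C, ∀ t ∈ Ico 0 T, ∀ x, ‖u t x‖ * ‖x‖ ^ (1 + δ) ≤ C) ∧
        Tendsto (fun t => ∫ x, ‖u t x‖ ^ 3) (𝓝[<] T) atTop ∧
        (∀ M, ∀ᶠ t in 𝓝[<] T, ∃ x, M < ‖u t x‖) ∧
        ∀ W : Submodule ℝ (V → V), IsSpG p g W → IsProj W ν T u ∧
          ∀ (T' : ℝ) (w : ℝ → V → V), IsProj W ν T' w → (∀ x, w 0 x = a • p 0 x) →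
            T' ≤ T ∧ ∀ t ∈ Ico 0 T', w t = u t := by
  have hη : 0 < 2 * (1 + δ) - q * (4 * q - 2) := by nlinarith
  obtain ⟨R, h, h16, h2q⟩ := exists_pre (α := 4) (γ := q) (by norm_num) hq (by linarith) hη
    (s0 := 10) (by norm_num)
  have hR := h.R_pos
  have hβ := β0_pos
  have hsup : 17 / 4 / (10 : ℝ) ^ 2 ≤ (2 : ℝ) ^ (-(q ^ 2)) := by
    have h1 : (2 : ℝ) ^ (-2 : ℝ) ≤ (2 : ℝ) ^ (-(q ^ 2)) := by
      apply Real.rpow_le_rpow_of_exponent_le (by norm_num)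
      nlinarith
    have h2 : (2 : ℝ) ^ (-2 : ℝ) = 1 / 4 := by
      rw [Real.rpow_neg (by norm_num)]
      norm_num
    rw [h2] at h1
    linarith
  have hsb : ∀ {n k : ℕ}, n ≤ k → Sb ((2 : ℝ) ^ (-(q ^ n))) (h.sc.P k) :=
    fun hk => h.sb hsup h2q hk
  have hG : ∀ n i, L2F (G3 h.sc.P n i) := fun n i => (G3_CF h.sc.chn n i).l2
  set κ := h.sc.kap 1 with hκdef
  have hκ : 0 < κ := h.sc.kap_pos 0
  have hD : 0 ≤ Dup := by
    have a3 := h.sc.dd_up 0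
    have b1 := h.sc.σ_pos 0
    have b4 := h.sc.dd_low 0
    have hS := S0_pos
    have b5 : 0 < h.sc.σ 0 ^ 4 * S0 := by positivity
    by_contra hcon
    push Not at hcon
    nlinarith [pow_pos b1 4]
  refine ⟨fun n => h.sc.P (n + 1), G3 h.sc.P, fun n => ?_, fun m n hmn => ?_, fun n i => ?_,
    ⟨WmaxG (G3 h.sc.P) hG, WmaxG_isSp h.sc.chn hG, fun w => Iff.rfl⟩, ?_⟩
  · exact ⟨(h.sc.chn.cf _).sm, (h.sc.chn.cf _).cs, h.sc.chn.dv _, h.sc.chn.N0 n⟩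
  · exact h.sc.chn.orth (by omega)
  · refine ⟨(G3_CF h.sc.chn n i).sm, ?_, ?_⟩
    · obtain ⟨b, hb, hz⟩ := G3_aw h.sc.chn n i
      filter_upwards [nhds_lt (show (0 : V) 0 < b from hb)] with y hy
      exact hz y hy
    · fin_cases i
      · exact sb_A (hsb le_rfl) (hsb (by omega)) (hsb (by omega))
      · exact sb_B (hsb (by omega)) (hsb (by omega))
      · exact sb_C (hsb (by omega))
  set A1 : ℝ := κ * (200 * ((10 * R) ^ 4 * Dup / β0)) with hA1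
  set A2 : ℝ := 9 * R ^ 4 * κ with hA2
  have hA1p : 0 ≤ A1 := by positivity
  have hA2p : 0 < A2 := by positivity
  refine ⟨A1 + A2, by positivity, ?_⟩
  intro ν hν a ha haν
  have ha0 : 0 < a / κ := by positivity
  have hdis : 200 * (ν * ((10 * R) ^ 4 * Dup) / β0) ≤ a / κ := by
    rw [le_div_iff₀ hκ]
    have h1 : 0 ≤ A2 * ν := by positivity
    have h2 : 200 * (ν * ((10 * R) ^ 4 * Dup) / β0) * κ = A1 * ν := by
      rw [hA1]
      ring
    rw [h2]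
    linarith
  have hpow : ∀ x : ℝ, x ^ (4 : ℝ) = x ^ (4 : ℕ) := fun x => by norm_cast
  have hσ0 : h.sc.σ 0 = 10 := h.sc.σ_zero
  have hd1 : 200 * (ν * (h.sc.σ 0 ^ 4 * Dup) / β0) * R ^ (4 : ℝ) ≤ a / κ := by
    refine le_trans (le_of_eq ?_) hdis
    rw [hσ0, hpow]
    ring
  have hσk : ∀ k, h.sc.σ (k + 1) = (10 * R) * ∏ i ∈ Finset.range k, rh R q (i + 1) := by
    intro k
    rw [h.σ_eq, Finset.prod_range_succ', rh_zero]
    ring
  have hd2 : ∀ k, 200 * (ν * (h.sc.σ (k + 1) ^ 4 * Dup) / β0)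
      ≤ a / κ * ∏ i ∈ Finset.range k, rh R q (i + 1) ^ (4 : ℝ) := by
    intro k
    have e1 : ∏ i ∈ Finset.range k, rh R q (i + 1) ^ (4 : ℝ)
        = (∏ i ∈ Finset.range k, rh R q (i + 1)) ^ 4 := by
      rw [← Finset.prod_pow]
      apply Finset.prod_congr rfl
      intro i _
      exact hpow _
    have e2 : 200 * (ν * (h.sc.σ (k + 1) ^ 4 * Dup) / β0)
        = 200 * (ν * ((10 * R) ^ 4 * Dup) / β0) * (∏ i ∈ Finset.range k, rh R q (i + 1)) ^ 4 := by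
      rw [hσk, mul_pow]
      ring
    rw [e1, e2]
    exact mul_le_mul_of_nonneg_right hdis (by positivity)
  set p := h.par hν ha0 hd1 hd2 with hp
  have hcf : Pre.Cf (R := R) (γ := q) (α := 4) p := ⟨fun n => rfl⟩
  have hfit := h.fit hν ha0 hd1 hd2
  have hw := h.pw hν ha0 hd1 hd2
  obtain ⟨Tb, A, S⟩ := exists_sol p hw.e0
  have hT := Sc.vel_TF hw S
  have hinit : ∀ x, vel h.sc.P (h.sc.cof A) 0 x = a • h.sc.P 1 x := by
    intro x
    rw [h.sc.vel_init S x]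
    congr 1
    show κ * (a / κ) = a
    field_simp
  have hcub : Tendsto (fun t => ∫ x, ‖vel h.sc.P (h.sc.cof A) t x‖ ^ 3) (𝓝[<] Tb) atTop := by
    have hm0 := sm0_pos
    have ht : Tendsto (fun n : ℕ => (a / κ / 2 / 10 ^ (4 * q)) * (1.5 : ℝ) ^ n) atTop atTop := by
      apply Tendsto.const_mul_atTop (by positivity)
      exact tendsto_pow_atTop_atTop_of_one_lt (by norm_num)
    have ht3 : Tendsto (fun n : ℕ => ((a / κ / 2 / 10 ^ (4 * q)) * (1.5 : ℝ) ^ n) ^ 3 * sm0)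
        atTop atTop :=
      ((tendsto_pow_atTop (by norm_num)).comp ht).atTop_mul_const hm0
    rw [tendsto_atTop]
    intro M
    obtain ⟨n, hn⟩ := (ht3.eventually_ge_atTop M).exists
    obtain ⟨σ, h0, h1, h2⟩ := S.low n
    filter_upwards [Ioo_mem_nhdsLT h1] with t ht
    have htm : t ∈ Ico 0 Tb := ⟨h0.trans ht.1.le, ht.2⟩
    refine hn.trans ?_
    refine le_trans ?_ (h.sc.cubic_lower (vel_mem hw.wg h.sc.bv (Sc.cof_ts hw S) htm)
      (hT.slice_CF htm) n)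
    apply mul_le_mul_of_nonneg_right _ hm0.le
    apply pow_le_pow_left₀ (by positivity)
    have hlow := h.cof_low hcf (h2 t ht)
    have hσ := h.sc.σ_pos n
    have hσ1 := h.sc.σ_one n
    refine le_trans ?_ (mul_le_mul_of_nonneg_right (hlow.trans (le_abs_self _)) hσ.le)
    have e0 : p.a0 = a / κ := rfl
    rw [e0]
    have e1 : (h.sc.σ n / 10) ^ (4 * q) = h.sc.σ n ^ (4 * q) / 10 ^ (4 * q) :=
      Real.div_rpow hσ.le (by norm_num) _
    rw [e1]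
    have e2 : h.sc.σ n ^ 4 ≤ h.sc.σ n ^ (4 * q) := by
      rw [← Real.rpow_natCast]
      apply Real.rpow_le_rpow_of_exponent_le hσ1
      push_cast
      linarith
    have e3 : a / κ / 2 * (1.5 ^ n * (h.sc.σ n ^ (4 * q) / 10 ^ (4 * q))) / h.sc.σ n ^ 5
        * h.sc.σ n = (a / κ / 2 / 10 ^ (4 * q)) * 1.5 ^ n * (h.sc.σ n ^ (4 * q) / h.sc.σ n ^ 4) := by
      field_simp
    rw [e3]
    have e4 : 1 ≤ h.sc.σ n ^ (4 * q) / h.sc.σ n ^ 4 := by
      rw [one_le_div (by positivity)]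
      exact e2
    have e5 : 0 < (a / κ / 2 / 10 ^ (4 * q)) * (1.5 : ℝ) ^ n := by positivity
    nlinarith
  have hsupv : ∀ M, ∀ᶠ t in 𝓝[<] Tb, ∃ x, M < ‖vel h.sc.P (h.sc.cof A) t x‖ := by
    intro M
    have h2 := hcub.eventually_gt_atTop
      (|M| ^ 3 * (volume : Measure V).real (Metric.closedBall 0 (17 / 4)))
    filter_upwards [h2, Ioo_mem_nhdsLT S.Tpos] with t ht htI
    by_contra hcon
    push Not at hcon
    have htm : t ∈ Ico 0 Tb := ⟨htI.1.le, htI.2⟩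
    have h3 : ∫ x, ‖vel h.sc.P (h.sc.cof A) t x‖ ^ 3
        ≤ ∫ x, (Metric.closedBall (0 : V) (17 / 4)).indicator (fun _ => |M| ^ 3) x := by
      apply integral_mono_of_nonneg
      · exact Eventually.of_forall fun x => by positivity
      · rw [integrable_indicator_iff measurableSet_closedBall]
        exact integrableOn_const (isCompact_closedBall (0 : V) (17 / 4)).measure_ne_top
      · apply Eventually.of_forall
        intro x
        by_cases hx : x ∈ Metric.closedBall (0 : V) (17 / 4)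
        · rw [indicator_of_mem hx]
          exact pow_le_pow_left₀ (norm_nonneg _) ((hcon x).trans (le_abs_self M)) 3
        · rw [indicator_of_notMem hx]
          have h4 : vel h.sc.P (h.sc.cof A) t x = 0 := by
            apply hT.sp t htm x
            rw [mem_closedBall_zero_iff, not_le] at hx
            exact hx
          show ‖vel h.sc.P (h.sc.cof A) t x‖ ^ 3 ≤ 0
          rw [h4]
          simp
    rw [integral_indicator measurableSet_closedBall, setIntegral_const, smul_eq_mul] at h3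
    linarith
  refine ⟨Tb, S.Tpos, ?_, vel h.sc.P (h.sc.cof A), hinit, fun t ht x hx => ?_,
    h.vel_bd hcf hw S (by linarith) (by
      have e : 2 * (1 + δ) - q * (4 * q - 2) = 2 * (1 + δ) - q * (4 * q - 2) := rfl
      exact h16),
    hcub, hsupv, fun W hW => ⟨Sc.vel_isProj hfit hw S hW, fun T' w hw' h0 => ?_⟩⟩
  · refine S.Tle.trans ?_
    show 9 * rh R q 0 ^ (4 : ℝ) / (a / κ) ≤ (A1 + A2) / a
    rw [rh_zero, hpow]
    have e : 9 * R ^ 4 / (a / κ) = A2 / a := by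
      rw [hA2]
      field_simp
    rw [e]
    apply div_le_div_of_nonneg_right _ ha.le
    linarith
  · apply mem_ball (R := 1) _ (vel_mem hw.wg h.sc.bv (Sc.cof_ts hw S) ht) hx
    intro j y hy
    have h1 : ‖y‖ ≤ 17 / 4 / 10 ^ 2 := (h.sc.supp_ball hy).trans (h.hi_le0 j)
    have h2 : (17 : ℝ) / 4 / 10 ^ 2 ≤ 1 := by norm_num
    exact h1.trans h2
  · exact Sc.vel_max hfit hw S hν hW hsupv hw' fun x => by rw [h0, hinit]

end Pool.Agent.Run7.h407.G
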