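import Mathlib
import Pool.Agent.Run7.h407.G.Sup

/-!
Gradient and vorticity of the velocity field.
-/

namespace Pool.Agent.Run7.h407.G

open Set Filter Topology MeasureTheory
open scoped ContDiff

theorem pd_field_zero {u : V → V} {x : V} (h : ∀ᶠ y in 𝓝 x, u y = 0) (i j : Fin 3) :
    pd j (fun y => u y i) x = 0 := by
  have : (fun y => u y i) =ᶠ[𝓝 x] fun _ => (0 : ℝ) := by
    filter_upwards [h] with y hy
    rw [hy]
    rfl
  rw [pd_congr this, pd_const]

section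

variable {α γ s0 R : ℝ} (h : Pre α γ s0 R)

theorem pd_fsum {K : ℕ} {u : ℕ → V → V} (hu : ∀ n, CF (u n)) (c : ℕ → ℝ) (x : V) (i j : Fin 3) :
    pd j (fun y => (∑ n ∈ Finset.range K, c n • u n y) i) x
      = ∑ n ∈ Finset.range K, c n * pd j (fun y => u n y i) x := by
  have e : (fun y => (∑ n ∈ Finset.range K, c n • u n y) i)
      = fun y => ∑ n ∈ Finset.range K, c n * u n y i := by
    funext y
    rw [Finset.sum_apply]
    rfl
  rw [e, pd_sum (fun n _ => ((contDiff_const.mul ((hu n).smc i)).differentiable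
      (by simp) x : DifferentiableAt ℝ (fun y => c n * u n y i) x))]
  apply Finset.sum_congr rfl
  intro n _
  exact pd_const_mul _ (((hu n).smc i).diff x) j

/-- Pointwise bound of the gradient. -/
theorem Pre.grad_bd {p : Par} (hp : Pre.Cf (R := R) (γ := γ) (α := α) p) (hw : PW p h.sc.σ)
    {Tb : ℝ} {A : ℕ → ℝ → ℝ} (S : Sol p Tb A) {s : ℝ} (hs : 0 ≤ s)
    (h16 : 16 ≤ R ^ (2 * s - γ * (α * γ))) :
    ∃ C, ∀ t ∈ Ico 0 Tb, ∀ x i j,
      |pd j (fun y => vel h.sc.P (h.sc.cof A) t y i) x| * ‖x‖ ^ s ≤ C := by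
  obtain ⟨C, hC0, hC⟩ := h.geo hs h16
  obtain ⟨B, hB0, hB⟩ := h.blk_grad
  have hK := Kq_pos h.sc
  have ha0 := p.ha0
  have hT := Sc.vel_TF hw S
  refine ⟨Kq * p.a0 * B * C * 2, fun t ht x i j => ?_⟩
  have hm := vel_mem hw.wg h.sc.bv (Sc.cof_ts hw S) ht
  have hv := hT.slice_CF ht
  -- away from the plane
  have key : ∀ x : V, x 0 ≠ 0 →
      |pd j (fun y => vel h.sc.P (h.sc.cof A) t y i) x| * ‖x‖ ^ s ≤ Kq * p.a0 * B * C * 2 := by
    intro x hx
    obtain ⟨K, hK'⟩ := mem_rep h.sc.chn hm hx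
    have e : (fun y => vel h.sc.P (h.sc.cof A) t y i)
        =ᶠ[𝓝 x] fun y => (∑ n ∈ Finset.range K, h.sc.cof A n t • h.sc.P n y) i := by
      filter_upwards [hK'] with y hy
      rw [hy]
    have hxs : 0 ≤ ‖x‖ ^ s := Real.rpow_nonneg (norm_nonneg _) _
    rw [pd_congr e, pd_fsum h.sc.chn.cf]
    have hterm : ∀ n, |h.sc.cof A (n + 1) t * pd j (fun y => h.sc.P (n + 1) y i) x| * ‖x‖ ^ s
        ≤ Kq * p.a0 * B * C * (1 / 2) ^ n := by
      intro n
      rcases le_or_gt ‖x‖ (h.sc.hi (n + 1)) with hle | hgt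
      · have hσ := h.sc.σ_pos n
        have h1 := hC n x hle
        have h2 := h.cof_up hp S n ht
        have h3 := hB n x i j
        rw [abs_mul]
        calc |h.sc.cof A (n + 1) t| * |pd j (fun y => h.sc.P (n + 1) y i) x| * ‖x‖ ^ s
            ≤ (Kq * p.a0 * (8 ^ n * h.sc.σ n ^ (α * γ - 5))) * (h.sc.σ n ^ 5 * B) * ‖x‖ ^ s := by
              apply mul_le_mul_of_nonneg_right _ hxs
              exact mul_le_mul h2 h3 (abs_nonneg _) (by positivity)
          _ = Kq * p.a0 * B * (8 ^ n * (h.sc.σ n ^ (α * γ - 5) * h.sc.σ n ^ (5 : ℕ))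
              * ‖x‖ ^ s) := by ring
          _ = Kq * p.a0 * B * (8 ^ n * h.sc.σ n ^ (α * γ) * ‖x‖ ^ s) := by
              rw [← Real.rpow_natCast (h.sc.σ n) 5, ← Real.rpow_add hσ]
              congr 4
              push_cast
              ring
          _ ≤ Kq * p.a0 * B * (C * (1 / 2) ^ n) := mul_le_mul_of_nonneg_left h1 (by positivity)
          _ = _ := by ring
      · have hz : ∀ᶠ y in 𝓝 x, h.sc.P (n + 1) y = 0 :=
          closure_ball (fun y hy => h.sc.supp_ball hy) hgt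
        rw [pd_field_zero hz, mul_zero, abs_zero, zero_mul]
        positivity
    have hzero : h.sc.cof A 0 t * pd j (fun y => h.sc.P 0 y i) x = 0 := by
      have : pd j (fun y => h.sc.P 0 y i) x = 0 := pd_const 0 x j
      rw [this, mul_zero]
    have hK0 : ∀ K : ℕ, |∑ n ∈ Finset.range (K + 1), h.sc.cof A n t * pd j (fun y => h.sc.P n y i) x|
        * ‖x‖ ^ s ≤ Kq * p.a0 * B * C * 2 := by
      intro K
      rw [Finset.sum_range_succ', hzero, add_zero]
      calc |∑ n ∈ Finset.range K, h.sc.cof A (n + 1) t * pd j (fun y => h.sc.P (n + 1) y i) x|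
            * ‖x‖ ^ s
          ≤ (∑ n ∈ Finset.range K,
            |h.sc.cof A (n + 1) t * pd j (fun y => h.sc.P (n + 1) y i) x|) * ‖x‖ ^ s :=
            mul_le_mul_of_nonneg_right (Finset.abs_sum_le_sum_abs _ _) hxs
        _ = ∑ n ∈ Finset.range K,
            |h.sc.cof A (n + 1) t * pd j (fun y => h.sc.P (n + 1) y i) x| * ‖x‖ ^ s := by
            rw [Finset.sum_mul]
        _ ≤ ∑ n ∈ Finset.range K, Kq * p.a0 * B * C * (1 / 2) ^ n :=
            Finset.sum_le_sum fun n _ => hterm n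
        _ = Kq * p.a0 * B * C * ∑ n ∈ Finset.range K, (1 / 2 : ℝ) ^ n := by
            rw [Finset.mul_sum]
        _ ≤ Kq * p.a0 * B * C * 2 := by
            apply mul_le_mul_of_nonneg_left _ (by positivity)
            have h5 := (hasSum_geometric_two).summable.sum_le_tsum (Finset.range K)
              (fun n _ => by positivity)
            rw [tsum_geometric_two] at h5
            exact h5
    cases K with
    | zero =>
      rw [Finset.range_zero, Finset.sum_empty, abs_zero, zero_mul]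
      positivity
    | succ K => exact hK0 K
  by_cases hx : x 0 = 0
  · have hc : Continuous (fun x => |pd j (fun y => vel h.sc.P (h.sc.cof A) t y i) x| * ‖x‖ ^ s) :=
      (((hv.smc i).pd j).continuous.abs).mul (continuous_norm.rpow_const fun _ => Or.inr hs)
    have hl : Continuous (fun τ : ℝ => x + τ • (Pi.single 0 1 : V)) := by fun_prop
    have h1 := ((hc.comp hl).tendsto 0).mono_left (nhdsWithin_le_nhds (s := {0}ᶜ))
    have h2 : ∀ᶠ τ : ℝ in 𝓝[≠] 0, ((fun x => |pd j (fun y => vel h.sc.P (h.sc.cof A) t y i) x|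
        * ‖x‖ ^ s) ∘ fun τ : ℝ => x + τ • (Pi.single 0 1 : V)) τ ≤ Kq * p.a0 * B * C * 2 := by
      filter_upwards [self_mem_nhdsWithin] with τ hτ
      apply key
      simp only [Pi.add_apply, Pi.smul_apply, Pi.single_eq_same, smul_eq_mul, mul_one]
      rw [hx, zero_add]
      exact hτ
    have h3 := le_of_tendsto h1 h2
    simpa using h3
  · exact key x hx

/-- The third component of the curl. -/
noncomputable def curl2 (u : V → V) (x : V) : ℝ :=
  pd 0 (fun y => u y 1) x - pd 1 (fun y => u y 0) x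

/-- The centres of the swirls. -/
noncomputable def Pre.xc (m : ℕ) : V := (h.sc.σ m ^ 2)⁻¹ • e1

theorem Pre.xc_smul (m : ℕ) : h.sc.σ m ^ 2 • h.xc m = e1 := by
  unfold Pre.xc
  have := h.sc.σ_pos m
  rw [smul_smul, mul_inv_cancel₀ (by positivity), one_smul]

theorem Pre.xc_zero (m : ℕ) : h.sc.σ m ^ 2 * h.xc m 0 = 1 := by
  have h1 := congrFun (h.xc_smul m) 0
  rw [e1_zero] at h1
  exact h1

theorem Pre.xc_norm (m : ℕ) : ‖h.xc m‖ ≤ 1 := by
  unfold Pre.xc
  rw [norm_smul, norm_e1, mul_one, Real.norm_eq_abs]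
  have h1 : 1 ≤ h.sc.σ m ^ 2 := one_le_pow₀ (h.sc.σ_one m)
  rw [abs_of_pos (by positivity)]
  exact inv_le_one_of_one_le₀ h1

theorem Pre.near_xc (m : ℕ) : ∀ᶠ y in 𝓝 (h.xc m), ∀ k, k ≠ m + 1 → k ≠ m + 2 →
    h.sc.P k y = 0 := by
  have hcont : Continuous (fun y : V => h.sc.σ m ^ 2 * y 0) :=
    continuous_const.mul (continuous_apply 0)
  have h3 : ∀ᶠ y in 𝓝 (h.xc m), 1 / 2 < h.sc.σ m ^ 2 * y 0 ∧ h.sc.σ m ^ 2 * y 0 < 2 :=
    (hcont.tendsto _).eventually (Ioo_mem_nhds (by rw [h.xc_zero]; norm_num)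
      (by rw [h.xc_zero]; norm_num))
  filter_upwards [h3] with y hy k hk1 hk2
  have hm := h.sc.σ_pos m
  have hy0 : 0 < y 0 := by
    by_contra hcon
    push Not at hcon
    nlinarith [pow_pos hm 2, hy.1]
  cases k with
  | zero => rfl
  | succ l =>
    by_contra hcon
    have h4 := h.sc.blk_supp hcon
    rcases lt_or_ge l m with hlt | hge
    · have h5 := h.sc.σ_sq hlt
      nlinarith [h4.1, hy.2]
    · obtain ⟨k, rfl⟩ : ∃ k, l = k + 1 := ⟨l - 1, by omega⟩
      have h5 := (h.sc.chn.supp _ _ hcon).2.trans (h.sc.hi_le k)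
      have h6 := h.sc.σ_sq (show m < k by omega)
      have h7 := h.sc.σ_pos k
      rw [le_div_iff₀ (by positivity)] at h5
      nlinarith [hy.1]

theorem chi_near {y : V} (hy : s2 y < 1 / 32) : ∀ᶠ z in 𝓝 y, chi z = 1 := by
  have : {z : V | s2 z < 1 / 32} ∈ 𝓝 y :=
    (isOpen_lt s2_sm.continuous continuous_const).mem_nhds hy
  filter_upwards [this] with z hz
  exact chi_one (le_of_lt hz)

theorem s2_zero : s2 (0 : V) = 0 := by
  unfold s2
  simp

theorem hc_near (μ : ℝ) : ∀ᶠ w in 𝓝 (0 : V), hc μ w = μ ^ 5 := by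
  have h1 : Tendsto (fun w : V => μ ^ 2 • w) (𝓝 0) (𝓝 0) := by
    have : Continuous (fun w : V => μ ^ 2 • w) := by fun_prop
    have h2 := this.tendsto 0
    rwa [smul_zero] at h2
  filter_upwards [h1.eventually (chi_near (y := 0) (by rw [s2_zero]; norm_num))] with w hw
  unfold hc
  rw [hw, mul_one]

/-- Near the child place the parent is a linear strain. -/
theorem psi3_near {r μ : ℝ} (hr : 2 ≤ r) (δ : ℝ) : ∀ᶠ y in 𝓝 e1,
    psi3 r μ δ y = ![-((y - e1) 0), -((y - e1) 1), 2 * (y - e1) 2 + 1] := by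
  have h1 : ∀ᶠ w in 𝓝 (0 : V), par δ (hc μ) Gp w = ![-(w 0), -(w 1), 2 * w 2 + 1] := by
    have h2 := str_near (Gp_loc (y := (0 : V)) (by rw [s2_zero]; norm_num))
    have h3 := (hc_near μ).eventually_nhds
    filter_upwards [h2, h3] with w hw1 hw2
    have h6 : sw (pd 2 (hc μ)) w = 0 := by
      have h7 : pd 2 (hc μ) w = 0 := by
        have : hc μ =ᶠ[𝓝 w] fun _ => μ ^ 5 := hw2
        rw [pd_congr this, pd_const]
      unfold sw
      rw [h7]
      funext i
      fin_cases i <;> simp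
    unfold par
    rw [hw1, h6, smul_zero, add_zero]
  have h4 : Tendsto (fun y : V => y - e1) (𝓝 e1) (𝓝 0) := by
    have : Continuous (fun y : V => y - e1) := by fun_prop
    have h5 := this.tendsto e1
    rwa [sub_self] at h5
  have h6 : ∀ᶠ y in 𝓝 e1, y 0 < 2 := nhds_lt (by rw [e1_zero]; norm_num)
  filter_upwards [h4.eventually h1, h6] with y hy1 hy2
  rw [psi3_left hr δ hy2, hy1]

/-- Near the child place the child is a rigid rotation. -/
theorem dil3_near {μ μ' : ℝ} (hμ : 2 ≤ μ) (hμ' : 2 ≤ μ') (δ' : ℝ) : ∀ᶠ y in 𝓝 e1,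
    dil μ (psi3 μ μ' δ') y = ![-((y - e1) 1) * μ ^ 5, (y - e1) 0 * μ ^ 5, 0] := by
  have h4 : Tendsto (fun y : V => y - e1) (𝓝 e1) (𝓝 0) := by
    have : Continuous (fun y : V => y - e1) := by fun_prop
    have h5 := this.tendsto e1
    rwa [sub_self] at h5
  have h6 : ∀ᶠ y in 𝓝 e1, 1 / 2 < y 0 := nhds_gt (by rw [e1_zero]; norm_num)
  filter_upwards [h4.eventually (hc_near μ), h6] with y hy1 hy2
  rw [dil3_right hμ hμ' δ' hy2]
  unfold sw
  rw [hy1]

theorem curl2_dil {u : V → V} (hu : ∀ i, Sm (fun y => u y i)) (s : ℝ) (x : V) :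
    curl2 (dil s u) x = s ^ 5 * curl2 u (s ^ 2 • x) := by
  unfold curl2
  rw [pd_dil hu, pd_dil hu]
  ring

theorem curl2_congr {u v : V → V} {x : V} (h : ∀ᶠ y in 𝓝 x, u y = v y) : curl2 u x = curl2 v x := by
  unfold curl2
  have h1 : ∀ i, (fun y => u y i) =ᶠ[𝓝 x] fun y => v y i := fun i => by
    filter_upwards [h] with y hy
    rw [hy]
  rw [pd_congr (h1 1), pd_congr (h1 0)]

theorem curl2_two {u v : V → V} (hu : CF u) (hv : CF v) (a b : ℝ) (x : V) :
    curl2 (fun y => a • u y + b • v y) x = a * curl2 u x + b * curl2 v x := by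
  unfold curl2
  have h1 : ∀ i j, pd j (fun y => (a • u y + b • v y) i) x
      = a * pd j (fun y => u y i) x + b * pd j (fun y => v y i) x := by
    intro i j
    have e : (fun y => (a • u y + b • v y) i) = fun y => a * u y i + b * v y i := rfl
    have d1 : DifferentiableAt ℝ (fun y => a * u y i) x :=
      (contDiff_const.mul (hu.smc i)).differentiable (by simp) x
    have d2 : DifferentiableAt ℝ (fun y => b * v y i) x :=
      (contDiff_const.mul (hv.smc i)).differentiable (by simp) x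
    rw [e, pd_add d1 d2, pd_const_mul _ ((hu.smc i).diff x), pd_const_mul _ ((hv.smc i).diff x)]
  rw [h1, h1]
  ring

theorem curl2_strain {r μ : ℝ} (hr : 2 ≤ r) (δ : ℝ) : curl2 (psi3 r μ δ) e1 = 0 := by
  have h1 : ∀ᶠ y in 𝓝 e1, psi3 r μ δ y
      = (fun y : V => (![-((y - e1) 0), -((y - e1) 1), 2 * (y - e1) 2 + 1] : V)) y :=
    psi3_near hr δ
  rw [curl2_congr h1]
  unfold curl2
  have e0 : (fun y : V => (![-((y - e1) 0), -((y - e1) 1), 2 * (y - e1) 2 + 1] : V) 1)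
      = fun y => -(y 1 - e1 1) := by
    funext y
    simp
  have e2 : (fun y : V => (![-((y - e1) 0), -((y - e1) 1), 2 * (y - e1) 2 + 1] : V) 0)
      = fun y => -(y 0 - e1 0) := by
    funext y
    simp
  rw [e0, e2, pd_neg, pd_neg, pd_sub ((coord_sm 1).diff _) (differentiableAt_const _),
    pd_sub ((coord_sm 0).diff _) (differentiableAt_const _), pd_coord, pd_coord, pd_const,
    pd_const]
  simp

theorem curl2_swirl {μ μ' : ℝ} (hμ : 2 ≤ μ) (hμ' : 2 ≤ μ') (δ' : ℝ) :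
    curl2 (dil μ (psi3 μ μ' δ')) e1 = 2 * μ ^ 5 := by
  have h1 : ∀ᶠ y in 𝓝 e1, dil μ (psi3 μ μ' δ') y
      = (fun y : V => (![-((y - e1) 1) * μ ^ 5, (y - e1) 0 * μ ^ 5, 0] : V)) y :=
    dil3_near hμ hμ' δ'
  rw [curl2_congr h1]
  unfold curl2
  have e0 : (fun y : V => (![-((y - e1) 1) * μ ^ 5, (y - e1) 0 * μ ^ 5, 0] : V) 1)
      = fun y => μ ^ 5 * (y 0 - e1 0) := by
    funext y
    simp
    ring
  have e2 : (fun y : V => (![-((y - e1) 1) * μ ^ 5, (y - e1) 0 * μ ^ 5, 0] : V) 0)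
      = fun y => -(μ ^ 5 * (y 1 - e1 1)) := by
    funext y
    simp
    ring
  have s1 : Sm (fun y : V => y 0 - e1 0) := (coord_sm 0).sub contDiff_const
  have s2 : Sm (fun y : V => y 1 - e1 1) := (coord_sm 1).sub contDiff_const
  rw [e0, e2, pd_neg, pd_const_mul _ (s1.diff _), pd_const_mul _ (s2.diff _),
    pd_sub ((coord_sm 1).diff _) (differentiableAt_const _),
    pd_sub ((coord_sm 0).diff _) (differentiableAt_const _), pd_coord, pd_coord, pd_const,
    pd_const]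
  simp
  ring

/-- The vorticity at the centres of the swirls. -/
theorem Pre.curl_xc {a : ℕ → ℝ} {v : V → V} (hm : Mem h.sc.P a v) (m : ℕ) :
    curl2 v (h.xc m) = 2 * a (m + 2) * h.sc.σ (m + 1) ^ 5 := by
  have h1 : ∀ᶠ y in 𝓝 (h.xc m), v y
      = (fun y => a (m + 1) • h.sc.P (m + 1) y + a (m + 2) • h.sc.P (m + 2) y) y := by
    filter_upwards [h.near_xc m] with y hy
    have h2 : HasSum (fun k => a k • h.sc.P k y)
        (∑ k ∈ ({m + 1, m + 2} : Finset ℕ), a k • h.sc.P k y) := by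
      apply hasSum_sum_of_ne_finset_zero
      intro k hk
      simp only [Finset.mem_insert, Finset.mem_singleton, not_or] at hk
      rw [hy k hk.1 hk.2, smul_zero]
    rw [(hm y).unique h2, Finset.sum_pair (by omega)]
  rw [curl2_congr h1, curl2_two (h.sc.chn.cf _) (h.sc.chn.cf _)]
  have e1' : curl2 (h.sc.P (m + 1)) (h.xc m) = 0 := by
    rw [h.sc.P_succ, curl2_dil (h.sc.blk_CF m).smc, h.xc_smul]
    have : curl2 (h.sc.blk m) e1 = 0 := curl2_strain (h.sc.rr_two m) _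
    rw [this, mul_zero]
  have e2 : curl2 (h.sc.P (m + 2)) (h.xc m) = 2 * h.sc.σ (m + 1) ^ 5 := by
    rw [h.sc.P_next, curl2_dil (dil_CF (h.sc.blk_CF (m + 1)) (h.sc.ρ_pos m).ne').smc, h.xc_smul]
    have : curl2 (dil (h.sc.ρ m) (h.sc.blk (m + 1))) e1 = 2 * h.sc.ρ m ^ 5 :=
      curl2_swirl (h.sc.hρ m) (h.sc.hρ (m + 1)) _
    rw [this, h.sc.σ_succ]
    ring
  rw [e1', e2]
  ring

/-- The vorticity is unbounded. -/
theorem Pre.curl_blow {p : Par} (hp : Pre.Cf (R := R) (γ := γ) (α := α) p) (hw : PW p h.sc.σ)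
    {Tb : ℝ} {A : ℕ → ℝ → ℝ} (S : Sol p Tb A) (M : ℝ) :
    ∀ᶠ t in 𝓝[<] Tb, ∃ x : V, ‖x‖ ≤ 1 ∧ M < curl2 (vel h.sc.P (h.sc.cof A) t) x := by
  have ha0 := p.ha0
  have ht : Tendsto (fun n : ℕ => p.a0 * (1.5 : ℝ) ^ (n + 1)) atTop atTop :=
    Tendsto.const_mul_atTop ha0 ((tendsto_add_atTop_iff_nat 1).2
      (tendsto_pow_atTop_atTop_of_one_lt (by norm_num)))
  obtain ⟨m, hm⟩ := (ht.eventually_gt_atTop M).exists
  obtain ⟨σ, h0, h1, h2⟩ := S.low (m + 1)
  filter_upwards [Ioo_mem_nhdsLT h1] with t ht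
  have htm : t ∈ Ico 0 Tb := ⟨h0.trans ht.1.le, ht.2⟩
  refine ⟨h.xc m, h.xc_norm m, hm.trans_le ?_⟩
  rw [h.curl_xc (vel_mem hw.wg h.sc.bv (Sc.cof_ts hw S) htm) m]
  have hlow := h.cof_low hp (h2 t ht)
  have hσ := h.sc.σ_pos (m + 1)
  have hs := h.s0_pos
  rw [div_le_iff₀ (by positivity)] at hlow
  have e1' : 1 ≤ (h.sc.σ (m + 1) / s0) ^ (α * γ) := by
    apply Real.one_le_rpow
    · rw [one_le_div hs]
      have := h.sc.σ_mono (Nat.zero_le (m + 1))
      rw [h.sc.σ_zero] at this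
      exact this
    · have := h.hα
      have := h.hγ
      positivity
  have e2 : p.a0 * 1.5 ^ (m + 1) ≤ 2 * (p.a0 / 2 * (1.5 ^ (m + 1)
      * (h.sc.σ (m + 1) / s0) ^ (α * γ))) := by
    have : 0 < p.a0 * (1.5 : ℝ) ^ (m + 1) := by positivity
    nlinarith
  have e3 : h.sc.cof A (m + 1 + 1) t = (fun n => h.sc.cof A n t) (m + 2) := rfl
  rw [e3] at hlow
  linarith

end

end Pool.Agent.Run7.h407.G
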