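import Mathlib
import Pool.Agent.Run7.h308.T.En
import Pool.Agent.Run7.h407.G.Sup

/-!
Periodic extensions of fields supported in the unit ball.
-/

namespace Pool.Agent.Run7.h407.G

open Set Filter Topology MeasureTheory
open scoped ContDiff

/-- The representative in the cube. -/
noncomputable def red (x : V) : V := fun i => toIcoMod Real.two_pi_pos (-Real.pi) (x i)

theorem red_mem (x : V) : red x ∈ cube := fun i => by
  have h := toIcoMod_mem_Ico Real.two_pi_pos (-Real.pi) (x i)
  exact ⟨h.1, by
    have := h.2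
    show toIcoMod Real.two_pi_pos (-Real.pi) (x i) < Real.pi
    linarith⟩

/-- The period vector of the representative. -/
noncomputable def kv (x : V) (i : Fin 3) : ℤ := toIcoDiv Real.two_pi_pos (-Real.pi) (x i)

theorem red_add (x : V) (i : Fin 3) : red x i + 2 * Real.pi * kv x i = x i := by
  have h := toIcoMod_add_toIcoDiv_zsmul Real.two_pi_pos (-Real.pi) (x i)
  rw [zsmul_eq_mul] at h
  unfold red kv
  linarith

theorem red_self {x : V} (hx : x ∈ cube) : red x = x := by
  funext i
  unfold red
  rw [toIcoMod_eq_self]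
  exact ⟨(hx i).1, by linarith [(hx i).2]⟩

theorem red_per (x : V) (k : Fin 3 → ℤ) : red (fun i => x i + 2 * Real.pi * k i) = red x := by
  funext i
  unfold red
  have h := toIcoMod_add_zsmul Real.two_pi_pos (-Real.pi) (x i) (k i)
  rw [zsmul_eq_mul] at h
  rw [← h]
  congr 1
  ring

/-- The periodic extension. -/
noncomputable def pex {E : Type} (f : V → E) (x : V) : E := f (red x)

theorem pex_per {E : Type} (f : V → E) : Per (pex f) := fun x k => by
  unfold pex
  rw [red_per]

theorem pex_cube {E : Type} (f : V → E) {x : V} (hx : x ∈ cube) : pex f x = f x := by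
  unfold pex
  rw [red_self hx]

/-- Periodic fields are determined by the values on the cube. -/
theorem per_red {E : Type} {f : V → E} (hf : Per f) (x : V) : f (red x) = f x := by
  have h := hf (red x) (kv x)
  have e : (fun i => red x i + 2 * Real.pi * kv x i) = x := funext fun i => red_add x i
  rw [e] at h
  exact h.symm

/-- Translations by periods. -/
noncomputable def tk (k : Fin 3 → ℤ) (y : V) : V := fun i => y i - 2 * Real.pi * k i

theorem tk_cont (k : Fin 3 → ℤ) : Continuous (tk k) :=
  continuous_pi fun i => (continuous_apply i).sub continuous_const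

theorem tk_eq (k : Fin 3 → ℤ) (y : V) : tk k y = y - fun i => 2 * Real.pi * k i := rfl

theorem tk_kv (x : V) : tk (kv x) x = red x := by
  funext i
  have := red_add x i
  unfold tk
  linarith

theorem red_tk (k : Fin 3 → ℤ) (y : V) : red (tk k y) = red y := by
  have h := red_per (tk k y) k
  have e : (fun i => tk k y i + 2 * Real.pi * k i) = y := by
    funext i
    unfold tk
    ring
  rw [e] at h
  exact h.symm

/-- Fields supported in the unit ball. -/
abbrev Sb1 (f : V → V) : Prop := Sb 1 f

theorem far_of_ge {z : V} {i : Fin 3} (h1 : Real.pi ≤ |z i|) (h2 : |z i| < Real.pi + 1) :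
    1 < |red z i| := by
  by_contra hcon
  push Not at hcon
  have hp := Real.pi_gt_three
  have h3 := red_add z i
  have h4 : 2 * Real.pi * |(kv z i : ℝ)| ≤ |z i| + |red z i| := by
    have : 2 * Real.pi * (kv z i : ℝ) = z i - red z i := by linarith
    calc 2 * Real.pi * |(kv z i : ℝ)| = |2 * Real.pi * (kv z i : ℝ)| := by
          rw [abs_mul, abs_of_pos (by linarith : 0 < 2 * Real.pi)]
      _ = |z i - red z i| := by rw [this]
      _ ≤ _ := abs_sub _ _
  have h5 : |z i| ≤ 2 * Real.pi * |(kv z i : ℝ)| + |red z i| := by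
    calc |z i| = |2 * Real.pi * (kv z i : ℝ) + red z i| := by
          congr 1
          linarith
      _ ≤ |2 * Real.pi * (kv z i : ℝ)| + |red z i| := abs_add_le _ _
      _ = _ := by rw [abs_mul, abs_of_pos (by linarith : 0 < 2 * Real.pi)]
  have h6 : kv z i ≠ 0 := by
    intro h0
    rw [h0] at h5
    simp only [Int.cast_zero, abs_zero, mul_zero, zero_add] at h5
    linarith
  have h7 : (1 : ℝ) ≤ |(kv z i : ℝ)| := by
    have : (1 : ℤ) ≤ |kv z i| := Int.one_le_abs h6
    exact_mod_cast this
  nlinarith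

/-- Near each point the periodic extension is a translate. -/
theorem pex_local (x : V) : ∀ᶠ y in 𝓝 x, ∀ f : V → V, Sb1 f → pex f y = f (tk (kv x) y) := by
  have h1 : ∀ᶠ y in 𝓝 x, ‖tk (kv x) y - tk (kv x) x‖ < 1 := by
    have hc : Continuous (fun y => ‖tk (kv x) y - tk (kv x) x‖) :=
      ((tk_cont _).sub continuous_const).norm
    have := hc.tendsto x
    simp only [sub_self, norm_zero] at this
    exact this.eventually (gt_mem_nhds one_pos)
  have hp := Real.pi_gt_three
  filter_upwards [h1] with y hy f hf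
  rw [tk_kv] at hy
  set z := tk (kv x) y with hz
  have hzc : ∀ i, |z i| < Real.pi + 1 := by
    intro i
    have h2 := (norm_le_pi_norm (z - red x) i).trans_lt hy
    rw [Real.norm_eq_abs] at h2
    have h3 := red_mem x i
    have h4 : |red x i| ≤ Real.pi := abs_le.2 ⟨h3.1, h3.2.le⟩
    have h5 : |z i| ≤ |(z - red x) i| + |red x i| := by
      have : z i = (z - red x) i + red x i := by simp
      rw [this]
      exact abs_add_le _ _
    linarith
  have e : pex f y = f (red z) := by
    unfold pex
    rw [hz, red_tk]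
  rw [e]
  by_cases hin : ∀ i, |z i| < Real.pi
  · rw [red_self fun i => ⟨(abs_lt.1 (hin i)).1.le, (abs_lt.1 (hin i)).2⟩]
  · push Not at hin
    obtain ⟨i, hi⟩ := hin
    have h3 := far_of_ge hi (hzc i)
    have h4 : f (red z) = 0 := by
      by_contra hcon
      have h5 := hf _ hcon
      have h6 := norm_le_pi_norm (red z) i
      rw [Real.norm_eq_abs] at h6
      linarith
    have h7 : f z = 0 := by
      by_contra hcon
      have h5 := hf _ hcon
      have h6 := norm_le_pi_norm z i
      rw [Real.norm_eq_abs] at h6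
      linarith
    rw [h4, h7]

theorem tk_smooth (k : Fin 3 → ℤ) : ContDiff ℝ ∞ (tk k) :=
  contDiff_id.sub contDiff_const

theorem pex_smooth {f : V → V} (hf : ContDiff ℝ ∞ f) (h1 : Sb1 f) : ContDiff ℝ ∞ (pex f) := by
  rw [contDiff_iff_contDiffAt]
  intro x
  have h2 : ContDiffAt ℝ ∞ (fun y => f (tk (kv x) y)) x :=
    (hf.comp (tk_smooth _)).contDiffAt
  apply h2.congr_of_eventuallyEq
  filter_upwards [pex_local x] with y hy
  exact hy f h1

/-- Periodic extensions of smooth time-dependent fields. -/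
theorem pex_smoothT {T : ℝ} {w : ℝ → V → V}
    (hw : ContDiffOn ℝ ∞ (fun z : ℝ × V => w z.1 z.2) (Ico 0 T ×ˢ univ))
    (h1 : ∀ t ∈ Ico 0 T, Sb1 (w t)) :
    ContDiffOn ℝ ∞ (fun z : ℝ × V => pex (w z.1) z.2) (Ico 0 T ×ˢ univ) := by
  rintro ⟨t, x⟩ ⟨ht, _⟩
  have h2 : ContDiffOn ℝ ∞ (fun z : ℝ × V => w z.1 (tk (kv x) z.2)) (Ico 0 T ×ˢ univ) := by
    have h3 : ContDiffOn ℝ ∞ (fun z : ℝ × V => (z.1, tk (kv x) z.2)) (Ico 0 T ×ˢ univ) :=
      (contDiff_fst.prodMk ((tk_smooth _).comp contDiff_snd)).contDiffOn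
    exact hw.comp h3 (fun z hz => ⟨hz.1, mem_univ _⟩)
  apply (h2 (t, x) ⟨ht, mem_univ _⟩).congr_of_eventuallyEq
  · have h4 : ∀ᶠ z : ℝ × V in 𝓝 (t, x), ∀ f : V → V, Sb1 f →
        pex f z.2 = f (tk (kv x) z.2) :=
      (continuous_snd.tendsto (t, x)).eventually (pex_local x)
    filter_upwards [mem_nhdsWithin_of_mem_nhds h4, self_mem_nhdsWithin] with z hz hz2
    exact hz _ (h1 _ hz2.1)
  · exact (pex_local x).self_of_nhds _ (h1 t ht)

/-- Derivatives of periodic extensions. -/
theorem pd_pex {f : V → V} (hf : ∀ i, Differentiable ℝ (fun y => f y i)) (h1 : Sb1 f) (i j : Fin 3)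
    (x : V) : pd j (fun y => pex f y i) x = pd j (fun y => f y i) (red x) := by
  have h2 : (fun y => pex f y i) =ᶠ[𝓝 x] fun y => (fun z => f z i) (y - fun i => 2 * Real.pi * kv x i) := by
    filter_upwards [pex_local x] with y hy
    rw [hy f h1]
    rfl
  rw [pd_congr h2, pd_comp_sub (hf i), ← tk_eq, tk_kv]

theorem dvg_pex {f : V → V} (hf : ∀ i, Differentiable ℝ (fun y => f y i)) (h1 : Sb1 f) (x : V) :
    dvg (pex f) x = dvg f (red x) := by
  unfold dvg
  apply Finset.sum_congr rfl
  intro i _
  exact pd_pex hf h1 i i x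

/-- The residual of a periodic extension. -/
theorem res_pex {w : ℝ → V → V} {T : ℝ} {t : ℝ} (ht : t ∈ Ico 0 T)
    (hw : ∀ t ∈ Ico 0 T, ∀ i, Differentiable ℝ (fun y => w t y i))
    (h1 : ∀ t ∈ Ico 0 T, Sb1 (w t)) (x : V) (i : Fin 3) :
    resE (fun t => pex (w t)) t x i = residual 0 w t (red x) i := by
  unfold resE residual
  rw [zero_mul, sub_zero]
  congr 1
  apply Finset.sum_congr rfl
  intro j _
  rw [pd_pex (hw t ht) (h1 t ht)]
  rfl

theorem ind_L2 {v : V → V} (hv : ∀ i, MemLp (fun x => v x i) 2 (volume.restrict cube)) :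
    L2F (cube.indicator v) := by
  intro i
  have h := (memLp_indicator_iff_restrict (μ := (volume : Measure V))
    Run7.h308.T.cube_meas).2 (hv i)
  refine (congrArg (fun f => MemLp f 2 volume) (funext fun x => ?_)).mp h
  by_cases hx : x ∈ cube
  · rw [indicator_of_mem hx, indicator_of_mem hx]
  · rw [indicator_of_notMem hx, indicator_of_notMem hx]
    rfl

/-- Testing with a field on the torus. -/
theorem ip_ind (g v : V → V) : ip g (cube.indicator v) = ipT (pex g) v := by
  unfold ip ipT
  rw [← integral_indicator Run7.h308.T.cube_meas]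
  congr 1
  funext x
  by_cases hx : x ∈ cube
  · rw [indicator_of_mem hx, indicator_of_mem hx, pex_cube g hx]
  · rw [indicator_of_notMem hx, indicator_of_notMem hx]
    simp

theorem res_ind {w : ℝ → V → V} {T : ℝ} {t : ℝ} (ht : t ∈ Ico 0 T)
    (hw : ∀ t ∈ Ico 0 T, ∀ i, Differentiable ℝ (fun y => w t y i))
    (h1 : ∀ t ∈ Ico 0 T, Sb1 (w t)) (v : V → V) :
    ∫ x in cube, ∑ i, resE (fun t => pex (w t)) t x i * v x i
      = ∫ x, ∑ i, residual 0 w t x i * cube.indicator v x i := by
  rw [← integral_indicator Run7.h308.T.cube_meas]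
  congr 1
  funext x
  by_cases hx : x ∈ cube
  · rw [indicator_of_mem hx, indicator_of_mem hx]
    apply Finset.sum_congr rfl
    intro i _
    rw [res_pex ht hw h1, red_self hx]
  · rw [indicator_of_notMem hx, indicator_of_notMem hx]
    simp

end Pool.Agent.Run7.h407.G
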