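import Mathlib
import Pool.Agent.Run7.h407.G.Tor
import Pool.Agent.Run7.h407.G.Vor
import Pool.Agent.Run7.h407.G.NSf

/-!
The Euler equations on the torus: spaces and solutions.
-/

namespace Pool.Agent.Run7.h407.G

open Set Filter Topology MeasureTheory
open scoped ContDiff

open Pool.Agent.Run7.h308.T (cube_meas cube_sub box_compact box_bound)

/-- Square integrable fields on the torus. -/
def L2T (v : V → V) : Prop := ∀ i, MemLp (fun x => v x i) 2 (volume.restrict cube)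

theorem cube_fin : IsFiniteMeasure ((volume : Measure V).restrict cube) := ⟨by
  rw [Measure.restrict_apply_univ]
  exact (measure_mono cube_sub).trans_lt box_compact.measure_lt_top⟩

theorem memLp_cube {f : V → ℝ} (hf : Continuous f) : MemLp f 2 (volume.restrict cube) := by
  have := cube_fin
  obtain ⟨C, hC⟩ := box_compact.exists_bound_of_continuousOn hf.continuousOn
  apply MemLp.of_bound hf.aestronglyMeasurable C
  rw [ae_restrict_iff' cube_meas]
  exact Eventually.of_forall fun x hx => hC x (cube_sub hx)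

theorem L2T_of_cont {v : V → V} (hv : Continuous v) : L2T v :=
  fun i => memLp_cube ((continuous_apply i).comp hv)

theorem ipT_int {u v : V → V} (hu : L2T u) (hv : L2T v) :
    Integrable (fun x => ∑ i, u x i * v x i) (volume.restrict cube) :=
  integrable_finsetSum _ fun i _ => (hu i).integrable_mul (hv i)

theorem ipT_add {u v w : V → V} (hu : L2T u) (hv : L2T v) (hw : L2T w) :
    ipT (u + v) w = ipT u w + ipT v w := by
  unfold ipT
  rw [← integral_add (ipT_int hu hw) (ipT_int hv hw)]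
  congr 1
  funext x
  rw [← Finset.sum_add_distrib]
  apply Finset.sum_congr rfl
  intro i _
  show (u x i + v x i) * w x i = _
  ring

theorem ipT_smul (c : ℝ) (u v : V → V) : ipT (c • u) v = c * ipT u v := by
  unfold ipT
  rw [← integral_const_mul]
  congr 1
  funext x
  rw [Finset.mul_sum]
  apply Finset.sum_congr rfl
  intro i _
  show (c * u x i) * v x i = _
  ring

theorem ipT_comm (u v : V → V) : ipT u v = ipT v u := by
  unfold ipT
  congr 1
  funext x
  apply Finset.sum_congr rfl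
  intro i _
  ring

theorem L2T.add {u v : V → V} (hu : L2T u) (hv : L2T v) : L2T (u + v) :=
  fun i => (hu i).add (hv i)

theorem L2T.smul {u : V → V} (hu : L2T u) (c : ℝ) : L2T (c • u) :=
  fun i => (hu i).const_mul c

theorem grd_L2T {φ : V → ℝ} (h : ContDiff ℝ ∞ φ) : L2T (grd φ) :=
  fun i => memLp_cube (Sm.pd h i).continuous

/-- The linear spaces between the span of the modes and the space of the square
integrable weakly divergence-free fields which satisfy the constraints. -/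
structure IsSpT {m : ℕ} (p : ℕ → V → V) (g : ℕ → Fin m → V → V) (W : Submodule ℝ (V → V)) :
    Prop where
  per : ∀ w ∈ W, Per w
  l2 : ∀ w ∈ W, L2T w
  wdf : ∀ w ∈ W, WDT w
  cs : ∀ w ∈ W, ∀ (n : ℕ) (i : Fin m), ipT w (g n i) = 0
  mem : ∀ v : V → V, ContDiff ℝ ∞ v → Per v →
    (∃ c : ℕ → ℝ, ∀ x, HasSum (fun n => c n • p n x) (v x)) → v ∈ W

/-- The space of all square integrable weakly divergence-free fields which satisfy the
constraints. -/
noncomputable def WmaxT {m : ℕ} (g : ℕ → Fin m → V → V) (hG : ∀ n i, L2T (g n i)) :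
    Submodule ℝ (V → V) where
  carrier := {w | Per w ∧ L2T w ∧ WDT w ∧ ∀ (n : ℕ) (i : Fin m), ipT w (g n i) = 0}
  add_mem' := by
    rintro u v ⟨u0, u1, u2, u4⟩ ⟨v0, v1, v2, v4⟩
    refine ⟨fun x k => ?_, u1.add v1, fun φ h hc => ?_, fun n i => ?_⟩
    · show u _ + v _ = u x + v x
      rw [u0, v0]
    · have h1 := ipT_add u1 v1 (grd_L2T h)
      have h2 : ipT u (grd φ) = 0 := u2 φ h hc
      have h3 : ipT v (grd φ) = 0 := v2 φ h hc
      rw [h2, h3, add_zero] at h1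
      exact h1
    · have h1 := ipT_add u1 v1 (hG n i)
      rw [u4, v4, add_zero] at h1
      exact h1
  zero_mem' := by
    refine ⟨fun x k => rfl, fun i => MemLp.zero, fun φ h hc => ?_, fun n i => ?_⟩
    · simp
    · unfold ipT
      simp
  smul_mem' := by
    rintro c u ⟨u0, u1, u2, u4⟩
    refine ⟨fun x k => ?_, u1.smul c, fun φ h hc => ?_, fun n i => ?_⟩
    · show c • u _ = c • u x
      rw [u0]
    · have h1 := ipT_smul c u (grd φ)
      have h2 : ipT u (grd φ) = 0 := u2 φ h hc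
      rw [h2, mul_zero] at h1
      exact h1
    · have h1 := ipT_smul c u (g n i)
      rw [u4, mul_zero] at h1
      exact h1

variable {P : ℕ → V → V} {lo hi : ℕ → ℝ} {R : ℝ}

/-- The constraint fields of the Euler equations. -/
noncomputable def G2 (P : ℕ → V → V) (n : ℕ) : Fin 2 → V → V := ![pex (GA P n), pex (GB P n)]

theorem GA_sb (hS : ∀ n, Sb1 (P n)) (n : ℕ) : Sb1 (GA P n) := sb_A (hS _) (hS _) (hS _)

theorem GB_sb (hS : ∀ n, Sb1 (P n)) (n : ℕ) : Sb1 (GB P n) := sb_B (hS _) (hS _)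

theorem G2_smooth (h : Chn P lo hi R) (hS : ∀ n, Sb1 (P n)) (n : ℕ) (i : Fin 2) :
    ContDiff ℝ ∞ (G2 P n i) := by
  fin_cases i
  · exact pex_smooth (h.GA_CF n).sm (GA_sb hS n)
  · exact pex_smooth (h.GB_CF n).sm (GB_sb hS n)

theorem G2_per (P : ℕ → V → V) (n : ℕ) (i : Fin 2) : Per (G2 P n i) := by
  fin_cases i
  · exact pex_per (GA P n)
  · exact pex_per (GB P n)

/-- Constrained fields on the torus give constrained fields on the whole space. -/
theorem con_ind {w : V → V} (h2 : L2T w) (hc : ∀ n i, ipT w (G2 P n i) = 0) :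
    Con 0 P (cube.indicator w) := by
  refine ⟨ind_L2 h2, fun j => ?_, fun j => ?_, fun h => absurd rfl h⟩
  · rw [ip_ind, ipT_comm]
    exact hc j 0
  · rw [ip_ind, ipT_comm]
    exact hc j 1

theorem mem_cube_of_norm {x : V} (h : ‖x‖ < 3) : x ∈ cube := by
  intro i
  have h1 := (norm_le_pi_norm x i).trans_lt h
  rw [Real.norm_eq_abs] at h1
  have h2 := abs_lt.1 h1
  have := Real.pi_gt_three
  exact ⟨by linarith, by linarith⟩

/-- Smooth superpositions on the torus come from smooth superpositions on the whole space. -/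
theorem mem_pex (h : Chn P lo hi R) (hS : ∀ n, Sb1 (P n)) {v : V → V} (hv : ContDiff ℝ ∞ v)
    (hp : Per v) {c : ℕ → ℝ} (hm : ∀ x, HasSum (fun n => c n • pex (P (n + 1)) x) (v x)) :
    CF (cube.indicator v) ∧ Sb1 (cube.indicator v) ∧ Mem P (Sc.sh c) (cube.indicator v) ∧
      v = pex (cube.indicator v) := by
  have hzero : ∀ x : V, 1 < ‖x‖ → cube.indicator v x = 0 := by
    intro x hx
    by_cases hc : x ∈ cube
    · rw [indicator_of_mem hc]
      have h1 := hm x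
      have h2 : (fun n => c n • pex (P (n + 1)) x) = fun _ => 0 := by
        funext n
        rw [pex_cube _ hc]
        have : P (n + 1) x = 0 := by
          by_contra hcon
          exact absurd (hS _ x hcon) (not_le.2 hx)
        rw [this, smul_zero]
      rw [h2] at h1
      exact h1.unique hasSum_zero
    · exact indicator_of_notMem hc _
  have hsb : Sb1 (cube.indicator v) := by
    intro x hx
    by_contra hcon
    exact hx (hzero x (not_le.1 hcon))
  have hsm : ContDiff ℝ ∞ (cube.indicator v) := by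
    rw [contDiff_iff_contDiffAt]
    intro x
    rcases lt_or_ge ‖x‖ 3 with hx | hx
    · apply hv.contDiffAt.congr_of_eventuallyEq
      have ho : IsOpen {y : V | ‖y‖ < 3} := isOpen_lt continuous_norm continuous_const
      filter_upwards [ho.mem_nhds hx] with y hy
      rw [indicator_of_mem (mem_cube_of_norm hy)]
    · apply (contDiffAt_const (c := (0 : V))).congr_of_eventuallyEq
      have ho : IsOpen {y : V | 1 < ‖y‖} := isOpen_lt continuous_const continuous_norm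
      filter_upwards [ho.mem_nhds (show 1 < ‖x‖ by linarith)] with y hy
      exact hzero y hy
  refine ⟨⟨hsm, ?_⟩, hsb, ?_, ?_⟩
  · apply HasCompactSupport.intro (isCompact_closedBall (0 : V) 1)
    intro x hx
    rw [mem_closedBall_zero_iff, not_le] at hx
    exact hzero x hx
  · apply mem_of_shift h.zero
    intro x
    by_cases hc : x ∈ cube
    · rw [indicator_of_mem hc]
      have h1 := hm x
      refine (congrArg (fun f => HasSum f (v x)) (funext fun n => ?_)).mp h1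
      rw [pex_cube _ hc]
    · have hx : 1 < ‖x‖ := by
        by_contra hcon
        exact hc (mem_cube_of_norm (by linarith))
      rw [indicator_of_notMem hc]
      have h2 : (fun n => c n • P (n + 1) x) = fun _ => 0 := by
        funext n
        have : P (n + 1) x = 0 := by
          by_contra hcon
          exact absurd (hS _ x hcon) (not_le.2 hx)
        rw [this, smul_zero]
      rw [h2]
      exact hasSum_zero
  · funext x
    unfold pex
    rw [indicator_of_mem (red_mem x), per_red hp]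

theorem CF.diffs {u : V → V} (h : CF u) (i : Fin 3) : Differentiable ℝ (fun y => u y i) :=
  (h.smc i).differentiable (by simp)

theorem WmaxT_isSp (h : Chn P lo hi R) (hS : ∀ n, Sb1 (P n)) (hG : ∀ n i, L2T (G2 P n i)) :
    IsSpT (fun n => pex (P (n + 1))) (G2 P) (WmaxT (G2 P) hG) := by
  refine ⟨fun w hw => hw.1, fun w hw => hw.2.1, fun w hw => hw.2.2.1, fun w hw => hw.2.2.2, ?_⟩
  rintro v hv hp ⟨c, hm⟩
  obtain ⟨h1, h2, h3, h4⟩ := mem_pex h hS hv hp hm
  have hv1 : ContDiff ℝ 1 v := hv.of_le (by norm_cast)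
  refine ⟨hp, L2T_of_cont hv.continuous, ?_, fun n i => ?_⟩
  · rw [Run7.h308.T.tw v hv1 hp]
    intro x
    rw [h4, dvg_pex (CF.diffs h1) h2]
    exact mem_dvg h h3 h1.sm _
  · have key : ∀ g : V → V, CF g → Aw g → (∀ k, ip (P k) g = 0) → ipT v (pex g) = 0 := by
      intro g hg ha hk
      rw [ipT_comm, ← ip_ind, ip_comm]
      exact mem_orth h h3 hg ha hk
    fin_cases i
    · exact key _ (h.GA_CF n) (h.aw_A n) fun k => by
        rw [ip_comm]
        exact (h.con 0 k).ca n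
    · exact key _ (h.GB_CF n) (h.aw_B n) fun k => by
        rw [ip_comm]
        exact (h.con 0 k).cb n

/-- Solutions of the projected equations. -/
structure IsProjT (W : Submodule ℝ (V → V)) (T : ℝ) (u : ℝ → V → V) : Prop where
  c1 : ContDiffOn ℝ 1 (fun z : ℝ × V => u z.1 z.2) (Ico 0 T ×ˢ univ)
  mem : ∀ t ∈ Ico 0 T, u t ∈ W
  eqn : ∀ t ∈ Ioo 0 T, ∀ w ∈ W, ∫ x in cube, ∑ i, resE u t x i * w x i = 0

section

variable {m : ℕ} {p : ℕ → V → V} {g : ℕ → Fin m → V → V} {W : Submodule ℝ (V → V)}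
  (hW : IsSpT p g W) {T : ℝ} {u w : ℝ → V → V}

include hW

theorem IsProjT.c1t (h : IsProjT W T u) : C1T T u := ⟨h.c1, fun t ht => hW.per _ (h.mem t ht)⟩

theorem IsProjT.dvg (h : IsProjT W T u) {t : ℝ} (ht : t ∈ Ico 0 T) (x : V) :
    dvg (u t) x = 0 :=
  (Run7.h308.T.tw (u t) (Run7.h308.T.slice_c1 (h.c1t hW) ht) (hW.per _ (h.mem t ht))).1
    (hW.wdf _ (h.mem t ht)) x

theorem IsProjT.energy (h : IsProjT W T u) {t : ℝ} (ht : t ∈ Ico 0 T) :
    ipT (u t) (u t) = ipT (u 0) (u 0) :=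
  Run7.h308.T.te T u (h.c1t hW) (fun _ hs x => h.dvg hW ⟨hs.1.le, hs.2⟩ x)
    (fun s hs => h.eqn s hs _ (h.mem s ⟨hs.1.le, hs.2⟩)) t ht

theorem projT_unique (hw : IsProjT W T w) (hu : IsProjT W T u) (h0 : ∀ x, w 0 x = u 0 x) :
    ∀ t ∈ Ico 0 T, w t = u t := by
  have hd : ∀ t ∈ Ioo 0 T, (fun x => w t x - u t x) ∈ W := fun t ht =>
    W.sub_mem (hw.mem t ⟨ht.1.le, ht.2⟩) (hu.mem t ⟨ht.1.le, ht.2⟩)
  exact Run7.h308.T.tu T w u (hw.c1t hW) (hu.c1t hW) h0
    (fun _ ht x => hw.dvg hW ⟨ht.1.le, ht.2⟩ x)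
    (fun t ht => hw.eqn t ht _ (hd t ht)) (fun t ht => hu.eqn t ht _ (hd t ht))

omit hW in
theorem IsProjT.restrict {T' : ℝ} (h : IsProjT W T u) (hT : T' ≤ T) : IsProjT W T' u :=
  ⟨h.c1.mono (prod_mono (Ico_subset_Ico_right hT) subset_rfl),
    fun t ht => h.mem t ⟨ht.1, ht.2.trans_le hT⟩, fun t ht => h.eqn t ⟨ht.1, ht.2.trans_le hT⟩⟩

/-- Solutions with unbounded vorticity are maximal. -/
theorem projT_max {T' : ℝ} (hT : 0 < T) (hu : IsProjT W T u)
    (hb : ∀ M, ∀ᶠ t in 𝓝[<] T, ∃ x : V, ‖x‖ ≤ 1 ∧ M < curl2 (u t) x)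
    (hw : IsProjT W T' w) (h0 : ∀ x, w 0 x = u 0 x) :
    T' ≤ T ∧ ∀ t ∈ Ico 0 T', w t = u t := by
  have hle : T' ≤ T := by
    by_contra hcon
    push Not at hcon
    have h1 := projT_unique hW (hw.restrict hcon.le) hu h0
    have hc := hw.c1t hW
    obtain ⟨C0, _, hC0⟩ := box_bound hcon (Run7.h308.T.fdv_cont hc (0, Pi.single 0 1) 1)
    obtain ⟨C1, _, hC1⟩ := box_bound hcon (Run7.h308.T.fdv_cont hc (0, Pi.single 1 1) 0)
    obtain ⟨t, ⟨x, hx1, hx⟩, ht⟩ := ((hb (C0 + C1)).and (Ioo_mem_nhdsLT hT)).exists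
    have ht' : t ∈ Ico 0 T' := ⟨ht.1.le, ht.2.trans hcon⟩
    have hxb : x ∈ Run7.h308.T.box := cube_sub (mem_cube_of_norm (by linarith))
    have h2 := hC0 t ⟨ht.1.le, ht.2.le⟩ x hxb
    have h3 := hC1 t ⟨ht.1.le, ht.2.le⟩ x hxb
    rw [← Run7.h308.T.space_deriv hc ht'] at h2 h3
    rw [← h1 t ⟨ht.1.le, ht.2⟩] at hx
    unfold curl2 at hx
    have h4 := abs_le.1 h2
    have h5 := abs_le.1 h3
    linarith [h4.2, h5.1]
  exact ⟨hle, projT_unique hW hw (hu.restrict hle) h0⟩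

end

namespace Sc

variable {c : Sc}

/-- The velocity field on the torus solves the projected equations. -/
theorem vel_isProjT {p : Par} (hf : c.FitP 0 p) (hw : PW p c.σ) {Tb : ℝ} {A : ℕ → ℝ → ℝ}
    (S : Sol p Tb A) (hS : ∀ n, Sb1 (c.P n)) {W : Submodule ℝ (V → V)}
    (hW : IsSpT (fun n => pex (c.P (n + 1))) (G2 c.P) W) :
    IsProjT W Tb (fun t => pex (vel c.P (c.cof A) t)) := by
  have hT := vel_TF hw S
  have hm := fun {t : ℝ} (ht : t ∈ Ico 0 Tb) => vel_mem hw.wg c.bv (cof_ts hw S) ht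
  have hs1 : ∀ t ∈ Ico 0 Tb, Sb1 (vel c.P (c.cof A) t) := by
    intro t ht x hx
    by_contra hcon
    exact hx (mem_ball (R := 1) hS (hm ht) (not_le.1 hcon))
  have hdf : ∀ t ∈ Ico 0 Tb, ∀ i, Differentiable ℝ (fun y => vel c.P (c.cof A) t y i) :=
    fun t ht i => CF.diffs (hT.slice_CF ht) i
  refine ⟨(pex_smoothT hT.sm hs1).of_le (by norm_cast), fun t ht => ?_, fun t ht w hw' => ?_⟩
  · refine hW.mem _ (pex_smooth (hT.slice_CF ht).sm (hs1 t ht)) (pex_per _)
      ⟨fun n => c.cof A (n + 1) t, fun x => ?_⟩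
    exact shift_of_mem c.chn.zero (hm ht) (red x)
  · rw [res_ind ⟨ht.1.le, ht.2⟩ hdf hs1]
    exact vel_test hf hw S ht (con_ind (hW.l2 w hw') (hW.cs w hw'))

end Sc

theorem curl2_pex {f : V → V} (hf : CF f) (h1 : Sb1 f) (x : V) :
    curl2 (pex f) x = curl2 f (red x) := by
  unfold curl2
  rw [pd_pex (CF.diffs hf) h1, pd_pex (CF.diffs hf) h1]

theorem mainE (δ q : ℝ) (hδ : 0 < δ) (hq : 1 < q) :
    ∃ (p : ℕ → V → V) (g : ℕ → Fin 2 → V → V),
    (∀ n, ContDiff ℝ ∞ (p n) ∧ Per (p n) ∧ (∀ x, dvg (p n) x = 0) ∧ 0 < ipT (p n) (p n)) ∧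
    (∀ m n, m ≠ n → ipT (p m) (p n) = 0) ∧
    (∀ n i, ContDiff ℝ ∞ (g n i) ∧ Per (g n i) ∧ (∀ᶠ x in 𝓝 0, g n i x = 0) ∧
      ∀ x ∈ cube, g n i x ≠ 0 → ‖x‖ ≤ (2 : ℝ) ^ (-(q ^ n))) ∧
    (∃ W : Submodule ℝ (V → V), IsSpT p g W ∧ ∀ w, w ∈ W ↔ Per w ∧ L2T w ∧ WDT w ∧
      ∀ (n : ℕ) (i : Fin 2), ipT w (g n i) = 0) ∧
    ∃ A₀ : ℝ, 0 < A₀ ∧ ∀ a > 0,
      ∃ T, 0 < T ∧ T ≤ A₀ / a ∧ ∃ u : ℝ → V → V,
        ContDiffOn ℝ ∞ (fun z : ℝ × V => u z.1 z.2) (Ico 0 T ×ˢ univ) ∧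
        (∀ x, u 0 x = a • p 0 x) ∧
        (∃ C, ∀ t ∈ Ico 0 T, ∀ x, ‖u t x‖ ≤ C) ∧
        (∃ C, ∀ t ∈ Ico 0 T, ∀ x ∈ cube, ∀ i j,
          |pd j (fun y => u t y i) x| * ‖x‖ ^ δ ≤ C) ∧
        (∀ M, ∀ᶠ t in 𝓝[<] T, ∃ x, M < curl2 (u t) x) ∧
        ∀ W : Submodule ℝ (V → V), IsSpT p g W → IsProjT W T u ∧
          ∀ (T' : ℝ) (w : ℝ → V → V), IsProjT W T' w → (∀ x, w 0 x = a • p 0 x) →
            T' ≤ T ∧ ∀ t ∈ Ico 0 T', w t = u t := by
  have hq0 : 0 < q := by linarith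
  set α : ℝ := min (1 / q) (δ / q ^ 2) with hα
  have hα0 : 0 < α := lt_min (by positivity) (by positivity)
  have hα1 : α * q ≤ 1 := by
    have h1 : α ≤ 1 / q := min_le_left _ _
    calc α * q ≤ 1 / q * q := mul_le_mul_of_nonneg_right h1 hq0.le
      _ = 1 := by field_simp
  have hα2 : q * (α * q) ≤ δ := by
    have h1 : α ≤ δ / q ^ 2 := min_le_right _ _
    calc q * (α * q) = α * q ^ 2 := by ring
      _ ≤ δ / q ^ 2 * q ^ 2 := mul_le_mul_of_nonneg_right h1 (by positivity)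
      _ = δ := by field_simp
  set η : ℝ := min (2 * 0 - q * (α * q - 2)) (2 * δ - q * (α * q)) with hη
  have hη0 : 0 < η := lt_min (by nlinarith) (by linarith)
  have h2q : (0 : ℝ) < 2 ^ (q ^ 2) := by positivity
  have h2q1 : (1 : ℝ) ≤ 2 ^ (q ^ 2) := Real.one_le_rpow (by norm_num) (by positivity)
  obtain ⟨R, h, h16, h2R⟩ := exists_pre (α := α) (γ := q) hα0 hq (by linarith) hη0
    (s0 := 5 * 2 ^ (q ^ 2)) (by linarith)
  have hR := h.R_pos
  have hsup : 17 / 4 / (5 * (2 : ℝ) ^ (q ^ 2)) ^ 2 ≤ (2 : ℝ) ^ (-(q ^ 2)) := by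
    rw [Real.rpow_neg (by norm_num), ← one_div, div_le_div_iff₀ (by positivity) h2q]
    nlinarith
  have hle1 : (2 : ℝ) ^ (-(q ^ 2)) ≤ 1 := by
    apply Real.rpow_le_one_of_one_le_of_nonpos (by norm_num)
    have : 0 < q ^ 2 := by positivity
    linarith
  have hS : ∀ n, Sb1 (h.sc.P n) := fun n x hx =>
    (h.sc.supp_ball hx).trans ((h.hi_le0 n).trans (hsup.trans hle1))
  have hsb : ∀ {n k : ℕ}, n ≤ k → Sb ((2 : ℝ) ^ (-(q ^ n))) (h.sc.P k) :=
    fun hk => h.sb hsup h2R hk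
  have hG : ∀ n i, L2T (G2 h.sc.P n i) := fun n i =>
    L2T_of_cont (G2_smooth h.sc.chn hS n i).continuous
  set κ := h.sc.kap 1 with hκdef
  have hκ : 0 < κ := h.sc.kap_pos 0
  have hipT : ∀ m n, ipT (pex (h.sc.P (m + 1))) (pex (h.sc.P (n + 1)))
      = ip (h.sc.P (m + 1)) (h.sc.P (n + 1)) := by
    intro m n
    rw [← ip_ind]
    unfold ip
    congr 1
    funext x
    by_cases hx : x ∈ cube
    · rw [indicator_of_mem hx, pex_cube _ hx]
    · have : h.sc.P (m + 1) x = 0 := by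
        by_contra hcon
        exact hx (mem_cube_of_norm (by linarith [hS _ x hcon]))
      rw [this]
      simp
  have haw : ∀ g : V → V, Aw g → ∀ᶠ x in 𝓝 (0 : V), pex g x = 0 := by
    rintro g ⟨b, hb, hz⟩
    have ho : IsOpen {y : V | ‖y‖ < 3} := isOpen_lt continuous_norm continuous_const
    filter_upwards [nhds_lt (show (0 : V) 0 < b from hb), ho.mem_nhds (show ‖(0 : V)‖ < 3 by
      rw [norm_zero]; norm_num)] with y hy hy2
    rw [pex_cube _ (mem_cube_of_norm hy2)]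
    exact hz y hy
  refine ⟨fun n => pex (h.sc.P (n + 1)), G2 h.sc.P, fun n => ?_, fun m n hmn => ?_, fun n i => ?_,
    ⟨WmaxT (G2 h.sc.P) hG, WmaxT_isSp h.sc.chn hS hG, fun w => Iff.rfl⟩, ?_⟩
  · refine ⟨pex_smooth (h.sc.chn.cf _).sm (hS _), pex_per _, fun x => ?_, ?_⟩
    · rw [dvg_pex (CF.diffs (h.sc.chn.cf _)) (hS _)]
      exact h.sc.chn.dv _ _
    · rw [hipT]
      exact h.sc.chn.N0 n
  · show ipT (pex (h.sc.P (m + 1))) (pex (h.sc.P (n + 1))) = 0
    rw [hipT]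
    exact (h.sc.chn.orth (by omega)).1
  · refine ⟨G2_smooth h.sc.chn hS n i, G2_per _ n i, ?_, ?_⟩
    · fin_cases i
      · exact haw _ (h.sc.chn.aw_A n)
      · exact haw _ (h.sc.chn.aw_B n)
    · intro x hx hne
      fin_cases i
      · have h1 : pex (GA h.sc.P n) x ≠ 0 := hne
        rw [pex_cube _ hx] at h1
        exact sb_A (hsb le_rfl) (hsb (by omega)) (hsb (by omega)) x h1
      · have h1 : pex (GB h.sc.P n) x ≠ 0 := hne
        rw [pex_cube _ hx] at h1
        exact sb_B (hsb (by omega)) (hsb (by omega)) x h1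
  refine ⟨9 * R ^ α * κ, by positivity, fun a ha => ?_⟩
  have ha0 : 0 < a / κ := by positivity
  have hd1 : 200 * (0 * (h.sc.σ 0 ^ 4 * Dup) / β0) * R ^ α ≤ a / κ := by
    rw [zero_mul, zero_div, mul_zero, zero_mul]
    exact ha0.le
  have hd2 : ∀ k, 200 * (0 * (h.sc.σ (k + 1) ^ 4 * Dup) / β0)
      ≤ a / κ * ∏ i ∈ Finset.range k, rh R q (i + 1) ^ α := by
    intro k
    rw [zero_mul, zero_div, mul_zero]
    have : 0 ≤ ∏ i ∈ Finset.range k, rh R q (i + 1) ^ α :=
      Finset.prod_nonneg fun i _ => Real.rpow_nonneg (h.rh_pos _).le _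
    positivity
  set p := h.par le_rfl ha0 hd1 hd2 with hp
  have hcf : Pre.Cf (R := R) (γ := q) (α := α) p := ⟨fun n => rfl⟩
  have hfit := h.fit le_rfl ha0 hd1 hd2
  have hw := h.pw le_rfl ha0 hd1 hd2
  obtain ⟨Tb, A, S⟩ := exists_sol p hw.e0
  have hT := Sc.vel_TF hw S
  have hm := fun {t : ℝ} (ht : t ∈ Ico 0 Tb) => vel_mem hw.wg h.sc.bv (Sc.cof_ts hw S) ht
  have hs1 : ∀ t ∈ Ico 0 Tb, Sb1 (vel h.sc.P (h.sc.cof A) t) := by
    intro t ht x hx
    by_contra hcon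
    exact hx (mem_ball (R := 1) hS (hm ht) (not_le.1 hcon))
  have hinit : ∀ x, pex (vel h.sc.P (h.sc.cof A) 0) x = a • pex (h.sc.P 1) x := by
    intro x
    unfold pex
    rw [h.sc.vel_init S]
    congr 1
    show κ * (a / κ) = a
    field_simp
  have hR1 := h.R1
  have h16a : 16 ≤ R ^ (2 * 0 - q * (α * q - 2)) :=
    h16.trans (Real.rpow_le_rpow_of_exponent_le hR1.le (min_le_left _ _))
  have h16b : 16 ≤ R ^ (2 * δ - q * (α * q)) :=
    h16.trans (Real.rpow_le_rpow_of_exponent_le hR1.le (min_le_right _ _))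
  have hcurl : ∀ M, ∀ᶠ t in 𝓝[<] Tb, ∃ x : V, ‖x‖ ≤ 1 ∧
      M < curl2 (pex (vel h.sc.P (h.sc.cof A) t)) x := by
    intro M
    filter_upwards [h.curl_blow hcf hw S M, Ioo_mem_nhdsLT S.Tpos] with t ht htI
    have htm : t ∈ Ico 0 Tb := ⟨htI.1.le, htI.2⟩
    obtain ⟨x, hx1, hx⟩ := ht
    refine ⟨x, hx1, ?_⟩
    rw [curl2_pex (hT.slice_CF htm) (hs1 t htm), red_self (mem_cube_of_norm (by linarith))]
    exact hx
  refine ⟨Tb, S.Tpos, ?_, fun t => pex (vel h.sc.P (h.sc.cof A) t), pex_smoothT hT.sm hs1, hinit,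
    ?_, ?_, fun M => ?_, fun W hW => ⟨Sc.vel_isProjT hfit hw S hS hW, fun T' w hw' h0 => ?_⟩⟩
  · refine S.Tle.trans ?_
    show 9 * rh R q 0 ^ α / (a / κ) ≤ 9 * R ^ α * κ / a
    rw [rh_zero]
    apply le_of_eq
    field_simp
  · obtain ⟨C, hC⟩ := h.vel_bd hcf hw S le_rfl h16a
    refine ⟨C, fun t ht x => ?_⟩
    have := hC t ht (red x)
    rw [Real.rpow_zero, mul_one] at this
    exact this
  · obtain ⟨C, hC⟩ := h.grad_bd hcf hw S hδ.le h16b
    refine ⟨C, fun t ht x hx i j => ?_⟩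
    have h1 : (fun y => (fun t => pex (vel h.sc.P (h.sc.cof A) t)) t y i)
        = fun y => pex (vel h.sc.P (h.sc.cof A) t) y i := rfl
    rw [h1, pd_pex (CF.diffs (hT.slice_CF ht)) (hs1 t ht), red_self hx]
    exact hC t ht x i j
  · filter_upwards [hcurl M] with t ht
    obtain ⟨x, _, hx⟩ := ht
    exact ⟨x, hx⟩
  · exact projT_max hW S.Tpos (Sc.vel_isProjT hfit hw S hS hW) hcurl hw' fun x => by
      rw [h0]
      exact (hinit x).symm

end Pool.Agent.Run7.h407.G
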