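import Mathlib
import Pool.Agent.Run7.h407.Calc

/-!
Statements about periodic fields (Euler equations on the torus `[-π,π)³`), to be proved in
separate files. `V = Fin 3 → ℝ`, `pd`, `dvg` are those of `Run7.h407.Calc`.
-/

namespace Pool.Agent.Run7.h407.G

open Set Filter Topology MeasureTheory
open scoped ContDiff

/-- The cube `[-π, π)³`. -/
def cube : Set V := {x | ∀ i, -Real.pi ≤ x i ∧ x i < Real.pi}

/-- Fields with period `2π` in each variable. -/
def Per {E : Type} (u : V → E) : Prop :=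
  ∀ (x : V) (k : Fin 3 → ℤ), u (fun i => x i + 2 * Real.pi * k i) = u x

/-- The inner product of `L²(T³)`. -/
noncomputable def ipT (u v : V → V) : ℝ := ∫ x in cube, ∑ i, u x i * v x i

/-- The `i`-th component of `∂ₜu + (u·∇)u`. -/
noncomputable def resE (u : ℝ → V → V) (t : ℝ) (x : V) (i : Fin 3) : ℝ :=
  deriv (fun s => u s x i) t + ∑ j, u t x j * pd j (fun y => u t y i) x

/-- Periodic fields, continuously differentiable on `[0,T) × ℝ³`. -/
structure C1T (T : ℝ) (u : ℝ → V → V) : Prop where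
  sm : ContDiffOn ℝ 1 (fun z : ℝ × V => u z.1 z.2) (Ico 0 T ×ˢ univ)
  per : ∀ t ∈ Ico 0 T, Per (u t)

/-- Divergence theorem on the torus. -/
def StmTD : Prop := ∀ f : V → ℝ, ContDiff ℝ 1 f → Per f → ∀ j, ∫ x in cube, pd j f x = 0

/-- Uniqueness. -/
def StmTU : Prop := ∀ (T : ℝ) (w u : ℝ → V → V), C1T T w → C1T T u → (∀ x, w 0 x = u 0 x) →
  (∀ t ∈ Ioo 0 T, ∀ x, dvg (w t) x = 0) →
  (∀ t ∈ Ioo 0 T, ∫ x in cube, ∑ i, resE w t x i * (w t x - u t x) i = 0) →
  (∀ t ∈ Ioo 0 T, ∫ x in cube, ∑ i, resE u t x i * (w t x - u t x) i = 0) →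
  ∀ t ∈ Ico 0 T, w t = u t

/-- Conservation of energy. -/
def StmTE : Prop := ∀ (T : ℝ) (w : ℝ → V → V), C1T T w →
  (∀ t ∈ Ioo 0 T, ∀ x, dvg (w t) x = 0) →
  (∀ t ∈ Ioo 0 T, ∫ x in cube, ∑ i, resE w t x i * w t x i = 0) →
  ∀ t ∈ Ico 0 T, ipT (w t) (w t) = ipT (w 0) (w 0)

/-- Periodic fields whose divergence vanishes in the sense of distributions. -/
def WDT (w : V → V) : Prop := ∀ φ : V → ℝ, ContDiff ℝ ∞ φ → Per φ →
  ∫ x in cube, ∑ i, w x i * pd i φ x = 0

/-- Weakly divergence-free is the same as divergence-free for continuously differentiable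
fields. -/
def StmTW : Prop := ∀ v : V → V, ContDiff ℝ 1 v → Per v → (WDT v ↔ ∀ x, dvg v x = 0)

end Pool.Agent.Run7.h407.G
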